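import Pool.Agent.PWG.Rd

set_option autoImplicit false

/-!
# PWG: the raw data (helper83)

`Raw T h P`: `P` is a finite set of pairs of triples with values of `N3` in `[T^3, 27 T^3]`, different and at distance
at most `h`, both projections injective. `XX T p` is (a constant times) the product of the sizes of the reduced first
entries; it depends only on `g1 = gcd (a, a')` and on the classes `(b, c, b', c')`.
-/

namespace Pool.Agent.PWG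

structure Raw (T h : ℝ) (P : Finset T6) : Prop where
  pos : ∀ p ∈ P, Pos3 p.1 ∧ Pos3 p.2
  lo : ∀ p ∈ P, T ^ 3 ≤ N3 p.1 ∧ T ^ 3 ≤ N3 p.2
  hi : ∀ p ∈ P, (N3 p.1 : ℝ) ≤ 27 * T ^ 3 ∧ (N3 p.2 : ℝ) ≤ 27 * T ^ 3
  ne : ∀ p ∈ P, N3 p.1 ≠ N3 p.2
  cl : ∀ p ∈ P, |(N3 p.1 : ℝ) - N3 p.2| ≤ h
  inj1 : Set.InjOn (fun p : T6 => p.1) P
  inj2 : Set.InjOn (fun p : T6 => p.2) P

/-- the weight of a class, `(b^4 c^5)^(1/3)` -/
noncomputable def wt (b c : ℕ) : ℝ := ((b : ℝ) ^ 4 * (c : ℝ) ^ 5) ^ ((1 : ℝ) / 3)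

/-- `24^2 T^2 / (g1^2 wt wt')` -/
noncomputable def XX (T : ℝ) (p : T6) : ℝ :=
  576 * T ^ 2 / (((gg p).1 : ℝ) ^ 2 * (wt p.1.2.1 p.1.2.2 * wt p.2.2.1 p.2.2.2))

end Pool.Agent.PWG
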