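import Pool.Agent.PWG.Cls
import Pool.Agent.PWG.Raw

set_option autoImplicit false

/-!
# PWG-PMn: the main part, pairs with many multiples (job PWG-PMn)

Plan. `δ = h / T^3`. For fixed classes `k = ((b, c), (b', c'))` and fixed `g1 = gcd (a, a')` the map
`p ↦ (a / g1, a' / g1)` is injective on the fibre, the image consists of coprime pairs; with
`A = 3 T / (g1 wt b c)`, `A' = 3 T / (g1 wt b' c')`: `T^3 <= a^3 b^4 c^5 <= 27 T^3` gives `A / 3 <= a/g1 <= A`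
(`wt^3 = b^4 c^5`), so `1 <= A, A'` on nonempty fibres; `cls` with `κ = b'^4 c'^5 / (b^4 c^5)` (`Cl δ p`) gives at most
`K (1 + δ A A')` elements, and `1 <= δ XX T p = 64 δ A A'`, so at most `65 K δ A A' = 585 K δ T^2 / (g1^2 wt wt')`.
Sum over `g1 >= 1` (`∑ 1/g1^2 <= 2`) and over the classes; `δ T^2 = h / T`.
-/

namespace Pool.Agent.PWG

/-- the classes `((b, c), (b', c'))` -/
def cl (p : T6) : (ℕ × ℕ) × (ℕ × ℕ) := (p.1.2, p.2.2)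

private theorem pm_wt {b c : ℕ} (hb : 0 < b) (hc : 0 < c) :
    0 < wt b c ∧ wt b c ^ 3 = (b : ℝ) ^ 4 * (c : ℝ) ^ 5 := by
  have hb' : (0 : ℝ) < b := by exact_mod_cast hb
  have hc' : (0 : ℝ) < c := by exact_mod_cast hc
  have h : (0 : ℝ) < (b : ℝ) ^ 4 * (c : ℝ) ^ 5 := by positivity
  unfold wt
  refine ⟨Real.rpow_pos_of_pos h _, ?_⟩
  rw [← Real.rpow_natCast, ← Real.rpow_mul h.le]
  norm_num

private theorem pm_wt0 (b c : ℕ) : 0 ≤ wt b c := by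
  unfold wt
  exact Real.rpow_nonneg (by positivity) _

private theorem pm_size {a b c : ℕ} {T : ℝ} (hT : 0 < T) (hb : 0 < b) (hc : 0 < c)
    (h1 : T ^ 3 ≤ (N3 (a, b, c) : ℝ)) (h2 : (N3 (a, b, c) : ℝ) ≤ 27 * T ^ 3) :
    T ≤ a * wt b c ∧ a * wt b c ≤ 3 * T := by
  obtain ⟨w0, w3⟩ := pm_wt hb hc
  have e : (N3 (a, b, c) : ℝ) = ((a : ℝ) * wt b c) ^ 3 := by
    unfold N3
    push_cast
    rw [mul_pow, w3]
    ring
  rw [e] at h1 h2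
  have h0 : 0 ≤ (a : ℝ) * wt b c := mul_nonneg (Nat.cast_nonneg _) w0.le
  constructor
  · exact (pow_le_pow_iff_left₀ hT.le h0 three_ne_zero).1 h1
  · refine (pow_le_pow_iff_left₀ h0 (by linarith) three_ne_zero).1 ?_
    calc ((a : ℝ) * wt b c) ^ 3 ≤ 27 * T ^ 3 := h2
      _ = (3 * T) ^ 3 := by ring

/-- one coordinate -/
private theorem pm_box {a b c g u : ℕ} {T : ℝ} (hT : 0 < T) (hb : 0 < b) (hc : 0 < c) (hg : 0 < g)
    (ha : a = g * u) (h1 : T ^ 3 ≤ (N3 (a, b, c) : ℝ)) (h2 : (N3 (a, b, c) : ℝ) ≤ 27 * T ^ 3) :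
    3 * T / (g * wt b c) / 32 ≤ u ∧ (u : ℝ) ≤ 3 * T / (g * wt b c) := by
  obtain ⟨w0, -⟩ := pm_wt hb hc
  obtain ⟨s1, s2⟩ := pm_size hT hb hc h1 h2
  have hg' : (0 : ℝ) < g := by exact_mod_cast hg
  have hgw : 0 < (g : ℝ) * wt b c := mul_pos hg' w0
  have e : (a : ℝ) * wt b c = u * (g * wt b c) := by
    rw [ha]
    push_cast
    ring
  rw [e] at s1 s2
  constructor
  · rw [div_div, div_le_iff₀ (by positivity)]
    nlinarith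
  · rw [le_div_iff₀ hgw]
    exact s2

private theorem pm_near {a a' b b' c c' g u u' : ℕ} {T h : ℝ} (hT : 0 < T) (hh : 0 < h) (hb : 0 < b)
    (hc : 0 < c) (hg : 0 < g) (ha : a = g * u) (ha' : a' = g * u')
    (h1 : T ^ 3 ≤ (N3 (a', b', c') : ℝ)) (h2 : |(N3 (a, b, c) : ℝ) - N3 (a', b', c')| ≤ h) :
    |(u : ℝ) ^ 3 - ((b' : ℝ) ^ 4 * (c' : ℝ) ^ 5 / ((b : ℝ) ^ 4 * (c : ℝ) ^ 5)) * (u' : ℝ) ^ 3| ≤
      h / T ^ 3 * ((b' : ℝ) ^ 4 * (c' : ℝ) ^ 5 / ((b : ℝ) ^ 4 * (c : ℝ) ^ 5) * (u' : ℝ) ^ 3) := by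
  have hb' : (0 : ℝ) < b := by exact_mod_cast hb
  have hc' : (0 : ℝ) < c := by exact_mod_cast hc
  have hg' : (0 : ℝ) < g := by exact_mod_cast hg
  have hT3 : 0 < T ^ 3 := by positivity
  obtain ⟨β, hβ⟩ : ∃ β : ℝ, β = (b : ℝ) ^ 4 * (c : ℝ) ^ 5 := ⟨_, rfl⟩
  obtain ⟨β', hβ'⟩ : ∃ β' : ℝ, β' = (b' : ℝ) ^ 4 * (c' : ℝ) ^ 5 := ⟨_, rfl⟩
  have hβ0 : 0 < β := by
    rw [hβ]
    positivity
  have e1 : (N3 (a, b, c) : ℝ) = (g : ℝ) ^ 3 * (u : ℝ) ^ 3 * β := by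
    unfold N3
    rw [ha, hβ]
    push_cast
    ring
  have e2 : (N3 (a', b', c') : ℝ) = (g : ℝ) ^ 3 * (u' : ℝ) ^ 3 * β' := by
    unfold N3
    rw [ha', hβ']
    push_cast
    ring
  rw [← hβ, ← hβ']
  rw [e2] at h1
  rw [e1, e2] at h2
  have h3 : h ≤ h / T ^ 3 * ((g : ℝ) ^ 3 * (u' : ℝ) ^ 3 * β') := by
    have h4 := mul_le_mul_of_nonneg_left h1 (div_pos hh hT3).le
    rw [div_mul_cancel₀ _ hT3.ne'] at h4
    exact h4
  have hgβ : 0 < (g : ℝ) ^ 3 * β := by positivity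
  have e3 : (u : ℝ) ^ 3 - β' / β * (u' : ℝ) ^ 3 =
      ((g : ℝ) ^ 3 * (u : ℝ) ^ 3 * β - (g : ℝ) ^ 3 * (u' : ℝ) ^ 3 * β') / ((g : ℝ) ^ 3 * β) := by
    field_simp
  have e4 : h / T ^ 3 * (β' / β * (u' : ℝ) ^ 3) =
      (h / T ^ 3 * ((g : ℝ) ^ 3 * (u' : ℝ) ^ 3 * β')) / ((g : ℝ) ^ 3 * β) := by
    field_simp
  rw [e3, e4, abs_div, abs_of_pos hgβ]
  exact div_le_div_of_nonneg_right (h2.trans h3) hgβ.le

open Classical in
/-- one class and one common factor -/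
private theorem pm_fib {K : ℝ} (hK1 : 1 ≤ K) (hK : ∀ (A A' κ δ : ℝ) (S : Finset (ℕ × ℕ)), 1 ≤ A → 1 ≤ A' →
    0 < κ → 0 ≤ δ →
    (∀ q ∈ S, A / 32 ≤ q.1 ∧ (q.1 : ℝ) ≤ A ∧ A' / 32 ≤ q.2 ∧ (q.2 : ℝ) ≤ A' ∧
      Nat.Coprime q.1 q.2 ∧
      |(q.1 : ℝ) ^ 3 - κ * (q.2 : ℝ) ^ 3| ≤ δ * (κ * (q.2 : ℝ) ^ 3)) →
    (S.card : ℝ) ≤ K * (1 + δ * (A * A'))) {T h : ℝ} {P : Finset T6} (hT : 1 ≤ T) (hh : 0 < h)
    (hP : Raw T h P) (hX : ∀ p ∈ P, 1 ≤ h / T ^ 3 * XX T p) (k : (ℕ × ℕ) × (ℕ × ℕ)) (g : ℕ) :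
    ((P.filter (fun p => (cl p, (gg p).1) = (k, g))).card : ℝ) ≤
      585 * K * (h / T) * (1 / (wt k.1.1 k.1.2 * wt k.2.1 k.2.2)) * ((g : ℝ) ^ 2)⁻¹ := by
  have hT0 : 0 < T := by linarith
  obtain ⟨F, hF⟩ : ∃ F, F = P.filter (fun p => (cl p, (gg p).1) = (k, g)) := ⟨_, rfl⟩
  rw [← hF]
  have hFm : ∀ p ∈ F, p ∈ P ∧ p.1.2 = k.1 ∧ p.2.2 = k.2 ∧ (gg p).1 = g := by
    intro p hp
    rw [hF, Finset.mem_filter] at hp
    obtain ⟨h1, h2⟩ := hp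
    have h3 : cl p = k := congrArg Prod.fst h2
    have h4 : (gg p).1 = g := congrArg Prod.snd h2
    rw [← h3]
    exact ⟨h1, rfl, rfl, h4⟩
  rcases F.eq_empty_or_nonempty with hE | ⟨p0, hp0⟩
  · rw [hE, Finset.card_empty, Nat.cast_zero]
    have w1 := pm_wt0 k.1.1 k.1.2
    have w2 := pm_wt0 k.2.1 k.2.2
    have h0 : 0 ≤ K := by linarith
    positivity
  · obtain ⟨m1, m2, m3, m4⟩ := hFm p0 hp0
    obtain ⟨⟨-, q1, q2⟩, ⟨-, q3, q4⟩⟩ := hP.pos p0 m1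
    rw [m2] at q1 q2
    rw [m3] at q3 q4
    have hg : 0 < g := by
      rw [← m4]
      exact (gg_pos (hP.pos p0 m1).1).1
    have hg' : (0 : ℝ) < g := by exact_mod_cast hg
    obtain ⟨w1, w1'⟩ := pm_wt q1 q2
    obtain ⟨w2, w2'⟩ := pm_wt q3 q4
    obtain ⟨A, hA⟩ : ∃ A : ℝ, A = 3 * T / (g * wt k.1.1 k.1.2) := ⟨_, rfl⟩
    obtain ⟨A', hA'⟩ : ∃ A' : ℝ, A' = 3 * T / (g * wt k.2.1 k.2.2) := ⟨_, rfl⟩
    have hδ : 0 < h / T ^ 3 := by positivity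
    have hinj : Set.InjOn (fun p : T6 => ((rd p).1.1, (rd p).2.1)) F := by
      intro p hp p' hp' he
      obtain ⟨-, a2, a3, a4⟩ := hFm p hp
      obtain ⟨-, b2, b3, b4⟩ := hFm p' hp'
      simp only [Prod.mk.injEq] at he
      obtain ⟨he1, he2⟩ := he
      obtain ⟨r1, -, -, r2, -, -⟩ := rd_mul (p := p)
      obtain ⟨s1, -, -, s2, -, -⟩ := rd_mul (p := p')
      rw [a4, he1] at r1
      rw [a4, he2] at r2
      rw [b4] at s1 s2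
      have c1 : p.1 = p'.1 := Prod.ext (r1.trans s1.symm) (a2.trans b2.symm)
      have c2 : p.2 = p'.2 := Prod.ext (r2.trans s2.symm) (a3.trans b3.symm)
      exact Prod.ext c1 c2
    have hpt : ∀ p ∈ F, A / 32 ≤ (rd p).1.1 ∧ ((rd p).1.1 : ℝ) ≤ A ∧ A' / 32 ≤ (rd p).2.1 ∧
        ((rd p).2.1 : ℝ) ≤ A' ∧ Nat.Coprime (rd p).1.1 (rd p).2.1 ∧
        |((rd p).1.1 : ℝ) ^ 3 - ((k.2.1 : ℝ) ^ 4 * (k.2.2 : ℝ) ^ 5 / ((k.1.1 : ℝ) ^ 4 * (k.1.2 : ℝ) ^ 5)) *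
          ((rd p).2.1 : ℝ) ^ 3| ≤
        h / T ^ 3 * ((k.2.1 : ℝ) ^ 4 * (k.2.2 : ℝ) ^ 5 / ((k.1.1 : ℝ) ^ 4 * (k.1.2 : ℝ) ^ 5) *
          ((rd p).2.1 : ℝ) ^ 3) := by
      intro p hp
      obtain ⟨a1, a2, a3, a4⟩ := hFm p hp
      obtain ⟨r1, -, -, r2, -, -⟩ := rd_mul (p := p)
      rw [a4] at r1 r2
      have e1 : p.1 = (p.1.1, k.1.1, k.1.2) := by
        rw [← a2]
      have e2 : p.2 = (p.2.1, k.2.1, k.2.2) := by
        rw [← a3]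
      have l1 := (hP.lo p a1).1
      have l2 := (hP.lo p a1).2
      have u1 := (hP.hi p a1).1
      have u2 := (hP.hi p a1).2
      have n1 := hP.cl p a1
      rw [e1] at l1 u1 n1
      rw [e2] at l2 u2 n1
      obtain ⟨x1, x2⟩ := pm_box hT0 q1 q2 hg r1 l1 u1
      obtain ⟨x3, x4⟩ := pm_box hT0 q3 q4 hg r2 l2 u2
      have x5 := (rd_red (hP.pos p a1).1).1
      have x6 := pm_near hT0 hh q1 q2 hg r1 r2 l2 n1
      rw [hA, hA']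
      exact ⟨x1, x2, x3, x4, x5, x6⟩
    obtain ⟨S, hS⟩ : ∃ S, S = F.image (fun p : T6 => ((rd p).1.1, (rd p).2.1)) := ⟨_, rfl⟩
    have hcard : S.card = F.card := by
      rw [hS]
      exact Finset.card_image_of_injOn hinj
    obtain ⟨-, y2, -, y4, -, -⟩ := hpt p0 hp0
    have y5 := rd_pos (hP.pos p0 m1).1 (hP.pos p0 m1).2
    have z1 : (1 : ℝ) ≤ ((rd p0).1.1 : ℝ) := by exact_mod_cast y5.1.1
    have z2 : (1 : ℝ) ≤ ((rd p0).2.1 : ℝ) := by exact_mod_cast y5.2.1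
    have k1 : (0 : ℝ) < k.1.1 := by exact_mod_cast q1
    have k2 : (0 : ℝ) < k.1.2 := by exact_mod_cast q2
    have k3 : (0 : ℝ) < k.2.1 := by exact_mod_cast q3
    have k4 : (0 : ℝ) < k.2.2 := by exact_mod_cast q4
    have hmain := hK A A' ((k.2.1 : ℝ) ^ 4 * (k.2.2 : ℝ) ^ 5 / ((k.1.1 : ℝ) ^ 4 * (k.1.2 : ℝ) ^ 5))
      (h / T ^ 3) S (z1.trans y2) (z2.trans y4) (by positivity) hδ.le (by
        intro q hq
        rw [hS, Finset.mem_image] at hq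
        obtain ⟨p, hp, rfl⟩ := hq
        exact hpt p hp)
    rw [hcard] at hmain
    have hx := hX p0 m1
    have hXX : XX T p0 = 64 * (A * A') := by
      unfold XX
      rw [m4, m2, m3, hA, hA']
      field_simp
      norm_num
    rw [hXX] at hx
    have h3 : 585 * K * (h / T) * (1 / (wt k.1.1 k.1.2 * wt k.2.1 k.2.2)) * ((g : ℝ) ^ 2)⁻¹ =
        K * (65 * (h / T ^ 3 * (A * A'))) := by
      rw [hA, hA']
      field_simp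
      norm_num
    rw [h3]
    refine hmain.trans (mul_le_mul_of_nonneg_left ?_ (by linarith))
    linarith

open Classical in
theorem pmn : ∃ K : ℝ, 1 ≤ K ∧ ∀ (T h : ℝ) (P : Finset T6), 1 ≤ T → 0 < h → Raw T h P →
    (∀ p ∈ P, 1 ≤ h / T ^ 3 * XX T p) →
    (P.card : ℝ) ≤ K * (h / T) *
      ∑ k ∈ P.image cl, 1 / (wt k.1.1 k.1.2 * wt k.2.1 k.2.2) := by
  obtain ⟨K, hK1, hK⟩ := cls
  refine ⟨1170 * K, by linarith, fun T h P hT hh hP hX => ?_⟩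
  have hT0 : 0 < T := by linarith
  obtain ⟨G, hG⟩ : ∃ G, G = P.image (fun p => (gg p).1) := ⟨_, rfl⟩
  have hGpos : ∀ g ∈ G, 0 < g := by
    intro g hg
    rw [hG, Finset.mem_image] at hg
    obtain ⟨p, hp, rfl⟩ := hg
    exact (gg_pos (hP.pos p hp).1).1
  have hsum : ∑ g ∈ G, ((g : ℝ) ^ 2)⁻¹ ≤ 2 := by
    have h1 : G ⊆ Finset.Ioo 0 (G.sup id + 1) := by
      intro g hg
      rw [Finset.mem_Ioo]
      exact ⟨hGpos g hg, Nat.lt_succ_of_le (Finset.le_sup (f := id) hg)⟩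
    have h2 := sum_Ioo_inv_sq_le (α := ℝ) 0 (G.sup id + 1)
    refine (Finset.sum_le_sum_of_subset_of_nonneg h1 (fun i _ _ => by positivity)).trans ?_
    simpa using h2
  have hcard : P.card = ∑ x ∈ (P.image cl) ×ˢ G, (P.filter (fun p => (cl p, (gg p).1) = x)).card := by
    refine Finset.card_eq_sum_card_fiberwise (f := fun p => (cl p, (gg p).1)) ?_
    intro p hp
    refine Finset.mem_coe.2 (Finset.mem_product.2 ⟨Finset.mem_image_of_mem _ hp, ?_⟩)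
    rw [hG]
    exact Finset.mem_image_of_mem (fun p => (gg p).1) hp
  rw [hcard, Nat.cast_sum, Finset.sum_product, Finset.mul_sum]
  refine Finset.sum_le_sum fun k _ => ?_
  refine (Finset.sum_le_sum fun g _ => pm_fib hK1 hK hT hh hP hX k g).trans ?_
  rw [← Finset.mul_sum]
  have w1 := pm_wt0 k.1.1 k.1.2
  have w2 := pm_wt0 k.2.1 k.2.2
  have h0 : 0 ≤ K := by linarith
  have h4 : 0 ≤ 585 * K * (h / T) * (1 / (wt k.1.1 k.1.2 * wt k.2.1 k.2.2)) := by positivity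
  refine (mul_le_mul_of_nonneg_left hsum h4).trans_eq ?_
  ring

end Pool.Agent.PWG
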