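import Pool.Agent.PWG.PBs
import Pool.Agent.PWG.PMn

set_option autoImplicit false

/-!
# PWG-AT: the theorem on close pairs (job PWG-AT, proof by helper88)

Split `P` into `{h / T^3 * XX T p <= 1}` (`pbs`) and the rest (`pmn`; its image under `cl` is contained in that of
`P` and the terms are nonnegative). `T (h/T^3)^(1/12) = T^(3/4) h^(1/12)`.
-/

namespace Pool.Agent.PWG

private lemma at_raw_mono {T h : ℝ} {P Q : Finset T6} (hR : Raw T h P) (hQ : Q ⊆ P) : Raw T h Q where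
  pos := fun p hp => hR.pos p (hQ hp)
  lo := fun p hp => hR.lo p (hQ hp)
  hi := fun p hp => hR.hi p (hQ hp)
  ne := fun p hp => hR.ne p (hQ hp)
  cl := fun p hp => hR.cl p (hQ hp)
  inj1 := hR.inj1.mono (by exact_mod_cast hQ)
  inj2 := hR.inj2.mono (by exact_mod_cast hQ)

private lemma at_pow {T h : ℝ} (hT : 1 ≤ T) (hh : 0 < h) :
    T * (h / T ^ 3) ^ ((1 : ℝ) / 12) = T ^ ((3 : ℝ) / 4) * h ^ ((1 : ℝ) / 12) := by
  have hT0 : (0 : ℝ) < T := by linarith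
  have h3 : (T ^ 3 : ℝ) ^ ((1 : ℝ) / 12) = T ^ ((1 : ℝ) / 4) := by
    rw [← Real.rpow_natCast T 3, ← Real.rpow_mul hT0.le]
    congr 1
    norm_num
  have h4 : T ^ ((3 : ℝ) / 4) * T ^ ((1 : ℝ) / 4) = T := by
    rw [← Real.rpow_add hT0]
    norm_num
  have h5 : (0 : ℝ) < T ^ ((1 : ℝ) / 4) := Real.rpow_pos_of_pos hT0 _
  rw [Real.div_rpow hh.le (by positivity), h3]
  calc T * (h ^ ((1 : ℝ) / 12) / T ^ ((1 : ℝ) / 4))
      = (T ^ ((3 : ℝ) / 4) * T ^ ((1 : ℝ) / 4)) * (h ^ ((1 : ℝ) / 12) / T ^ ((1 : ℝ) / 4)) := by rw [h4]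
    _ = T ^ ((3 : ℝ) / 4) * h ^ ((1 : ℝ) / 12) := by field_simp

private lemma at_wt_nonneg (b c : ℕ) : 0 ≤ wt b c := by
  unfold wt
  positivity

open Classical in
theorem at_main : ∃ K : ℝ, 1 ≤ K ∧ ∀ (T h : ℝ) (P : Finset T6), 1 ≤ T → 0 < h → Raw T h P →
    (P.card : ℝ) ≤ K * ((h / T) * (∑ k ∈ P.image cl, 1 / (wt k.1.1 k.1.2 * wt k.2.1 k.2.2)) +
      (1 + Real.log T) ^ 5 * (T ^ ((3 : ℝ) / 4) * h ^ ((1 : ℝ) / 12))) := by
  obtain ⟨K1, hK1, H1⟩ := pbs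
  obtain ⟨K2, hK2, H2⟩ := pmn
  refine ⟨K1 + K2, by linarith, ?_⟩
  intro T h P hT hh hR
  have hT0 : (0 : ℝ) < T := by linarith
  have hlog : 0 ≤ Real.log T := Real.log_nonneg hT
  have hb1 := H1 T h (P.filter fun p => h / T ^ 3 * XX T p ≤ 1) hT hh
    (at_raw_mono hR (Finset.filter_subset _ _)) (fun p hp => (Finset.mem_filter.mp hp).2)
  have hb2 := H2 T h (P.filter fun p => ¬ (h / T ^ 3 * XX T p ≤ 1)) hT hh
    (at_raw_mono hR (Finset.filter_subset _ _))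
    (fun p hp => (not_le.mp (Finset.mem_filter.mp hp).2).le)
  have hcard : (P.card : ℝ) = ((P.filter fun p => h / T ^ 3 * XX T p ≤ 1).card : ℝ) +
      ((P.filter fun p => ¬ (h / T ^ 3 * XX T p ≤ 1)).card : ℝ) := by
    rw [← Nat.cast_add, Finset.card_filter_add_card_filter_not]
  have hterm : ∀ k : (ℕ × ℕ) × (ℕ × ℕ), 0 ≤ 1 / (wt k.1.1 k.1.2 * wt k.2.1 k.2.2) := fun k =>
    div_nonneg zero_le_one (mul_nonneg (at_wt_nonneg _ _) (at_wt_nonneg _ _))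
  have hsum : (∑ k ∈ (P.filter fun p => ¬ (h / T ^ 3 * XX T p ≤ 1)).image cl,
      1 / (wt k.1.1 k.1.2 * wt k.2.1 k.2.2)) ≤
      ∑ k ∈ P.image cl, 1 / (wt k.1.1 k.1.2 * wt k.2.1 k.2.2) :=
    Finset.sum_le_sum_of_subset_of_nonneg (Finset.image_subset_image (Finset.filter_subset _ _))
      (fun k _ _ => hterm k)
  have hS : 0 ≤ ∑ k ∈ P.image cl, 1 / (wt k.1.1 k.1.2 * wt k.2.1 k.2.2) :=
    Finset.sum_nonneg (fun k _ => hterm k)
  have hhT : 0 ≤ h / T := by positivity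
  rw [at_pow hT hh] at hb1
  have hE : 0 ≤ (1 + Real.log T) ^ 5 * (T ^ ((3 : ℝ) / 4) * h ^ ((1 : ℝ) / 12)) := by positivity
  have hb2' : ((P.filter fun p => ¬ (h / T ^ 3 * XX T p ≤ 1)).card : ℝ) ≤
      K2 * ((h / T) * ∑ k ∈ P.image cl, 1 / (wt k.1.1 k.1.2 * wt k.2.1 k.2.2)) := by
    refine hb2.trans ?_
    rw [mul_assoc]
    exact mul_le_mul_of_nonneg_left (mul_le_mul_of_nonneg_left hsum hhT) (by linarith)
  have hM : 0 ≤ (h / T) * ∑ k ∈ P.image cl, 1 / (wt k.1.1 k.1.2 * wt k.2.1 k.2.2) :=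
    mul_nonneg hhT hS
  rw [hcard]
  nlinarith [mul_nonneg (by linarith : (0 : ℝ) ≤ K1) hM, mul_nonneg (by linarith : (0 : ℝ) ≤ K2) hE]

end Pool.Agent.PWG
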