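import Pool.Agent.PWG.Two

set_option autoImplicit false

/-!
# PWG-DLog: the two counts in logarithmic form (job PWG-DLog)

Plan. Let `c, K, C` be the constants of `one w` (resp. `two w`) and `Λ0 = |log c| + |log K| + 1`; the final `Λ` is large
enough in terms of `Λ0` and `C` (for both `w = 4, 5`). `x = log (A A') >= 0`, `v = log (V V') >= 0`, `d = log (1/δ)`,
`δ = exp (-d)`.
`dlog1`: `l = exp (-(x + v + Λ0)/3)`, `σ = exp ((Λ0 - d)/3) <= 1` (as `Λ0 <= Λ <= d - x - v`), `L = 32`, `u = 0` (all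
points have `0 <= tt <= 32`, directly from `Blk`). The bound `C (1 + 32/l)(1 + σ A A')` is at most
`C * 33 exp ((x+v+Λ0)/3) * 2 exp (max 0 (x + (Λ0-d)/3))`.
`dlog2`: in addition `l2 = exp (-(2 (x+v) + Λ0)/8)`, `σ2 = exp ((Λ0 - d)/8)`; `1 + 1/l2 <= 2 exp ((x+v)/4 + Λ0/8)`,
`1 + σ2/l1 <= 2 exp (max 0 ((Λ0-d)/8 + (x+v+Λ0)/3))`, and `max 0 (y + c) <= max 0 y + c` for `c >= 0`.
-/

namespace Pool.Agent.PWG

private theorem dl_two (y c : ℝ) (hc : 0 ≤ c) :
    1 + Real.exp (y + c) ≤ 2 * Real.exp (max 0 y + c) := by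
  have h1 : (1 : ℝ) ≤ Real.exp (max 0 y + c) := by
    apply Real.one_le_exp
    have := le_max_left (0 : ℝ) y
    linarith
  have h2 : Real.exp (y + c) ≤ Real.exp (max 0 y + c) := by
    apply Real.exp_le_exp.2
    have := le_max_right (0 : ℝ) y
    linarith
  linarith

private theorem dl_le {c L : ℝ} (hc : 0 < c) (h : |Real.log c| ≤ L) : Real.exp (-L) ≤ c := by
  have h1 := neg_abs_le (Real.log c)
  calc Real.exp (-L) ≤ Real.exp (Real.log c) := by
        apply Real.exp_le_exp.2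
        linarith
    _ = c := Real.exp_log hc

private theorem dl_le' {c L : ℝ} (hc : 0 < c) (h : |Real.log c| ≤ L) : c ≤ Real.exp L := by
  have h1 := le_abs_self (Real.log c)
  calc c = Real.exp (Real.log c) := (Real.exp_log hc).symm
    _ ≤ Real.exp L := by
        apply Real.exp_le_exp.2
        linarith

private theorem dl_all {w : ℕ} (hw1 : 1 ≤ w) {A A' V V' κ δ : ℝ} {S : Finset Q4} (hA : 1 ≤ A)
    (hA' : 1 ≤ A') (hV : 1 ≤ V) (hV' : 1 ≤ V') (hκ : 0 < κ) (hδ : 0 ≤ δ) (hδ2 : δ ≤ 1 / 2)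
    (hS : ∀ q ∈ S, Blk A A' V V' q ∧ Nr w κ δ q) :
    ∀ q ∈ S, 0 ≤ tt A A' q ∧ tt A A' q ≤ 0 + 32 := by
  obtain ⟨C0, hC0, hnorm⟩ := norm_pt w 1 hw1
  intro q hq
  obtain ⟨hb, hn⟩ := hS q hq
  obtain ⟨h1, h2, -⟩ := hnorm A A' V V' κ δ q hA hA' hV hV' hκ hδ hδ2 hb hn
  exact ⟨by linarith, by linarith⟩

theorem dlog1 (w : ℕ) (hw : w = 4 ∨ w = 5) : ∃ Λ : ℝ, 1 ≤ Λ ∧
    ∀ (A A' V V' κ δ : ℝ) (S : Finset Q4), 1 ≤ A → 1 ≤ A' → 1 ≤ V → 1 ≤ V' → 0 < κ → 0 < δ →
      Real.log (A * A') + Real.log (V * V') ≤ Real.log (1 / δ) - Λ →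
      (∀ q ∈ S, Blk A A' V V' q ∧ Nr w κ δ q) →
      (S.card : ℝ) ≤ Real.exp (Λ + (Real.log (A * A') + Real.log (V * V')) / 3 +
        max 0 (Real.log (A * A') - Real.log (1 / δ) / 3)) := by
  classical
  have hw1 : 1 ≤ w := by omega
  obtain ⟨c, K, C, hc, hc2, hK, hC, hone⟩ := one w hw
  set L0 : ℝ := |Real.log c| + |Real.log K| + 1 with hL0
  have hL0c : |Real.log c| ≤ L0 := by
    have := abs_nonneg (Real.log K)
    linarith
  have hL0K : |Real.log K| ≤ L0 := by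
    have := abs_nonneg (Real.log c)
    linarith
  have hL01 : 1 ≤ L0 := by
    have := abs_nonneg (Real.log c)
    have := abs_nonneg (Real.log K)
    linarith
  have h66 : 0 < 66 * C := by positivity
  have hnn := abs_nonneg (Real.log (66 * C))
  refine ⟨L0 + |Real.log (66 * C)|, by linarith, ?_⟩
  intro A A' V V' κ δ S hA hA' hV hV' hκ hδ hD hS
  have hAA : 1 ≤ A * A' := one_le_mul_of_one_le_of_one_le hA hA'
  have hVV : 1 ≤ V * V' := one_le_mul_of_one_le_of_one_le hV hV'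
  obtain ⟨x, hx⟩ : ∃ x, x = Real.log (A * A') := ⟨_, rfl⟩
  obtain ⟨v, hv⟩ : ∃ v, v = Real.log (V * V') := ⟨_, rfl⟩
  obtain ⟨D, hDD⟩ : ∃ D, D = Real.log (1 / δ) := ⟨_, rfl⟩
  have hx0 : 0 ≤ x := hx ▸ Real.log_nonneg hAA
  have hv0 : 0 ≤ v := hv ▸ Real.log_nonneg hVV
  have hxe : A * A' = Real.exp x := by rw [hx, Real.exp_log (by linarith)]
  have hve : V * V' = Real.exp v := by rw [hv, Real.exp_log (by linarith)]
  have hde : δ = Real.exp (-D) := by
    rw [hDD, one_div, Real.log_inv, neg_neg, Real.exp_log hδ]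
  rw [← hx, ← hv, ← hDD] at hD ⊢
  have hec : Real.exp (-L0) ≤ c := dl_le hc hL0c
  have heK : K ≤ Real.exp L0 := dl_le' hK hL0K
  have hR : A * A' * (V * V') = Real.exp (x + v) := by rw [hxe, hve, Real.exp_add]
  have hδR : δ * (A * A' * (V * V')) ≤ c := by
    rw [hR, hde, ← Real.exp_add]
    refine le_trans (Real.exp_le_exp.2 ?_) hec
    linarith
  have hδ2 : δ ≤ 1 / 2 := by
    have h1 : 1 ≤ A * A' * (V * V') := one_le_mul_of_one_le_of_one_le hAA hVV
    nlinarith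
  have hl : 0 < Real.exp (-((x + v + L0) / 3)) := Real.exp_pos _
  have hlR : Real.exp (-((x + v + L0) / 3)) ^ 3 * (A * A' * (V * V')) ≤ c := by
    rw [hR, ← Real.exp_nat_mul, ← Real.exp_add]
    refine le_trans (Real.exp_le_exp.2 ?_) hec
    push_cast
    linarith
  have hσ : 0 < Real.exp ((L0 - D) / 3) := Real.exp_pos _
  have hσ1 : Real.exp ((L0 - D) / 3) ≤ 1 := by
    rw [← Real.exp_zero]
    apply Real.exp_le_exp.2
    linarith
  have hKσ : K * δ ≤ Real.exp ((L0 - D) / 3) ^ 3 := by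
    rw [← Real.exp_nat_mul, hde]
    calc K * Real.exp (-D) ≤ Real.exp L0 * Real.exp (-D) := by
          apply mul_le_mul_of_nonneg_right heK (Real.exp_pos _).le
      _ = Real.exp (((3 : ℕ) : ℝ) * ((L0 - D) / 3)) := by
          rw [← Real.exp_add]
          congr 1
          push_cast
          ring
  have hall := dl_all hw1 hA hA' hV hV' hκ hδ.le hδ2 hS
  have h1 := hone A A' V V' κ δ _ _ 0 32 S hA hA' hV hV' hκ hδ.le hδR hl hlR hσ hσ1 hKσ
    (by norm_num) hS
  rw [Finset.filter_true_of_mem hall] at h1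
  have h2 : 1 + 32 / Real.exp (-((x + v + L0) / 3)) ≤ 33 * Real.exp ((x + v) / 3 + L0 / 3) := by
    rw [div_eq_mul_inv, ← Real.exp_neg, neg_neg]
    have h3 : (1 : ℝ) ≤ Real.exp ((x + v + L0) / 3) := Real.one_le_exp (by linarith)
    have h4 : (x + v) / 3 + L0 / 3 = (x + v + L0) / 3 := by ring
    rw [h4]
    linarith
  have h3 : 1 + Real.exp ((L0 - D) / 3) * (A * A') ≤
      2 * Real.exp (max 0 (x - D / 3) + L0 / 3) := by
    rw [hxe, ← Real.exp_add]
    have h4 : (L0 - D) / 3 + x = (x - D / 3) + L0 / 3 := by ring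
    rw [h4]
    exact dl_two _ _ (by linarith)
  refine h1.trans ?_
  calc C * (1 + 32 / Real.exp (-((x + v + L0) / 3))) * (1 + Real.exp ((L0 - D) / 3) * (A * A'))
      ≤ C * (33 * Real.exp ((x + v) / 3 + L0 / 3)) *
          (2 * Real.exp (max 0 (x - D / 3) + L0 / 3)) := by
        apply mul_le_mul _ h3 (by positivity) (by positivity)
        exact mul_le_mul_of_nonneg_left h2 hC.le
    _ = 66 * C * Real.exp ((x + v) / 3 + L0 / 3 + (max 0 (x - D / 3) + L0 / 3)) := by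
        rw [Real.exp_add ((x + v) / 3 + L0 / 3)]
        ring
    _ ≤ Real.exp (|Real.log (66 * C)|) *
          Real.exp ((x + v) / 3 + L0 / 3 + (max 0 (x - D / 3) + L0 / 3)) := by
        apply mul_le_mul_of_nonneg_right (dl_le' h66 le_rfl) (Real.exp_pos _).le
    _ = Real.exp (|Real.log (66 * C)| +
          ((x + v) / 3 + L0 / 3 + (max 0 (x - D / 3) + L0 / 3))) := by
        rw [← Real.exp_add]
    _ ≤ _ := by
        apply Real.exp_le_exp.2
        linarith

theorem dlog2 (w : ℕ) (hw : w = 4 ∨ w = 5) : ∃ Λ : ℝ, 1 ≤ Λ ∧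
    ∀ (A A' V V' κ δ : ℝ) (S : Finset Q4), 1 ≤ A → 1 ≤ A' → 1 ≤ V → 1 ≤ V' → 0 < κ → 0 < δ →
      2 * (Real.log (A * A') + Real.log (V * V')) ≤ Real.log (1 / δ) - Λ →
      (∀ q ∈ S, Blk A A' V V' q ∧ Nr w κ δ q) →
      (S.card : ℝ) ≤ Real.exp (Λ + (Real.log (A * A') + Real.log (V * V')) / 4 +
        max 0 ((Real.log (A * A') + Real.log (V * V')) / 3 - Real.log (1 / δ) / 8) +
        max 0 (Real.log (A * A') - Real.log (1 / δ) / 3)) := by
  classical
  obtain ⟨c, K, C, hc, hc2, hK, hC, htwo⟩ := two w hw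
  set L0 : ℝ := |Real.log c| + |Real.log K| + 1 with hL0
  have hL0c : |Real.log c| ≤ L0 := by
    have := abs_nonneg (Real.log K)
    linarith
  have hL0K : |Real.log K| ≤ L0 := by
    have := abs_nonneg (Real.log c)
    linarith
  have hL01 : 1 ≤ L0 := by
    have := abs_nonneg (Real.log c)
    have := abs_nonneg (Real.log K)
    linarith
  have h8 : 0 < 8 * C := by positivity
  have hnn := abs_nonneg (Real.log (8 * C))
  refine ⟨L0 + |Real.log (8 * C)|, by linarith, ?_⟩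
  intro A A' V V' κ δ S hA hA' hV hV' hκ hδ hD hS
  have hAA : 1 ≤ A * A' := one_le_mul_of_one_le_of_one_le hA hA'
  have hVV : 1 ≤ V * V' := one_le_mul_of_one_le_of_one_le hV hV'
  obtain ⟨x, hx⟩ : ∃ x, x = Real.log (A * A') := ⟨_, rfl⟩
  obtain ⟨v, hv⟩ : ∃ v, v = Real.log (V * V') := ⟨_, rfl⟩
  obtain ⟨D, hDD⟩ : ∃ D, D = Real.log (1 / δ) := ⟨_, rfl⟩
  have hx0 : 0 ≤ x := hx ▸ Real.log_nonneg hAA
  have hv0 : 0 ≤ v := hv ▸ Real.log_nonneg hVV
  have hxe : A * A' = Real.exp x := by rw [hx, Real.exp_log (by linarith)]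
  have hve : V * V' = Real.exp v := by rw [hv, Real.exp_log (by linarith)]
  have hde : δ = Real.exp (-D) := by
    rw [hDD, one_div, Real.log_inv, neg_neg, Real.exp_log hδ]
  rw [← hx, ← hv, ← hDD] at hD ⊢
  have hec : Real.exp (-L0) ≤ c := dl_le hc hL0c
  have heK : K ≤ Real.exp L0 := dl_le' hK hL0K
  have hR : A * A' * (V * V') = Real.exp (x + v) := by rw [hxe, hve, Real.exp_add]
  have hδR : δ * (A * A' * (V * V')) ^ 2 ≤ c := by
    rw [hR, hde, ← Real.exp_nat_mul, ← Real.exp_add]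
    refine le_trans (Real.exp_le_exp.2 ?_) hec
    push_cast
    linarith
  have hl : 0 < Real.exp (-((x + v + L0) / 3)) := Real.exp_pos _
  have hlR : Real.exp (-((x + v + L0) / 3)) ^ 3 * (A * A' * (V * V')) ≤ c := by
    rw [hR, ← Real.exp_nat_mul, ← Real.exp_add]
    refine le_trans (Real.exp_le_exp.2 ?_) hec
    push_cast
    linarith
  have hl2 : 0 < Real.exp (-((2 * (x + v) + L0) / 8)) := Real.exp_pos _
  have hl2R : Real.exp (-((2 * (x + v) + L0) / 8)) ^ 8 * (A * A' * (V * V')) ^ 2 ≤ c := by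
    rw [hR, ← Real.exp_nat_mul, ← Real.exp_nat_mul, ← Real.exp_add]
    refine le_trans (Real.exp_le_exp.2 ?_) hec
    push_cast
    linarith
  have hσ : 0 < Real.exp ((L0 - D) / 3) := Real.exp_pos _
  have hσ1 : Real.exp ((L0 - D) / 3) ≤ 1 := by
    rw [← Real.exp_zero]
    apply Real.exp_le_exp.2
    linarith
  have hKσ : K * δ ≤ Real.exp ((L0 - D) / 3) ^ 3 := by
    rw [← Real.exp_nat_mul, hde]
    calc K * Real.exp (-D) ≤ Real.exp L0 * Real.exp (-D) := by
          apply mul_le_mul_of_nonneg_right heK (Real.exp_pos _).le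
      _ = Real.exp (((3 : ℕ) : ℝ) * ((L0 - D) / 3)) := by
          rw [← Real.exp_add]
          congr 1
          push_cast
          ring
  have hσ2 : 0 < Real.exp ((L0 - D) / 8) := Real.exp_pos _
  have hσ21 : Real.exp ((L0 - D) / 8) ≤ 1 := by
    rw [← Real.exp_zero]
    apply Real.exp_le_exp.2
    linarith
  have hKσ2 : K * δ ≤ Real.exp ((L0 - D) / 8) ^ 8 := by
    rw [← Real.exp_nat_mul, hde]
    calc K * Real.exp (-D) ≤ Real.exp L0 * Real.exp (-D) := by
          apply mul_le_mul_of_nonneg_right heK (Real.exp_pos _).le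
      _ = Real.exp (((8 : ℕ) : ℝ) * ((L0 - D) / 8)) := by
          rw [← Real.exp_add]
          congr 1
          push_cast
          ring
  have h1 := htwo A A' V V' κ δ _ _ _ _ S hA hA' hV hV' hκ hδ.le hδR hl hlR hl2 hl2R hσ hσ1 hKσ
    hσ2 hσ21 hKσ2 hS
  have h2 : 1 + 1 / Real.exp (-((2 * (x + v) + L0) / 8)) ≤
      2 * Real.exp ((x + v) / 4 + L0 / 8) := by
    rw [one_div, ← Real.exp_neg, neg_neg]
    have h3 : (1 : ℝ) ≤ Real.exp ((2 * (x + v) + L0) / 8) := Real.one_le_exp (by linarith)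
    have h4 : (x + v) / 4 + L0 / 8 = (2 * (x + v) + L0) / 8 := by ring
    rw [h4]
    linarith
  have h3 : 1 + Real.exp ((L0 - D) / 3) * (A * A') ≤
      2 * Real.exp (max 0 (x - D / 3) + L0 / 3) := by
    rw [hxe, ← Real.exp_add]
    have h4 : (L0 - D) / 3 + x = (x - D / 3) + L0 / 3 := by ring
    rw [h4]
    exact dl_two _ _ (by linarith)
  have h5 : 1 + Real.exp ((L0 - D) / 8) / Real.exp (-((x + v + L0) / 3)) ≤
      2 * Real.exp (max 0 ((x + v) / 3 - D / 8) + 11 / 24 * L0) := by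
    rw [← Real.exp_sub]
    have h4 : (L0 - D) / 8 - -((x + v + L0) / 3) = ((x + v) / 3 - D / 8) + 11 / 24 * L0 := by ring
    rw [h4]
    exact dl_two _ _ (by linarith)
  refine h1.trans ?_
  calc C * (1 + 1 / Real.exp (-((2 * (x + v) + L0) / 8))) *
        (1 + Real.exp ((L0 - D) / 8) / Real.exp (-((x + v + L0) / 3))) *
        (1 + Real.exp ((L0 - D) / 3) * (A * A'))
      ≤ C * (2 * Real.exp ((x + v) / 4 + L0 / 8)) *
          (2 * Real.exp (max 0 ((x + v) / 3 - D / 8) + 11 / 24 * L0)) *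
          (2 * Real.exp (max 0 (x - D / 3) + L0 / 3)) := by
        apply mul_le_mul _ h3 (by positivity) (by positivity)
        apply mul_le_mul _ h5 (by positivity) (by positivity)
        exact mul_le_mul_of_nonneg_left h2 hC.le
    _ = 8 * C * Real.exp ((x + v) / 4 + L0 / 8 + (max 0 ((x + v) / 3 - D / 8) + 11 / 24 * L0) +
          (max 0 (x - D / 3) + L0 / 3)) := by
        rw [Real.exp_add ((x + v) / 4 + L0 / 8 + (max 0 ((x + v) / 3 - D / 8) + 11 / 24 * L0)),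
          Real.exp_add ((x + v) / 4 + L0 / 8)]
        ring
    _ ≤ Real.exp (|Real.log (8 * C)|) *
          Real.exp ((x + v) / 4 + L0 / 8 + (max 0 ((x + v) / 3 - D / 8) + 11 / 24 * L0) +
          (max 0 (x - D / 3) + L0 / 3)) := by
        apply mul_le_mul_of_nonneg_right (dl_le' h8 le_rfl) (Real.exp_pos _).le
    _ = Real.exp (|Real.log (8 * C)| +
          ((x + v) / 4 + L0 / 8 + (max 0 ((x + v) / 3 - D / 8) + 11 / 24 * L0) +
          (max 0 (x - D / 3) + L0 / 3))) := by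
        rw [← Real.exp_add]
    _ ≤ _ := by
        apply Real.exp_le_exp.2
        linarith

end Pool.Agent.PWG
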