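import Pool.Agent.PWG.Defs

set_option autoImplicit false

/-!
# PWG-LPx: the linear inequality behind the exponent (logarithms of the bounds for one block)
-/

namespace Pool.Agent.PWG

theorem lp (x u z d p Λ : ℝ) (hx : 0 ≤ x) (hu : 0 ≤ u) (hz : 0 ≤ z) (hΛ : 0 ≤ Λ) (hxd : x ≤ d)
    (hd : 2 * d ≤ 3 * x + 4 * u + 5 * z) (hN : p ≤ Λ + (x + u + z) / 2) (hT : p ≤ Λ + u + z)
    (h1 : x + u ≤ d - Λ → p ≤ Λ + z + (x + u) / 3 + max 0 (x - d / 3))
    (h2 : 2 * (x + u) ≤ d - Λ →
      p ≤ Λ + z + (x + u) / 4 + max 0 ((x + u) / 3 - d / 8) + max 0 (x - d / 3))
    (h3 : 2 * (x + z) ≤ d - Λ →
      p ≤ Λ + u + (x + z) / 4 + max 0 ((x + z) / 3 - d / 8) + max 0 (x - d / 3)) :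
    p ≤ 20 * Λ + (x / 2 + 2 * u / 3 + 5 * z / 6 - d / 12) := by
  rcases le_total 0 (x - d / 3) with a1 | a1
  · rw [max_eq_right a1] at h1 h2 h3
    rcases le_total 0 ((x + u) / 3 - d / 8) with a2 | a2
    · rw [max_eq_right a2] at h2
      rcases le_total 0 ((x + z) / 3 - d / 8) with a3 | a3
      · rw [max_eq_right a3] at h3
        by_cases b1 : x + u ≤ d - Λ
        · have h1' := h1 b1
          by_cases b2 : 2 * (x + u) ≤ d - Λ
          · have h2' := h2 b2
            by_cases b3 : 2 * (x + z) ≤ d - Λ
            · have h3' := h3 b3
              linarith
            · push Not at b3
              linarith
          · push Not at b2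
            by_cases b3 : 2 * (x + z) ≤ d - Λ
            · have h3' := h3 b3
              linarith
            · push Not at b3
              linarith
        · push Not at b1
          by_cases b3 : 2 * (x + z) ≤ d - Λ
          · have h3' := h3 b3
            linarith
          · push Not at b3
            linarith
      · rw [max_eq_left a3] at h3
        by_cases b1 : x + u ≤ d - Λ
        · have h1' := h1 b1
          by_cases b2 : 2 * (x + u) ≤ d - Λ
          · have h2' := h2 b2
            by_cases b3 : 2 * (x + z) ≤ d - Λ
            · have h3' := h3 b3
              linarith
            · push Not at b3
              linarith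
          · push Not at b2
            by_cases b3 : 2 * (x + z) ≤ d - Λ
            · have h3' := h3 b3
              linarith
            · push Not at b3
              linarith
        · push Not at b1
          by_cases b3 : 2 * (x + z) ≤ d - Λ
          · have h3' := h3 b3
            linarith
          · push Not at b3
            linarith
    · rw [max_eq_left a2] at h2
      rcases le_total 0 ((x + z) / 3 - d / 8) with a3 | a3
      · rw [max_eq_right a3] at h3
        by_cases b1 : x + u ≤ d - Λ
        · have h1' := h1 b1
          by_cases b2 : 2 * (x + u) ≤ d - Λ
          · have h2' := h2 b2
            by_cases b3 : 2 * (x + z) ≤ d - Λ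
            · have h3' := h3 b3
              linarith
            · push Not at b3
              linarith
          · push Not at b2
            by_cases b3 : 2 * (x + z) ≤ d - Λ
            · have h3' := h3 b3
              linarith
            · push Not at b3
              linarith
        · push Not at b1
          by_cases b3 : 2 * (x + z) ≤ d - Λ
          · have h3' := h3 b3
            linarith
          · push Not at b3
            linarith
      · rw [max_eq_left a3] at h3
        by_cases b1 : x + u ≤ d - Λ
        · have h1' := h1 b1
          by_cases b2 : 2 * (x + u) ≤ d - Λ
          · have h2' := h2 b2
            by_cases b3 : 2 * (x + z) ≤ d - Λ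
            · have h3' := h3 b3
              linarith
            · push Not at b3
              linarith
          · push Not at b2
            by_cases b3 : 2 * (x + z) ≤ d - Λ
            · have h3' := h3 b3
              linarith
            · push Not at b3
              linarith
        · push Not at b1
          by_cases b3 : 2 * (x + z) ≤ d - Λ
          · have h3' := h3 b3
            linarith
          · push Not at b3
            linarith
  · rw [max_eq_left a1] at h1 h2 h3
    rcases le_total 0 ((x + u) / 3 - d / 8) with a2 | a2
    · rw [max_eq_right a2] at h2
      rcases le_total 0 ((x + z) / 3 - d / 8) with a3 | a3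
      · rw [max_eq_right a3] at h3
        by_cases b1 : x + u ≤ d - Λ
        · have h1' := h1 b1
          by_cases b2 : 2 * (x + u) ≤ d - Λ
          · have h2' := h2 b2
            by_cases b3 : 2 * (x + z) ≤ d - Λ
            · have h3' := h3 b3
              linarith
            · push Not at b3
              linarith
          · push Not at b2
            by_cases b3 : 2 * (x + z) ≤ d - Λ
            · have h3' := h3 b3
              linarith
            · push Not at b3
              linarith
        · push Not at b1
          by_cases b3 : 2 * (x + z) ≤ d - Λ
          · have h3' := h3 b3
            linarith
          · push Not at b3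
            linarith
      · rw [max_eq_left a3] at h3
        by_cases b1 : x + u ≤ d - Λ
        · have h1' := h1 b1
          by_cases b2 : 2 * (x + u) ≤ d - Λ
          · have h2' := h2 b2
            by_cases b3 : 2 * (x + z) ≤ d - Λ
            · have h3' := h3 b3
              linarith
            · push Not at b3
              linarith
          · push Not at b2
            by_cases b3 : 2 * (x + z) ≤ d - Λ
            · have h3' := h3 b3
              linarith
            · push Not at b3
              linarith
        · push Not at b1
          by_cases b3 : 2 * (x + z) ≤ d - Λ
          · have h3' := h3 b3
            linarith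
          · push Not at b3
            linarith
    · rw [max_eq_left a2] at h2
      rcases le_total 0 ((x + z) / 3 - d / 8) with a3 | a3
      · rw [max_eq_right a3] at h3
        by_cases b1 : x + u ≤ d - Λ
        · have h1' := h1 b1
          by_cases b2 : 2 * (x + u) ≤ d - Λ
          · have h2' := h2 b2
            by_cases b3 : 2 * (x + z) ≤ d - Λ
            · have h3' := h3 b3
              linarith
            · push Not at b3
              linarith
          · push Not at b2
            by_cases b3 : 2 * (x + z) ≤ d - Λ
            · have h3' := h3 b3
              linarith
            · push Not at b3
              linarith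
        · push Not at b1
          by_cases b3 : 2 * (x + z) ≤ d - Λ
          · have h3' := h3 b3
            linarith
          · push Not at b3
            linarith
      · rw [max_eq_left a3] at h3
        by_cases b1 : x + u ≤ d - Λ
        · have h1' := h1 b1
          by_cases b2 : 2 * (x + u) ≤ d - Λ
          · have h2' := h2 b2
            by_cases b3 : 2 * (x + z) ≤ d - Λ
            · have h3' := h3 b3
              linarith
            · push Not at b3
              linarith
          · push Not at b2
            by_cases b3 : 2 * (x + z) ≤ d - Λ
            · have h3' := h3 b3
              linarith
            · push Not at b3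
              linarith
        · push Not at b1
          by_cases b3 : 2 * (x + z) ≤ d - Λ
          · have h3' := h3 b3
            linarith
          · push Not at b3
            linarith

end Pool.Agent.PWG
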