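import Pool.Agent.PWG.BT
import Pool.Agent.PWG.DLog
import Pool.Agent.PWG.LPx

set_option autoImplicit false

/-!
# PWG-BL: the bound for one block (job PWG-BL)

Plan. If `P` is empty, trivial. Otherwise let `p = log #P`, `x = log (A A')`, `u = log (B B')`, `z = log (C C')`,
`d = log (1/δ)`. `bn` for `p ↦ p.1` and `p ↦ p.2`: `(#P)^2 <= (A A') (B B') (C C')`. `bt`: `#P <= K (B B') (C C')`.
`bd_ab` with `dlog1 4` and `dlog2 4`, `bd_ac` with `dlog2 5`. Take `Λ` larger than `log K` and the three `Λ` and apply `lp`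
(hypothesis `x <= d` is `δ A A' <= 1`, `2 d <= 3 x + 4 u + 5 z` is `1 <= δ^2 ...`); exponentiate:
`exp (x/2 + 2u/3 + 5z/6 - d/12)` is the product of the four powers. Constant `K = exp (20 Λ)`.
-/

namespace Pool.Agent.PWG

theorem bl : ∃ K : ℝ, 1 ≤ K ∧ ∀ (A B C A' B' C' δ : ℝ) (P : Finset T6), 1 ≤ A → 1 ≤ B → 1 ≤ C →
    1 ≤ A' → 1 ≤ B' → 1 ≤ C' → 0 < δ → δ * (A * A') ≤ 1 →
    1 ≤ δ ^ 2 * ((A * A') ^ 3 * (B * B') ^ 4 * (C * C') ^ 5) →
    (∀ p ∈ P, Pos3 p.1 ∧ Pos3 p.2 ∧ Blk3 A B C p.1 ∧ Blk3 A' B' C' p.2 ∧ Red p ∧ Cl δ p) →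
    Set.InjOn (fun p : T6 => p.1) P → Set.InjOn (fun p : T6 => p.2) P →
    (P.card : ℝ) ≤ K * ((A * A') ^ ((1 : ℝ) / 2) * (B * B') ^ ((2 : ℝ) / 3) *
      (C * C') ^ ((5 : ℝ) / 6) * δ ^ ((1 : ℝ) / 12)) := by
  obtain ⟨Kt, hKt, ht⟩ := bt
  obtain ⟨Λ1, hΛ1, l1⟩ := dlog1 4 (Or.inl rfl)
  obtain ⟨Λ2, hΛ2, l2⟩ := dlog2 4 (Or.inl rfl)
  obtain ⟨Λ3, hΛ3, l3⟩ := dlog2 5 (Or.inr rfl)
  obtain ⟨Λ, a0, a1, a2, a3⟩ : ∃ Λ : ℝ, Real.log Kt ≤ Λ ∧ Λ1 ≤ Λ ∧ Λ2 ≤ Λ ∧ Λ3 ≤ Λ :=
    ⟨max (max (Real.log Kt) Λ1) (max Λ2 Λ3), (le_max_left _ _).trans (le_max_left _ _),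
      (le_max_right _ _).trans (le_max_left _ _), (le_max_left _ _).trans (le_max_right _ _),
      (le_max_right _ _).trans (le_max_right _ _)⟩
  have hΛ : 0 ≤ Λ := by linarith
  refine ⟨Real.exp (20 * Λ), Real.one_le_exp (by linarith), ?_⟩
  intro A B C A' B' C' δ P hA hB hC hA' hB' hC' hδ h1 h2 h3 i1 i2
  have hAA : 1 ≤ A * A' := one_le_mul_of_one_le_of_one_le hA hA'
  have hBB : 1 ≤ B * B' := one_le_mul_of_one_le_of_one_le hB hB'
  have hCC : 1 ≤ C * C' := one_le_mul_of_one_le_of_one_le hC hC'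
  have pAA : 0 < A * A' := by linarith
  have pBB : 0 < B * B' := by linarith
  have pCC : 0 < C * C' := by linarith
  rcases P.eq_empty_or_nonempty with rfl | hne
  · rw [Finset.card_empty, Nat.cast_zero]
    positivity
  have hn : (0 : ℝ) < P.card := by
    exact_mod_cast Finset.card_pos.2 hne
  obtain ⟨n, hndef⟩ : ∃ n : ℝ, n = (P.card : ℝ) := ⟨_, rfl⟩
  rw [← hndef] at hn ⊢
  have hx : 0 ≤ Real.log (A * A') := Real.log_nonneg hAA
  have hu : 0 ≤ Real.log (B * B') := Real.log_nonneg hBB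
  have hz : 0 ≤ Real.log (C * C') := Real.log_nonneg hCC
  have hdδ : Real.log (1 / δ) = -Real.log δ := by rw [one_div, Real.log_inv]
  have hxd : Real.log (A * A') ≤ Real.log (1 / δ) := by
    refine Real.log_le_log pAA ?_
    rw [le_div_iff₀ hδ]
    linarith
  have hd : 2 * Real.log (1 / δ) ≤
      3 * Real.log (A * A') + 4 * Real.log (B * B') + 5 * Real.log (C * C') := by
    have e1 := Real.log_nonneg h2
    rw [Real.log_mul (by positivity) (by positivity), Real.log_mul (by positivity) (by positivity),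
      Real.log_mul (by positivity) (by positivity), Real.log_pow, Real.log_pow, Real.log_pow,
      Real.log_pow] at e1
    push_cast at e1
    linarith
  have hN : Real.log n ≤
      Λ + (Real.log (A * A') + Real.log (B * B') + Real.log (C * C')) / 2 := by
    have b1 := bn P (fun p : T6 => p.1) A B C hA hB hC (fun p hp => ⟨(h3 p hp).1, (h3 p hp).2.2.1⟩)
      i1
    have b2 := bn P (fun p : T6 => p.2) A' B' C' hA' hB' hC'
      (fun p hp => ⟨(h3 p hp).2.1, (h3 p hp).2.2.2.1⟩) i2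
    rw [← hndef] at b1 b2
    have b3 : n ^ 2 ≤ (A * A') * (B * B') * (C * C') := by
      calc n ^ 2 = n * n := by ring
        _ ≤ (A * B * C) * (A' * B' * C') := mul_le_mul b1 b2 hn.le (by positivity)
        _ = (A * A') * (B * B') * (C * C') := by ring
    have b4 := Real.log_le_log (by positivity) b3
    rw [Real.log_pow, Real.log_mul (by positivity) (by positivity),
      Real.log_mul (by positivity) (by positivity)] at b4
    push_cast at b4
    linarith
  have hT : Real.log n ≤ Λ + Real.log (B * B') + Real.log (C * C') := by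
    have b1 := ht A B C A' B' C' δ P hA hB hC hA' hB' hC' hδ.le h1 h3
    rw [← hndef] at b1
    have b2 := Real.log_le_log hn b1
    rw [Real.log_mul (by positivity) (by positivity),
      Real.log_mul (by positivity) (by positivity)] at b2
    linarith
  have key : ∀ {Y E : ℝ}, 0 < Y → n ≤ Y * Real.exp E → Real.log n ≤ Real.log Y + E := by
    intro Y E hY h
    have b2 := Real.log_le_log hn h
    rw [Real.log_mul hY.ne' (Real.exp_pos _).ne', Real.log_exp] at b2
    exact b2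
  have k1 : Real.log (A * A') + Real.log (B * B') ≤ Real.log (1 / δ) - Λ →
      Real.log n ≤ Λ + Real.log (C * C') + (Real.log (A * A') + Real.log (B * B')) / 3 +
        max 0 (Real.log (A * A') - Real.log (1 / δ) / 3) := by
    intro hh
    have b1 := bd_ab A B C A' B' C' δ _ P hC hC' hδ.le (Real.exp_pos _).le h3
      (fun κ S hκ hS => l1 A A' B B' κ δ S hA hA' hB hB' hκ hδ (by linarith) hS)
    rw [← hndef] at b1
    have b2 := key pCC b1
    linarith
  have k2 : 2 * (Real.log (A * A') + Real.log (B * B')) ≤ Real.log (1 / δ) - Λ →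
      Real.log n ≤ Λ + Real.log (C * C') + (Real.log (A * A') + Real.log (B * B')) / 4 +
        max 0 ((Real.log (A * A') + Real.log (B * B')) / 3 - Real.log (1 / δ) / 8) +
        max 0 (Real.log (A * A') - Real.log (1 / δ) / 3) := by
    intro hh
    have b1 := bd_ab A B C A' B' C' δ _ P hC hC' hδ.le (Real.exp_pos _).le h3
      (fun κ S hκ hS => l2 A A' B B' κ δ S hA hA' hB hB' hκ hδ (by linarith) hS)
    rw [← hndef] at b1
    have b2 := key pCC b1
    linarith
  have k3 : 2 * (Real.log (A * A') + Real.log (C * C')) ≤ Real.log (1 / δ) - Λ →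
      Real.log n ≤ Λ + Real.log (B * B') + (Real.log (A * A') + Real.log (C * C')) / 4 +
        max 0 ((Real.log (A * A') + Real.log (C * C')) / 3 - Real.log (1 / δ) / 8) +
        max 0 (Real.log (A * A') - Real.log (1 / δ) / 3) := by
    intro hh
    have b1 := bd_ac A B C A' B' C' δ _ P hB hB' hδ.le (Real.exp_pos _).le h3
      (fun κ S hκ hS => l3 A A' C C' κ δ S hA hA' hC hC' hκ hδ (by linarith) hS)
    rw [← hndef] at b1
    have b2 := key pBB b1
    linarith
  have hfin := lp (Real.log (A * A')) (Real.log (B * B')) (Real.log (C * C')) (Real.log (1 / δ))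
    (Real.log n) Λ hx hu hz hΛ hxd hd hN hT k1 k2 k3
  rw [Real.rpow_def_of_pos pAA, Real.rpow_def_of_pos pBB, Real.rpow_def_of_pos pCC,
    Real.rpow_def_of_pos hδ, ← Real.exp_add, ← Real.exp_add, ← Real.exp_add, ← Real.exp_add]
  calc n = Real.exp (Real.log n) := (Real.exp_log hn).symm
    _ ≤ _ := by
      refine Real.exp_le_exp.2 (hfin.trans (le_of_eq ?_))
      rw [hdδ]
      ring

end Pool.Agent.PWG
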