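import Pool.Agent.PWG.Cls

set_option autoImplicit false

/-!
# PWG-BT: the trivial bounds for a block (MP_8e25e3_nt)

Counting by fibres: the fibres over `((b, c), (b', c'))` (`bt`), over `(c, c')` (`bd_ab`), over `(b, b')` (`bd_ac`).
-/

namespace Pool.Agent.PWG

/-- counting by fibres -/
private theorem fib {α β : Type} [DecidableEq β] (s : Finset α) (f : α → β) (B T : ℝ) (hB : 0 ≤ B)
    (h : ∀ b, ((s.filter (fun x => f x = b)).card : ℝ) ≤ B) (hT : ((s.image f).card : ℝ) ≤ T) :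
    (s.card : ℝ) ≤ T * B := by
  rw [Finset.card_eq_sum_card_image f s]
  push_cast
  have h1 : ∑ b ∈ s.image f, ((s.filter (fun x => f x = b)).card : ℝ) ≤ ∑ _b ∈ s.image f, B :=
    Finset.sum_le_sum fun b _ => h b
  refine h1.trans ?_
  rw [Finset.sum_const, nsmul_eq_mul]
  exact mul_le_mul_of_nonneg_right hT hB

/-- pairs in a box -/
private theorem box2 (S : Finset (ℕ × ℕ)) (A B : ℝ) (hA : 0 ≤ A) (hB : 0 ≤ B)
    (h : ∀ q ∈ S, 0 < q.1 ∧ (q.1 : ℝ) ≤ A ∧ 0 < q.2 ∧ (q.2 : ℝ) ≤ B) : (S.card : ℝ) ≤ A * B := by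
  have h1 : S ⊆ Finset.Icc 1 ⌊A⌋₊ ×ˢ Finset.Icc 1 ⌊B⌋₊ := by
    intro q hq
    obtain ⟨a1, a2, a3, a4⟩ := h q hq
    rw [Finset.mem_product, Finset.mem_Icc, Finset.mem_Icc]
    exact ⟨⟨a1, Nat.le_floor a2⟩, a3, Nat.le_floor a4⟩
  have h2 := Finset.card_le_card h1
  rw [Finset.card_product, Nat.card_Icc, Nat.card_Icc, Nat.add_sub_cancel, Nat.add_sub_cancel] at h2
  have h3 : (S.card : ℝ) ≤ (⌊A⌋₊ : ℝ) * ⌊B⌋₊ := by exact_mod_cast h2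
  exact h3.trans (mul_le_mul (Nat.floor_le hA) (Nat.floor_le hB) (Nat.cast_nonneg _) hA)

/-- pairs of pairs in a box -/
private theorem box4 (S : Finset ((ℕ × ℕ) × (ℕ × ℕ))) (A B A' B' : ℝ) (hA : 0 ≤ A) (hB : 0 ≤ B)
    (hA' : 0 ≤ A') (hB' : 0 ≤ B')
    (h : ∀ q ∈ S, (0 < q.1.1 ∧ (q.1.1 : ℝ) ≤ A ∧ 0 < q.1.2 ∧ (q.1.2 : ℝ) ≤ B) ∧
      (0 < q.2.1 ∧ (q.2.1 : ℝ) ≤ A' ∧ 0 < q.2.2 ∧ (q.2.2 : ℝ) ≤ B')) :
    (S.card : ℝ) ≤ (A * B) * (A' * B') := by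
  have h1 : S ⊆ (Finset.Icc 1 ⌊A⌋₊ ×ˢ Finset.Icc 1 ⌊B⌋₊) ×ˢ
      (Finset.Icc 1 ⌊A'⌋₊ ×ˢ Finset.Icc 1 ⌊B'⌋₊) := by
    intro q hq
    obtain ⟨⟨a1, a2, a3, a4⟩, b1, b2, b3, b4⟩ := h q hq
    rw [Finset.mem_product, Finset.mem_product, Finset.mem_product, Finset.mem_Icc, Finset.mem_Icc,
      Finset.mem_Icc, Finset.mem_Icc]
    exact ⟨⟨⟨a1, Nat.le_floor a2⟩, a3, Nat.le_floor a4⟩, ⟨b1, Nat.le_floor b2⟩, b3, Nat.le_floor b4⟩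
  have h2 := Finset.card_le_card h1
  rw [Finset.card_product, Finset.card_product, Finset.card_product, Nat.card_Icc, Nat.card_Icc,
    Nat.card_Icc, Nat.card_Icc, Nat.add_sub_cancel, Nat.add_sub_cancel, Nat.add_sub_cancel,
    Nat.add_sub_cancel] at h2
  have h3 : (S.card : ℝ) ≤ ((⌊A⌋₊ : ℝ) * ⌊B⌋₊) * ((⌊A'⌋₊ : ℝ) * ⌊B'⌋₊) := by exact_mod_cast h2
  refine h3.trans (mul_le_mul ?_ ?_ (by positivity) (by positivity))
  · exact mul_le_mul (Nat.floor_le hA) (Nat.floor_le hB) (Nat.cast_nonneg _) hA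
  · exact mul_le_mul (Nat.floor_le hA') (Nat.floor_le hB') (Nat.cast_nonneg _) hA'

theorem bn {α : Type} (S : Finset α) (f : α → ℕ × ℕ × ℕ) (A B C : ℝ) (hA : 1 ≤ A) (hB : 1 ≤ B)
    (hC : 1 ≤ C) (h : ∀ x ∈ S, Pos3 (f x) ∧ Blk3 A B C (f x)) (hinj : Set.InjOn f S) :
    (S.card : ℝ) ≤ A * B * C := by
  classical
  rw [← Finset.card_image_of_injOn hinj]
  have h1 : S.image f ⊆ Finset.Icc 1 ⌊A⌋₊ ×ˢ (Finset.Icc 1 ⌊B⌋₊ ×ˢ Finset.Icc 1 ⌊C⌋₊) := by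
    intro q hq
    obtain ⟨x, hx, rfl⟩ := Finset.mem_image.1 hq
    obtain ⟨⟨p1, p2, p3⟩, hb⟩ := h x hx
    rw [Finset.mem_product, Finset.mem_product, Finset.mem_Icc, Finset.mem_Icc, Finset.mem_Icc]
    exact ⟨⟨p1, Nat.le_floor hb.a1⟩, ⟨p2, Nat.le_floor hb.b1⟩, p3, Nat.le_floor hb.c1⟩
  have h2 := Finset.card_le_card h1
  rw [Finset.card_product, Finset.card_product, Nat.card_Icc, Nat.card_Icc, Nat.card_Icc,
    Nat.add_sub_cancel, Nat.add_sub_cancel, Nat.add_sub_cancel] at h2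
  have h3 : ((S.image f).card : ℝ) ≤ (⌊A⌋₊ : ℝ) * ((⌊B⌋₊ : ℝ) * ⌊C⌋₊) := by exact_mod_cast h2
  have e1 : (⌊A⌋₊ : ℝ) ≤ A := Nat.floor_le (by linarith)
  have e2 : (⌊B⌋₊ : ℝ) ≤ B := Nat.floor_le (by linarith)
  have e3 : (⌊C⌋₊ : ℝ) ≤ C := Nat.floor_le (by linarith)
  rw [mul_assoc]
  refine h3.trans (mul_le_mul e1 (mul_le_mul e2 e3 (Nat.cast_nonneg _) (by linarith))
    (by positivity) (by linarith))

/-- the closeness in real numbers -/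
private theorem cl_real {δ : ℝ} {p : T6} (h : Cl δ p) :
    |(p.1.1 : ℝ) ^ 3 * (p.1.2.1 : ℝ) ^ 4 * (p.1.2.2 : ℝ) ^ 5 -
      (p.2.1 : ℝ) ^ 3 * (p.2.2.1 : ℝ) ^ 4 * (p.2.2.2 : ℝ) ^ 5| ≤
      δ * ((p.2.1 : ℝ) ^ 3 * (p.2.2.1 : ℝ) ^ 4 * (p.2.2.2 : ℝ) ^ 5) := by
  unfold Cl N3 at h
  push_cast at h
  exact h

/-- division of a closeness by a positive number -/
private theorem cl_div {x y u v δ r : ℝ} (hu : 0 < u) (hr : r = v / u)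
    (h : |x * u - y * v| ≤ δ * (y * v)) : |x - r * y| ≤ δ * (r * y) := by
  have h1 : x * u - y * v = u * (x - r * y) := by
    rw [hr]
    field_simp
  have h2 : δ * (y * v) = u * (δ * (r * y)) := by
    rw [hr]
    field_simp
  rw [h1, h2, abs_mul, abs_of_pos hu] at h
  exact le_of_mul_le_mul_left h hu

theorem bt : ∃ K : ℝ, 1 ≤ K ∧ ∀ (A B C A' B' C' δ : ℝ) (P : Finset T6), 1 ≤ A → 1 ≤ B → 1 ≤ C →
    1 ≤ A' → 1 ≤ B' → 1 ≤ C' → 0 ≤ δ → δ * (A * A') ≤ 1 →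
    (∀ p ∈ P, Pos3 p.1 ∧ Pos3 p.2 ∧ Blk3 A B C p.1 ∧ Blk3 A' B' C' p.2 ∧ Red p ∧ Cl δ p) →
    (P.card : ℝ) ≤ K * ((B * B') * (C * C')) := by
  obtain ⟨K, hK, hcls⟩ := cls
  refine ⟨2 * K, by linarith, ?_⟩
  intro A B C A' B' C' δ P hA hB hC hA' hB' hC' hδ hδA h
  have hK0 : (0 : ℝ) ≤ 2 * K := by linarith
  have h1 := fib P (fun p : T6 => (p.1.2, p.2.2)) (2 * K) ((B * C) * (B' * C')) hK0 ?_ ?_
  · calc (P.card : ℝ) ≤ (B * C) * (B' * C') * (2 * K) := h1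
      _ = 2 * K * ((B * B') * (C * C')) := by ring
  · intro y
    rcases (P.filter (fun p : T6 => (p.1.2, p.2.2) = y)).eq_empty_or_nonempty with he | ⟨p₀, hp₀⟩
    · rw [he, Finset.card_empty, Nat.cast_zero]
      exact hK0
    obtain ⟨hp₀P, hp₀y⟩ := Finset.mem_filter.1 hp₀
    obtain ⟨hq1, hq2, _, _, _, _⟩ := h p₀ hp₀P
    have e1 : y.1 = p₀.1.2 := by rw [← hp₀y]
    have e2 : y.2 = p₀.2.2 := by rw [← hp₀y]
    have hy1 : (0 : ℝ) < y.1.1 := by rw [e1]; exact_mod_cast hq1.2.1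
    have hy2 : (0 : ℝ) < y.1.2 := by rw [e1]; exact_mod_cast hq1.2.2
    have hy3 : (0 : ℝ) < y.2.1 := by rw [e2]; exact_mod_cast hq2.2.1
    have hy4 : (0 : ℝ) < y.2.2 := by rw [e2]; exact_mod_cast hq2.2.2
    have hinj : Set.InjOn (fun p : T6 => (p.1.1, p.2.1))
        (P.filter (fun p : T6 => (p.1.2, p.2.2) = y)) := by
      intro p hp p' hp' hpp
      have hp2 := (Finset.mem_filter.1 (Finset.mem_coe.1 hp)).2
      have hp2' := (Finset.mem_filter.1 (Finset.mem_coe.1 hp')).2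
      have e3 := Prod.ext_iff.1 (hp2.trans hp2'.symm)
      have e4 := Prod.ext_iff.1 hpp
      exact Prod.ext (Prod.ext e4.1 e3.1) (Prod.ext e4.2 e3.2)
    rw [← Finset.card_image_of_injOn hinj]
    refine (hcls A A' (((y.2.1 : ℝ) ^ 4 * (y.2.2 : ℝ) ^ 5) / ((y.1.1 : ℝ) ^ 4 * (y.1.2 : ℝ) ^ 5)) δ _ hA
      hA' (by positivity) hδ ?_).trans ?_
    · intro q hq
      obtain ⟨p, hp, rfl⟩ := Finset.mem_image.1 hq
      obtain ⟨hpP, hpy⟩ := Finset.mem_filter.1 hp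
      obtain ⟨_, _, b1, b2, hr, hc⟩ := h p hpP
      refine ⟨b1.a0, b1.a1, b2.a0, b2.a1, hr.1, ?_⟩
      have f1 : y.1 = p.1.2 := by rw [← hpy]
      have f2 : y.2 = p.2.2 := by rw [← hpy]
      have h3 := cl_real hc
      rw [← f1, ← f2, mul_assoc, mul_assoc] at h3
      exact cl_div (by positivity) rfl h3
    · nlinarith
  · refine box4 _ B C B' C' (by linarith) (by linarith) (by linarith) (by linarith) ?_
    intro q hq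
    obtain ⟨p, hp, rfl⟩ := Finset.mem_image.1 hq
    obtain ⟨p1, p2, b1, b2, _, _⟩ := h p hp
    exact ⟨⟨p1.2.1, b1.b1, p1.2.2, b1.c1⟩, p2.2.1, b2.b1, p2.2.2, b2.c1⟩

theorem bd_ab (A B C A' B' C' δ B0 : ℝ) (P : Finset T6) (hC : 1 ≤ C) (hC' : 1 ≤ C')
    (hδ : 0 ≤ δ) (hB0 : 0 ≤ B0)
    (h : ∀ p ∈ P, Pos3 p.1 ∧ Pos3 p.2 ∧ Blk3 A B C p.1 ∧ Blk3 A' B' C' p.2 ∧ Red p ∧ Cl δ p)
    (H : ∀ (κ : ℝ) (S : Finset Q4), 0 < κ → (∀ q ∈ S, Blk A A' B B' q ∧ Nr 4 κ δ q) →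
      (S.card : ℝ) ≤ B0) :
    (P.card : ℝ) ≤ (C * C') * B0 := by
  refine fib P (fun p : T6 => (p.1.2.2, p.2.2.2)) B0 (C * C') hB0 ?_ ?_
  · intro y
    rcases (P.filter (fun p : T6 => (p.1.2.2, p.2.2.2) = y)).eq_empty_or_nonempty with
      he | ⟨p₀, hp₀⟩
    · rw [he, Finset.card_empty, Nat.cast_zero]
      exact hB0
    obtain ⟨hp₀P, hp₀y⟩ := Finset.mem_filter.1 hp₀
    obtain ⟨hq1, hq2, _, _, _, _⟩ := h p₀ hp₀P
    have e1 : y.1 = p₀.1.2.2 := by rw [← hp₀y]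
    have e2 : y.2 = p₀.2.2.2 := by rw [← hp₀y]
    have hy1 : (0 : ℝ) < y.1 := by rw [e1]; exact_mod_cast hq1.2.2
    have hy2 : (0 : ℝ) < y.2 := by rw [e2]; exact_mod_cast hq2.2.2
    have hinj : Set.InjOn (fun p : T6 => (((p.1.1, p.2.1), (p.1.2.1, p.2.2.1)) : Q4))
        (P.filter (fun p : T6 => (p.1.2.2, p.2.2.2) = y)) := by
      intro p hp p' hp' hpp
      have hp2 := (Finset.mem_filter.1 (Finset.mem_coe.1 hp)).2
      have hp2' := (Finset.mem_filter.1 (Finset.mem_coe.1 hp')).2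
      have e3 := Prod.ext_iff.1 (hp2.trans hp2'.symm)
      have e4 := Prod.ext_iff.1 hpp
      have e5 := Prod.ext_iff.1 e4.1
      have e6 := Prod.ext_iff.1 e4.2
      exact Prod.ext (Prod.ext e5.1 (Prod.ext e6.1 e3.1)) (Prod.ext e5.2 (Prod.ext e6.2 e3.2))
    rw [← Finset.card_image_of_injOn hinj]
    refine H (((y.2 : ℝ) ^ 5) / ((y.1 : ℝ) ^ 5)) _ (by positivity) ?_
    intro q hq
    obtain ⟨p, hp, rfl⟩ := Finset.mem_image.1 hq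
    obtain ⟨hpP, hpy⟩ := Finset.mem_filter.1 hp
    obtain ⟨_, _, b1, b2, hr, hc⟩ := h p hpP
    refine ⟨⟨b1.a0, b1.a1, b2.a0, b2.a1, b1.b0, b1.b1, b2.b0, b2.b1, hr.1, hr.2.1⟩, ?_⟩
    have f1 : y.1 = p.1.2.2 := by rw [← hpy]
    have f2 : y.2 = p.2.2.2 := by rw [← hpy]
    have h3 := cl_real hc
    rw [← f1, ← f2] at h3
    exact cl_div (by positivity) rfl h3
  · refine box2 _ C C' (by linarith) (by linarith) ?_
    intro q hq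
    obtain ⟨p, hp, rfl⟩ := Finset.mem_image.1 hq
    obtain ⟨p1, p2, b1, b2, _, _⟩ := h p hp
    exact ⟨p1.2.2, b1.c1, p2.2.2, b2.c1⟩

theorem bd_ac (A B C A' B' C' δ B0 : ℝ) (P : Finset T6) (hB : 1 ≤ B) (hB' : 1 ≤ B')
    (hδ : 0 ≤ δ) (hB0 : 0 ≤ B0)
    (h : ∀ p ∈ P, Pos3 p.1 ∧ Pos3 p.2 ∧ Blk3 A B C p.1 ∧ Blk3 A' B' C' p.2 ∧ Red p ∧ Cl δ p)
    (H : ∀ (κ : ℝ) (S : Finset Q4), 0 < κ → (∀ q ∈ S, Blk A A' C C' q ∧ Nr 5 κ δ q) →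
      (S.card : ℝ) ≤ B0) :
    (P.card : ℝ) ≤ (B * B') * B0 := by
  refine fib P (fun p : T6 => (p.1.2.1, p.2.2.1)) B0 (B * B') hB0 ?_ ?_
  · intro y
    rcases (P.filter (fun p : T6 => (p.1.2.1, p.2.2.1) = y)).eq_empty_or_nonempty with
      he | ⟨p₀, hp₀⟩
    · rw [he, Finset.card_empty, Nat.cast_zero]
      exact hB0
    obtain ⟨hp₀P, hp₀y⟩ := Finset.mem_filter.1 hp₀
    obtain ⟨hq1, hq2, _, _, _, _⟩ := h p₀ hp₀P
    have e1 : y.1 = p₀.1.2.1 := by rw [← hp₀y]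
    have e2 : y.2 = p₀.2.2.1 := by rw [← hp₀y]
    have hy1 : (0 : ℝ) < y.1 := by rw [e1]; exact_mod_cast hq1.2.1
    have hy2 : (0 : ℝ) < y.2 := by rw [e2]; exact_mod_cast hq2.2.1
    have hinj : Set.InjOn (fun p : T6 => (((p.1.1, p.2.1), (p.1.2.2, p.2.2.2)) : Q4))
        (P.filter (fun p : T6 => (p.1.2.1, p.2.2.1) = y)) := by
      intro p hp p' hp' hpp
      have hp2 := (Finset.mem_filter.1 (Finset.mem_coe.1 hp)).2
      have hp2' := (Finset.mem_filter.1 (Finset.mem_coe.1 hp')).2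
      have e3 := Prod.ext_iff.1 (hp2.trans hp2'.symm)
      have e4 := Prod.ext_iff.1 hpp
      have e5 := Prod.ext_iff.1 e4.1
      have e6 := Prod.ext_iff.1 e4.2
      exact Prod.ext (Prod.ext e5.1 (Prod.ext e3.1 e6.1)) (Prod.ext e5.2 (Prod.ext e3.2 e6.2))
    rw [← Finset.card_image_of_injOn hinj]
    refine H (((y.2 : ℝ) ^ 4) / ((y.1 : ℝ) ^ 4)) _ (by positivity) ?_
    intro q hq
    obtain ⟨p, hp, rfl⟩ := Finset.mem_image.1 hq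
    obtain ⟨hpP, hpy⟩ := Finset.mem_filter.1 hp
    obtain ⟨_, _, b1, b2, hr, hc⟩ := h p hpP
    refine ⟨⟨b1.a0, b1.a1, b2.a0, b2.a1, b1.c0, b1.c1, b2.c0, b2.c1, hr.1, hr.2.2⟩, ?_⟩
    have f1 : y.1 = p.1.2.1 := by rw [← hpy]
    have f2 : y.2 = p.2.2.1 := by rw [← hpy]
    have h3 := cl_real hc
    rw [← f1, ← f2, mul_right_comm, mul_right_comm ((p.2.1 : ℝ) ^ 3)] at h3
    exact cl_div (by positivity) rfl h3
  · refine box2 _ B B' (by linarith) (by linarith) ?_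
    intro q hq
    obtain ⟨p, hp, rfl⟩ := Finset.mem_image.1 hq
    obtain ⟨p1, p2, b1, b2, _, _⟩ := h p hp
    exact ⟨p1.2.1, b1.b1, p2.2.1, b2.b1⟩

end Pool.Agent.PWG
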