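import Pool.Agent.PWG.PMn
import Pool.Agent.GL3.Defs

set_option autoImplicit false

/-!
# PWG-CFd: cube-free numbers as `b c^2` (job PWG-CFd)

Plan. `w = ∏ p^(v_p w)` with `v_p w ∈ {1, 2}` for `p ∣ w`: `b = ∏ of the primes with v_p = 1`, `c = ∏ of the primes with
v_p = 2` (products over filters of `w.primeFactors`; `Nat.factorization_prod_pow_eq_self`). Then `rad w = b c`.
`cf_A`: `A w * j^3 = w rad^3 j^3 = j^3 b^4 c^5`. `cf_alpha`: `τ w ^ 3 = A w = b^4 c^5 = wt^3` (`tau_cube`).
-/

namespace Pool.Agent.PWG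

open Pool.Agent.GL3

theorem cf_rep {w : ℕ} (hw : CF w) : ∃ b c : ℕ, 0 < b ∧ 0 < c ∧ w = b * c ^ 2 ∧ rad w = b * c := by
  classical
  have hw0 : w ≠ 0 := hw.1.ne'
  have hpos : ∀ s : Finset ℕ, s ⊆ w.primeFactors → 0 < ∏ p ∈ s, p := fun s hs =>
    Finset.prod_pos fun p hp => (Nat.prime_of_mem_primeFactors (hs hp)).pos
  refine ⟨∏ p ∈ w.primeFactors.filter (fun p => w.factorization p = 1), p,
    ∏ p ∈ w.primeFactors.filter (fun p => ¬ w.factorization p = 1), p, hpos _ (Finset.filter_subset _ _),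
    hpos _ (Finset.filter_subset _ _), ?_, ?_⟩
  · have h1 : w = ∏ p ∈ w.primeFactors, p ^ w.factorization p := by
      have h2 := Nat.prod_factorization_pow_eq_self hw0
      rw [Finsupp.prod, Nat.support_factorization] at h2
      exact h2.symm
    have h3 := Finset.prod_filter_mul_prod_filter_not w.primeFactors (fun p => w.factorization p = 1)
      (fun p => p ^ w.factorization p)
    have h4 : ∏ p ∈ w.primeFactors.filter (fun p => w.factorization p = 1), p ^ w.factorization p =
        ∏ p ∈ w.primeFactors.filter (fun p => w.factorization p = 1), p := by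
      refine Finset.prod_congr rfl fun p hp => ?_
      rw [(Finset.mem_filter.1 hp).2, pow_one]
    have h5 : ∏ p ∈ w.primeFactors.filter (fun p => ¬ w.factorization p = 1), p ^ w.factorization p =
        (∏ p ∈ w.primeFactors.filter (fun p => ¬ w.factorization p = 1), p) ^ 2 := by
      rw [← Finset.prod_pow]
      refine Finset.prod_congr rfl fun p hp => ?_
      obtain ⟨hp1, hp2⟩ := Finset.mem_filter.1 hp
      have hpp := Nat.prime_of_mem_primeFactors hp1
      have h6 : 1 ≤ w.factorization p :=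
        (hpp.dvd_iff_one_le_factorization hw0).1 (Nat.dvd_of_mem_primeFactors hp1)
      have h7 : w.factorization p < 3 := by
        by_contra hcon
        exact hw.2 p hpp ((hpp.pow_dvd_iff_le_factorization hw0).2 (not_lt.1 hcon))
      have h8 : w.factorization p = 2 := by omega
      rw [h8]
    rw [h4, h5] at h3
    rw [h3]
    exact h1
  · unfold rad
    exact (Finset.prod_filter_mul_prod_filter_not w.primeFactors (fun p => w.factorization p = 1)
      (fun p => p)).symm

theorem cf_A {w b c : ℕ} (h1 : w = b * c ^ 2) (h2 : rad w = b * c) (j : ℕ) :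
    A w * j ^ 3 = N3 (j, b, c) := by
  unfold A N3
  rw [h2, h1]
  ring

theorem cf_alpha {w b c : ℕ} (hw : CF w) (h1 : w = b * c ^ 2) (h2 : rad w = b * c) :
    α w = 1 / wt b c := by
  rw [alpha_of_CF hw]
  congr 1
  have hA : (A w : ℝ) = (b : ℝ) ^ 4 * (c : ℝ) ^ 5 := by
    have h3 := cf_A h1 h2 1
    unfold N3 at h3
    have h4 : A w = b ^ 4 * c ^ 5 := by
      rw [one_pow, mul_one] at h3
      simpa using h3
    rw [h4]
    push_cast
    ring
  have h0 : (0 : ℝ) ≤ (b : ℝ) ^ 4 * (c : ℝ) ^ 5 := by positivity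
  have h5 : wt b c ^ 3 = (b : ℝ) ^ 4 * (c : ℝ) ^ 5 := by
    unfold wt
    rw [← Real.rpow_natCast, ← Real.rpow_mul h0]
    norm_num
  have h6 : 0 ≤ wt b c := by
    unfold wt
    exact Real.rpow_nonneg h0 _
  have h7 := tau_cube w
  rw [hA, ← h5] at h7
  exact (pow_left_inj₀ (tau_pos hw).le h6 three_ne_zero).1 h7

end Pool.Agent.PWG
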