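import Pool.Agent.PWG.AT
import Pool.Agent.PWG.CFd
import Pool.Agent.GL3.Bad

set_option autoImplicit false

/-!
# PWG-BadD: small gaps with a class outside `F`, one dyadic range

The pairs (number, successor) in the form `((j, b, c), (j', b', c'))` satisfy `Raw`, `at_main` applies; the sum over
the classes is bounded by the tail of the class sum.
-/

namespace Pool.Agent.PWG

open Pool.Agent.GL3

/-- a representation of `n` and of its successor -/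
private structure BdG (F : Finset ℕ) (s : ℝ) (n : ℕ) (p : T6) : Prop where
  pos : Pos3 p.1 ∧ Pos3 p.2
  e1 : N3 p.1 = n
  lt : n < N3 p.2
  suc : ∀ m : ℕ, P3 m → n < m → N3 p.2 ≤ m
  near : cr (N3 p.2) ≤ cr n + s
  c1 : CF (p.1.2.1 * p.1.2.2 ^ 2) ∧ rad (p.1.2.1 * p.1.2.2 ^ 2) = p.1.2.1 * p.1.2.2
  c2 : CF (p.2.2.1 * p.2.2.2 ^ 2) ∧ rad (p.2.2.1 * p.2.2.2 ^ 2) = p.2.2.1 * p.2.2.2
  out : p.1.2.1 * p.1.2.2 ^ 2 ∉ F ∨ p.2.2.1 * p.2.2.2 ^ 2 ∉ F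

private theorem bd_ex {F : Finset ℕ} {s T : ℝ} {n : ℕ} (hn : n ∈ Bad F s T) :
    ∃ p : T6, BdG F s n p := by
  classical
  unfold Bad at hn
  rw [Finset.mem_filter] at hn
  obtain ⟨h1, w, j, w', j', h2, h3, h4, h5, h6, h7, h8, h9, h10⟩ := hn
  obtain ⟨b, c, hb, hc, hw, hr⟩ := cf_rep h2
  obtain ⟨b', c', hb', hc', hw', hr'⟩ := cf_rep h3
  have e := cf_A hw hr j
  have e' := cf_A hw' hr' j'
  rw [e'] at h7 h8 h9
  refine ⟨((j, b, c), (j', b', c')), ⟨⟨h4, hb, hc⟩, ⟨h5, hb', hc'⟩⟩, ?_, h7, h8, h9, ?_, ?_, ?_⟩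
  · rw [h6, e]
  · show CF (b * c ^ 2) ∧ rad (b * c ^ 2) = b * c
    rw [← hw]
    exact ⟨h2, hr⟩
  · show CF (b' * c' ^ 2) ∧ rad (b' * c' ^ 2) = b' * c'
    rw [← hw']
    exact ⟨h3, hr'⟩
  · show b * c ^ 2 ∉ F ∨ b' * c' ^ 2 ∉ F
    rw [← hw, ← hw']
    exact h10

private theorem bd_inj {b c b' c' : ℕ} (h0 : 0 < b * c ^ 2) (h : b * c ^ 2 = b' * c' ^ 2)
    (hr : b * c = b' * c') : b = b' ∧ c = c' := by
  have hb : 0 < b := Nat.pos_of_ne_zero (by rintro rfl; simp at h0)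
  have hc : 0 < c := Nat.pos_of_ne_zero (by rintro rfl; simp at h0)
  have h1 : b * c * c = b * c * c' := by
    calc b * c * c = b * c ^ 2 := by ring
      _ = b' * c' * c' := by rw [h]; ring
      _ = b * c * c' := by rw [hr]
  have h2 : c = c' := Nat.eq_of_mul_eq_mul_left (Nat.mul_pos hb hc) h1
  rw [← h2] at hr
  exact ⟨Nat.eq_of_mul_eq_mul_right hc hr, h2⟩

private theorem bd_pairs {F : Finset ℕ} {ε : ℝ}
    (hF : ∀ W : Finset ℕ, (∀ w ∈ W, CF w) → ∑ w ∈ W, (if w ∈ F then 0 else α w) ≤ ε)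
    (Q : Finset (ℕ × ℕ)) (hQ : ∀ q ∈ Q, CF q.1 ∧ CF q.2 ∧ (q.1 ∉ F ∨ q.2 ∉ F)) :
    ∑ q ∈ Q, α q.1 * α q.2 ≤ 2 * (ε * γ) := by
  classical
  obtain ⟨W, hW⟩ : ∃ W, W = Q.image Prod.fst ∪ Q.image Prod.snd := ⟨_, rfl⟩
  have hWC : ∀ w ∈ W, CF w := fun w hw => by
    rw [hW, Finset.mem_union, Finset.mem_image, Finset.mem_image] at hw
    rcases hw with ⟨q, hq, rfl⟩ | ⟨q, hq, rfl⟩
    · exact (hQ q hq).1
    · exact (hQ q hq).2.1
  have h1 : ∑ w ∈ W, α w ≤ γ := summable_alpha.sum_le_tsum W fun w _ => alpha_nonneg w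
  have h2 := hF W hWC
  have h0 : 0 ≤ ∑ w ∈ W, α w := Finset.sum_nonneg fun w _ => alpha_nonneg w
  have ha : ∀ w, 0 ≤ (if w ∈ F then 0 else α w) := fun w => by
    split_ifs
    · exact le_rfl
    · exact alpha_nonneg w
  have h0' : 0 ≤ ∑ w ∈ W, (if w ∈ F then 0 else α w) := Finset.sum_nonneg fun w _ => ha w
  have h3 : ∑ p ∈ Q, α p.1 * α p.2 ≤
      ∑ p ∈ W ×ˢ W, ((if p.1 ∈ F then 0 else α p.1) * α p.2 +
        α p.1 * (if p.2 ∈ F then 0 else α p.2)) := by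
    have h4 : Q ⊆ W ×ˢ W := by
      intro q hq
      rw [Finset.mem_product, hW, Finset.mem_union, Finset.mem_union]
      exact ⟨Or.inl (Finset.mem_image_of_mem _ hq), Or.inr (Finset.mem_image_of_mem _ hq)⟩
    refine (Finset.sum_le_sum fun p hp => ?_).trans
      (Finset.sum_le_sum_of_subset_of_nonneg h4 fun p _ _ => ?_)
    · have n1 := alpha_nonneg p.1
      have n2 := alpha_nonneg p.2
      rcases (hQ p hp).2.2 with h5 | h5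
      · rw [if_neg h5]
        have := mul_nonneg n1 (ha p.2)
        linarith
      · rw [if_neg h5]
        have := mul_nonneg (ha p.1) n2
        linarith
    · exact add_nonneg (mul_nonneg (ha _) (alpha_nonneg _)) (mul_nonneg (alpha_nonneg _) (ha _))
  refine h3.trans ?_
  rw [Finset.sum_add_distrib, Finset.sum_product, Finset.sum_product]
  simp only [← Finset.mul_sum, ← Finset.sum_mul]
  have h6 : (∑ w ∈ W, (if w ∈ F then 0 else α w)) * ∑ w ∈ W, α w ≤ ε * γ :=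
    mul_le_mul h2 h1 h0 (h0'.trans h2)
  have h7 : (∑ w ∈ W, α w) * (∑ w ∈ W, (if w ∈ F then 0 else α w)) ≤ ε * γ := by
    rw [mul_comm]
    exact h6
  linarith

private theorem bd_classes {F : Finset ℕ} {ε s : ℝ}
    (hF : ∀ W : Finset ℕ, (∀ w ∈ W, CF w) → ∑ w ∈ W, (if w ∈ F then 0 else α w) ≤ ε)
    (P : Finset T6) (hP : ∀ p ∈ P, ∃ n, BdG F s n p) [DecidableEq ((ℕ × ℕ) × (ℕ × ℕ))] :
    ∑ k ∈ P.image cl, 1 / (wt k.1.1 k.1.2 * wt k.2.1 k.2.2) ≤ 2 * (ε * γ) := by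
  classical
  have hk : ∀ k ∈ P.image cl,
      (CF (k.1.1 * k.1.2 ^ 2) ∧ rad (k.1.1 * k.1.2 ^ 2) = k.1.1 * k.1.2) ∧
      (CF (k.2.1 * k.2.2 ^ 2) ∧ rad (k.2.1 * k.2.2 ^ 2) = k.2.1 * k.2.2) ∧
      (k.1.1 * k.1.2 ^ 2 ∉ F ∨ k.2.1 * k.2.2 ^ 2 ∉ F) := by
    intro k hk
    obtain ⟨p, hp, rfl⟩ := Finset.mem_image.1 hk
    obtain ⟨n, hn⟩ := hP p hp
    exact ⟨hn.c1, hn.c2, hn.out⟩
  obtain ⟨ψ, hψ⟩ : ∃ ψ : (ℕ × ℕ) × (ℕ × ℕ) → ℕ × ℕ,
      ψ = fun k => (k.1.1 * k.1.2 ^ 2, k.2.1 * k.2.2 ^ 2) := ⟨_, rfl⟩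
  have hinj : Set.InjOn ψ (P.image cl : Finset ((ℕ × ℕ) × (ℕ × ℕ))) := by
    intro k hk1 k' hk2 he
    rw [Finset.mem_coe] at hk1 hk2
    obtain ⟨⟨a1, a2⟩, ⟨a3, a4⟩, -⟩ := hk k hk1
    obtain ⟨⟨b1, b2⟩, ⟨b3, b4⟩, -⟩ := hk k' hk2
    rw [hψ] at he
    have e1 : k.1.1 * k.1.2 ^ 2 = k'.1.1 * k'.1.2 ^ 2 := congrArg Prod.fst he
    have e2 : k.2.1 * k.2.2 ^ 2 = k'.2.1 * k'.2.2 ^ 2 := congrArg Prod.snd he
    have r1 : k.1.1 * k.1.2 = k'.1.1 * k'.1.2 := by rw [← a2, e1, b2]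
    have r2 : k.2.1 * k.2.2 = k'.2.1 * k'.2.2 := by rw [← a4, e2, b4]
    obtain ⟨q1, q2⟩ := bd_inj a1.1 e1 r1
    obtain ⟨q3, q4⟩ := bd_inj a3.1 e2 r2
    exact Prod.ext (Prod.ext q1 q2) (Prod.ext q3 q4)
  have hsum : ∑ k ∈ P.image cl, 1 / (wt k.1.1 k.1.2 * wt k.2.1 k.2.2) =
      ∑ q ∈ (P.image cl).image ψ, α q.1 * α q.2 := by
    rw [Finset.sum_image hinj]
    refine Finset.sum_congr rfl fun k hk1 => ?_
    obtain ⟨⟨a1, a2⟩, ⟨a3, a4⟩, -⟩ := hk k hk1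
    rw [hψ]
    show _ = α (k.1.1 * k.1.2 ^ 2) * α (k.2.1 * k.2.2 ^ 2)
    rw [cf_alpha a1 rfl a2, cf_alpha a3 rfl a4, div_mul_div_comm, one_mul]
  rw [hsum]
  refine bd_pairs hF _ fun q hq => ?_
  obtain ⟨k, hk1, rfl⟩ := Finset.mem_image.1 hq
  obtain ⟨⟨a1, a2⟩, ⟨a3, a4⟩, a5⟩ := hk k hk1
  rw [hψ]
  exact ⟨a1, a3, a5⟩

private theorem bd_rpow {T s : ℝ} (hT : 0 < T) (hs : 0 < s) :
    (T / 2) ^ ((3 : ℝ) / 4) * (27 * s * (T / 2) ^ 2) ^ ((1 : ℝ) / 12) ≤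
      2 * (T ^ ((11 : ℝ) / 12) * s ^ ((1 : ℝ) / 12)) := by
  have e1 : (T / 2) ^ ((3 : ℝ) / 4) ≤ T ^ ((3 : ℝ) / 4) :=
    Real.rpow_le_rpow (by positivity) (by linarith) (by norm_num)
  have e2 : (27 * s * (T / 2) ^ 2) ^ ((1 : ℝ) / 12) ≤
      ((2 : ℝ) ^ 12 * (s * T ^ 2)) ^ ((1 : ℝ) / 12) := by
    refine Real.rpow_le_rpow (by positivity) ?_ (by norm_num)
    have h1 : 0 < s * T ^ 2 := by positivity
    have h2 : 27 * s * (T / 2) ^ 2 = 27 / 4 * (s * T ^ 2) := by ring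
    rw [h2]
    norm_num
    linarith
  have e3 : ((2 : ℝ) ^ 12 * (s * T ^ 2)) ^ ((1 : ℝ) / 12) =
      2 * (s ^ ((1 : ℝ) / 12) * T ^ ((1 : ℝ) / 6)) := by
    rw [Real.mul_rpow (by positivity) (by positivity), Real.mul_rpow hs.le (by positivity),
      ← Real.rpow_natCast 2 12, ← Real.rpow_mul (by norm_num), ← Real.rpow_natCast T 2,
      ← Real.rpow_mul hT.le]
    norm_num
  have e4 : T ^ ((3 : ℝ) / 4) * T ^ ((1 : ℝ) / 6) = T ^ ((11 : ℝ) / 12) := by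
    rw [← Real.rpow_add hT]
    norm_num
  calc (T / 2) ^ ((3 : ℝ) / 4) * (27 * s * (T / 2) ^ 2) ^ ((1 : ℝ) / 12)
      ≤ T ^ ((3 : ℝ) / 4) * (2 * (s ^ ((1 : ℝ) / 12) * T ^ ((1 : ℝ) / 6))) := by
        rw [← e3]
        exact mul_le_mul e1 e2 (by positivity) (by positivity)
    _ = 2 * ((T ^ ((3 : ℝ) / 4) * T ^ ((1 : ℝ) / 6)) * s ^ ((1 : ℝ) / 12)) := by ring
    _ = 2 * (T ^ ((11 : ℝ) / 12) * s ^ ((1 : ℝ) / 12)) := by rw [e4]

open Classical in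
private theorem bd_raw {F : Finset ℕ} {T s : ℝ} (hT : 2 ≤ T) (hs : 0 < s) (hs1 : s ≤ 1)
    {f : ℕ → T6} {S : Finset ℕ} (hf : ∀ n ∈ S, BdG F s n (f n))
    (hS : ∀ n ∈ S, P3 n ∧ cr n ≤ T ∧ T / 2 < cr n) :
    Raw (T / 2) (27 * s * (T / 2) ^ 2) (S.image f) := by
  have hnum : ∀ n ∈ S, (T / 2) ^ 3 ≤ (n : ℝ) ∧ (n : ℝ) ≤ 27 * (T / 2) ^ 3 ∧
      (T / 2) ^ 3 ≤ (N3 (f n).2 : ℝ) ∧ (N3 (f n).2 : ℝ) ≤ 27 * (T / 2) ^ 3 ∧
      |(n : ℝ) - N3 (f n).2| ≤ 27 * s * (T / 2) ^ 2 := by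
    intro n hn
    obtain ⟨a, ha⟩ : ∃ a, a = cr n := ⟨_, rfl⟩
    obtain ⟨b, hb⟩ : ∃ b, b = cr (N3 (f n).2) := ⟨_, rfl⟩
    have hg := hf n hn
    obtain ⟨-, h2, h3⟩ := hS n hn
    have h4 := hg.near
    have h5 := cr_lt.2 hg.lt
    rw [← ha] at h2 h3 h4 h5
    rw [← hb] at h4 h5
    have ea : (n : ℝ) = a ^ 3 := by rw [ha, cr_cube]
    have eb : (N3 (f n).2 : ℝ) = b ^ 3 := by rw [hb, cr_cube]
    rw [ea, eb]
    have hT0 : 0 < T / 2 := by linarith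
    have ha0 : 0 < a := by linarith
    have hb0 : 0 < b := by linarith
    have hb3 : b ≤ 3 * (T / 2) := by linarith
    have ha3 : a ≤ 3 * (T / 2) := by linarith
    have h27 : (3 * (T / 2)) ^ 3 = 27 * (T / 2) ^ 3 := by ring
    refine ⟨pow_le_pow_left₀ hT0.le h3.le 3, ?_, pow_le_pow_left₀ hT0.le (by linarith) 3, ?_, ?_⟩
    · rw [← h27]
      exact pow_le_pow_left₀ ha0.le ha3 3
    · rw [← h27]
      exact pow_le_pow_left₀ hb0.le hb3 3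
    · have hab : a ^ 3 ≤ b ^ 3 := pow_le_pow_left₀ ha0.le h5.le 3
      rw [abs_sub_comm, abs_of_nonneg (by linarith)]
      have e1 : b ^ 3 - a ^ 3 = (b - a) * (b * b + b * a + a * a) := by ring
      have e2 : b * b + b * a + a * a ≤ 3 * (3 * (T / 2) * (3 * (T / 2))) := by
        have q1 := mul_le_mul hb3 hb3 hb0.le (by linarith : 0 ≤ 3 * (T / 2))
        have q2 := mul_le_mul hb3 ha3 ha0.le (by linarith : 0 ≤ 3 * (T / 2))
        have q3 := mul_le_mul ha3 ha3 ha0.le (by linarith : 0 ≤ 3 * (T / 2))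
        linarith
      rw [e1]
      calc (b - a) * (b * b + b * a + a * a) ≤ s * (3 * (3 * (T / 2) * (3 * (T / 2)))) :=
            mul_le_mul (by linarith) e2 (by positivity) hs.le
        _ = 27 * s * (T / 2) ^ 2 := by ring
  have hinjn : ∀ n1 ∈ S, ∀ n2 ∈ S, N3 (f n1).2 = N3 (f n2).2 → n1 = n2 := by
    intro n1 h1 n2 h2 he
    have g1 := hf n1 h1
    have g2 := hf n2 h2
    rcases Nat.lt_trichotomy n1 n2 with h | h | h
    · have h3 := g1.suc n2 (hS n2 h2).1 h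
      have h4 := g2.lt
      omega
    · exact h
    · have h3 := g2.suc n1 (hS n1 h1).1 h
      have h4 := g1.lt
      omega
  refine ⟨?_, ?_, ?_, ?_, ?_, ?_, ?_⟩
  · intro p hp
    obtain ⟨n, hn, rfl⟩ := Finset.mem_image.1 hp
    exact (hf n hn).pos
  · intro p hp
    obtain ⟨n, hn, rfl⟩ := Finset.mem_image.1 hp
    rw [(hf n hn).e1]
    obtain ⟨a1, a2, a3, a4, a5⟩ := hnum n hn
    exact ⟨a1, a3⟩
  · intro p hp
    obtain ⟨n, hn, rfl⟩ := Finset.mem_image.1 hp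
    rw [(hf n hn).e1]
    obtain ⟨a1, a2, a3, a4, a5⟩ := hnum n hn
    exact ⟨a2, a4⟩
  · intro p hp
    obtain ⟨n, hn, rfl⟩ := Finset.mem_image.1 hp
    rw [(hf n hn).e1]
    exact (hf n hn).lt.ne
  · intro p hp
    obtain ⟨n, hn, rfl⟩ := Finset.mem_image.1 hp
    rw [(hf n hn).e1]
    obtain ⟨a1, a2, a3, a4, a5⟩ := hnum n hn
    exact a5
  · intro p hp q hq he
    obtain ⟨n, hn, rfl⟩ := Finset.mem_image.1 (Finset.mem_coe.1 hp)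
    obtain ⟨m, hm, rfl⟩ := Finset.mem_image.1 (Finset.mem_coe.1 hq)
    have he' : (f n).1 = (f m).1 := he
    have h1 : n = m := by rw [← (hf n hn).e1, ← (hf m hm).e1, he']
    rw [h1]
  · intro p hp q hq he
    obtain ⟨n, hn, rfl⟩ := Finset.mem_image.1 (Finset.mem_coe.1 hp)
    obtain ⟨m, hm, rfl⟩ := Finset.mem_image.1 (Finset.mem_coe.1 hq)
    have he' : (f n).2 = (f m).2 := he
    have h1 : n = m := hinjn n hn m hm (by rw [he'])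
    rw [h1]

open Classical in
theorem bad_dy : ∃ K : ℝ, 1 ≤ K ∧ ∀ (F : Finset ℕ) (ε T s : ℝ),
    (∀ W : Finset ℕ, (∀ w ∈ W, CF w) → ∑ w ∈ W, (if w ∈ F then 0 else α w) ≤ ε) → 2 ≤ T →
    0 < s → s ≤ 1 →
    (((Bad F s T).filter (fun n => T / 2 < cr n)).card : ℝ) ≤
      K * (ε * (s * T) + (1 + Real.log T) ^ 5 * (T ^ ((11 : ℝ) / 12) * s ^ ((1 : ℝ) / 12))) := by
  obtain ⟨K1, hK1, H⟩ := at_main
  have hγ1 : 1 ≤ γ := one_le_gamma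
  refine ⟨27 * K1 * (γ + 1), by nlinarith, ?_⟩
  intro F ε T s hF hT hs hs1
  have hε : 0 ≤ ε := by
    have h1 := hF ∅ (fun w hw => absurd hw (Finset.notMem_empty w))
    rwa [Finset.sum_empty] at h1
  have hT0 : 0 < T := by linarith
  obtain ⟨S, hSd⟩ : ∃ S, S = (Bad F s T).filter (fun n => T / 2 < cr n) := ⟨_, rfl⟩
  rw [← hSd]
  have hS : ∀ n ∈ S, P3 n ∧ cr n ≤ T ∧ T / 2 < cr n := by
    intro n hn
    rw [hSd, Finset.mem_filter] at hn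
    have h1 := hn.1
    unfold Bad at h1
    rw [Finset.mem_filter, mem_PT hT0.le] at h1
    exact ⟨h1.1.1, h1.1.2, hn.2⟩
  have hex : ∀ n ∈ S, ∃ p : T6, BdG F s n p := by
    intro n hn
    rw [hSd, Finset.mem_filter] at hn
    exact bd_ex hn.1
  choose! f hf using hex
  have hraw := bd_raw hT hs hs1 hf hS
  have hcard : (S.image f).card = S.card := by
    refine Finset.card_image_of_injOn ?_
    intro n hn m hm he
    have he' : f n = f m := he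
    rw [← (hf n hn).e1, ← (hf m hm).e1, he']
  have h1 := H (T / 2) (27 * s * (T / 2) ^ 2) (S.image f) (by linarith) (by positivity) hraw
  rw [hcard] at h1
  have h2 : ∑ k ∈ (S.image f).image cl, 1 / (wt k.1.1 k.1.2 * wt k.2.1 k.2.2) ≤ 2 * (ε * γ) := by
    refine bd_classes (s := s) hF _ fun p hp => ?_
    obtain ⟨n, hn, rfl⟩ := Finset.mem_image.1 hp
    exact ⟨n, hf n hn⟩
  have h3 := bd_rpow hT0 hs
  have hl0 : 0 ≤ Real.log (T / 2) := Real.log_nonneg (by linarith)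
  have hl1 : Real.log (T / 2) ≤ Real.log T := Real.log_le_log (by linarith) (by linarith)
  have h4 : (1 + Real.log (T / 2)) ^ 5 ≤ (1 + Real.log T) ^ 5 :=
    pow_le_pow_left₀ (by linarith) (by linarith) 5
  have h5 : 27 * s * (T / 2) ^ 2 / (T / 2) = 27 / 2 * (s * T) := by
    field_simp
  rw [h5] at h1
  have hR : 0 ≤ T ^ ((11 : ℝ) / 12) * s ^ ((1 : ℝ) / 12) := by positivity
  have hL : 0 ≤ (1 + Real.log T) ^ 5 := by
    have : 0 ≤ 1 + Real.log T := by linarith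
    positivity
  have h6 : (1 + Real.log (T / 2)) ^ 5 *
      ((T / 2) ^ ((3 : ℝ) / 4) * (27 * s * (T / 2) ^ 2) ^ ((1 : ℝ) / 12)) ≤
      (1 + Real.log T) ^ 5 * (2 * (T ^ ((11 : ℝ) / 12) * s ^ ((1 : ℝ) / 12))) :=
    mul_le_mul h4 h3 (by positivity) hL
  have h7 : 27 / 2 * (s * T) * ∑ k ∈ (S.image f).image cl,
      1 / (wt k.1.1 k.1.2 * wt k.2.1 k.2.2) ≤ 27 / 2 * (s * T) * (2 * (ε * γ)) :=
    mul_le_mul_of_nonneg_left h2 (by positivity)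
  have hK0 : 0 ≤ K1 := by linarith
  have hX : 0 ≤ ε * (s * T) := by positivity
  have hY : 0 ≤ (1 + Real.log T) ^ 5 * (T ^ ((11 : ℝ) / 12) * s ^ ((1 : ℝ) / 12)) :=
    mul_nonneg hL hR
  calc (S.card : ℝ) ≤ K1 * (27 / 2 * (s * T) * (2 * (ε * γ)) +
        (1 + Real.log T) ^ 5 * (2 * (T ^ ((11 : ℝ) / 12) * s ^ ((1 : ℝ) / 12)))) :=
        h1.trans (mul_le_mul_of_nonneg_left (add_le_add h7 h6) hK0)
    _ = 27 * K1 * γ * (ε * (s * T)) +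
        2 * K1 * ((1 + Real.log T) ^ 5 * (T ^ ((11 : ℝ) / 12) * s ^ ((1 : ℝ) / 12))) := by ring
    _ ≤ 27 * K1 * (γ + 1) * (ε * (s * T)) + 27 * K1 * (γ + 1) *
        ((1 + Real.log T) ^ 5 * (T ^ ((11 : ℝ) / 12) * s ^ ((1 : ℝ) / 12))) := by
        refine add_le_add (mul_le_mul_of_nonneg_right ?_ hX) (mul_le_mul_of_nonneg_right ?_ hY)
        · nlinarith
        · nlinarith
    _ = 27 * K1 * (γ + 1) * (ε * (s * T) + (1 + Real.log T) ^ 5 *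
        (T ^ ((11 : ℝ) / 12) * s ^ ((1 : ℝ) / 12))) := by ring

end Pool.Agent.PWG
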