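import Pool.Agent.PWG.BadD

set_option autoImplicit false

/-!
# PWG-BadS: small gaps with a class outside a finite set, range up to `T^(-1/11)` (job PWG-BadS)

The dyadic ranges are summed by induction on their number.
-/

namespace Pool.Agent.PWG

open Pool.Agent.GL3 Filter Topology

private theorem bs_half {T : ℝ} (hT : 0 ≤ T) :
    (T / 2) ^ ((11 : ℝ) / 12) ≤ 2 / 3 * T ^ ((11 : ℝ) / 12) := by
  have h2 : (3 : ℝ) / 2 ≤ (2 : ℝ) ^ ((11 : ℝ) / 12) := by
    have h3 : ((3 : ℝ) / 2) = (((3 : ℝ) / 2) ^ (12 : ℕ)) ^ ((1 : ℝ) / 12) := by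
      rw [← Real.rpow_natCast, ← Real.rpow_mul (by norm_num)]
      norm_num
    have h4 : (2 : ℝ) ^ ((11 : ℝ) / 12) = ((2 : ℝ) ^ (11 : ℕ)) ^ ((1 : ℝ) / 12) := by
      rw [← Real.rpow_natCast, ← Real.rpow_mul (by norm_num)]
      norm_num
    rw [h3, h4]
    exact Real.rpow_le_rpow (by norm_num) (by norm_num) (by norm_num)
  have hp : (0 : ℝ) < (2 : ℝ) ^ ((11 : ℝ) / 12) := by positivity
  rw [Real.div_rpow hT (by norm_num), div_le_iff₀ hp]
  have h5 : 0 ≤ T ^ ((11 : ℝ) / 12) := Real.rpow_nonneg hT _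
  nlinarith

private theorem bs_iter {K : ℝ} (hK : 1 ≤ K) {F : Finset ℕ} {ε1 s L : ℝ} (hε1 : 0 ≤ ε1) (hs : 0 < s)
    (hL : 0 ≤ L) {Tm : ℝ} (hLT : ∀ T : ℝ, 1 ≤ T → T ≤ Tm → (1 + Real.log T) ^ 5 ≤ L)
    (hdy : ∀ T : ℝ, 2 ≤ T → (((Bad F s T).filter (fun n => T / 2 < cr n)).card : ℝ) ≤
      K * (ε1 * (s * T) + (1 + Real.log T) ^ 5 * (T ^ ((11 : ℝ) / 12) * s ^ ((1 : ℝ) / 12)))) (I : ℕ) :
    ∀ T : ℝ, 2 ^ I ≤ T → T ≤ Tm → ((Bad F s T).card : ℝ) ≤
      K * (2 * ε1 * (s * T) + 3 * L * (T ^ ((11 : ℝ) / 12) * s ^ ((1 : ℝ) / 12))) + γ * T / 2 ^ I := by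
  classical
  have hs12 : 0 ≤ s ^ ((1 : ℝ) / 12) := Real.rpow_nonneg hs.le _
  induction I with
  | zero =>
    intro T hT _
    rw [pow_zero] at hT ⊢
    have hT0 : 0 ≤ T := by linarith
    have h1 : ((Bad F s T).card : ℝ) ≤ γ * T := by
      refine le_trans ?_ (card_PT_le hT0)
      unfold Bad
      exact_mod_cast Finset.card_filter_le _ _
    have h2 : 0 ≤ T ^ ((11 : ℝ) / 12) := Real.rpow_nonneg hT0 _
    have h3 : 0 ≤ K * (2 * ε1 * (s * T) + 3 * L * (T ^ ((11 : ℝ) / 12) * s ^ ((1 : ℝ) / 12))) := by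
      have hK0 : 0 ≤ K := by linarith
      positivity
    rw [div_one]
    linarith
  | succ I ih =>
    intro T hT hTm
    have hpI : (1 : ℝ) ≤ 2 ^ I := one_le_pow₀ (by norm_num)
    have hT2 : 2 ≤ T := by
      rw [pow_succ] at hT
      linarith
    have hT0 : 0 ≤ T := by linarith
    have hT' : (2 : ℝ) ^ I ≤ T / 2 := by
      rw [pow_succ] at hT
      linarith
    have h1 := ih (T / 2) hT' (by linarith)
    have h2 := hdy T hT2
    have h3 := hLT T (by linarith) hTm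
    have hsub : Bad F s T ⊆ (Bad F s T).filter (fun n => T / 2 < cr n) ∪ Bad F s (T / 2) := by
      intro n hn
      rw [Finset.mem_union, Finset.mem_filter]
      rcases lt_or_ge (T / 2) (cr n) with h | h
      · exact Or.inl ⟨hn, h⟩
      · right
        unfold Bad at hn ⊢
        rw [Finset.mem_filter] at hn ⊢
        refine ⟨?_, hn.2⟩
        have h5 := (mem_PT hT0).1 hn.1
        exact (mem_PT (by linarith)).2 ⟨h5.1, h⟩
    have hcard : ((Bad F s T).card : ℝ) ≤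
        (((Bad F s T).filter (fun n => T / 2 < cr n)).card : ℝ) + (Bad F s (T / 2)).card := by
      have := (Finset.card_le_card hsub).trans (Finset.card_union_le _ _)
      exact_mod_cast this
    have hX : 0 ≤ T ^ ((11 : ℝ) / 12) := Real.rpow_nonneg hT0 _
    have h4 : (1 + Real.log T) ^ 5 * (T ^ ((11 : ℝ) / 12) * s ^ ((1 : ℝ) / 12)) ≤
        L * (T ^ ((11 : ℝ) / 12) * s ^ ((1 : ℝ) / 12)) :=
      mul_le_mul_of_nonneg_right h3 (mul_nonneg hX hs12)
    have h5 : 3 * L * ((T / 2) ^ ((11 : ℝ) / 12) * s ^ ((1 : ℝ) / 12)) ≤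
        2 * L * (T ^ ((11 : ℝ) / 12) * s ^ ((1 : ℝ) / 12)) := by
      have h6 := mul_le_mul_of_nonneg_right (bs_half hT0) hs12
      have h7 := mul_le_mul_of_nonneg_left h6 (by positivity : 0 ≤ 3 * L)
      refine h7.trans (le_of_eq ?_)
      ring
    have hK0 : 0 ≤ K := by linarith
    have h8 : K * (ε1 * (s * T) + (1 + Real.log T) ^ 5 * (T ^ ((11 : ℝ) / 12) * s ^ ((1 : ℝ) / 12))) ≤
        K * (ε1 * (s * T) + L * (T ^ ((11 : ℝ) / 12) * s ^ ((1 : ℝ) / 12))) :=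
      mul_le_mul_of_nonneg_left (by linarith) hK0
    have h9 : K * (2 * ε1 * (s * (T / 2)) + 3 * L * ((T / 2) ^ ((11 : ℝ) / 12) * s ^ ((1 : ℝ) / 12))) ≤
        K * (ε1 * (s * T) + 2 * L * (T ^ ((11 : ℝ) / 12) * s ^ ((1 : ℝ) / 12))) := by
      refine mul_le_mul_of_nonneg_left ?_ hK0
      have h10 : 2 * ε1 * (s * (T / 2)) = ε1 * (s * T) := by ring
      rw [h10]
      linarith
    have h11 : γ * (T / 2) / 2 ^ I = γ * T / 2 ^ (I + 1) := by
      rw [pow_succ]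
      field_simp
    rw [h11] at h1
    have h12 : K * (2 * ε1 * (s * T) + 3 * L * (T ^ ((11 : ℝ) / 12) * s ^ ((1 : ℝ) / 12))) =
        K * (ε1 * (s * T) + L * (T ^ ((11 : ℝ) / 12) * s ^ ((1 : ℝ) / 12))) +
        K * (ε1 * (s * T) + 2 * L * (T ^ ((11 : ℝ) / 12) * s ^ ((1 : ℝ) / 12))) := by ring
    rw [h12]
    linarith

private theorem bs_log {c T : ℝ} (hc : 0 < c) (hT : 1 ≤ T) :
    (1 + Real.log T) ^ 5 ≤ (1 + 10 / c) ^ 5 * T ^ (c / 2) := by
  have hT0 : 0 ≤ T := by linarith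
  have hlog : 0 ≤ Real.log T := Real.log_nonneg hT
  have h1 := Real.log_le_rpow_div hT0 (by positivity : 0 < c / 10)
  have h2 : (1 : ℝ) ≤ T ^ (c / 10) := Real.one_le_rpow hT (by positivity)
  have h3 : 1 + Real.log T ≤ (1 + 10 / c) * T ^ (c / 10) := by
    have h4 : T ^ (c / 10) / (c / 10) = 10 / c * T ^ (c / 10) := by
      field_simp
    rw [h4] at h1
    linarith
  calc (1 + Real.log T) ^ 5 ≤ ((1 + 10 / c) * T ^ (c / 10)) ^ 5 :=
        pow_le_pow_left₀ (by linarith) h3 5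
    _ = (1 + 10 / c) ^ 5 * T ^ (c / 2) := by
        rw [mul_pow, ← Real.rpow_natCast (T ^ (c / 10)) 5, ← Real.rpow_mul hT0]
        congr 2
        push_cast
        ring

theorem bad_le2 {ε η : ℝ} (hε : 0 < ε) (hη0 : 0 < η) (hη : η < 1 / 11) :
    ∃ (F0 : Finset ℕ) (T0 : ℝ), 1 ≤ T0 ∧ (∀ w ∈ F0, CF w) ∧ ∀ F : Finset ℕ, F0 ⊆ F → ∀ T s : ℝ,
      T0 ≤ T → T ^ (-((1 : ℝ) / 11 - η)) ≤ s → s ≤ 1 → ((Bad F s T).card : ℝ) ≤ ε * s * T := by
  classical
  obtain ⟨K, hK, hdy⟩ := bad_dy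
  have hK0 : 0 < K := by linarith
  have hγ : 1 ≤ γ := one_le_gamma
  have hγ0 : 0 < γ := by linarith
  obtain ⟨ε1, hε1⟩ : ∃ ε1, ε1 = ε / (8 * K) := ⟨_, rfl⟩
  have hε10 : 0 < ε1 := by rw [hε1]; positivity
  obtain ⟨F1, hF1⟩ := summable_iff_vanishing_norm.1 summable_alpha ε1 hε10
  obtain ⟨F0, hF0⟩ : ∃ F0, F0 = F1.filter CF := ⟨_, rfl⟩
  have hF0C : ∀ w ∈ F0, CF w := by
    intro w hw
    rw [hF0, Finset.mem_filter] at hw
    exact hw.2
  have hFs : ∀ W : Finset ℕ, (∀ w ∈ W, CF w) →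
      ∑ w ∈ W, (if w ∈ F0 then 0 else α w) ≤ ε1 := by
    intro W hW
    have h1 : ∑ w ∈ W, (if w ∈ F0 then 0 else α w) = ∑ w ∈ W \ F0, α w := by
      rw [Finset.sum_ite, Finset.sum_const_zero, zero_add, Finset.sdiff_eq_filter]
    rw [h1]
    have h2 : Disjoint (W \ F0) F1 := by
      rw [Finset.disjoint_left]
      intro w hw hw1
      rw [Finset.mem_sdiff] at hw
      apply hw.2
      rw [hF0, Finset.mem_filter]
      exact ⟨hw1, hW w hw.1⟩
    exact (le_abs_self _).trans (hF1 _ h2).le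
  obtain ⟨c, hc⟩ : ∃ c, c = 11 * η / 12 := ⟨_, rfl⟩
  have hc0 : 0 < c := by rw [hc]; positivity
  -- the thresholds
  have hlim : Tendsto (fun T : ℝ => 3 * K * (1 + 10 / c) ^ 5 * T ^ (-(c / 2))) atTop (𝓝 0) := by
    have h1 := (tendsto_rpow_neg_atTop (half_pos hc0)).const_mul (3 * K * (1 + 10 / c) ^ 5)
    rwa [mul_zero] at h1
  obtain ⟨T1, hT1⟩ := Filter.eventually_atTop.1 (hlim.eventually (ge_mem_nhds (half_pos hε)))
  have hlim2 : Tendsto (fun T : ℝ => T ^ ((10 : ℝ) / 11)) atTop atTop :=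
    tendsto_rpow_atTop (by norm_num)
  obtain ⟨T2, hT2⟩ := Filter.eventually_atTop.1 (hlim2.eventually (eventually_ge_atTop (8 * γ / ε)))
  refine ⟨F0, max (max T1 T2) 2, le_trans (by norm_num) (le_max_right _ _), hF0C,
    fun F hF T s hT hs hs1 => ?_⟩
  have hTge2 : 2 ≤ T := (le_max_right _ _).trans hT
  have hTa : T1 ≤ T := (le_max_left _ _).trans ((le_max_left _ _).trans hT)
  have hTb : T2 ≤ T := (le_max_right _ _).trans ((le_max_left _ _).trans hT)
  have hTge1 : 1 ≤ T := by linarith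
  have hT0 : 0 < T := by linarith
  have hs0 : 0 < s := lt_of_lt_of_le (Real.rpow_pos_of_pos hT0 _) hs
  have hsm := hT1 T hTa
  have hsT := hT2 T hTb
  have hsT' : 8 * γ / ε ≤ s * T := by
    refine le_trans hsT ?_
    have h1 : T ^ ((10 : ℝ) / 11) ≤ T ^ (-((1 : ℝ) / 11 - η)) * T := by
      have h2 : T ^ (-((1 : ℝ) / 11 - η)) * T = T ^ (-((1 : ℝ) / 11 - η) + 1) := by
        rw [Real.rpow_add hT0, Real.rpow_one]
      rw [h2]
      exact Real.rpow_le_rpow_of_exponent_le hTge1 (by linarith)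
    exact h1.trans (mul_le_mul_of_nonneg_right hs hT0.le)
  have hsTp : 0 < s * T := mul_pos hs0 hT0
  obtain ⟨x, hx⟩ : ∃ x, x = max 1 (4 * γ / (ε * s)) := ⟨_, rfl⟩
  obtain ⟨n, hn1, hn2⟩ := exists_nat_pow_near (x := x) (y := 2) (by rw [hx]; exact le_max_left _ _)
    (by norm_num)
  have hxT : 2 * x ≤ T := by
    rw [hx]
    rcases max_cases (1 : ℝ) (4 * γ / (ε * s)) with h | h
    · rw [h.1]; linarith
    · rw [h.1]
      rw [div_le_iff₀ hε] at hsT'
      rw [← le_div_iff₀' (by norm_num : (0 : ℝ) < 2), div_le_iff₀ (by positivity)]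
      nlinarith
  have hI : (2 : ℝ) ^ (n + 1) ≤ T := by
    rw [pow_succ]
    linarith
  have hiter := bs_iter hK (F := F0) (s := s) (L := (1 + Real.log T) ^ 5) (Tm := T) hε10.le hs0
    (by have := Real.log_nonneg hTge1; positivity)
    (fun T' h1 h2 => by
      have h3 := Real.log_nonneg h1
      have h4 := Real.log_le_log (by linarith) h2
      exact pow_le_pow_left₀ (by linarith) (by linarith) 5)
    (fun T' h1 => hdy F0 ε1 T' s hFs h1 hs0 hs1) (n + 1) T hI le_rfl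
  have hmono : ((Bad F s T).card : ℝ) ≤ (Bad F0 s T).card := by
    exact_mod_cast Finset.card_le_card (Bad_mono hF s T)
  have ha : K * (2 * ε1 * (s * T)) = ε / 4 * (s * T) := by
    rw [hε1]
    field_simp
    ring
  have hb : γ * T / 2 ^ (n + 1) ≤ ε / 4 * (s * T) := by
    have h1 : 4 * γ / (ε * s) ≤ 2 ^ (n + 1) := by
      refine le_trans ?_ hn2.le
      rw [hx]
      exact le_max_right _ _
    rw [div_le_iff₀ (by positivity)] at h1
    rw [div_le_iff₀ (by positivity)]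
    nlinarith
  have hd : K * (3 * (1 + Real.log T) ^ 5 * (T ^ ((11 : ℝ) / 12) * s ^ ((1 : ℝ) / 12))) ≤
      ε / 2 * (s * T) := by
    have h1 : T ^ ((11 : ℝ) / 12) * s ^ ((1 : ℝ) / 12) ≤ T ^ (-c) * (s * T) := by
      have h2 : s ^ ((1 : ℝ) / 12) ≤ s * T ^ ((1 : ℝ) / 12 - c) := by
        have h3 : s ^ ((1 : ℝ) / 12) = s * s ^ (-((11 : ℝ) / 12)) := by
          have h4 : s ^ ((1 : ℝ) / 12) = s ^ ((1 : ℝ) + -((11 : ℝ) / 12)) := by
            congr 1
            norm_num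
          rw [h4, Real.rpow_add hs0, Real.rpow_one]
        rw [h3]
        refine mul_le_mul_of_nonneg_left ?_ hs0.le
        have h5 : (T ^ (-((1 : ℝ) / 11 - η))) ^ (-((11 : ℝ) / 12)) = T ^ ((1 : ℝ) / 12 - c) := by
          rw [← Real.rpow_mul hT0.le]
          congr 1
          rw [hc]
          ring
        rw [← h5]
        exact Real.rpow_le_rpow_of_nonpos (Real.rpow_pos_of_pos hT0 _) hs (by norm_num)
      have h6 : T ^ ((11 : ℝ) / 12) * (s * T ^ ((1 : ℝ) / 12 - c)) = T ^ (-c) * (s * T) := by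
        have h7 : T ^ ((11 : ℝ) / 12) * T ^ ((1 : ℝ) / 12 - c) = T ^ (-c) * T := by
          rw [← Real.rpow_add hT0]
          have h8 : T ^ (-c) * T = T ^ (-c + 1) := by
            rw [Real.rpow_add hT0, Real.rpow_one]
          rw [h8]
          congr 1
          ring
        calc T ^ ((11 : ℝ) / 12) * (s * T ^ ((1 : ℝ) / 12 - c))
            = s * (T ^ ((11 : ℝ) / 12) * T ^ ((1 : ℝ) / 12 - c)) := by ring
          _ = s * (T ^ (-c) * T) := by rw [h7]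
          _ = _ := by ring
      rw [← h6]
      exact mul_le_mul_of_nonneg_left h2 (Real.rpow_nonneg hT0.le _)
    have h9 := bs_log hc0 hTge1
    have h10 : (1 + Real.log T) ^ 5 * T ^ (-c) ≤ (1 + 10 / c) ^ 5 * T ^ (-(c / 2)) := by
      have h11 := mul_le_mul_of_nonneg_right h9 (Real.rpow_nonneg hT0.le (-c))
      refine h11.trans (le_of_eq ?_)
      rw [mul_assoc, ← Real.rpow_add hT0]
      congr 2
      ring
    have hlog5 : 0 ≤ (1 + Real.log T) ^ 5 := by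
      have := Real.log_nonneg hTge1
      positivity
    calc K * (3 * (1 + Real.log T) ^ 5 * (T ^ ((11 : ℝ) / 12) * s ^ ((1 : ℝ) / 12)))
        ≤ K * (3 * (1 + Real.log T) ^ 5 * (T ^ (-c) * (s * T))) := by
          refine mul_le_mul_of_nonneg_left (mul_le_mul_of_nonneg_left h1 (by positivity)) hK0.le
      _ = 3 * K * ((1 + Real.log T) ^ 5 * T ^ (-c)) * (s * T) := by ring
      _ ≤ 3 * K * ((1 + 10 / c) ^ 5 * T ^ (-(c / 2))) * (s * T) := by
          refine mul_le_mul_of_nonneg_right (mul_le_mul_of_nonneg_left h10 (by positivity)) hsTp.le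
      _ = (3 * K * (1 + 10 / c) ^ 5 * T ^ (-(c / 2))) * (s * T) := by ring
      _ ≤ ε / 2 * (s * T) := mul_le_mul_of_nonneg_right hsm hsTp.le
  have hfin : K * (2 * ε1 * (s * T) + 3 * (1 + Real.log T) ^ 5 *
      (T ^ ((11 : ℝ) / 12) * s ^ ((1 : ℝ) / 12))) = K * (2 * ε1 * (s * T)) +
      K * (3 * (1 + Real.log T) ^ 5 * (T ^ ((11 : ℝ) / 12) * s ^ ((1 : ℝ) / 12))) := by ring
  rw [hfin, ha] at hiter
  have : ε * s * T = ε / 4 * (s * T) + ε / 2 * (s * T) + ε / 4 * (s * T) := by ring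
  rw [this]
  linarith

end Pool.Agent.PWG
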