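import Pool.Agent.PWG.Defs

set_option autoImplicit false

/-!
# PWG-Box: pigeonhole principle in a box (job PWG-Box)

Plan. The integer vectors `x` with `0 <= x i <= ⌊H / M i⌋₊` (`Fintype.piFinset` of `Finset.range (⌊H / M i⌋₊ + 1)`) are
at least `∏ (H / M i)` in number. For each `m` the form `F m x = ∑ i, x i * M i * L m i` takes values in an interval
`[α m, α m + k C H]` (`k = card ι`, `α m = ∑ i, min 0 (H * L m i)`, each term has a range of length `<= C H`). Cells:
`x ↦ (m ↦ ⌊(F m x - α m) / w m⌋₊)`, with values in `piFinset (range (⌊k C H / w m⌋₊ + 1))`, of cardinality at most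
`∏ (1 + k C H / w m)`. `Finset.exists_ne_map_eq_of_card_lt_of_maps_to` gives `x ≠ y` in the same cell; `g = x - y`:
`|g i| M i <= H`, `|F m x - F m y| <= w m`.
-/

namespace Pool.Agent.PWG

private theorem box_fl {u v : ℝ} (hu : 0 ≤ u) (hv : 0 ≤ v) (h : ⌊u⌋₊ = ⌊v⌋₊) : |u - v| ≤ 1 := by
  have h1 := Nat.floor_le hu
  have h2 := Nat.floor_le hv
  have h3 := Nat.lt_floor_add_one u
  have h4 := Nat.lt_floor_add_one v
  rw [h] at h1 h3
  rw [abs_le]
  constructor <;> linarith

private theorem box_tm {s H L C : ℝ} (h0 : 0 ≤ s) (h1 : s ≤ H) (hH : 0 < H) (hL : |L| ≤ C) :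
    0 ≤ s * L - min 0 (H * L) ∧ s * L - min 0 (H * L) ≤ C * H := by
  obtain ⟨h2, h3⟩ := abs_le.1 hL
  rcases le_total 0 L with h | h
  · rw [min_eq_left (mul_nonneg hH.le h)]
    constructor
    · have := mul_nonneg h0 h
      linarith
    · have e1 : s * L ≤ H * L := mul_le_mul_of_nonneg_right h1 h
      have e2 : H * L ≤ H * C := mul_le_mul_of_nonneg_left h3 hH.le
      linarith
  · rw [min_eq_right (mul_nonpos_of_nonneg_of_nonpos hH.le h)]
    have e0 : s * L - H * L = (H - s) * (-L) := by ring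
    rw [e0]
    have e1 : 0 ≤ -L := by linarith
    have e3 : 0 ≤ H - s := by linarith
    refine ⟨mul_nonneg e3 e1, ?_⟩
    calc (H - s) * (-L) ≤ H * (-L) := mul_le_mul_of_nonneg_right (by linarith) e1
      _ ≤ H * C := mul_le_mul_of_nonneg_left (by linarith) hH.le
      _ = C * H := by ring

theorem box {ι : Type} [Fintype ι] [DecidableEq ι] (n : ℕ) (M : ι → ℝ) (hM : ∀ i, 0 < M i)
    (H C : ℝ) (hH : 0 < H) (hC : 0 < C) (L : Fin n → ι → ℝ) (hL : ∀ m i, |L m i| ≤ C)
    (w : Fin n → ℝ) (hw : ∀ m, 0 < w m)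
    (hcard : ∏ m, (1 + (Fintype.card ι : ℝ) * C * H / w m) < ∏ i, (H / M i)) :
    ∃ g : ι → ℤ, g ≠ 0 ∧ (∀ i, |(g i : ℝ)| * M i ≤ H) ∧
      ∀ m, |∑ i, (g i : ℝ) * M i * L m i| ≤ w m := by
  classical
  set K : ℝ := (Fintype.card ι : ℝ) * C * H with hK
  have hK0 : 0 ≤ K := by positivity
  set S : Finset (ι → ℕ) := Fintype.piFinset (fun i => Finset.range (⌊H / M i⌋₊ + 1)) with hS
  set T : Finset (Fin n → ℕ) := Fintype.piFinset (fun m => Finset.range (⌊K / w m⌋₊ + 1)) with hT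
  let F : Fin n → (ι → ℕ) → ℝ := fun m x => ∑ i, (x i : ℝ) * M i * L m i
  let α : Fin n → ℝ := fun m => ∑ i, min 0 (H * L m i)
  have hx : ∀ x ∈ S, ∀ i, 0 ≤ (x i : ℝ) * M i ∧ (x i : ℝ) * M i ≤ H := by
    intro x hxS i
    have h1 := Finset.mem_range.1 (Fintype.mem_piFinset.1 hxS i)
    have h2 : (x i : ℝ) ≤ H / M i := by
      have h3 : x i ≤ ⌊H / M i⌋₊ := by omega
      exact (Nat.cast_le.2 h3).trans (Nat.floor_le (div_nonneg hH.le (hM i).le))
    exact ⟨mul_nonneg (Nat.cast_nonneg _) (hM i).le, (le_div_iff₀ (hM i)).1 h2⟩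
  have hF : ∀ x ∈ S, ∀ m, 0 ≤ F m x - α m ∧ F m x - α m ≤ K := by
    intro x hxS m
    have e : F m x - α m = ∑ i, ((x i : ℝ) * M i * L m i - min 0 (H * L m i)) := by
      rw [Finset.sum_sub_distrib]
    rw [e]
    constructor
    · exact Finset.sum_nonneg fun i _ => (box_tm (hx x hxS i).1 (hx x hxS i).2 hH (hL m i)).1
    · refine (Finset.sum_le_sum fun i _ => (box_tm (hx x hxS i).1 (hx x hxS i).2 hH (hL m i)).2).trans
        (le_of_eq ?_)
      rw [Finset.sum_const, Finset.card_univ, nsmul_eq_mul, hK, mul_assoc]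
  have hcS : ∏ i, (H / M i) ≤ (S.card : ℝ) := by
    rw [hS, Fintype.card_piFinset, Nat.cast_prod]
    refine Finset.prod_le_prod (fun i _ => div_nonneg hH.le (hM i).le) fun i _ => ?_
    rw [Finset.card_range]
    push_cast
    exact (Nat.lt_floor_add_one _).le
  have hcT : (T.card : ℝ) ≤ ∏ m, (1 + K / w m) := by
    rw [hT, Fintype.card_piFinset, Nat.cast_prod]
    refine Finset.prod_le_prod (fun i _ => Nat.cast_nonneg _) fun m _ => ?_
    rw [Finset.card_range]
    push_cast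
    have := Nat.floor_le (div_nonneg hK0 (hw m).le)
    linarith
  have hlt : T.card < S.card := by
    have : (T.card : ℝ) < S.card := lt_of_le_of_lt hcT (lt_of_lt_of_le hcard hcS)
    exact_mod_cast this
  obtain ⟨x, hxS, y, hyS, hne, hxy⟩ := Finset.exists_ne_map_eq_of_card_lt_of_maps_to
    (f := fun x : ι → ℕ => fun m => ⌊(F m x - α m) / w m⌋₊) hlt (by
      intro x hxS
      rw [Finset.mem_coe] at hxS ⊢
      rw [hT, Fintype.mem_piFinset]
      intro m
      rw [Finset.mem_range, Nat.lt_succ_iff]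
      exact Nat.floor_le_floor (div_le_div_of_nonneg_right (hF x hxS m).2 (hw m).le))
  refine ⟨fun i => (x i : ℤ) - y i, ?_, ?_, ?_⟩
  · intro h
    apply hne
    funext i
    have := congrFun h i
    simp only [Pi.zero_apply] at this
    omega
  · intro i
    obtain ⟨a1, a2⟩ := hx x hxS i
    obtain ⟨b1, b2⟩ := hx y hyS i
    show |(((x i : ℤ) - y i : ℤ) : ℝ)| * M i ≤ H
    rw [← abs_of_pos (hM i), ← abs_mul, abs_le]
    push_cast
    rw [sub_mul]
    constructor <;> linarith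
  · intro m
    have h1 : ⌊(F m x - α m) / w m⌋₊ = ⌊(F m y - α m) / w m⌋₊ := congrFun hxy m
    have h2 := box_fl (div_nonneg (hF x hxS m).1 (hw m).le) (div_nonneg (hF y hyS m).1 (hw m).le) h1
    rw [← sub_div, abs_div, abs_of_pos (hw m), div_le_one (hw m)] at h2
    have h3 : ∑ i, (((x i : ℤ) - y i : ℤ) : ℝ) * M i * L m i = F m x - α m - (F m y - α m) := by
      have e : F m x - α m - (F m y - α m) = F m x - F m y := by ring
      rw [e]
      show _ = ∑ i, (x i : ℝ) * M i * L m i - ∑ i, (y i : ℝ) * M i * L m i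
      rw [← Finset.sum_sub_distrib]
      refine Finset.sum_congr rfl fun i _ => ?_
      push_cast
      ring
    rw [h3]
    exact h2

end Pool.Agent.PWG
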