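import Pool.Agent.PWG.Defs

set_option autoImplicit false

/-!
# PWG-SL: generalised polynomials are small only near few points (job PWG-SL)

`F(t) = ∑_(p ∈ E) γ_p t^p` with `k = #E` distinct real exponents and one coefficient `>= 1` in absolute value: a
`σ`-separated set of points of `[c, C]` where `|F| <= ε` has at most `N` elements if `K ε <= σ^(k-1)`.

Plan. Induction on `k` (for all `E`, `Finset.induction` on the cardinality). `k = 1`: `|F| >= min (c^p) (C^p) = m > 0`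
on `[c, C]`; `K = 2 / m` gives `ε < m`, so `r = 0`.
Step: `E = insert q E'`, `E'` nonempty. `G(t) = t^(-q) F(t) = γ_q + ∑_(p ∈ E') γ_p t^(p-q)`,
`G'(t) = ∑_(p ∈ E') γ_p (p-q) t^(p-q-1)`: exponents `E'' = E'.image (p ↦ p-q-1)` (`k-1` of them), coefficients
`γ'' p'' = γ (p''+q+1) * (p''+1)`. Let `D = min_(p ∈ E') |p - q| > 0` and `c0 > 0` with
`∑_(p ∈ E') c0 * t^(p-q) <= 1/2` on `[c, C]` and `c0 <= 1`.
Case 1: some `p ∈ E'` has `|γ_p| >= c0`. Let `Q` bound `t^(-q)` on `[c, C]`. For `i < r/2` the mean value theorem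
(`exists_hasDerivAt_eq_slope` or `exists_deriv_eq_slope`) gives `ξ_i` in `(t_(2i), t_(2i+1))` with
`|G'(ξ_i)| <= 2 Q ε / σ`; `ξ_i + σ <= ξ_j` for `i < j`. Apply the induction hypothesis to `γ'' / (c0 D)` and
`ε'' = 2 Q ε / (σ c0 D)`: `K'' ε'' <= σ^(k-2)` follows from `K ε <= σ^(k-1)` if `K >= 2 Q K'' / (c0 D)`. So
`r / 2 <= N''`, `r <= 2 N'' + 1`.
Case 2: otherwise `|γ_q| >= 1` and `|G| >= 1/2`, so `|F| >= 1 / (2 Q)` on `[c, C]`; `K ε <= σ^(k-1) <= 1` with
`K > 2 Q` excludes `|F| <= ε`: `r = 0`.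
-/

namespace Pool.Agent.PWG

private theorem rpow_le_max (c C t p : ℝ) (hc : 0 < c) (h1 : c ≤ t) (h2 : t ≤ C) :
    t ^ p ≤ max (c ^ p) (C ^ p) := by
  rcases le_total 0 p with hp | hp
  · exact le_max_of_le_right (Real.rpow_le_rpow (hc.le.trans h1) h2 hp)
  · exact le_max_of_le_left (Real.rpow_le_rpow_of_nonpos hc h1 hp)

private theorem min_le_rpow (c C t p : ℝ) (hc : 0 < c) (h1 : c ≤ t) (h2 : t ≤ C) :
    min (c ^ p) (C ^ p) ≤ t ^ p := by
  rcases le_total 0 p with hp | hp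
  · exact min_le_of_left_le (Real.rpow_le_rpow hc.le h1 hp)
  · exact min_le_of_right_le (Real.rpow_le_rpow_of_nonpos (hc.trans_le h1) h2 hp)

private theorem base (p c C : ℝ) (hc : 0 < c) (hcC : c ≤ C) :
    ∃ (K : ℝ) (N : ℕ), 0 < K ∧ ∀ γ : ℝ → ℝ, (∃ x ∈ ({p} : Finset ℝ), 1 ≤ |γ x|) →
      ∀ ε σ : ℝ, 0 ≤ ε → 0 < σ →
      σ ≤ 1 → K * ε ≤ σ ^ 0 → ∀ (r : ℕ) (t : ℕ → ℝ),
      (∀ i < r, c ≤ t i ∧ t i ≤ C ∧ |∑ x ∈ ({p} : Finset ℝ), γ x * t i ^ x| ≤ ε) →
      (∀ i j, i < j → j < r → t i + σ ≤ t j) → r ≤ N := by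
  set m := min (c ^ p) (C ^ p) with hm
  have hmpos : 0 < m := lt_min (Real.rpow_pos_of_pos hc p)
    (Real.rpow_pos_of_pos (hc.trans_le hcC) p)
  refine ⟨2 / m, 0, by positivity, ?_⟩
  intro γ hγ ε σ hε hσ hσ1 hK r t ht hsep
  by_contra hr
  have hr0 : 0 < r := by omega
  obtain ⟨x, hx, hγx⟩ := hγ
  rw [Finset.mem_singleton] at hx
  subst hx
  obtain ⟨h1, h2, h3⟩ := ht 0 hr0
  rw [Finset.sum_singleton, abs_mul,
    abs_of_pos (Real.rpow_pos_of_pos (hc.trans_le h1) x)] at h3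
  have h4 : m ≤ t 0 ^ x := min_le_rpow c C (t 0) x hc h1 h2
  have h5 : m ≤ ε := by
    calc m = 1 * m := (one_mul m).symm
      _ ≤ |γ x| * t 0 ^ x := mul_le_mul hγx h4 hmpos.le (abs_nonneg _)
      _ ≤ ε := h3
  rw [pow_zero, div_mul_eq_mul_div, div_le_one hmpos] at hK
  linarith

private theorem gen (n : ℕ) : ∀ (E : Finset ℝ), E.card = n + 1 → ∀ (c C : ℝ), 0 < c → c ≤ C →
    ∃ (K : ℝ) (N : ℕ), 0 < K ∧ ∀ γ : ℝ → ℝ, (∃ p ∈ E, 1 ≤ |γ p|) → ∀ ε σ : ℝ, 0 ≤ ε → 0 < σ →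
      σ ≤ 1 → K * ε ≤ σ ^ n → ∀ (r : ℕ) (t : ℕ → ℝ),
      (∀ i < r, c ≤ t i ∧ t i ≤ C ∧ |∑ p ∈ E, γ p * t i ^ p| ≤ ε) →
      (∀ i j, i < j → j < r → t i + σ ≤ t j) → r ≤ N := by
  induction n with
  | zero =>
    intro E hE c C hc hcC
    obtain ⟨p, rfl⟩ := Finset.card_eq_one.mp hE
    exact base p c C hc hcC
  | succ n ih =>
    intro E hE c C hc hcC
    have hEne : E.Nonempty := by
      rw [← Finset.card_pos, hE]; omega
    obtain ⟨q, hq⟩ := hEne
    set E' := E.erase q with hE'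
    have hcard' : E'.card = n + 1 := by
      rw [hE', Finset.card_erase_of_mem hq, hE]; rfl
    have hne' : E'.Nonempty := by
      rw [← Finset.card_pos, hcard']; omega
    have hqE' : q ∉ E' := by rw [hE']; exact Finset.notMem_erase q E
    have hinj : Set.InjOn (fun p : ℝ => p - q - 1) (E' : Set ℝ) := by
      intro a _ b _ hab
      simp only at hab
      linarith
    set E'' := E'.image (fun p : ℝ => p - q - 1) with hE''
    have hcard'' : E''.card = n + 1 := by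
      rw [hE'', Finset.card_image_of_injOn hinj, hcard']
    obtain ⟨K2, N2, hK2, hmain⟩ := ih E'' hcard'' c C hc hcC
    -- D
    obtain ⟨p0, hp0, hp0min⟩ := Finset.exists_min_image E' (fun p => |p - q|) hne'
    set D := |p0 - q| with hD
    have hDpos : 0 < D := by
      rw [hD]
      refine abs_pos.mpr (sub_ne_zero.mpr ?_)
      intro h
      exact hqE' (h ▸ hp0)
    -- c0
    set B := ∑ p ∈ E', max (c ^ (p - q)) (C ^ (p - q)) with hB
    have hB0 : 0 ≤ B := by
      rw [hB]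
      refine Finset.sum_nonneg fun p _ => ?_
      exact le_max_of_le_left (Real.rpow_nonneg hc.le _)
    set c0 : ℝ := 1 / (2 * (B + 1)) with hc0
    have hc0pos : 0 < c0 := by positivity
    have hc0le : c0 ≤ 1 := by
      rw [hc0, div_le_one (by positivity)]
      linarith
    have hc0B : c0 * B ≤ 1 / 2 := by
      rw [hc0, div_mul_eq_mul_div, div_le_div_iff₀ (by positivity) (by norm_num)]
      linarith
    set Q := max (c ^ (-q)) (C ^ (-q)) with hQ
    have hQpos : 0 < Q := lt_max_of_lt_left (Real.rpow_pos_of_pos hc _)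
    -- factorisation
    have hfac : ∀ (γ : ℝ → ℝ) (t : ℝ), 0 < t →
        t ^ (-q) * ∑ p ∈ E, γ p * t ^ p = γ q + ∑ p ∈ E', γ p * t ^ (p - q) := by
      intro γ t ht
      rw [← Finset.add_sum_erase E (fun p => γ p * t ^ p) hq, mul_add, ← hE', Finset.mul_sum]
      congr 1
      · rw [Real.rpow_neg ht.le]
        field_simp
      · refine Finset.sum_congr rfl fun p _ => ?_
        rw [sub_eq_add_neg p q, Real.rpow_add ht]
        ring
    have hfb : ∀ (γ : ℝ → ℝ) (t ε : ℝ), c ≤ t → t ≤ C → |∑ p ∈ E, γ p * t ^ p| ≤ ε →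
        |γ q + ∑ p ∈ E', γ p * t ^ (p - q)| ≤ Q * ε := by
      intro γ t ε h1 h2 h3
      have ht : 0 < t := hc.trans_le h1
      rw [← hfac γ t ht, abs_mul, abs_of_pos (Real.rpow_pos_of_pos ht _)]
      exact mul_le_mul (rpow_le_max c C t (-q) hc h1 h2) h3 (abs_nonneg _) hQpos.le
    refine ⟨2 * Q * K2 / (c0 * D) + 2 * Q + 1, 2 * N2 + 1, by positivity, ?_⟩
    intro γ hγ ε σ hε hσ hσ1 hK r t ht hsep
    by_contra hr
    have hr2 : 2 * N2 + 2 ≤ r := by omega
    by_cases hcase : ∃ p ∈ E', c0 ≤ |γ p|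
    · obtain ⟨p1, hp1, hγ1⟩ := hcase
      have hξ : ∀ i : ℕ, ∃ x : ℝ, i < N2 + 1 → (t (2 * i) < x ∧ x < t (2 * i + 1) ∧
          |∑ p ∈ E', γ p * ((p - q) * x ^ (p - q - 1))| ≤ 2 * Q * ε / σ) := by
        intro i
        by_cases hi : i < N2 + 1
        · have hlt1 : 2 * i < r := by omega
          have hlt2 : 2 * i + 1 < r := by omega
          obtain ⟨a1, a2, a3⟩ := ht (2 * i) hlt1
          obtain ⟨b1, b2, b3⟩ := ht (2 * i + 1) hlt2
          have hs := hsep (2 * i) (2 * i + 1) (by omega) hlt2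
          have hab : t (2 * i) < t (2 * i + 1) := by linarith
          have hder : ∀ x : ℝ, 0 < x → HasDerivAt (fun y : ℝ => ∑ p ∈ E', γ p * y ^ (p - q))
              (∑ p ∈ E', γ p * ((p - q) * x ^ (p - q - 1))) x := by
            intro x hx
            refine HasDerivAt.fun_sum fun p _ => ?_
            exact (Real.hasDerivAt_rpow_const (Or.inl hx.ne')).const_mul (γ p)
          obtain ⟨x, hx, hxe⟩ := exists_hasDerivAt_eq_slope
            (fun y : ℝ => ∑ p ∈ E', γ p * y ^ (p - q))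
            (fun x : ℝ => ∑ p ∈ E', γ p * ((p - q) * x ^ (p - q - 1))) hab
            (fun x hx => (hder x (hc.trans_le (a1.trans hx.1))).continuousAt.continuousWithinAt)
            (fun x hx => hder x (hc.trans_le (a1.trans hx.1.le)))
          refine ⟨x, fun _ => ⟨hx.1, hx.2, ?_⟩⟩
          rw [hxe, abs_div, abs_of_pos (sub_pos.mpr hab)]
          have e1 := hfb γ _ ε a1 a2 a3
          have e2 := hfb γ _ ε b1 b2 b3
          have e3 : |∑ p ∈ E', γ p * t (2 * i + 1) ^ (p - q) -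
              ∑ p ∈ E', γ p * t (2 * i) ^ (p - q)| ≤ 2 * Q * ε := by
            rw [abs_le] at e1 e2 ⊢
            constructor <;> nlinarith [e1.1, e1.2, e2.1, e2.2]
          have hge : σ ≤ t (2 * i + 1) - t (2 * i) := by linarith
          have h0 : 0 ≤ 2 * Q * ε := by positivity
          exact div_le_div₀ h0 e3 hσ hge
        · exact ⟨0, fun h => absurd h hi⟩
      choose ξ hξ using hξ
      have hfin := hmain (fun s => γ (s + q + 1) * (s + 1) / (c0 * D)) ?_
        (2 * Q * ε / (σ * (c0 * D))) σ (by positivity) hσ hσ1 ?_ (N2 + 1) ξ ?_ ?_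
      · omega
      · refine ⟨p1 - q - 1, ?_, ?_⟩
        · rw [hE'']; exact Finset.mem_image_of_mem _ hp1
        · have e1 : p1 - q - 1 + q + 1 = p1 := by ring
          have e2 : p1 - q - 1 + 1 = p1 - q := by ring
          simp only [e1, e2]
          rw [abs_div, abs_mul, abs_of_pos (mul_pos hc0pos hDpos), one_le_div (mul_pos hc0pos hDpos)]
          exact mul_le_mul hγ1 (hp0min p1 hp1) hDpos.le (abs_nonneg _)
      · have h1 : 2 * Q * K2 / (c0 * D) * ε ≤ σ ^ (n + 1) := by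
          refine le_trans ?_ hK
          refine mul_le_mul_of_nonneg_right ?_ hε
          linarith
        have h2 : K2 * (2 * Q * ε / (σ * (c0 * D))) = (2 * Q * K2 / (c0 * D) * ε) / σ := by
          field_simp
        rw [h2, div_le_iff₀ hσ, ← pow_succ]
        exact h1
      · intro i hi
        obtain ⟨x1, x2, x3⟩ := hξ i hi
        have hlt1 : 2 * i < r := by omega
        have hlt2 : 2 * i + 1 < r := by omega
        obtain ⟨a1, a2, a3⟩ := ht (2 * i) hlt1
        obtain ⟨b1, b2, b3⟩ := ht (2 * i + 1) hlt2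
        refine ⟨a1.trans x1.le, x2.le.trans b2, ?_⟩
        have hsum : ∑ s ∈ E'', γ (s + q + 1) * (s + 1) / (c0 * D) * ξ i ^ s =
            (∑ p ∈ E', γ p * ((p - q) * ξ i ^ (p - q - 1))) / (c0 * D) := by
          rw [hE'', Finset.sum_image hinj, Finset.sum_div]
          refine Finset.sum_congr rfl fun p _ => ?_
          have e1 : p - q - 1 + q + 1 = p := by ring
          have e2 : p - q - 1 + 1 = p - q := by ring
          rw [e1, e2]
          ring
        rw [hsum, abs_div, abs_of_pos (mul_pos hc0pos hDpos), div_le_iff₀ (mul_pos hc0pos hDpos)]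
        refine x3.trans (le_of_eq ?_)
        field_simp
      · intro i j hij hj
        obtain ⟨x1, x2, x3⟩ := hξ i (hij.trans hj)
        obtain ⟨y1, y2, y3⟩ := hξ j hj
        have hs := hsep (2 * i + 1) (2 * j) (by omega) (by omega)
        linarith
    · push Not at hcase
      obtain ⟨p1, hp1, hγ1⟩ := hγ
      have hp1q : p1 = q := by
        by_contra hne
        have hmem : p1 ∈ E' := by rw [hE']; exact Finset.mem_erase.mpr ⟨hne, hp1⟩
        have := hcase p1 hmem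
        linarith
      subst hp1q
      obtain ⟨h1, h2, h3⟩ := ht 0 (by omega)
      have h4 := hfb γ _ ε h1 h2 h3
      have ht0 : 0 < t 0 := hc.trans_le h1
      have h5 : |∑ p ∈ E', γ p * t 0 ^ (p - p1)| ≤ 1 / 2 := by
        calc |∑ p ∈ E', γ p * t 0 ^ (p - p1)| ≤ ∑ p ∈ E', |γ p * t 0 ^ (p - p1)| :=
              Finset.abs_sum_le_sum_abs _ _
          _ ≤ ∑ p ∈ E', c0 * max (c ^ (p - p1)) (C ^ (p - p1)) := by
              refine Finset.sum_le_sum fun p hp => ?_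
              rw [abs_mul, abs_of_pos (Real.rpow_pos_of_pos ht0 _)]
              exact mul_le_mul (hcase p hp).le (rpow_le_max c C (t 0) _ hc h1 h2)
                (Real.rpow_nonneg ht0.le _) hc0pos.le
          _ = c0 * B := by rw [hB, Finset.mul_sum]
          _ ≤ 1 / 2 := hc0B
      have h6 : 1 / 2 ≤ |γ p1 + ∑ p ∈ E', γ p * t 0 ^ (p - p1)| := by
        have := abs_sub_abs_le_abs_sub (γ p1) (-∑ p ∈ E', γ p * t 0 ^ (p - p1))
        rw [abs_neg, sub_neg_eq_add] at this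
        linarith
      have h7 : 1 / 2 ≤ Q * ε := h6.trans h4
      have h8 : (2 * Q + 1) * ε ≤ 1 := by
        calc (2 * Q + 1) * ε ≤ (2 * Q * K2 / (c0 * D) + 2 * Q + 1) * ε := by
              refine mul_le_mul_of_nonneg_right ?_ hε
              have : 0 ≤ 2 * Q * K2 / (c0 * D) := by positivity
              linarith
          _ ≤ σ ^ (n + 1) := hK
          _ ≤ 1 := pow_le_one₀ hσ.le hσ1
      have h9 : ε ≤ 0 := by nlinarith
      have h10 : Q * ε ≤ 0 := mul_nonpos_of_nonneg_of_nonpos hQpos.le h9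
      linarith

theorem sublevel (E : Finset ℝ) (hE : E.Nonempty) (c C : ℝ) (hc : 0 < c) (hcC : c ≤ C) :
    ∃ (K : ℝ) (N : ℕ), 0 < K ∧ ∀ γ : ℝ → ℝ, (∃ p ∈ E, 1 ≤ |γ p|) → ∀ ε σ : ℝ, 0 ≤ ε → 0 < σ →
      σ ≤ 1 → K * ε ≤ σ ^ (E.card - 1) → ∀ (r : ℕ) (t : ℕ → ℝ),
      (∀ i < r, c ≤ t i ∧ t i ≤ C ∧ |∑ p ∈ E, γ p * t i ^ p| ≤ ε) →
      (∀ i j, i < j → j < r → t i + σ ≤ t j) → r ≤ N := by
  have hpos := Finset.card_pos.mpr hE
  exact gen (E.card - 1) E (by omega) c C hc hcC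

end Pool.Agent.PWG
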