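import Pool.Agent.PWG.Defs

set_option autoImplicit false

/-!
# PWG-Sep: separated points, coprime fractions in a window, coverings, maximal separated subsets
-/

namespace Pool.Agent.PWG

private theorem sep_floor {x y u σ : ℝ} (hσ : 0 < σ) (hx : u ≤ x) (hy : u ≤ y)
    (h : ⌊(x - u) / σ⌋₊ = ⌊(y - u) / σ⌋₊) : |x - y| < σ := by
  have x0 : 0 ≤ (x - u) / σ := div_nonneg (by linarith) hσ.le
  have y0 : 0 ≤ (y - u) / σ := div_nonneg (by linarith) hσ.le
  have x1 := Nat.floor_le x0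
  have x2 := Nat.lt_floor_add_one ((x - u) / σ)
  have y1 := Nat.floor_le y0
  have y2 := Nat.lt_floor_add_one ((y - u) / σ)
  rw [h] at x1 x2
  rw [le_div_iff₀ hσ] at x1 y1
  rw [div_lt_iff₀ hσ] at x2 y2
  rw [abs_lt]
  constructor <;> nlinarith

theorem sep_card {α : Type} (S : Finset α) (r : α → ℝ) (u L σ : ℝ) (hσ : 0 < σ) (hL : 0 ≤ L)
    (h : ∀ x ∈ S, u ≤ r x ∧ r x ≤ u + L) (hs : ∀ x ∈ S, ∀ y ∈ S, x ≠ y → σ ≤ |r x - r y|) :
    (S.card : ℝ) ≤ 1 + L / σ := by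
  have h1 : S.card ≤ (Finset.range (⌊L / σ⌋₊ + 1)).card := by
    refine Finset.card_le_card_of_injOn (fun x => ⌊(r x - u) / σ⌋₊) ?_ ?_
    · intro x hx
      have h2 := h x hx
      refine Finset.mem_coe.2 (Finset.mem_range.2 (Nat.lt_succ_of_le (Nat.floor_le_floor ?_)))
      exact div_le_div_of_nonneg_right (by linarith [h2.2]) hσ.le
    · intro x hx y hy hxy
      by_contra hne
      have h2 := sep_floor hσ (h x hx).1 (h y hy).1 hxy
      exact absurd (hs x hx y hy hne) (not_le.2 h2)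
  rw [Finset.card_range] at h1
  have h2 : (S.card : ℝ) ≤ (⌊L / σ⌋₊ : ℝ) + 1 := by exact_mod_cast h1
  have h3 := Nat.floor_le (div_nonneg hL hσ.le)
  linarith

private theorem sep_frac {p q : ℕ × ℕ} (hp : 0 < p.1 ∧ 0 < p.2 ∧ Nat.Coprime p.1 p.2)
    (hq : 0 < q.1 ∧ 0 < q.2 ∧ Nat.Coprime q.1 q.2) (h : p ≠ q) :
    1 ≤ |(p.1 : ℝ) * q.2 - q.1 * p.2| := by
  obtain ⟨p1, p2, pc⟩ := hp
  obtain ⟨q1, q2, qc⟩ := hq
  have h1 : p.1 * q.2 ≠ q.1 * p.2 := by
    intro he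
    apply h
    have d1 : p.1 ∣ q.1 := by
      have : p.1 ∣ q.1 * p.2 := ⟨q.2, he.symm⟩
      exact pc.dvd_of_dvd_mul_right this
    have d2 : q.1 ∣ p.1 := by
      have : q.1 ∣ p.1 * q.2 := ⟨p.2, he⟩
      exact qc.dvd_of_dvd_mul_right this
    have e1 : p.1 = q.1 := Nat.dvd_antisymm d1 d2
    rw [e1] at he
    have e2 : q.2 = p.2 := Nat.eq_of_mul_eq_mul_left q1 he
    exact Prod.ext e1 e2.symm
  have h2 : ((p.1 : ℤ) * q.2 - q.1 * p.2) ≠ 0 := by
    intro he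
    apply h1
    have : ((p.1 : ℤ) * q.2) = q.1 * p.2 := by linarith
    exact_mod_cast this
  have h3 : (1 : ℤ) ≤ |(p.1 : ℤ) * q.2 - q.1 * p.2| := Int.one_le_abs h2
  exact_mod_cast h3

theorem frac_card (S : Finset (ℕ × ℕ)) (A A' u L : ℝ) (hA : 0 < A) (hA' : 0 < A') (hL : 0 ≤ L)
    (h : ∀ q ∈ S, 0 < q.1 ∧ 0 < q.2 ∧ Nat.Coprime q.1 q.2 ∧ (q.2 : ℝ) ≤ A' ∧
      u ≤ (q.1 : ℝ) / q.2 * (A' / A) ∧ (q.1 : ℝ) / q.2 * (A' / A) ≤ u + L) :
    (S.card : ℝ) ≤ 1 + L * (A * A') := by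
  have h1 := sep_card S (fun q : ℕ × ℕ => (q.1 : ℝ) / q.2 * (A' / A)) u L (1 / (A * A'))
    (by positivity) hL (fun q hq => ⟨(h q hq).2.2.2.2.1, (h q hq).2.2.2.2.2⟩) (fun p hp q hq hne => by
      obtain ⟨p1, p2, pc, p3, -, -⟩ := h p hp
      obtain ⟨q1, q2, qc, q3, -, -⟩ := h q hq
      have h2 := sep_frac ⟨p1, p2, pc⟩ ⟨q1, q2, qc⟩ hne
      have hp2 : (0 : ℝ) < p.2 := by exact_mod_cast p2
      have hq2 : (0 : ℝ) < q.2 := by exact_mod_cast q2
      have h3 : (p.1 : ℝ) / p.2 * (A' / A) - (q.1 : ℝ) / q.2 * (A' / A) =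
          ((p.1 : ℝ) * q.2 - q.1 * p.2) * (A' / (A * (p.2 * q.2))) := by
        field_simp
      have h4 : 0 < A' / (A * ((p.2 : ℝ) * q.2)) := by positivity
      show 1 / (A * A') ≤ |(p.1 : ℝ) / p.2 * (A' / A) - (q.1 : ℝ) / q.2 * (A' / A)|
      rw [h3, abs_mul, abs_of_pos h4]
      have h5 : 1 / (A * A') ≤ A' / (A * ((p.2 : ℝ) * q.2)) := by
        rw [div_le_div_iff₀ (by positivity) (by positivity)]
        have h6 : (p.2 : ℝ) * q.2 ≤ A' * A' := mul_le_mul p3 q3 hq2.le hA'.le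
        have h7 : A * ((p.2 : ℝ) * q.2) ≤ A * (A' * A') := mul_le_mul_of_nonneg_left h6 hA.le
        linarith
      nlinarith)
  rw [div_div_eq_mul_div, div_one] at h1
  exact h1

open Classical in
theorem cover {α : Type} (S : Finset α) (r : α → ℝ) (l B : ℝ) (hl : 0 < l) (hB : 0 ≤ B)
    (h : ∀ u : ℝ, ((S.filter (fun x => u ≤ r x ∧ r x ≤ u + l)).card : ℝ) ≤ B) (u L : ℝ)
    (hL : 0 ≤ L) :
    ((S.filter (fun x => u ≤ r x ∧ r x ≤ u + L)).card : ℝ) ≤ (1 + L / l) * B := by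
  have h1 : S.filter (fun x => u ≤ r x ∧ r x ≤ u + L) ⊆ (Finset.range (⌊L / l⌋₊ + 1)).biUnion
      (fun i => S.filter (fun x => u + (i : ℝ) * l ≤ r x ∧ r x ≤ u + (i : ℝ) * l + l)) := by
    intro x hx
    obtain ⟨hxS, hx1, hx2⟩ := Finset.mem_filter.1 hx
    have x0 : 0 ≤ (r x - u) / l := div_nonneg (by linarith) hl.le
    refine Finset.mem_biUnion.2 ⟨⌊(r x - u) / l⌋₊, ?_, ?_⟩
    · refine Finset.mem_range.2 (Nat.lt_succ_of_le (Nat.floor_le_floor ?_))
      exact div_le_div_of_nonneg_right (by linarith) hl.le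
    · refine Finset.mem_filter.2 ⟨hxS, ?_, ?_⟩
      · have := Nat.floor_le x0
        rw [le_div_iff₀ hl] at this
        linarith
      · have := Nat.lt_floor_add_one ((r x - u) / l)
        rw [div_lt_iff₀ hl] at this
        linarith
  have h2 : ((S.filter (fun x => u ≤ r x ∧ r x ≤ u + L)).card : ℝ) ≤
      ∑ i ∈ Finset.range (⌊L / l⌋₊ + 1),
        ((S.filter (fun x => u + (i : ℝ) * l ≤ r x ∧ r x ≤ u + (i : ℝ) * l + l)).card : ℝ) := by
    exact_mod_cast (Finset.card_le_card h1).trans Finset.card_biUnion_le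
  have h3 : ∑ i ∈ Finset.range (⌊L / l⌋₊ + 1),
      ((S.filter (fun x => u + (i : ℝ) * l ≤ r x ∧ r x ≤ u + (i : ℝ) * l + l)).card : ℝ) ≤
      ∑ _i ∈ Finset.range (⌊L / l⌋₊ + 1), B := Finset.sum_le_sum fun i _ => h (u + (i : ℝ) * l)
  rw [Finset.sum_const, Finset.card_range, nsmul_eq_mul] at h3
  refine (h2.trans h3).trans (mul_le_mul_of_nonneg_right ?_ hB)
  have h4 := Nat.floor_le (div_nonneg hL hl.le)
  push_cast
  linarith

open Classical in
theorem centers {α : Type} (S : Finset α) (r : α → ℝ) (σ B : ℝ) (n N : ℕ) (t : ℕ → ℝ)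
    (hn : n ≤ N) (hB : 0 ≤ B) (hc : ∀ x ∈ S, ∃ i < n, |r x - t i| ≤ σ)
    (h : ∀ u : ℝ, ((S.filter (fun x => u ≤ r x ∧ r x ≤ u + 2 * σ)).card : ℝ) ≤ B) :
    (S.card : ℝ) ≤ N * B := by
  have h1 : S ⊆ (Finset.range n).biUnion
      (fun i => S.filter (fun x => t i - σ ≤ r x ∧ r x ≤ t i - σ + 2 * σ)) := by
    intro x hx
    obtain ⟨i, hi, hi2⟩ := hc x hx
    rw [abs_le] at hi2
    exact Finset.mem_biUnion.2 ⟨i, Finset.mem_range.2 hi, Finset.mem_filter.2 ⟨hx, by linarith [hi2.1],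
      by linarith [hi2.2]⟩⟩
  have h2 : (S.card : ℝ) ≤ ∑ i ∈ Finset.range n,
        ((S.filter (fun x => t i - σ ≤ r x ∧ r x ≤ t i - σ + 2 * σ)).card : ℝ) := by
    exact_mod_cast (Finset.card_le_card h1).trans Finset.card_biUnion_le
  have h3 : ∑ i ∈ Finset.range n,
      ((S.filter (fun x => t i - σ ≤ r x ∧ r x ≤ t i - σ + 2 * σ)).card : ℝ) ≤
      ∑ _i ∈ Finset.range n, B := Finset.sum_le_sum fun i _ => h (t i - σ)
  rw [Finset.sum_const, Finset.card_range, nsmul_eq_mul] at h3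
  exact (h2.trans h3).trans (mul_le_mul_of_nonneg_right (by exact_mod_cast hn) hB)

theorem max_sep (T : Finset ℝ) (σ : ℝ) (hσ : 0 < σ) : ∃ (r : ℕ) (t : ℕ → ℝ),
    (∀ i < r, t i ∈ T) ∧ (∀ i j, i < j → j < r → t i + σ ≤ t j) ∧
    ∀ x ∈ T, ∃ i < r, |x - t i| ≤ σ := by
  induction T using Finset.strongInduction with
  | H T ih =>
    rcases T.eq_empty_or_nonempty with h | h
    · refine ⟨0, fun _ => 0, fun i hi => absurd hi (Nat.not_lt_zero i),
        fun i j _ hj => absurd hj (Nat.not_lt_zero j), fun x hx => ?_⟩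
      rw [h] at hx
      exact absurd hx (Finset.notMem_empty x)
    · have hm := T.min'_mem h
      have hss : T.filter (fun x => T.min' h + σ ≤ x) ⊂ T := by
        refine (Finset.filter_ssubset).2 ⟨T.min' h, hm, ?_⟩
        push Not
        linarith
      obtain ⟨r, t, h1, h2, h3⟩ := ih _ hss
      refine ⟨r + 1, fun i => if i = 0 then T.min' h else t (i - 1), ?_, ?_, ?_⟩
      · intro i hi
        rcases Nat.eq_zero_or_pos i with h0 | h0
        · simp only [h0, if_true]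
          exact hm
        · have h4 := h1 (i - 1) (by omega)
          simp only [if_neg (Nat.pos_iff_ne_zero.1 h0)]
          exact (Finset.mem_filter.1 h4).1
      · intro i j hij hj
        have hj0 : j ≠ 0 := by omega
        have h4 := h1 (j - 1) (by omega)
        rcases Nat.eq_zero_or_pos i with h0 | h0
        · simp only [h0, if_true, if_neg hj0]
          exact (Finset.mem_filter.1 h4).2
        · simp only [if_neg (Nat.pos_iff_ne_zero.1 h0), if_neg hj0]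
          exact h2 (i - 1) (j - 1) (by omega) (by omega)
      · intro x hx
        rcases le_or_gt (T.min' h + σ) x with h4 | h4
        · obtain ⟨i, hi, hi2⟩ := h3 x (Finset.mem_filter.2 ⟨hx, h4⟩)
          refine ⟨i + 1, by omega, ?_⟩
          simp only [if_neg (Nat.succ_ne_zero i), Nat.add_sub_cancel]
          exact hi2
        · refine ⟨0, by omega, ?_⟩
          simp only [if_true]
          have h5 := T.min'_le x hx
          rw [abs_le]
          constructor <;> linarith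

end Pool.Agent.PWG
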