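import Pool.Agent.PWG.Win
import Pool.Agent.PWG.SL
import Pool.Agent.PWG.Sep

set_option autoImplicit false

/-!
# PWG-Cen: the points of a window are near boundedly many centres (job PWG-Cen)

Plan. `n = (d+1)^2 - 1`, `E = Finset.univ.image (ex w)` (`n + 1` elements as `ex w` is injective). Constants: `C1` of
`norm_pt w d`, `(K0, N)` of `sublevel E _ (1/32) 32`, `cw` of `win w d`; `c = cw`.
If `S` is empty take `r = 0`. Otherwise let `g ≠ 0` be the vector of `win`; `γ_i = g i * MM i`, `Γ = max |γ_i| > 0`.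
For `q ∈ S`: `0 = ∑ g i mon q i = ρ ∑ γ_i tt^i1 ss^i2` with `ρ > 0` (`mon_eq`), so
`|∑ γ_i kap^(i2/w) tt^(ex w i)| <= (n+1) Γ 32^d C1 δ` by `norm_pt`. The function `γ'' : ℝ → ℝ`,
`γ'' p = Γ⁻¹ C2 * ∑_(i, ex w i = p) γ_i kap^(i2/w)`, with `C2 >= 1` such that `C2 kap^(i2/w) >= 1` for all `i2 <= d`
(`kap ∈ [1/C1, C1]`), has `|γ'' p| >= 1` for the `p` of the maximal `γ_i`, and
`|∑_(p ∈ E) γ'' p t^p| <= K1 δ` at `t = tt q`, `q ∈ S`. Take `K = K0 K1`.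
`max_sep` for `T = S.image (tt A A')` and `σ` gives `r, t`; `sublevel` gives `r <= N` as `K0 (K1 δ) <= σ^n`.
-/

namespace Pool.Agent.PWG

private theorem cen_pow {C1 k x : ℝ} {d : ℕ} (hC1 : 1 ≤ C1) (hk : 1 / C1 ≤ k) (hx0 : 0 ≤ x) (hx : x ≤ d) :
    1 ≤ C1 ^ d * k ^ x := by
  have h0 : (0 : ℝ) < C1 := by linarith
  have h1 : 0 < 1 / C1 := by positivity
  have h2 : 1 / C1 ≤ 1 := by
    rw [div_le_one h0]
    exact hC1
  have h3 : (1 / C1) ^ x ≤ k ^ x := Real.rpow_le_rpow h1.le hk hx0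
  have h4 : (1 / C1) ^ (d : ℝ) ≤ (1 / C1) ^ x := Real.rpow_le_rpow_of_exponent_ge h1 h2 hx
  rw [Real.rpow_natCast] at h4
  have h5 : C1 ^ d * (1 / C1) ^ d = 1 := by
    rw [← mul_pow, mul_one_div_cancel h0.ne', one_pow]
  rw [← h5]
  exact mul_le_mul_of_nonneg_left (le_trans h4 h3) (by positivity)

theorem cen (w d : ℕ) (hw : 1 ≤ w) (hd : 1 ≤ d)
    (hinj : Function.Injective (fun i : Fin (d + 1) × Fin (d + 1) => ex w i)) :
    ∃ (c K : ℝ) (N : ℕ), 0 < c ∧ c ≤ 1 / 2 ∧ 0 < K ∧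
    ∀ (A A' V V' κ δ l u σ : ℝ) (S : Finset Q4), 1 ≤ A → 1 ≤ A' → 1 ≤ V → 1 ≤ V' → 0 < κ →
      0 ≤ δ → δ * (A * A' * (V * V')) ^ d ≤ c → 0 ≤ l →
      l ^ ((d + 1) ^ 2 - 1) * (A * A' * (V * V')) ^ d ≤ c →
      0 < σ → σ ≤ 1 → K * δ ≤ σ ^ ((d + 1) ^ 2 - 1) →
      (∀ q ∈ S, Blk A A' V V' q ∧ Nr w κ δ q ∧ u ≤ tt A A' q ∧ tt A A' q ≤ u + l) →
      ∃ (r : ℕ) (t : ℕ → ℝ), r ≤ N ∧ ∀ q ∈ S, ∃ i < r, |tt A A' q - t i| ≤ σ := by
  classical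
  obtain ⟨C1, hC1, HN⟩ := norm_pt w d hw
  obtain ⟨E, hEdef⟩ : ∃ E : Finset ℝ, E = Finset.univ.image (fun i : Fin (d + 1) × Fin (d + 1) => ex w i) := ⟨_, rfl⟩
  have hEne : E.Nonempty := by
    rw [hEdef]
    exact Finset.Nonempty.image Finset.univ_nonempty _
  have hEc : E.card = (d + 1) ^ 2 := by
    rw [hEdef, Finset.card_image_of_injective _ hinj, Finset.card_univ, Fintype.card_prod, Fintype.card_fin, sq]
  obtain ⟨K0, N, hK0, HS⟩ := sublevel E hEne (1 / 32) 32 (by norm_num) (by norm_num)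
  obtain ⟨cw, hcw0, hcw1, HW⟩ := win w d hw hd
  obtain ⟨K1, hK1⟩ : ∃ K1 : ℝ, K1 = C1 ^ d * (((d + 1 : ℕ) : ℝ) ^ 2 * (32 ^ d * C1)) := ⟨_, rfl⟩
  have hC10 : (0 : ℝ) < C1 := by linarith
  have hK1p : 0 < K1 := by rw [hK1]; positivity
  refine ⟨cw, K0 * K1, N, hcw0, hcw1, mul_pos hK0 hK1p, ?_⟩
  intro A A' V V' κ δ l u σ S hA hA' hV hV' hκ hδ hδc hl hlc hσ hσ1 hKσ hS
  by_cases hSe : S = ∅
  · refine ⟨0, fun _ => 0, Nat.zero_le _, ?_⟩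
    intro q hq
    rw [hSe] at hq
    exact absurd hq (Finset.notMem_empty q)
  obtain ⟨q0, hq0⟩ := Finset.nonempty_iff_ne_empty.2 hSe
  obtain ⟨g, hg, Hg⟩ := HW A A' V V' κ δ l u S hA hA' hV hV' hκ hδ hδc hl hlc hS
  have hR1 : 1 ≤ (A * A' * (V * V')) ^ d := by
    apply one_le_pow₀
    exact one_le_mul_of_one_le_of_one_le (one_le_mul_of_one_le_of_one_le hA hA') (one_le_mul_of_one_le_of_one_le hV hV')
  have hδ2 : δ ≤ 1 / 2 := by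
    have : δ * 1 ≤ δ * (A * A' * (V * V')) ^ d := mul_le_mul_of_nonneg_left hR1 hδ
    linarith
  obtain ⟨kp, hkp⟩ : ∃ kp, kp = kap w A A' V V' κ := ⟨_, rfl⟩
  have hpt : ∀ q ∈ S, 1 / 32 ≤ tt A A' q ∧ tt A A' q ≤ 32 ∧ 1 / 2 ≤ ss V V' q ∧ ss V V' q ≤ 2 ∧
      1 / C1 ≤ kp ∧ kp ≤ C1 ∧ ∀ j : ℕ, j ≤ d → |ss V V' q ^ j - kp ^ ((j : ℝ) / w) *
        tt A A' q ^ (-(3 * (j : ℝ) / w))| ≤ C1 * δ := by
    intro q hq
    rw [hkp]
    exact HN A A' V V' κ δ q hA hA' hV hV' hκ hδ hδ2 (hS q hq).1 (hS q hq).2.1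
  have hkp1 : 1 / C1 ≤ kp := (hpt q0 hq0).2.2.2.2.1
  have hkp0 : 0 < kp := lt_of_lt_of_le (by positivity) hkp1
  -- the coefficients
  obtain ⟨γ, hγ⟩ : ∃ γ : Fin (d + 1) × Fin (d + 1) → ℝ, γ = fun i => (g i : ℝ) * MM A A' V V' i := ⟨_, rfl⟩
  have hMM : ∀ i : Fin (d + 1) × Fin (d + 1), 0 < MM A A' V V' i := fun i =>
    MM_pos (by linarith) (by linarith) (by linarith) (by linarith) i
  obtain ⟨i0, -, hi0⟩ := Finset.exists_max_image (Finset.univ : Finset (Fin (d + 1) × Fin (d + 1))) (fun i => |γ i|)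
    Finset.univ_nonempty
  have hΓ : 0 < |γ i0| := by
    obtain ⟨i, hi⟩ := Function.ne_iff.1 hg
    have h1 : γ i ≠ 0 := by
      rw [hγ]
      have h2 : (g i : ℝ) ≠ 0 := by
        intro h3
        apply hi
        have h4 : g i = 0 := by exact_mod_cast h3
        rw [h4]
        rfl
      exact mul_ne_zero h2 (hMM i).ne'
    exact lt_of_lt_of_le (abs_pos.2 h1) (hi0 i (Finset.mem_univ i))
  obtain ⟨Γ, hΓd⟩ : ∃ Γ, Γ = |γ i0| := ⟨_, rfl⟩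
  rw [← hΓd] at hΓ hi0
  obtain ⟨γ', hγ'⟩ : ∃ γ' : ℝ → ℝ, γ' = Function.extend (fun i : Fin (d + 1) × Fin (d + 1) => ex w i)
      (fun i => Γ⁻¹ * C1 ^ d * (γ i * kp ^ (((i.2 : ℕ) : ℝ) / w))) (fun _ => 0) := ⟨_, rfl⟩
  have hγ'a : ∀ i : Fin (d + 1) × Fin (d + 1), γ' (ex w i) = Γ⁻¹ * C1 ^ d * (γ i * kp ^ (((i.2 : ℕ) : ℝ) / w)) := by
    intro i
    rw [hγ']
    exact hinj.extend_apply _ _ i
  have hw0 : (0 : ℝ) < w := by exact_mod_cast hw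
  have hbig : ∃ p ∈ E, 1 ≤ |γ' p| := by
    refine ⟨ex w i0, by rw [hEdef]; exact Finset.mem_image_of_mem _ (Finset.mem_univ i0), ?_⟩
    rw [hγ'a, abs_mul, abs_mul, abs_mul, abs_of_pos (inv_pos.2 hΓ), abs_of_pos (pow_pos hC10 d), ← hΓd,
      abs_of_pos (Real.rpow_pos_of_pos hkp0 _)]
    have h1 : (((i0.2 : ℕ) : ℝ) / w) ≤ d := by
      rw [div_le_iff₀ hw0]
      have h2 : ((i0.2 : ℕ) : ℝ) ≤ d := by
        have := i0.2.isLt
        exact_mod_cast Nat.lt_succ_iff.1 this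
      have h3 : (1 : ℝ) ≤ w := by exact_mod_cast hw
      have h4 : (0 : ℝ) ≤ d := Nat.cast_nonneg d
      nlinarith
    have h2 := cen_pow hC1 hkp1 (x := ((i0.2 : ℕ) : ℝ) / w) (by positivity) h1
    have h3 : Γ⁻¹ * C1 ^ d * (Γ * kp ^ (((i0.2 : ℕ) : ℝ) / w)) = C1 ^ d * kp ^ (((i0.2 : ℕ) : ℝ) / w) := by
      field_simp
    rw [h3]
    exact h2
  -- smallness
  have hsmall : ∀ q ∈ S, |∑ p ∈ E, γ' p * tt A A' q ^ p| ≤ K1 * δ := by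
    intro q hq
    obtain ⟨b1, b2, b3, b4, -, -, b5⟩ := hpt q hq
    have ht0 : 0 < tt A A' q := by linarith
    have hB := (hS q hq).1
    have ha' : (0 : ℝ) < (q.1.2 : ℝ) := lt_of_lt_of_le (by linarith) hB.b0
    have hv' : (0 : ℝ) < (q.2.2 : ℝ) := lt_of_lt_of_le (by linarith) hB.w0
    have ha'n : 0 < q.1.2 := by exact_mod_cast ha'
    have hv'n : 0 < q.2.2 := by exact_mod_cast hv'
    have hz : ∑ i, γ i * (tt A A' q ^ (i.1 : ℕ) * ss V V' q ^ (i.2 : ℕ)) = 0 := by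
      have h1 : ((∑ i, g i * mon q i : ℤ) : ℝ) = 0 := by
        rw [Hg q hq, Int.cast_zero]
      rw [Int.cast_sum] at h1
      have h2 : ∀ i : Fin (d + 1) × Fin (d + 1), ((g i * mon q i : ℤ) : ℝ) =
          (((q.1.2 : ℝ) / A') ^ d * ((q.2.2 : ℝ) / V') ^ d) *
            (γ i * (tt A A' q ^ (i.1 : ℕ) * ss V V' q ^ (i.2 : ℕ))) := by
        intro i
        rw [Int.cast_mul, mon_eq (A := A) (A' := A') (V := V) (V' := V') (by linarith) (by linarith) (by linarith)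
          (by linarith) q ha'n hv'n i, hγ]
        ring
      rw [Finset.sum_congr rfl (fun i _ => h2 i), ← Finset.mul_sum] at h1
      have h3 : (((q.1.2 : ℝ) / A') ^ d * ((q.2.2 : ℝ) / V') ^ d) ≠ 0 := by
        have hA'0 : (0 : ℝ) < A' := by linarith
        have hV'0 : (0 : ℝ) < V' := by linarith
        positivity
      exact (mul_eq_zero.1 h1).resolve_left h3
    have hsum : ∑ p ∈ E, γ' p * tt A A' q ^ p =
        Γ⁻¹ * C1 ^ d * ∑ i : Fin (d + 1) × Fin (d + 1),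
          γ i * (tt A A' q ^ (i.1 : ℕ) * (kp ^ (((i.2 : ℕ) : ℝ) / w) * tt A A' q ^ (-(3 * ((i.2 : ℕ) : ℝ) / w)))) := by
      rw [hEdef, Finset.sum_image (fun i _ j _ hij => hinj hij), Finset.mul_sum]
      refine Finset.sum_congr rfl fun i _ => ?_
      rw [hγ'a]
      have h1 : tt A A' q ^ ex w i = tt A A' q ^ (i.1 : ℕ) * tt A A' q ^ (-(3 * ((i.2 : ℕ) : ℝ) / w)) := by
        rw [← Real.rpow_natCast (tt A A' q) (i.1 : ℕ), ← Real.rpow_add ht0]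
        rfl
      rw [h1]
      ring
    rw [hsum, abs_mul, abs_of_pos (mul_pos (inv_pos.2 hΓ) (pow_pos hC10 d))]
    have hdiff : ∑ i : Fin (d + 1) × Fin (d + 1),
          γ i * (tt A A' q ^ (i.1 : ℕ) * (kp ^ (((i.2 : ℕ) : ℝ) / w) * tt A A' q ^ (-(3 * ((i.2 : ℕ) : ℝ) / w)))) =
        ∑ i : Fin (d + 1) × Fin (d + 1), -(γ i * (tt A A' q ^ (i.1 : ℕ) * (ss V V' q ^ (i.2 : ℕ) -
          kp ^ (((i.2 : ℕ) : ℝ) / w) * tt A A' q ^ (-(3 * ((i.2 : ℕ) : ℝ) / w))))) := by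
      have h1 : ∑ i : Fin (d + 1) × Fin (d + 1),
          γ i * (tt A A' q ^ (i.1 : ℕ) * (kp ^ (((i.2 : ℕ) : ℝ) / w) * tt A A' q ^ (-(3 * ((i.2 : ℕ) : ℝ) / w)))) =
          ∑ i : Fin (d + 1) × Fin (d + 1),
          γ i * (tt A A' q ^ (i.1 : ℕ) * (kp ^ (((i.2 : ℕ) : ℝ) / w) * tt A A' q ^ (-(3 * ((i.2 : ℕ) : ℝ) / w)))) -
          ∑ i, γ i * (tt A A' q ^ (i.1 : ℕ) * ss V V' q ^ (i.2 : ℕ)) := by
        rw [hz, sub_zero]
      rw [h1, ← Finset.sum_sub_distrib]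
      refine Finset.sum_congr rfl fun i _ => ?_
      ring
    rw [hdiff]
    have hterm : |∑ i : Fin (d + 1) × Fin (d + 1), -(γ i * (tt A A' q ^ (i.1 : ℕ) * (ss V V' q ^ (i.2 : ℕ) -
          kp ^ (((i.2 : ℕ) : ℝ) / w) * tt A A' q ^ (-(3 * ((i.2 : ℕ) : ℝ) / w)))))| ≤
        ((d + 1 : ℕ) : ℝ) ^ 2 * (Γ * (32 ^ d * (C1 * δ))) := by
      refine le_trans (Finset.abs_sum_le_sum_abs _ _) ?_
      have h1 : ∀ i ∈ (Finset.univ : Finset (Fin (d + 1) × Fin (d + 1))),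
          |-(γ i * (tt A A' q ^ (i.1 : ℕ) * (ss V V' q ^ (i.2 : ℕ) -
          kp ^ (((i.2 : ℕ) : ℝ) / w) * tt A A' q ^ (-(3 * ((i.2 : ℕ) : ℝ) / w)))))| ≤ Γ * (32 ^ d * (C1 * δ)) := by
        intro i _
        rw [abs_neg, abs_mul, abs_mul]
        refine mul_le_mul (hi0 i (Finset.mem_univ i)) ?_ (by positivity) hΓ.le
        refine mul_le_mul ?_ (b5 i.2 (Nat.lt_succ_iff.1 i.2.isLt)) (abs_nonneg _) (by positivity)
        rw [abs_of_pos (pow_pos ht0 _)]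
        calc tt A A' q ^ (i.1 : ℕ) ≤ 32 ^ (i.1 : ℕ) := pow_le_pow_left₀ ht0.le b2 _
          _ ≤ 32 ^ d := pow_le_pow_right₀ (by norm_num) (Nat.lt_succ_iff.1 i.1.isLt)
      refine le_trans (Finset.sum_le_sum h1) ?_
      rw [Finset.sum_const, Finset.card_univ, Fintype.card_prod, Fintype.card_fin, nsmul_eq_mul]
      apply le_of_eq
      push_cast
      ring
    calc Γ⁻¹ * C1 ^ d * |∑ i : Fin (d + 1) × Fin (d + 1), -(γ i * (tt A A' q ^ (i.1 : ℕ) * (ss V V' q ^ (i.2 : ℕ) -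
          kp ^ (((i.2 : ℕ) : ℝ) / w) * tt A A' q ^ (-(3 * ((i.2 : ℕ) : ℝ) / w)))))|
        ≤ Γ⁻¹ * C1 ^ d * (((d + 1 : ℕ) : ℝ) ^ 2 * (Γ * (32 ^ d * (C1 * δ)))) :=
          mul_le_mul_of_nonneg_left hterm (by positivity)
      _ = K1 * δ := by
          rw [hK1]
          field_simp
  -- the centres
  obtain ⟨r, t, h1, h2, h3⟩ := max_sep (S.image (tt A A')) σ hσ
  refine ⟨r, t, ?_, fun q hq => h3 _ (Finset.mem_image_of_mem _ hq)⟩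
  refine HS γ' hbig (K1 * δ) σ (by positivity) hσ hσ1 ?_ r t ?_ h2
  · rw [hEc, ← mul_assoc]
    exact hKσ
  · intro i hi
    obtain ⟨q, hq, hqt⟩ := Finset.mem_image.1 (h1 i hi)
    rw [← hqt]
    exact ⟨(hpt q hq).1, (hpt q hq).2.1, hsmall q hq⟩

end Pool.Agent.PWG
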