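import Pool.Agent.PWG.Sep

set_option autoImplicit false

/-!
# PWG-Cls: the pairs `(a, a')` for fixed classes (job PWG-Cls)

For `δ > 1/2` all pairs are counted; for `δ ≤ 1/2` the fractions `a/a'` lie in a short window, `frac_card`.
-/

namespace Pool.Agent.PWG

private theorem cls_big {A A' : ℝ} (hA : 1 ≤ A) (hA' : 1 ≤ A') {S : Finset (ℕ × ℕ)}
    (h : ∀ q ∈ S, 0 < q.1 ∧ (q.1 : ℝ) ≤ A ∧ 0 < q.2 ∧ (q.2 : ℝ) ≤ A') : (S.card : ℝ) ≤ A * A' := by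
  have h1 : S ⊆ Finset.Icc 1 ⌊A⌋₊ ×ˢ Finset.Icc 1 ⌊A'⌋₊ := by
    intro q hq
    obtain ⟨a1, a2, a3, a4⟩ := h q hq
    rw [Finset.mem_product, Finset.mem_Icc, Finset.mem_Icc]
    exact ⟨⟨a1, Nat.le_floor a2⟩, a3, Nat.le_floor a4⟩
  have h2 := Finset.card_le_card h1
  rw [Finset.card_product, Nat.card_Icc, Nat.card_Icc, Nat.add_sub_cancel, Nat.add_sub_cancel] at h2
  have h3 : (S.card : ℝ) ≤ (⌊A⌋₊ : ℝ) * ⌊A'⌋₊ := by exact_mod_cast h2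
  refine h3.trans (mul_le_mul (Nat.floor_le (by linarith)) (Nat.floor_le (by linarith))
    (Nat.cast_nonneg _) (by linarith))

private theorem cls_win {A A' κ δ a b ρ : ℝ} (hA : 1 ≤ A) (hA' : 1 ≤ A') (hδ : 0 ≤ δ)
    (hδ1 : δ ≤ 1 / 2) (ha : A / 32 ≤ a) (ha1 : a ≤ A) (hb : A' / 32 ≤ b) (_hb1 : b ≤ A')
    (h : |a ^ 3 - κ * b ^ 3| ≤ δ * (κ * b ^ 3)) (hρ0 : 0 < ρ) (hρ : ρ ^ 3 = κ * (A' / A) ^ 3) :
    ρ * (1 - δ) ≤ a / b * (A' / A) ∧ a / b * (A' / A) ≤ ρ * (1 + δ) ∧ ρ ≤ 64 := by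
  have hA0 : 0 < A := by linarith
  have hA0' : 0 < A' := by linarith
  have ha0 : 0 < a := by linarith
  have hb0 : 0 < b := by linarith
  obtain ⟨t, ht⟩ : ∃ t, t = a / b * (A' / A) := ⟨_, rfl⟩
  have ht0 : 0 < t := by rw [ht]; positivity
  have ht3 : t ^ 3 = a ^ 3 / b ^ 3 * (A' / A) ^ 3 := by
    rw [ht, mul_pow, div_pow]
  have ht1 : t ≤ 32 := by
    rw [ht, div_mul_div_comm, div_le_iff₀ (by positivity)]
    have h1 : a * A' ≤ A * A' := mul_le_mul_of_nonneg_right ha1 hA0'.le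
    have h2 : A' / 32 * A ≤ b * A := mul_le_mul_of_nonneg_right hb hA0.le
    linarith
  rw [abs_le] at h
  have c0 : 0 < (A' / A) ^ 3 / b ^ 3 := by positivity
  have e1 : ρ ^ 3 * (1 - δ) ≤ t ^ 3 := by
    rw [ht3, hρ]
    have h1 : κ * b ^ 3 * (1 - δ) ≤ a ^ 3 := by linarith [h.1]
    have h2 := mul_le_mul_of_nonneg_right h1 c0.le
    have h3 : κ * b ^ 3 * (1 - δ) * ((A' / A) ^ 3 / b ^ 3) = κ * (A' / A) ^ 3 * (1 - δ) := by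
      field_simp
    have h4 : a ^ 3 * ((A' / A) ^ 3 / b ^ 3) = a ^ 3 / b ^ 3 * (A' / A) ^ 3 := by ring
    rw [h3, h4] at h2
    exact h2
  have e2 : t ^ 3 ≤ ρ ^ 3 * (1 + δ) := by
    rw [ht3, hρ]
    have h1 : a ^ 3 ≤ κ * b ^ 3 * (1 + δ) := by linarith [h.2]
    have h2 := mul_le_mul_of_nonneg_right h1 c0.le
    have h3 : κ * b ^ 3 * (1 + δ) * ((A' / A) ^ 3 / b ^ 3) = κ * (A' / A) ^ 3 * (1 + δ) := by
      field_simp
    have h4 : a ^ 3 * ((A' / A) ^ 3 / b ^ 3) = a ^ 3 / b ^ 3 * (A' / A) ^ 3 := by ring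
    rw [h3, h4] at h2
    exact h2
  have hρ3 : 0 < ρ ^ 3 := by positivity
  rw [← ht]
  refine ⟨?_, ?_, ?_⟩
  · refine (pow_le_pow_iff_left₀ (mul_nonneg hρ0.le (by linarith)) ht0.le
      (by norm_num : (3 : ℕ) ≠ 0)).1 (le_trans ?_ e1)
    rw [mul_pow]
    refine mul_le_mul_of_nonneg_left ?_ hρ3.le
    have h1 : (1 - δ) ^ 3 ≤ (1 - δ) ^ 1 :=
      pow_le_pow_of_le_one (by linarith) (by linarith) (by norm_num)
    rwa [pow_one] at h1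
  · refine (pow_le_pow_iff_left₀ ht0.le (mul_nonneg hρ0.le (by linarith))
      (by norm_num : (3 : ℕ) ≠ 0)).1 (le_trans e2 ?_)
    rw [mul_pow]
    refine mul_le_mul_of_nonneg_left ?_ hρ3.le
    have h1 : (1 + δ) ^ 1 ≤ (1 + δ) ^ 3 := pow_le_pow_right₀ (by linarith) (by norm_num)
    rwa [pow_one] at h1
  · refine (pow_le_pow_iff_left₀ hρ0.le (by norm_num) (by norm_num : (3 : ℕ) ≠ 0)).1 ?_
    have h1 : ρ ^ 3 * (1 / 2) ≤ ρ ^ 3 * (1 - δ) := mul_le_mul_of_nonneg_left (by linarith) hρ3.le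
    have h2 : t ^ 3 ≤ 32 ^ 3 := by gcongr
    norm_num at h2 ⊢
    linarith

theorem cls : ∃ K : ℝ, 1 ≤ K ∧ ∀ (A A' κ δ : ℝ) (S : Finset (ℕ × ℕ)), 1 ≤ A → 1 ≤ A' → 0 < κ →
    0 ≤ δ →
    (∀ q ∈ S, A / 32 ≤ q.1 ∧ (q.1 : ℝ) ≤ A ∧ A' / 32 ≤ q.2 ∧ (q.2 : ℝ) ≤ A' ∧
      Nat.Coprime q.1 q.2 ∧
      |(q.1 : ℝ) ^ 3 - κ * (q.2 : ℝ) ^ 3| ≤ δ * (κ * (q.2 : ℝ) ^ 3)) →
    (S.card : ℝ) ≤ K * (1 + δ * (A * A')) := by
  refine ⟨128, by norm_num, ?_⟩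
  intro A A' κ δ S hA hA' hκ hδ h
  have hA0 : 0 < A := by linarith
  have hA0' : 0 < A' := by linarith
  have hpos : ∀ q ∈ S, 0 < q.1 ∧ 0 < q.2 := by
    intro q hq
    obtain ⟨h1, _, h3, _⟩ := h q hq
    have h5 : (0 : ℝ) < q.1 := by linarith
    have h6 : (0 : ℝ) < q.2 := by linarith
    exact ⟨by exact_mod_cast h5, by exact_mod_cast h6⟩
  rcases le_or_gt δ (1 / 2) with hd | hd
  · rcases S.eq_empty_or_nonempty with he | ⟨q₀, hq₀⟩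
    · rw [he, Finset.card_empty, Nat.cast_zero]
      positivity
    · have hκ0 : 0 < κ * (A' / A) ^ 3 := by positivity
      obtain ⟨ρ, hρ0, hρ⟩ : ∃ ρ : ℝ, 0 < ρ ∧ ρ ^ 3 = κ * (A' / A) ^ 3 := by
        refine ⟨(κ * (A' / A) ^ 3) ^ ((1 : ℝ) / 3), Real.rpow_pos_of_pos hκ0 _, ?_⟩
        rw [← Real.rpow_natCast, ← Real.rpow_mul hκ0.le]
        norm_num
      have hw : ∀ q ∈ S, ρ * (1 - δ) ≤ (q.1 : ℝ) / q.2 * (A' / A) ∧
          (q.1 : ℝ) / q.2 * (A' / A) ≤ ρ * (1 + δ) ∧ ρ ≤ 64 := by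
        intro q hq
        obtain ⟨h1, h2, h3, h4, _, h6⟩ := h q hq
        exact cls_win hA hA' hδ hd h1 h2 h3 h4 h6 hρ0 hρ
      have hρ64 := (hw q₀ hq₀).2.2
      have h7 := frac_card S A A' (ρ * (1 - δ)) (2 * ρ * δ) hA0 hA0' (by positivity) (by
        intro q hq
        obtain ⟨w1, w2, _⟩ := hw q hq
        obtain ⟨_, _, _, h4, h5, _⟩ := h q hq
        exact ⟨(hpos q hq).1, (hpos q hq).2, h5, h4, w1, by linarith⟩)
      refine h7.trans ?_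
      have h8 : 0 ≤ δ * (A * A') := by positivity
      have h9 : 2 * ρ * (δ * (A * A')) ≤ 128 * (δ * (A * A')) :=
        mul_le_mul_of_nonneg_right (by linarith) h8
      linarith
  · have h7 := cls_big hA hA' (S := S) (by
      intro q hq
      obtain ⟨_, h2, _, h4, _, _⟩ := h q hq
      exact ⟨(hpos q hq).1, h2, (hpos q hq).2, h4⟩)
    refine h7.trans ?_
    have h8 : 0 ≤ A * A' := by positivity
    have h9 : 1 / 2 * (A * A') ≤ δ * (A * A') := mul_le_mul_of_nonneg_right hd.le h8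
    linarith

end Pool.Agent.PWG
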