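import Mathlib

set_option autoImplicit false

/-!
# Close pairs of 3-powerful numbers by the determinant method: definitions (helper83)

THEOREM (project PWG, MP_8e25e3_nt): for `M <= m < 2 M` at most
`C * (h / M + M ^ (3/4) * h ^ (1/12) * (1 + log M) ^ 5)` of the gaps `a_(m+1) - a_m` between consecutive
3-powerful numbers are `<= h`.

Write `n = a^3 b^4 c^5`, `n' = a'^3 b'^4 c'^5`, `|n - n'| <= δ n'`. The common factors of `(a, a')`, `(b, b')`,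
`(c, c')` are divided out. For fixed `(c, c')` the points `t = a/a'`, `s = b/b'` are close to the curve
`t^3 s^4 = κ`; in a window of length `λ` with `λ^n R^d <= c` (`R = A A' B B'`, `n = (d+1)^2 - 1`) there is one
integer polynomial of bidegree `(d, d)` vanishing at all of them (pigeonhole principle and Taylor expansion), and the
points of the window where it is small are contained in a bounded number of intervals of length `C δ^(1/n)`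
(generalised polynomials with `(d+1)^2` distinct real exponents). Used with `d = 1` and `d = 2`.

A point of the plane is `q = ((a, a'), (v, v'))`, `v = b` with weight `w = 4` or `v = c` with weight `w = 5`.
-/

namespace Pool.Agent.PWG

/-- `((a, a'), (v, v'))` -/
abbrev Q4 := (ℕ × ℕ) × (ℕ × ℕ)

/-- the block: sizes about `A, A', V, V'`, coprime pairs. -/
structure Blk (A A' V V' : ℝ) (q : Q4) : Prop where
  a0 : A / 32 ≤ q.1.1
  a1 : (q.1.1 : ℝ) ≤ A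
  b0 : A' / 32 ≤ q.1.2
  b1 : (q.1.2 : ℝ) ≤ A'
  v0 : V / 2 ≤ q.2.1
  v1 : (q.2.1 : ℝ) ≤ V
  w0 : V' / 2 ≤ q.2.2
  w1 : (q.2.2 : ℝ) ≤ V'
  ca : Nat.Coprime q.1.1 q.1.2
  cv : Nat.Coprime q.2.1 q.2.2

/-- the point `(a/a', v/v')` is `δ`-close to the curve `t^3 s^w = κ`. -/
def Nr (w : ℕ) (κ δ : ℝ) (q : Q4) : Prop :=
  |(q.1.1 : ℝ) ^ 3 * (q.2.1 : ℝ) ^ w - κ * ((q.1.2 : ℝ) ^ 3 * (q.2.2 : ℝ) ^ w)| ≤
    δ * (κ * ((q.1.2 : ℝ) ^ 3 * (q.2.2 : ℝ) ^ w))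

/-- the normalised first coordinate, between `1/32` and `32` on the block. -/
noncomputable def tt (A A' : ℝ) (q : Q4) : ℝ := ((q.1.1 : ℝ) / q.1.2) * (A' / A)

/-- the normalised second coordinate, between `1/2` and `2` on the block. -/
noncomputable def ss (V V' : ℝ) (q : Q4) : ℝ := ((q.2.1 : ℝ) / q.2.2) * (V' / V)

/-- the normalised constant: `tt^3 ss^w` is close to `kap`. -/
noncomputable def kap (w : ℕ) (A A' V V' κ : ℝ) : ℝ := κ * (A' / A) ^ 3 * (V' / V) ^ w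

/-- the exponents `i - 3 j / w` of the functions `t^i φ(t)^j`, `φ(t) = (kap / t^3)^(1/w)`. -/
noncomputable def ex (w : ℕ) {d : ℕ} (i : Fin (d + 1) × Fin (d + 1)) : ℝ :=
  (i.1 : ℝ) - 3 * (i.2 : ℝ) / w

/-- the sizes of the monomials -/
noncomputable def MM (A A' V V' : ℝ) {d : ℕ} (i : Fin (d + 1) × Fin (d + 1)) : ℝ :=
  A ^ (i.1 : ℕ) * A' ^ (d - (i.1 : ℕ)) * (V ^ (i.2 : ℕ) * V' ^ (d - (i.2 : ℕ)))

/-- the monomials `a^i a'^(d-i) v^j v'^(d-j)`. -/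
def mon (q : Q4) {d : ℕ} (i : Fin (d + 1) × Fin (d + 1)) : ℤ :=
  (q.1.1 : ℤ) ^ (i.1 : ℕ) * (q.1.2 : ℤ) ^ (d - (i.1 : ℕ)) *
    ((q.2.1 : ℤ) ^ (i.2 : ℕ) * (q.2.2 : ℤ) ^ (d - (i.2 : ℕ)))

/-- `((a, b, c), (a', b', c'))` -/
abbrev T6 := (ℕ × ℕ × ℕ) × (ℕ × ℕ × ℕ)

/-- `a^3 b^4 c^5` -/
def N3 (p : ℕ × ℕ × ℕ) : ℕ := p.1 ^ 3 * p.2.1 ^ 4 * p.2.2 ^ 5

/-- positive entries -/
def Pos3 (p : ℕ × ℕ × ℕ) : Prop := 0 < p.1 ∧ 0 < p.2.1 ∧ 0 < p.2.2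

/-- the block of a triple -/
structure Blk3 (A B C : ℝ) (p : ℕ × ℕ × ℕ) : Prop where
  a0 : A / 32 ≤ p.1
  a1 : (p.1 : ℝ) ≤ A
  b0 : B / 2 ≤ p.2.1
  b1 : (p.2.1 : ℝ) ≤ B
  c0 : C / 2 ≤ p.2.2
  c1 : (p.2.2 : ℝ) ≤ C

/-- reduced pairs of triples -/
def Red (p : T6) : Prop :=
  Nat.Coprime p.1.1 p.2.1 ∧ Nat.Coprime p.1.2.1 p.2.2.1 ∧ Nat.Coprime p.1.2.2 p.2.2.2

/-- relative distance at most `δ` -/
def Cl (δ : ℝ) (p : T6) : Prop := |(N3 p.1 : ℝ) - N3 p.2| ≤ δ * N3 p.2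

end Pool.Agent.PWG
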