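import Pool.Agent.PWG.Norm
import Pool.Agent.PWG.Sep

set_option autoImplicit false

/-!
# PWG-Dir: direct count of the points in a window (job PWG-Dir)

Plan. `S` is counted by fibres over `q.1 = (a, a')` (`Finset.card_eq_sum_card_image` or
`Finset.card_le_mul_card_image`). The image is counted by `frac_card` (`tt` is the normalised quotient, `a' <= A'`):
`<= 1 + L (A A')`. In a fibre `tt` is fixed, and by `norm_pt w 1` `ss` is within `C δ` of
`kap^(1/w) tt^(-(3/w))`, so the pairs `(v, v')` are counted by `frac_card` with window length `2 C δ`: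
`<= 1 + 2 C δ (V V')`. Positivity of `a, a', v, v'` from `Blk` and `A, A', V, V' >= 1`.
-/

namespace Pool.Agent.PWG

private lemma tt_congr {A A' : ℝ} {q p : Q4} (h : q.1 = p.1) : tt A A' q = tt A A' p := by
  unfold tt
  rw [h]

private lemma nat_pos_of {X : ℝ} {n : ℕ} {c : ℝ} (hX : 1 ≤ X) (hc : 0 < c) (h : X / c ≤ n) : 0 < n := by
  have h1 : 0 < X / c := by positivity
  have h2 : (0 : ℝ) < n := lt_of_lt_of_le h1 h
  exact_mod_cast h2

theorem dir (w : ℕ) (hw : 1 ≤ w) : ∃ C : ℝ, 1 ≤ C ∧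
    ∀ (A A' V V' κ δ u L : ℝ) (S : Finset Q4), 1 ≤ A → 1 ≤ A' → 1 ≤ V → 1 ≤ V' → 0 < κ → 0 ≤ δ →
      δ ≤ 1 / 2 → 0 ≤ L →
      (∀ q ∈ S, Blk A A' V V' q ∧ Nr w κ δ q ∧ u ≤ tt A A' q ∧ tt A A' q ≤ u + L) →
      (S.card : ℝ) ≤ (1 + L * (A * A')) * (1 + C * δ * (V * V')) := by
  classical
  obtain ⟨C0, hC0, hn⟩ := norm_pt w 1 hw
  refine ⟨2 * C0, by linarith, ?_⟩
  intro A A' V V' κ δ u L S hA hA' hV hV' hκ hδ hδ2 hL hS
  have hB0 : 0 ≤ 1 + 2 * C0 * δ * (V * V') := by positivity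
  have hfib : ∀ a ∈ S.image Prod.fst,
      (S.filter (fun x => x.1 = a)).card ≤ ⌊1 + 2 * C0 * δ * (V * V')⌋₊ := by
    intro a ha
    obtain ⟨p, hp, rfl⟩ := Finset.mem_image.mp ha
    apply Nat.le_floor
    have hinj : Set.InjOn (Prod.snd : Q4 → ℕ × ℕ) (S.filter (fun x => x.1 = p.1) : Finset Q4) := by
      intro x hx y hy hxy
      have hx1 := (Finset.mem_filter.mp (Finset.mem_coe.mp hx)).2
      have hy1 := (Finset.mem_filter.mp (Finset.mem_coe.mp hy)).2
      exact Prod.ext (hx1.trans hy1.symm) hxy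
    have hcard : (S.filter (fun x => x.1 = p.1)).card =
        ((S.filter (fun x => x.1 = p.1)).image Prod.snd).card :=
      (Finset.card_image_of_injOn hinj).symm
    rw [hcard]
    set φ : ℝ := kap w A A' V V' κ ^ (((1 : ℕ) : ℝ) / w) *
        tt A A' p ^ (-(3 * ((1 : ℕ) : ℝ) / w)) with hφ
    have hkey := frac_card ((S.filter (fun x => x.1 = p.1)).image Prod.snd) V V'
      (φ - C0 * δ) (2 * C0 * δ) (by linarith) (by linarith) (by positivity) ?_
    · exact hkey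
    · intro b hb
      obtain ⟨q, hq, rfl⟩ := Finset.mem_image.mp hb
      obtain ⟨hqS, hq1⟩ := Finset.mem_filter.mp hq
      obtain ⟨hblk, hnr, -, -⟩ := hS q hqS
      obtain ⟨-, -, -, -, -, -, hj⟩ := hn A A' V V' κ δ q hA hA' hV hV' hκ hδ hδ2 hblk hnr
      have h1 := hj 1 le_rfl
      rw [pow_one, tt_congr (A := A) (A' := A') hq1, ← hφ] at h1
      have h2 := abs_le.mp h1
      unfold ss at h2
      exact ⟨nat_pos_of hV (by norm_num) hblk.v0, nat_pos_of hV' (by norm_num) hblk.w0, hblk.cv,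
        hblk.w1, by linarith [h2.1], by linarith [h2.2]⟩
  have h1 : (S.card : ℝ) ≤ (⌊1 + 2 * C0 * δ * (V * V')⌋₊ : ℝ) * ((S.image Prod.fst).card : ℝ) := by
    exact_mod_cast Finset.card_le_mul_card_image S _ hfib
  have h2 : ((S.image Prod.fst).card : ℝ) ≤ 1 + L * (A * A') := by
    apply frac_card _ A A' u L (by linarith) (by linarith) hL
    intro b hb
    obtain ⟨q, hqS, rfl⟩ := Finset.mem_image.mp hb
    obtain ⟨hblk, -, hu, hu2⟩ := hS q hqS
    unfold tt at hu hu2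
    exact ⟨nat_pos_of hA (by norm_num) hblk.a0, nat_pos_of hA' (by norm_num) hblk.b0, hblk.ca,
      hblk.b1, hu, hu2⟩
  have h3 : (⌊1 + 2 * C0 * δ * (V * V')⌋₊ : ℝ) ≤ 1 + 2 * C0 * δ * (V * V') := Nat.floor_le hB0
  calc (S.card : ℝ) ≤ (⌊1 + 2 * C0 * δ * (V * V')⌋₊ : ℝ) * ((S.image Prod.fst).card : ℝ) := h1
    _ ≤ (1 + 2 * C0 * δ * (V * V')) * (1 + L * (A * A')) :=
        mul_le_mul h3 h2 (by positivity) hB0
    _ = (1 + L * (A * A')) * (1 + 2 * C0 * δ * (V * V')) := mul_comm _ _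

end Pool.Agent.PWG
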