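import Pool.Agent.PWG.Defs

set_option autoImplicit false

/-!
# PWG-ExI: small facts on exponents and monomials
-/

namespace Pool.Agent.PWG

theorem ex_inj (w d : ℕ) (hw : w = 4 ∨ w = 5) (hd : d ≤ 2) :
    Function.Injective (fun i : Fin (d + 1) × Fin (d + 1) => ex w i) := by
  rintro ⟨i1, i2⟩ ⟨j1, j2⟩ h
  have h' : ((i1 : ℕ) : ℝ) - 3 * ((i2 : ℕ) : ℝ) / w = ((j1 : ℕ) : ℝ) - 3 * ((j2 : ℕ) : ℝ) / w := h
  have hw0 : (w : ℝ) ≠ 0 := by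
    rcases hw with h1 | h1 <;> rw [h1] <;> norm_num
  have h2 : (w : ℝ) * ((i1 : ℕ) : ℝ) + 3 * ((j2 : ℕ) : ℝ) =
      (w : ℝ) * ((j1 : ℕ) : ℝ) + 3 * ((i2 : ℕ) : ℝ) := by
    field_simp at h'
    linarith
  have h3 : w * (i1 : ℕ) + 3 * (j2 : ℕ) = w * (j1 : ℕ) + 3 * (i2 : ℕ) := by exact_mod_cast h2
  have b1 := i1.2
  have b2 := i2.2
  have b3 := j1.2
  have b4 := j2.2
  have h4 : (i1 : ℕ) = j1 ∧ (i2 : ℕ) = j2 := by
    rcases hw with h1 | h1 <;> rw [h1] at h3 <;> omega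
  exact Prod.ext (Fin.ext h4.1) (Fin.ext h4.2)

theorem MM_pos {A A' V V' : ℝ} (hA : 0 < A) (hA' : 0 < A') (hV : 0 < V) (hV' : 0 < V') {d : ℕ}
    (i : Fin (d + 1) × Fin (d + 1)) : 0 < MM A A' V V' i := by
  unfold MM
  positivity

private theorem exi_rev {A A' V V' : ℝ} {d : ℕ} (i : Fin (d + 1) × Fin (d + 1)) :
    MM A A' V V' i * MM A A' V V' (Fin.rev i.1, Fin.rev i.2) = (A * A' * (V * V')) ^ d := by
  obtain ⟨⟨i1, h1⟩, ⟨i2, h2⟩⟩ := i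
  unfold MM
  dsimp only
  rw [Fin.val_rev, Fin.val_rev]
  dsimp only
  obtain ⟨e1, he1⟩ : ∃ e, d = i1 + e := ⟨d - i1, by omega⟩
  obtain ⟨e2, he2⟩ : ∃ e, d = i2 + e := ⟨d - i2, by omega⟩
  have r1 : d - i1 = e1 := by omega
  have r2 : d - i2 = e2 := by omega
  have r3 : d + 1 - (i1 + 1) = e1 := by omega
  have r4 : d + 1 - (i2 + 1) = e2 := by omega
  have r5 : d - e1 = i1 := by omega
  have r6 : d - e2 = i2 := by omega
  rw [r1, r2, r3, r4, r5, r6, mul_pow, mul_pow, mul_pow]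
  have q1 : A ^ d = A ^ i1 * A ^ e1 := by rw [he1, pow_add]
  have q2 : A' ^ d = A' ^ i1 * A' ^ e1 := by rw [he1, pow_add]
  have q3 : V ^ d = V ^ i2 * V ^ e2 := by rw [he2, pow_add]
  have q4 : V' ^ d = V' ^ i2 * V' ^ e2 := by rw [he2, pow_add]
  rw [q1, q2, q3, q4]
  ring

theorem prod_MM (A A' V V' : ℝ) (d : ℕ) :
    (∏ i : Fin (d + 1) × Fin (d + 1), MM A A' V V' i) ^ 2 =
      (A * A' * (V * V')) ^ (d * (d + 1) ^ 2) := by
  have h1 : ∏ i : Fin (d + 1) × Fin (d + 1), MM A A' V V' (Fin.rev i.1, Fin.rev i.2) =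
      ∏ i : Fin (d + 1) × Fin (d + 1), MM A A' V V' i :=
    Equiv.prod_comp (Equiv.prodCongr Fin.revPerm Fin.revPerm) (fun i => MM A A' V V' i)
  calc (∏ i : Fin (d + 1) × Fin (d + 1), MM A A' V V' i) ^ 2
      = (∏ i : Fin (d + 1) × Fin (d + 1), MM A A' V V' i) *
          ∏ i : Fin (d + 1) × Fin (d + 1), MM A A' V V' (Fin.rev i.1, Fin.rev i.2) := by
        rw [h1, pow_two]
    _ = ∏ i : Fin (d + 1) × Fin (d + 1),
          (MM A A' V V' i * MM A A' V V' (Fin.rev i.1, Fin.rev i.2)) :=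
        Finset.prod_mul_distrib.symm
    _ = ∏ _i : Fin (d + 1) × Fin (d + 1), (A * A' * (V * V')) ^ d :=
        Finset.prod_congr rfl fun i _ => exi_rev i
    _ = (A * A' * (V * V')) ^ (d * (d + 1) ^ 2) := by
        rw [Finset.prod_const, Finset.card_univ, Fintype.card_prod, Fintype.card_fin, ← pow_mul,
          pow_two]

private theorem exi_one {a a' A A' : ℝ} (ha' : a' ≠ 0) (hA : A ≠ 0) (hA' : A' ≠ 0) {i d : ℕ}
    (hi : i ≤ d) : a ^ i * a' ^ (d - i) =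
      A ^ i * A' ^ (d - i) * ((a' / A') ^ d * ((a / a') * (A' / A)) ^ i) := by
  obtain ⟨e, rfl⟩ : ∃ e, d = i + e := ⟨d - i, by omega⟩
  rw [Nat.add_sub_cancel_left, pow_add, mul_pow, div_pow, div_pow, div_pow, div_pow]
  field_simp

theorem mon_eq {A A' V V' : ℝ} (hA : 0 < A) (hA' : 0 < A') (hV : 0 < V) (hV' : 0 < V') {d : ℕ}
    (q : Q4) (h1 : 0 < q.1.2) (h2 : 0 < q.2.2) (i : Fin (d + 1) × Fin (d + 1)) :
    (mon q i : ℝ) = MM A A' V V' i *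
      ((((q.1.2 : ℝ) / A') ^ d * ((q.2.2 : ℝ) / V') ^ d) *
        (tt A A' q ^ (i.1 : ℕ) * ss V V' q ^ (i.2 : ℕ))) := by
  have e1 := exi_one (a := (q.1.1 : ℝ)) (a' := (q.1.2 : ℝ)) (by positivity) hA.ne' hA'.ne'
    (Nat.lt_succ_iff.1 i.1.2)
  have e2 := exi_one (a := (q.2.1 : ℝ)) (a' := (q.2.2 : ℝ)) (by positivity) hV.ne' hV'.ne'
    (Nat.lt_succ_iff.1 i.2.2)
  unfold mon
  push_cast
  rw [e1, e2]
  unfold MM tt ss
  ring

end Pool.Agent.PWG
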