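import Pool.Agent.PWG.NearAs2
import Pool.Agent.GL3.Exc

set_option autoImplicit false

/-!
# The size of the exceptional set, exponents between 21/11 and 2 (as GL3/Exc.lean)
-/

namespace Pool.Agent.PWG

open Finset Filter Topology Pool.Agent.GL3

/-! ### an analytic lemma -/

private theorem tangent {u v p : ℝ} (hu : 0 < u) (hv : 0 < v) (hp0 : 0 ≤ p) (hp1 : p ≤ 1) :
    v ^ p ≤ u ^ p + p * u ^ (p - 1) * (v - u) := by
  have h1 := rpow_one_add_le_one_add_mul_self (s := v / u - 1) (by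
    have : 0 < v / u := div_pos hv hu
    linarith) hp0 hp1
  rw [add_sub_cancel, Real.div_rpow hv.le hu.le, div_le_iff₀ (Real.rpow_pos_of_pos hu p)] at h1
  rw [Real.rpow_sub_one hu.ne']
  refine h1.trans (le_of_eq ?_)
  field_simp

private theorem local_diff {A β x : ℝ} (hA : 0 ≤ A) (hβ1 : -(1 / 2) ≤ β) (hβ2 : β ≤ 0) (hx0 : 0 < x) (hx1 : x ≤ 1)
    {f1 f2 u v : ℝ} (hu : 0 < u) (huv : u ≤ v) (hvu : v ≤ (1 + x) * u)
    (h1 : A * v ^ β * (v - u) - x ^ 2 * u ^ (1 + β) ≤ f2 - f1)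
    (h2 : f2 - f1 ≤ A * u ^ β * (v - u) + x ^ 2 * u ^ (1 + β)) :
    |(f2 - A / (1 + β) * v ^ (1 + β)) - (f1 - A / (1 + β) * u ^ (1 + β))| ≤ (A + 1) * x ^ 2 * u ^ (1 + β) := by
  have hv : 0 < v := lt_of_lt_of_le hu huv
  have hp : 0 < 1 + β := by linarith
  have t1 := tangent hu hv (p := 1 + β) hp.le (by linarith)
  have t2 := tangent hv hu (p := 1 + β) hp.le (by linarith)
  rw [add_sub_cancel_left] at t1 t2
  have hAp : 0 ≤ A / (1 + β) := div_nonneg hA hp.le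
  have s1 := mul_le_mul_of_nonneg_left t1 hAp
  have s2 := mul_le_mul_of_nonneg_left t2 hAp
  have e1 : A / (1 + β) * (u ^ (1 + β) + (1 + β) * u ^ β * (v - u)) =
      A / (1 + β) * u ^ (1 + β) + A * u ^ β * (v - u) := by field_simp
  have e2 : A / (1 + β) * (v ^ (1 + β) + (1 + β) * v ^ β * (u - v)) =
      A / (1 + β) * v ^ (1 + β) - A * v ^ β * (v - u) := by field_simp; ring
  rw [e1] at s1
  rw [e2] at s2
  -- the variation of the power
  have h3 : u ^ β - v ^ β ≤ x * u ^ β := by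
    have h4 : (1 + x) ^ β * u ^ β ≤ v ^ β := by
      rw [← Real.mul_rpow (by linarith) hu.le]
      exact Real.rpow_le_rpow_of_nonpos hv hvu hβ2
    have h5 : 1 - x ≤ (1 + x) ^ β := by
      have h6 : (1 + x) ^ (-1 : ℝ) ≤ (1 + x) ^ β := Real.rpow_le_rpow_of_exponent_le (by linarith) (by linarith)
      rw [Real.rpow_neg_one] at h6
      refine le_trans ?_ h6
      rw [inv_eq_one_div, le_div_iff₀ (by linarith)]
      nlinarith
    have h7 : 0 < u ^ β := Real.rpow_pos_of_pos hu β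
    nlinarith [mul_le_mul_of_nonneg_right h5 h7.le]
  have h8 : 0 ≤ u ^ β - v ^ β := sub_nonneg.2 (Real.rpow_le_rpow_of_nonpos hu huv hβ2)
  have h9 : (u ^ β - v ^ β) * (v - u) ≤ (x * u ^ β) * (x * u) :=
    mul_le_mul h3 (by linarith) (by linarith) (by positivity)
  have h10 : u ^ (1 + β) = u * u ^ β := by rw [Real.rpow_add hu, Real.rpow_one]
  have h11 : A * ((u ^ β - v ^ β) * (v - u)) ≤ A * (x ^ 2 * u ^ (1 + β)) := by
    apply mul_le_mul_of_nonneg_left _ hA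
    rw [h10]
    nlinarith
  rw [abs_le]
  constructor <;> nlinarith

private theorem geo_lim {f : ℕ → ℝ} {A β : ℝ} (hA : 0 ≤ A) (hβ1 : -(1 / 2) ≤ β) (hβ2 : β ≤ 0)
    (H : ∀ ε : ℝ, 0 < ε → ∃ M0 : ℕ, ∀ M1 M2 : ℕ, M0 ≤ M1 → M1 ≤ M2 → M2 ≤ 2 * M1 →
      A * (M2 : ℝ) ^ β * ((M2 : ℝ) - M1) - ε * (M1 : ℝ) ^ (1 + β) ≤ f M2 - f M1 ∧
      f M2 - f M1 ≤ A * (M1 : ℝ) ^ β * ((M2 : ℝ) - M1) + ε * (M1 : ℝ) ^ (1 + β)) :
    Tendsto (fun M : ℕ => f M / (M : ℝ) ^ (1 + β)) atTop (𝓝 (A / (1 + β))) := by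
  have hp : 0 < 1 + β := by linarith
  rw [Metric.tendsto_atTop]
  intro ε hε
  -- the ratio of the blocks
  obtain ⟨x, hx0, hx1, hxe⟩ : ∃ x : ℝ, 0 < x ∧ x ≤ 1 ∧ 8 * (A + 1) * x ≤ ε / 2 := by
    refine ⟨min 1 (ε / (16 * (A + 1))), lt_min one_pos (by positivity), min_le_left _ _, ?_⟩
    have h1 : min 1 (ε / (16 * (A + 1))) ≤ ε / (16 * (A + 1)) := min_le_right _ _
    calc 8 * (A + 1) * min 1 (ε / (16 * (A + 1))) ≤ 8 * (A + 1) * (ε / (16 * (A + 1))) :=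
          mul_le_mul_of_nonneg_left h1 (by positivity)
      _ = ε / 2 := by field_simp; ring
  obtain ⟨M0, hM0⟩ := H (x ^ 2) (by positivity)
  set h : ℕ → ℝ := fun M => f M - A / (1 + β) * (M : ℝ) ^ (1 + β) with hh
  set Ms : ℕ := max (⌈6 / x⌉₊) (2 * M0 + 2) with hMs
  set C0 : ℝ := ∑ M ∈ Finset.range Ms, |h M| with hC0
  have hC0n : 0 ≤ C0 := Finset.sum_nonneg fun _ _ => abs_nonneg _
  have hbound : ∀ M : ℕ, |h M| ≤ C0 + 8 * (A + 1) * x * (M : ℝ) ^ (1 + β) := by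
    intro M
    induction M using Nat.strong_induction_on with
    | _ M ih =>
      have hMp : 0 ≤ (M : ℝ) ^ (1 + β) := by positivity
      by_cases hlt : M < Ms
      · have h1 : |h M| ≤ C0 :=
          Finset.single_le_sum (f := fun M => |h M|) (fun _ _ => abs_nonneg _) (Finset.mem_range.2 hlt)
        have h2 : 0 ≤ 8 * (A + 1) * x * (M : ℝ) ^ (1 + β) := by positivity
        linarith
      · push Not at hlt
        have g1 : 2 * M0 + 2 ≤ M := le_trans (le_max_right _ _) hlt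
        have g2 : 6 / x ≤ (M : ℝ) := le_trans (Nat.le_ceil _) (by exact_mod_cast le_trans (le_max_left _ _) hlt)
        have hMr : (2 : ℝ) ≤ M := by
          have : 2 ≤ M := by omega
          exact_mod_cast this
        have hM2 : (2 * M0 : ℝ) ≤ M := by
          have : 2 * M0 ≤ M := by omega
          exact_mod_cast this
        have g3 : 6 ≤ M * x := by
          rw [div_le_iff₀ hx0] at g2
          exact g2
        set M' : ℕ := ⌈(M : ℝ) / (1 + x)⌉₊ with hM'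
        have k1 : (M : ℝ) / (1 + x) ≤ M' := Nat.le_ceil _
        have k2 : (M' : ℝ) < (M : ℝ) / (1 + x) + 1 := Nat.ceil_lt_add_one (by positivity)
        have k3 : (M : ℝ) ≤ (1 + x) * M' := by
          rw [div_le_iff₀ (by linarith)] at k1
          linarith
        have k4 : (M' : ℝ) ≤ (M : ℝ) / (1 + x / 2) := by
          have k5 : (M : ℝ) / (1 + x) + 1 ≤ (M : ℝ) / (1 + x / 2) := by
            rw [div_add_one (by linarith), div_le_div_iff₀ (by linarith) (by linarith)]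
            nlinarith
          linarith
        have k6 : (M' : ℝ) < M := by
          refine lt_of_le_of_lt k4 ?_
          rw [div_lt_iff₀ (by linarith)]
          nlinarith
        have k7 : M' < M := by exact_mod_cast k6
        have k8 : (M0 : ℝ) ≤ M' := by
          have : (M : ℝ) / 2 ≤ (M : ℝ) / (1 + x) := div_le_div_of_nonneg_left (by linarith) (by linarith) (by linarith)
          linarith
        have k9 : M0 ≤ M' := by exact_mod_cast k8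
        have k10 : (M : ℝ) ≤ 2 * M' := by
          have : (0 : ℝ) ≤ M' := Nat.cast_nonneg _
          nlinarith
        have k11 : M ≤ 2 * M' := by exact_mod_cast k10
        have k12 : (0 : ℝ) < M' := by linarith
        obtain ⟨q1, q2⟩ := hM0 M' M k9 k7.le k11
        have hd := local_diff hA hβ1 hβ2 hx0 hx1 k12 k6.le k3 q1 q2
        have hi := ih M' k7
        have h3 : |h M| ≤ |h M'| + (A + 1) * x ^ 2 * (M' : ℝ) ^ (1 + β) := by
          have : |h M| - |h M'| ≤ |h M - h M'| := abs_sub_abs_le_abs_sub _ _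
          linarith
        -- comparison of the powers
        have h4 : (1 + x / 8) * (M' : ℝ) ^ (1 + β) ≤ (M : ℝ) ^ (1 + β) := by
          have r1 : (1 + x / 8) ≤ (1 + x / 2) ^ (1 + β) := by
            have r2 : (1 + x / 2) ^ ((1 : ℝ) / 2) ≤ (1 + x / 2) ^ (1 + β) :=
              Real.rpow_le_rpow_of_exponent_le (by linarith) (by linarith)
            refine le_trans ?_ r2
            rw [← Real.sqrt_eq_rpow]
            apply Real.le_sqrt_of_sq_le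
            nlinarith
          have r3 : (1 + x / 2) * M' ≤ M := by
            rw [le_div_iff₀ (by linarith)] at k4
            linarith
          calc (1 + x / 8) * (M' : ℝ) ^ (1 + β) ≤ (1 + x / 2) ^ (1 + β) * (M' : ℝ) ^ (1 + β) :=
                mul_le_mul_of_nonneg_right r1 (by positivity)
            _ = ((1 + x / 2) * M') ^ (1 + β) := (Real.mul_rpow (by linarith) k12.le).symm
            _ ≤ (M : ℝ) ^ (1 + β) := Real.rpow_le_rpow (by positivity) r3 hp.le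
        have h5 : 8 * (A + 1) * x * ((1 + x / 8) * (M' : ℝ) ^ (1 + β)) ≤ 8 * (A + 1) * x * (M : ℝ) ^ (1 + β) :=
          mul_le_mul_of_nonneg_left h4 (by positivity)
        have h6 : 8 * (A + 1) * x * ((1 + x / 8) * (M' : ℝ) ^ (1 + β)) =
            8 * (A + 1) * x * (M' : ℝ) ^ (1 + β) + (A + 1) * x ^ 2 * (M' : ℝ) ^ (1 + β) := by ring
        linarith
  -- the conclusion
  have hlim : ∀ᶠ M : ℕ in atTop, 2 * C0 / ε < (M : ℝ) ^ (1 + β) :=
    ((tendsto_rpow_atTop hp).comp tendsto_natCast_atTop_atTop).eventually_gt_atTop _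
  obtain ⟨N, hN⟩ := eventually_atTop.1 (hlim.and (eventually_ge_atTop 1))
  refine ⟨N, fun M hM => ?_⟩
  obtain ⟨n1, n2⟩ := hN M hM
  have hMr : (0 : ℝ) < M := by exact_mod_cast n2
  have hMp : 0 < (M : ℝ) ^ (1 + β) := Real.rpow_pos_of_pos hMr _
  have e : f M / (M : ℝ) ^ (1 + β) - A / (1 + β) = h M / (M : ℝ) ^ (1 + β) := by
    simp only [hh]
    field_simp
  rw [Real.dist_eq, e, abs_div, abs_of_pos hMp, div_lt_iff₀ hMp]
  have h7 := hbound M
  have h8 : C0 < ε / 2 * (M : ℝ) ^ (1 + β) := by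
    rw [div_lt_iff₀ hε] at n1
    linarith
  have h9 : 8 * (A + 1) * x * (M : ℝ) ^ (1 + β) ≤ ε / 2 * (M : ℝ) ^ (1 + β) :=
    mul_le_mul_of_nonneg_right hxe hMp.le
  linarith

private theorem blk {P Q : ℕ → Prop} [DecidablePred P] [DecidablePred Q] {M1 M2 : ℕ} (h : M1 ≤ M2)
    (hPQ : ∀ m, M1 ≤ m → m < M2 → P m → Q m) :
    (((Finset.range M2).filter P).card : ℝ) - ((Finset.range M1).filter P).card ≤
      (((Finset.range M2).filter Q).card : ℝ) - ((Finset.range M1).filter Q).card := by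
  rw [Finset.natCast_card_filter, Finset.natCast_card_filter, Finset.natCast_card_filter,
    Finset.natCast_card_filter, ← Finset.sum_Ico_eq_sub _ h, ← Finset.sum_Ico_eq_sub _ h]
  apply Finset.sum_le_sum
  intro m hm
  rw [Finset.mem_Ico] at hm
  by_cases hp : P m
  · rw [if_pos hp, if_pos (hPQ m hm.1 hm.2 hp)]
  · rw [if_neg hp]
    split_ifs <;> norm_num

/-! ### the number of small gaps -/

/-- the number of gaps `<= s` (cube roots) among the first `M` -/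
private noncomputable def NN (a : ℕ → ℕ) (s : ℝ) (M : ℕ) : ℝ :=
  (((Finset.range M).filter (fun m => cr (a (m + 1)) - cr (a m) ≤ s)).card : ℝ)

private theorem NN_near {a : ℕ → ℕ} (ha : StrictMono a) (hr : ∀ n : ℕ, (∃ k : ℕ, a k = n) ↔ P3 n) (s : ℝ)
    (m : ℕ) : NN a s (m + 1) = ((Near s (cr (a m))).card : ℝ) := by
  classical
  have h : Near s (cr (a m)) =
      ((Finset.range (m + 1)).filter (fun k => cr (a (k + 1)) - cr (a k) ≤ s)).image a := by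
    ext n
    unfold Near
    rw [Finset.mem_filter, mem_PT (cr_nonneg _), Finset.mem_image]
    constructor
    · rintro ⟨⟨h1, h2⟩, n', h3, h4, h5⟩
      obtain ⟨k, rfl⟩ := (hr n).2 h1
      obtain ⟨k', rfl⟩ := (hr n').2 h3
      refine ⟨k, ?_, rfl⟩
      rw [Finset.mem_filter, Finset.mem_range]
      have h6 : k ≤ m := ha.le_iff_le.1 (cr_le.1 h2)
      have h7 : k < k' := ha.lt_iff_lt.1 h4
      have h8 : cr (a (k + 1)) ≤ cr (a k') := cr_le.2 (ha.monotone h7)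
      exact ⟨by omega, by linarith⟩
    · rintro ⟨k, hk, rfl⟩
      rw [Finset.mem_filter, Finset.mem_range] at hk
      refine ⟨⟨(hr _).1 ⟨k, rfl⟩, cr_le.2 (ha.monotone (by omega))⟩, a (k + 1), (hr _).1 ⟨k + 1, rfl⟩,
        ha (Nat.lt_succ_self k), by linarith [hk.2]⟩
  rw [h, Finset.card_image_of_injective _ ha.injective, NN]

private theorem NN_as {a : ℕ → ℕ} (ha : StrictMono a) (hr : ∀ n : ℕ, (∃ k : ℕ, a k = n) ↔ P3 n)
    {β κ ε : ℝ} (hβ1 : -(1 / 11) < β) (hβ2 : β < 0) (hκ : 0 < κ) (hε : 0 < ε) :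
    ∃ (s0 : ℝ) (M0 : ℕ), 0 < s0 ∧ ∀ M : ℕ, M0 ≤ M → ∀ s : ℝ, κ * (M : ℝ) ^ β ≤ s → s ≤ s0 →
      |NN a s M - (γ ^ 2 - ∑' w, α w ^ 2) / γ * s * M| ≤ ε * s * M := by
  set K0 : ℝ := γ ^ 2 - ∑' w, α w ^ 2 with hK0
  have hγ : 1 ≤ γ := one_le_gamma
  have hγ0 : 0 < γ := by linarith
  -- the exponent
  obtain ⟨η, hη0, hη1, hθ⟩ : ∃ η : ℝ, 0 < η ∧ η < 1 / 11 ∧ 0 < β + ((1 : ℝ) / 11 - η) :=
    ⟨(β + 1 / 11) / 2, by linarith, by linarith, by linarith⟩
  have hθ0 : 0 < (1 : ℝ) / 11 - η := by linarith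
  obtain ⟨s0, T0, hs0, hs1, hT0, hN⟩ := near_as2 (ε := ε / 4) (η := η) (by positivity) hη0 hη1
  have hlim := a_asymp ha hr
  set ε2 : ℝ := min (1 / (2 * γ)) (ε / (2 * (|K0| + 1))) with hε2
  have hε2p : 0 < ε2 := lt_min (by positivity) (by positivity)
  have ev1 : ∀ᶠ m : ℕ in atTop, |cr (a m) / ((m : ℝ) + 1) - 1 / γ| < ε2 := by
    have := Metric.tendsto_nhds.1 hlim ε2 hε2p
    simpa [Real.dist_eq] using this
  have hcast : Tendsto (fun m : ℕ => ((m : ℝ) + 1)) atTop atTop :=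
    tendsto_atTop_add_const_right _ _ tendsto_natCast_atTop_atTop
  have ev2 : ∀ᶠ m : ℕ in atTop, 2 * γ * T0 ≤ (m : ℝ) + 1 := hcast.eventually_ge_atTop _
  have ev3 : ∀ᶠ m : ℕ in atTop, (2 * γ) ^ ((1 : ℝ) / 11 - η) / κ ≤ ((m : ℝ) + 1) ^ (β + ((1 : ℝ) / 11 - η)) :=
    ((tendsto_rpow_atTop hθ).comp hcast).eventually_ge_atTop _
  obtain ⟨m0, hm0⟩ := eventually_atTop.1 (ev1.and (ev2.and ev3))
  refine ⟨s0, m0 + 1, hs0, fun M hM s hs hs' => ?_⟩
  obtain ⟨m, rfl⟩ : ∃ m, M = m + 1 := ⟨M - 1, by omega⟩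
  obtain ⟨e1, e2, e3⟩ := hm0 m (by omega)
  rw [NN_near ha hr]
  push_cast at hs ⊢
  set R : ℝ := (m : ℝ) + 1 with hR
  have hRp : 0 < R := by positivity
  set T : ℝ := cr (a m) with hT
  have q1 : T / R - 1 / γ < ε2 := (abs_lt.1 e1).2
  have q2 : -ε2 < T / R - 1 / γ := (abs_lt.1 e1).1
  have hε2a : ε2 ≤ 1 / (2 * γ) := min_le_left _ _
  have hg2 : 1 / γ - 1 / (2 * γ) = 1 / (2 * γ) := by field_simp; norm_num
  have hT1 : R / (2 * γ) ≤ T := by
    have : 1 / (2 * γ) ≤ T / R := by linarith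
    rw [le_div_iff₀ hRp] at this
    rw [div_eq_mul_one_div, mul_comm]
    exact this
  have hT2 : T ≤ 2 * R := by
    have h1 : 1 / γ ≤ 1 := by rw [div_le_one hγ0]; exact hγ
    have h2 : 1 / (2 * γ) ≤ 1 := by rw [div_le_one (by positivity)]; linarith
    have : T / R ≤ 2 := by linarith
    rwa [div_le_iff₀ hRp] at this
  have hTp : 0 < T := lt_of_lt_of_le (by positivity) hT1
  have hsp : 0 < s := lt_of_lt_of_le (by positivity) hs
  have hTT0 : T0 ≤ T := by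
    refine le_trans ?_ hT1
    rw [le_div_iff₀ (by positivity)]
    linarith
  -- the range condition
  have hrange : T ^ (-((1 : ℝ) / 11 - η)) ≤ s := by
    refine le_trans ?_ hs
    have h1 : T ^ (-((1 : ℝ) / 11 - η)) ≤ (R / (2 * γ)) ^ (-((1 : ℝ) / 11 - η)) :=
      Real.rpow_le_rpow_of_nonpos (by positivity) hT1 (by linarith)
    refine h1.trans ?_
    rw [Real.div_rpow hRp.le (by positivity), Real.rpow_neg (by positivity : (0 : ℝ) ≤ 2 * γ), div_inv_eq_mul,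
      Real.rpow_neg hRp.le]
    have h2 : R ^ (β + ((1 : ℝ) / 11 - η)) = R ^ β * R ^ ((1 : ℝ) / 11 - η) := Real.rpow_add hRp _ _
    rw [h2, div_le_iff₀ hκ] at e3
    have h3 : 0 < R ^ ((1 : ℝ) / 11 - η) := Real.rpow_pos_of_pos hRp _
    rw [inv_mul_le_iff₀ h3]
    linarith
  have hmain := hN T s hTT0 hrange hs'
  -- replace `T` by `R / γ`
  have h4 : |K0 * s * T - K0 / γ * s * R| ≤ ε / 2 * s * R := by
    have h5 : K0 * s * T - K0 / γ * s * R = K0 * s * R * (T / R - 1 / γ) := by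
      field_simp
    rw [h5, abs_mul, abs_mul, abs_mul, abs_of_pos hsp, abs_of_pos hRp]
    have h6 : |T / R - 1 / γ| ≤ ε / (2 * (|K0| + 1)) := le_trans e1.le (min_le_right _ _)
    have h7 : |K0| * s * R * |T / R - 1 / γ| ≤ |K0| * s * R * (ε / (2 * (|K0| + 1))) :=
      mul_le_mul_of_nonneg_left h6 (by positivity)
    refine h7.trans ?_
    have h8 : |K0| * s * R * (ε / (2 * (|K0| + 1))) = ε / 2 * s * R * (|K0| / (|K0| + 1)) := by
      field_simp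
    rw [h8]
    have h9 : |K0| / (|K0| + 1) ≤ 1 := by
      rw [div_le_one (by positivity)]
      linarith
    have h10 : 0 ≤ ε / 2 * s * R := by positivity
    nlinarith
  have h11 : ε / 4 * s * T ≤ ε / 2 * s * R := by
    have h12 : ε / 4 * s * T ≤ ε / 4 * s * (2 * R) := mul_le_mul_of_nonneg_left hT2 (by positivity)
    linarith
  calc |((Near s T).card : ℝ) - K0 / γ * s * R|
      = |(((Near s T).card : ℝ) - K0 * s * T) + (K0 * s * T - K0 / γ * s * R)| := by congr 1; ring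
    _ ≤ |((Near s T).card : ℝ) - K0 * s * T| + |K0 * s * T - K0 / γ * s * R| := abs_add_le _ _
    _ ≤ ε * s * R := by linarith

private theorem K_nonneg {a : ℕ → ℕ} (ha : StrictMono a) (hr : ∀ n : ℕ, (∃ k : ℕ, a k = n) ↔ P3 n) :
    0 ≤ (γ ^ 2 - ∑' w, α w ^ 2) / γ := by
  by_contra hc
  push Not at hc
  set K : ℝ := (γ ^ 2 - ∑' w, α w ^ 2) / γ with hK
  obtain ⟨s0, M0, hs0, h⟩ := NN_as ha hr (β := -(1 / 40)) (κ := 1) (ε := -K / 2) (by norm_num) (by norm_num) one_pos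
    (by linarith)
  have hlim : Tendsto (fun M : ℕ => (M : ℝ) ^ (-(1 / 40 : ℝ))) atTop (𝓝 0) :=
    (tendsto_rpow_neg_atTop (by norm_num)).comp tendsto_natCast_atTop_atTop
  obtain ⟨M, h1, h2, h3⟩ := ((hlim.eventually (gt_mem_nhds hs0)).and
    ((eventually_ge_atTop M0).and (eventually_ge_atTop 1))).exists
  have h4 := h M h2 s0 (by rw [one_mul]; exact h1.le) le_rfl
  have h5 : 0 ≤ NN a s0 M := by unfold NN; positivity
  have h6 : (0 : ℝ) < M := by exact_mod_cast h3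
  have h7 := (abs_le.1 h4).2
  have h8 : 0 < s0 * M := by positivity
  nlinarith

private theorem fk_lim {a : ℕ → ℕ} (ha : StrictMono a) (hr : ∀ n : ℕ, (∃ k : ℕ, a k = n) ↔ P3 n)
    {β κ : ℝ} (hβ1 : -(1 / 11) < β) (hβ2 : β < 0) (hκ : 0 < κ) :
    Tendsto (fun M : ℕ => (((Finset.range M).filter
      (fun m => cr (a (m + 1)) - cr (a m) ≤ κ * ((m : ℝ) + 1) ^ β)).card : ℝ) / (M : ℝ) ^ (1 + β))
      atTop (𝓝 (κ * ((γ ^ 2 - ∑' w, α w ^ 2) / γ) / (1 + β))) := by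
  have hK := K_nonneg ha hr
  set K : ℝ := (γ ^ 2 - ∑' w, α w ^ 2) / γ with hKd
  refine geo_lim (f := fun M : ℕ => (((Finset.range M).filter
      (fun m => cr (a (m + 1)) - cr (a m) ≤ κ * ((m : ℝ) + 1) ^ β)).card : ℝ)) (mul_nonneg hκ.le hK)
    (by linarith) hβ2.le ?_
  intro ε hε
  obtain ⟨s0, M0, hs0, hN⟩ := NN_as ha hr (ε := ε / (3 * κ)) hβ1 hβ2 (half_pos hκ) (by positivity)
  have hlim : Tendsto (fun M : ℕ => κ * (M : ℝ) ^ β) atTop (𝓝 0) := by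
    have h1 : Tendsto (fun M : ℕ => (M : ℝ) ^ (-(-β))) atTop (𝓝 0) :=
      (tendsto_rpow_neg_atTop (by linarith)).comp tendsto_natCast_atTop_atTop
    rw [neg_neg] at h1
    simpa using h1.const_mul κ
  obtain ⟨M0', hM0'⟩ := eventually_atTop.1 ((hlim.eventually (gt_mem_nhds hs0)).and
    ((eventually_ge_atTop M0).and (eventually_ge_atTop 1)))
  refine ⟨M0', fun M1 M2 h1 h2 h3 => ?_⟩
  obtain ⟨k1, k2, k3⟩ := hM0' M1 h1
  have hM1 : (0 : ℝ) < M1 := by exact_mod_cast k3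
  have hM12 : (M1 : ℝ) ≤ M2 := by exact_mod_cast h2
  have hM2 : (0 : ℝ) < M2 := by linarith
  have hM22 : (M2 : ℝ) ≤ 2 * M1 := by exact_mod_cast h3
  have hmono : (M2 : ℝ) ^ β ≤ (M1 : ℝ) ^ β := Real.rpow_le_rpow_of_nonpos hM1 hM12 hβ2.le
  have hhalf : (M1 : ℝ) ^ β / 2 ≤ (M2 : ℝ) ^ β := by
    have e1 : (2 * (M1 : ℝ)) ^ β ≤ (M2 : ℝ) ^ β := Real.rpow_le_rpow_of_nonpos hM2 hM22 hβ2.le
    rw [Real.mul_rpow (by norm_num) hM1.le] at e1
    have e2 : (2 : ℝ) ^ (-1 : ℝ) ≤ (2 : ℝ) ^ β := Real.rpow_le_rpow_of_exponent_le (by norm_num) (by linarith)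
    rw [Real.rpow_neg_one] at e2
    have e3 : 0 < (M1 : ℝ) ^ β := Real.rpow_pos_of_pos hM1 β
    nlinarith
  have hp1 : 0 < (M1 : ℝ) ^ β := Real.rpow_pos_of_pos hM1 β
  have hp2 : 0 < (M2 : ℝ) ^ β := Real.rpow_pos_of_pos hM2 β
  have hpow : (M1 : ℝ) ^ (1 + β) = M1 * (M1 : ℝ) ^ β := by rw [Real.rpow_add hM1, Real.rpow_one]
  have herr : ∀ s : ℝ, 0 ≤ s → s ≤ κ * (M1 : ℝ) ^ β → ε / (3 * κ) * s * M2 + ε / (3 * κ) * s * M1 ≤
      ε * (M1 : ℝ) ^ (1 + β) := by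
    intro s hs0 hs
    have c1 : ε / (3 * κ) * s * M2 + ε / (3 * κ) * s * M1 ≤ ε / (3 * κ) * s * (3 * M1) := by
      have : 0 ≤ ε / (3 * κ) * s := by positivity
      nlinarith
    have c2 : ε / (3 * κ) * s * (3 * M1) ≤ ε / (3 * κ) * (κ * (M1 : ℝ) ^ β) * (3 * M1) :=
      mul_le_mul_of_nonneg_right (mul_le_mul_of_nonneg_left hs (by positivity)) (by positivity)
    have c3 : ε / (3 * κ) * (κ * (M1 : ℝ) ^ β) * (3 * M1) = ε * (M1 : ℝ) ^ (1 + β) := by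
      rw [hpow]; field_simp
    linarith
  constructor
  · -- lower bound
    have hs1 : κ * (M2 : ℝ) ^ β ≤ κ * (M1 : ℝ) ^ β := mul_le_mul_of_nonneg_left hmono hκ.le
    have b1 := (abs_le.1 (hN M2 (k2.trans h2) (κ * (M2 : ℝ) ^ β) (by nlinarith) (by linarith))).1
    have b2 := (abs_le.1 (hN M1 k2 (κ * (M2 : ℝ) ^ β) (by nlinarith) (by linarith))).2
    have b3 := blk (P := fun m => cr (a (m + 1)) - cr (a m) ≤ κ * (M2 : ℝ) ^ β)
      (Q := fun m : ℕ => cr (a (m + 1)) - cr (a m) ≤ κ * ((m : ℝ) + 1) ^ β) h2 (by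
        intro m hm1 hm2 hm
        refine hm.trans (mul_le_mul_of_nonneg_left ?_ hκ.le)
        refine Real.rpow_le_rpow_of_nonpos (by positivity) ?_ hβ2.le
        exact_mod_cast hm2)
    have b4 := herr (κ * (M2 : ℝ) ^ β) (by positivity) hs1
    unfold NN at b1 b2
    have b5 : κ * K * (M2 : ℝ) ^ β * ((M2 : ℝ) - M1) = K * (κ * (M2 : ℝ) ^ β) * M2 - K * (κ * (M2 : ℝ) ^ β) * M1 := by
      ring
    rw [b5]
    linarith
  · -- upper bound
    have b1 := (abs_le.1 (hN M2 (k2.trans h2) (κ * (M1 : ℝ) ^ β) (by nlinarith) (by linarith))).2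
    have b2 := (abs_le.1 (hN M1 k2 (κ * (M1 : ℝ) ^ β) (by nlinarith) (by linarith))).1
    have b3 := blk (P := fun m : ℕ => cr (a (m + 1)) - cr (a m) ≤ κ * ((m : ℝ) + 1) ^ β)
      (Q := fun m => cr (a (m + 1)) - cr (a m) ≤ κ * (M1 : ℝ) ^ β) h2 (by
        intro m hm1 hm2 hm
        refine hm.trans (mul_le_mul_of_nonneg_left ?_ hκ.le)
        refine Real.rpow_le_rpow_of_nonpos hM1 ?_ hβ2.le
        have : (M1 : ℝ) ≤ m := by exact_mod_cast hm1
        linarith)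
    have b4 := herr (κ * (M1 : ℝ) ^ β) (by positivity) le_rfl
    unfold NN at b1 b2
    have b5 : κ * K * (M1 : ℝ) ^ β * ((M2 : ℝ) - M1) = K * (κ * (M1 : ℝ) ^ β) * M2 - K * (κ * (M1 : ℝ) ^ β) * M1 := by
      ring
    rw [b5]
    linarith

/-- the exceptional set in terms of the cube roots -/
private theorem exc_iff {a : ℕ → ℕ} (ha : StrictMono a) (hr : ∀ n : ℕ, (∃ k : ℕ, a k = n) ↔ P3 n) {c c' ν : ℝ}
    (hc : 0 < c) (hc2 : c' < 2) (hν0 : 0 < ν) (hν1 : ν < 1) :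
    ∀ᶠ m : ℕ in atTop,
      (cr (a (m + 1)) - cr (a m) ≤ (1 - ν) * (c * γ ^ 2 / 3) * ((m : ℝ) + 1) ^ (c' - 2) →
        (a (m + 1) : ℝ) - a m ≤ c * ((m : ℝ) + 1) ^ c') ∧
      ((a (m + 1) : ℝ) - a m ≤ c * ((m : ℝ) + 1) ^ c' →
        cr (a (m + 1)) - cr (a m) ≤ (1 + ν) * (c * γ ^ 2 / 3) * ((m : ℝ) + 1) ^ (c' - 2)) := by
  have hγ0 : 0 < γ := lt_of_lt_of_le one_pos one_le_gamma
  have hlim := a_asymp ha hr
  have hcast : Tendsto (fun m : ℕ => ((m : ℝ) + 1)) atTop atTop :=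
    tendsto_atTop_add_const_right _ _ tendsto_natCast_atTop_atTop
  have hone : Tendsto (fun m : ℕ => (1 : ℝ) / ((m : ℝ) + 1)) atTop (𝓝 0) := by
    refine hcast.inv_tendsto_atTop.congr fun m => ?_
    rw [Pi.inv_apply, one_div]
  have hlim2 : Tendsto (fun m : ℕ => (cr (a m) + 1) / ((m : ℝ) + 1)) atTop (𝓝 (1 / γ)) := by
    have := hlim.add hone
    rw [add_zero] at this
    refine this.congr fun m => ?_
    rw [add_div]
  have l1 : Tendsto (fun m : ℕ => (1 + ν) * (cr (a m) / ((m : ℝ) + 1)) ^ 2) atTop (𝓝 ((1 + ν) * (1 / γ) ^ 2)) :=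
    (hlim.pow 2).const_mul _
  have l2 : Tendsto (fun m : ℕ => (1 - ν) * ((cr (a m) + 1) / ((m : ℝ) + 1)) ^ 2) atTop
      (𝓝 ((1 - ν) * (1 / γ) ^ 2)) := (hlim2.pow 2).const_mul _
  have hg : 0 < (1 / γ) ^ 2 := by positivity
  have ev1 : ∀ᶠ m : ℕ in atTop, (1 / γ) ^ 2 < (1 + ν) * (cr (a m) / ((m : ℝ) + 1)) ^ 2 :=
    l1.eventually (lt_mem_nhds (by nlinarith))
  have ev2 : ∀ᶠ m : ℕ in atTop, (1 - ν) * ((cr (a m) + 1) / ((m : ℝ) + 1)) ^ 2 < (1 / γ) ^ 2 :=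
    l2.eventually (gt_mem_nhds (by nlinarith))
  have l3 : Tendsto (fun m : ℕ => (1 - ν) * (c * γ ^ 2 / 3) * ((m : ℝ) + 1) ^ (c' - 2)) atTop (𝓝 0) := by
    have h1 : Tendsto (fun m : ℕ => ((m : ℝ) + 1) ^ (-(2 - c'))) atTop (𝓝 0) :=
      (tendsto_rpow_neg_atTop (by linarith)).comp hcast
    rw [neg_sub] at h1
    simpa using h1.const_mul ((1 - ν) * (c * γ ^ 2 / 3))
  have ev3 : ∀ᶠ m : ℕ in atTop, (1 - ν) * (c * γ ^ 2 / 3) * ((m : ℝ) + 1) ^ (c' - 2) < 1 :=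
    l3.eventually (gt_mem_nhds one_pos)
  filter_upwards [ev1, ev2, ev3] with m h1 h2 h3
  set R : ℝ := (m : ℝ) + 1 with hR
  have hRp : 0 < R := by positivity
  set t : ℝ := cr (a m) with ht
  set t' : ℝ := cr (a (m + 1)) with ht'
  have htt : t < t' := cr_lt.2 (ha (Nat.lt_succ_self m))
  have ht0 : 0 ≤ t := cr_nonneg _
  have e1 : (a m : ℝ) = t ^ 3 := (cr_cube _).symm
  have e2 : (a (m + 1) : ℝ) = t' ^ 3 := (cr_cube _).symm
  have hpow : R ^ c' = R ^ 2 * R ^ (c' - 2) := by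
    rw [← Real.rpow_natCast R 2, ← Real.rpow_add hRp]
    congr 1
    push_cast
    ring
  have hq : 0 < R ^ (c' - 2) := Real.rpow_pos_of_pos hRp _
  rw [e1, e2, hpow]
  rw [div_pow, div_pow, div_lt_iff₀ (by positivity)] at h1
  rw [div_pow, div_pow, lt_div_iff₀ (by positivity)] at h2
  constructor
  · intro hδ
    have hδ1 : t' - t ≤ 1 := by linarith
    have h4 : t' ^ 3 - t ^ 3 ≤ (t' - t) * (3 * (t + 1) ^ 2) := by
      have h5 : t' ^ 3 - t ^ 3 = (t' - t) * (t' ^ 2 + t' * t + t ^ 2) := by ring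
      rw [h5]
      apply mul_le_mul_of_nonneg_left _ (by linarith)
      have h6 : t' ≤ t + 1 := by linarith
      nlinarith
    have h7 : (t' - t) * (3 * (t + 1) ^ 2) ≤ (1 - ν) * (c * γ ^ 2 / 3) * R ^ (c' - 2) * (3 * (t + 1) ^ 2) :=
      mul_le_mul_of_nonneg_right hδ (by positivity)
    have h8 : (1 - ν) * (c * γ ^ 2 / 3) * R ^ (c' - 2) * (3 * (t + 1) ^ 2) =
        c * R ^ (c' - 2) * R ^ 2 * ((1 - ν) * ((t + 1) ^ 2 / R ^ 2) * γ ^ 2) := by
      field_simp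
    have h9 : (1 - ν) * ((t + 1) ^ 2 / R ^ 2) * γ ^ 2 ≤ 1 := by nlinarith
    have h10 : c * R ^ (c' - 2) * R ^ 2 * ((1 - ν) * ((t + 1) ^ 2 / R ^ 2) * γ ^ 2) ≤ c * R ^ (c' - 2) * R ^ 2 * 1 :=
      mul_le_mul_of_nonneg_left h9 (by positivity)
    linarith
  · intro hex
    have h4 : (t' - t) * (3 * t ^ 2) ≤ t' ^ 3 - t ^ 3 := by
      have h5 : t' ^ 3 - t ^ 3 = (t' - t) * (t' ^ 2 + t' * t + t ^ 2) := by ring
      rw [h5]
      apply mul_le_mul_of_nonneg_left _ (by linarith)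
      nlinarith
    have h6 : (t' - t) * (3 * t ^ 2) ≤ c * (R ^ 2 * R ^ (c' - 2)) := h4.trans hex
    -- `R^2 <= (1 + ν) t^2 γ^2`
    have h7 : R ^ 2 ≤ (1 + ν) * t ^ 2 * γ ^ 2 := by
      have h8 : (1 + ν) * (t ^ 2 / R ^ 2) * γ ^ 2 = ((1 + ν) * t ^ 2 * γ ^ 2) / R ^ 2 := by field_simp
      rw [one_pow, h8, lt_div_iff₀ (by positivity)] at h1
      linarith
    have h9 : (t' - t) * (3 * R ^ 2) ≤ (t' - t) * (3 * ((1 + ν) * t ^ 2 * γ ^ 2)) :=
      mul_le_mul_of_nonneg_left (by linarith) (by linarith)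
    have h10 : (t' - t) * (3 * ((1 + ν) * t ^ 2 * γ ^ 2)) = (1 + ν) * γ ^ 2 * ((t' - t) * (3 * t ^ 2)) := by ring
    have h11 : (1 + ν) * γ ^ 2 * ((t' - t) * (3 * t ^ 2)) ≤ (1 + ν) * γ ^ 2 * (c * (R ^ 2 * R ^ (c' - 2))) :=
      mul_le_mul_of_nonneg_left h6 (by positivity)
    have h12 : (t' - t) * (3 * R ^ 2) ≤ ((1 + ν) * (c * γ ^ 2 / 3) * R ^ (c' - 2)) * (3 * R ^ 2) := by
      have h13 : (1 + ν) * γ ^ 2 * (c * (R ^ 2 * R ^ (c' - 2))) =
          ((1 + ν) * (c * γ ^ 2 / 3) * R ^ (c' - 2)) * (3 * R ^ 2) := by ring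
      linarith
    exact le_of_mul_le_mul_right h12 (by positivity)

theorem exc2 {a : ℕ → ℕ} (ha : StrictMono a) (hr : ∀ n : ℕ, (∃ k : ℕ, a k = n) ↔ P3 n) {c c' : ℝ}
    (hc : 0 < c) (hc1 : 21 / 11 < c') (hc2 : c' < 2) :
    Tendsto (fun M : ℕ => (((Finset.range M).filter
      (fun m => (a (m + 1) : ℝ) - a m ≤ c * ((m : ℝ) + 1) ^ c')).card : ℝ) / (M : ℝ) ^ (c' - 1))
      atTop (𝓝 (c * γ * (γ ^ 2 - ∑' w, α w ^ 2) / (3 * (c' - 1)))) := by
  have hγ0 : 0 < γ := lt_of_lt_of_le one_pos one_le_gamma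
  set K0 : ℝ := γ ^ 2 - ∑' w, α w ^ 2 with hK0
  set κ : ℝ := c * γ ^ 2 / 3 with hκd
  have hκ : 0 < κ := by positivity
  have hp : 0 < c' - 1 := by linarith
  set L : ℝ := c * γ * K0 / (3 * (c' - 1)) with hL
  have hLe : ∀ z : ℝ, z * κ * (K0 / γ) / (c' - 1) = z * L := by
    intro z
    rw [hκd, hL]
    field_simp
  rw [Metric.tendsto_atTop]
  intro ε hε
  obtain ⟨ν, hν0, hν1, hνL⟩ : ∃ ν : ℝ, 0 < ν ∧ ν < 1 ∧ ν * |L| < ε / 3 := by
    refine ⟨min (1 / 2) (ε / (6 * (|L| + 1))), lt_min (by norm_num) (by positivity),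
      lt_of_le_of_lt (min_le_left _ _) (by norm_num), ?_⟩
    have h1 : min (1 / 2) (ε / (6 * (|L| + 1))) * |L| ≤ ε / (6 * (|L| + 1)) * |L| :=
      mul_le_mul_of_nonneg_right (min_le_right _ _) (abs_nonneg _)
    refine lt_of_le_of_lt h1 ?_
    rw [div_mul_eq_mul_div, div_lt_div_iff₀ (by positivity) (by norm_num)]
    nlinarith [abs_nonneg L]
  obtain ⟨m0, hm0⟩ := eventually_atTop.1 (exc_iff ha hr hc hc2 hν0 hν1)
  have f1 := fk_lim ha hr (β := c' - 2) (κ := (1 + ν) * κ) (by linarith) (by linarith) (by positivity)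
  have f2 := fk_lim ha hr (β := c' - 2) (κ := (1 - ν) * κ) (by linarith) (by linarith)
    (mul_pos (by linarith) hκ)
  have e12 : 1 + (c' - 2) = c' - 1 := by ring
  rw [e12, hLe] at f1 f2
  have hlim : ∀ᶠ M : ℕ in atTop, 3 * m0 / ε < (M : ℝ) ^ (c' - 1) :=
    ((tendsto_rpow_atTop hp).comp tendsto_natCast_atTop_atTop).eventually_gt_atTop _
  have g1 := Metric.tendsto_nhds.1 f1 (ε / 3) (by positivity)
  have g2 := Metric.tendsto_nhds.1 f2 (ε / 3) (by positivity)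
  obtain ⟨N, hN⟩ := eventually_atTop.1 (g1.and (g2.and (hlim.and (eventually_ge_atTop (m0 + 1)))))
  refine ⟨N, fun M hM => ?_⟩
  obtain ⟨q1, q2, q3, q4⟩ := hN M hM
  have hMr : (0 : ℝ) < M := by
    have : 0 < M := by omega
    exact_mod_cast this
  have hMp : 0 < (M : ℝ) ^ (c' - 1) := Real.rpow_pos_of_pos hMr _
  rw [Real.dist_eq] at q1 q2 ⊢
  have hm : (m0 : ℝ) / (M : ℝ) ^ (c' - 1) < ε / 3 := by
    rw [div_lt_iff₀ hε] at q3
    rw [div_lt_iff₀ hMp]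
    linarith
  -- comparison of the three counting functions
  have b1 := blk (P := fun m : ℕ => (a (m + 1) : ℝ) - a m ≤ c * ((m : ℝ) + 1) ^ c')
    (Q := fun m : ℕ => cr (a (m + 1)) - cr (a m) ≤ (1 + ν) * κ * ((m : ℝ) + 1) ^ (c' - 2))
    (show m0 ≤ M by omega) (fun m h1 _ h => (hm0 m h1).2 h)
  have b2 := blk (P := fun m : ℕ => cr (a (m + 1)) - cr (a m) ≤ (1 - ν) * κ * ((m : ℝ) + 1) ^ (c' - 2))
    (Q := fun m : ℕ => (a (m + 1) : ℝ) - a m ≤ c * ((m : ℝ) + 1) ^ c')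
    (show m0 ≤ M by omega) (fun m h1 _ h => (hm0 m h1).1 h)
  have hcard : ∀ (P : ℕ → Prop) [DecidablePred P], (((Finset.range m0).filter P).card : ℝ) ≤ m0 := by
    intro P _
    have := Finset.card_filter_le (Finset.range m0) P
    rw [Finset.card_range] at this
    exact_mod_cast this
  have c1 := hcard (fun m : ℕ => (a (m + 1) : ℝ) - a m ≤ c * ((m : ℝ) + 1) ^ c')
  have c2 := hcard (fun m : ℕ => cr (a (m + 1)) - cr (a m) ≤ (1 - ν) * κ * ((m : ℝ) + 1) ^ (c' - 2))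
  set E : ℝ := (((Finset.range M).filter (fun m : ℕ => (a (m + 1) : ℝ) - a m ≤ c * ((m : ℝ) + 1) ^ c')).card : ℝ)
  set Fp : ℝ := (((Finset.range M).filter
    (fun m : ℕ => cr (a (m + 1)) - cr (a m) ≤ (1 + ν) * κ * ((m : ℝ) + 1) ^ (c' - 2))).card : ℝ)
  set Fm : ℝ := (((Finset.range M).filter
    (fun m : ℕ => cr (a (m + 1)) - cr (a m) ≤ (1 - ν) * κ * ((m : ℝ) + 1) ^ (c' - 2))).card : ℝ)
  have d1 : E ≤ Fp + m0 := by
    have := Nat.cast_nonneg (α := ℝ) ((Finset.range m0).filter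
      (fun m : ℕ => cr (a (m + 1)) - cr (a m) ≤ (1 + ν) * κ * ((m : ℝ) + 1) ^ (c' - 2))).card
    linarith
  have d2 : Fm ≤ E + m0 := by
    have := Nat.cast_nonneg (α := ℝ) ((Finset.range m0).filter
      (fun m : ℕ => (a (m + 1) : ℝ) - a m ≤ c * ((m : ℝ) + 1) ^ c')).card
    linarith
  have r1 : E / (M : ℝ) ^ (c' - 1) ≤ Fp / (M : ℝ) ^ (c' - 1) + m0 / (M : ℝ) ^ (c' - 1) := by
    rw [← add_div]
    exact div_le_div_of_nonneg_right d1 hMp.le
  have r2 : Fm / (M : ℝ) ^ (c' - 1) ≤ E / (M : ℝ) ^ (c' - 1) + m0 / (M : ℝ) ^ (c' - 1) := by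
    rw [← add_div]
    exact div_le_div_of_nonneg_right d2 hMp.le
  have a1 := (abs_lt.1 q1).2
  have a2 := (abs_lt.1 q2).1
  have a3 : ν * L ≤ ν * |L| := mul_le_mul_of_nonneg_left (le_abs_self L) hν0.le
  rw [abs_lt]
  constructor
  · nlinarith
  · nlinarith

end Pool.Agent.PWG
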