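import Pool.Agent.PWG.PMn

set_option autoImplicit false

/-!
# PWG-WS: the sum of the weights converges
-/

namespace Pool.Agent.PWG

private theorem ws_wt (b c : ℕ) : 1 / wt b c = (b : ℝ) ^ (-(4 : ℝ) / 3) * (c : ℝ) ^ (-(5 : ℝ) / 3) := by
  have hb : (0 : ℝ) ≤ b := Nat.cast_nonneg b
  have hc : (0 : ℝ) ≤ c := Nat.cast_nonneg c
  have e1 : ((b : ℝ) ^ 4) ^ ((1 : ℝ) / 3) = (b : ℝ) ^ ((4 : ℝ) / 3) := by
    rw [← Real.rpow_natCast, ← Real.rpow_mul hb]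
    congr 1
    norm_num
  have e2 : ((c : ℝ) ^ 5) ^ ((1 : ℝ) / 3) = (c : ℝ) ^ ((5 : ℝ) / 3) := by
    rw [← Real.rpow_natCast, ← Real.rpow_mul hc]
    congr 1
    norm_num
  have e3 : -(4 : ℝ) / 3 = -((4 : ℝ) / 3) := by ring
  have e4 : -(5 : ℝ) / 3 = -((5 : ℝ) / 3) := by ring
  rw [wt, Real.mul_rpow (by positivity) (by positivity), e1, e2, e3, e4, Real.rpow_neg hb, Real.rpow_neg hc,
    one_div, mul_inv]

private theorem ws_sum : Summable fun k : ℕ × ℕ => 1 / wt k.1 k.2 := by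
  have h1 : Summable fun b : ℕ => (b : ℝ) ^ (-(4 : ℝ) / 3) := Real.summable_nat_rpow.2 (by norm_num)
  have h2 : Summable fun c : ℕ => (c : ℝ) ^ (-(5 : ℝ) / 3) := Real.summable_nat_rpow.2 (by norm_num)
  have h3 := h1.mul_of_nonneg h2 (fun b => Real.rpow_nonneg (Nat.cast_nonneg b) _)
    (fun c => Real.rpow_nonneg (Nat.cast_nonneg c) _)
  exact h3.congr fun k => (ws_wt k.1 k.2).symm

private theorem ws_nn (b c : ℕ) : 0 ≤ 1 / wt b c := by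
  unfold wt
  positivity

theorem ws : ∃ K : ℝ, 0 < K ∧ ∀ F : Finset ((ℕ × ℕ) × (ℕ × ℕ)),
    ∑ k ∈ F, 1 / (wt k.1.1 k.1.2 * wt k.2.1 k.2.2) ≤ K := by
  have h0 := ws_sum.mul_of_nonneg ws_sum (fun k => ws_nn k.1 k.2) (fun k => ws_nn k.1 k.2)
  have h1 : Summable fun k : (ℕ × ℕ) × (ℕ × ℕ) => 1 / (wt k.1.1 k.1.2 * wt k.2.1 k.2.2) :=
    h0.congr fun k => by rw [one_div_mul_one_div]
  have h2 : ∀ k : (ℕ × ℕ) × (ℕ × ℕ), 0 ≤ 1 / (wt k.1.1 k.1.2 * wt k.2.1 k.2.2) := by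
    intro k
    rw [← one_div_mul_one_div]
    exact mul_nonneg (ws_nn _ _) (ws_nn _ _)
  refine ⟨(∑' k : (ℕ × ℕ) × (ℕ × ℕ), 1 / (wt k.1.1 k.1.2 * wt k.2.1 k.2.2)) + 1, ?_, fun F => ?_⟩
  · have : 0 ≤ ∑' k : (ℕ × ℕ) × (ℕ × ℕ), 1 / (wt k.1.1 k.1.2 * wt k.2.1 k.2.2) := tsum_nonneg h2
    linarith
  · have := h1.sum_le_tsum F fun k _ => h2 k
    linarith

end Pool.Agent.PWG
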