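import Pool.Agent.PWG.AT
import Pool.Agent.PWG.WS
import Pool.Agent.Pow3.Main

set_option autoImplicit false

/-!
# PWG-FinA: few small gaps among `a_M, ..., a_(2M)` (job PWG-FinA)

The `m` are covered by boundedly many sets `T_i ^ 3 <= a m <= 8 T_i ^ 3`, to which `at_main` and `ws` apply.
-/

namespace Pool.Agent.PWG

private theorem fa_cnt : ∃ C : ℝ, 1 ≤ C ∧ ∀ (E : Pow3.Enum) (m : ℕ) (Y : ℝ), 0 ≤ Y →
    (E.a m : ℝ) ≤ Y ^ 3 → (m : ℝ) + 1 ≤ C * Y := by
  obtain ⟨C, hC, h⟩ := Pow3.count (1 / 6) (by norm_num) (by norm_num)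
  refine ⟨max C 1, le_max_right _ _, fun E m Y hY hm => ?_⟩
  have h1 : (Finset.range (m + 1)).card ≤ (Pow3.Trip (E.a m) 1 Y).card := by
    refine Finset.card_le_card_of_injOn E.tr ?_ ?_
    · intro j hj
      have hj' : j ≤ m := by
        have := Finset.mem_range.1 hj
        omega
      have h2 : E.a j ≤ E.a m := E.mono.monotone hj'
      have h3 : (E.a j : ℝ) ≤ (E.a m : ℝ) := by exact_mod_cast h2
      refine E.tr_mem h2 (h3.trans hm) ?_
      exact_mod_cast E.w_pos j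
    · intro i _ j _ hij
      exact E.tr_inj hij
  rw [Finset.card_range] at h1
  have h4 := h (E.a m) 1 Y le_rfl hY
  rw [Real.one_rpow, mul_one] at h4
  have h5 : ((m + 1 : ℕ) : ℝ) ≤ ((Pow3.Trip (E.a m) 1 Y).card : ℝ) := by exact_mod_cast h1
  push_cast at h5
  calc (m : ℝ) + 1 ≤ C * Y := h5.trans h4
    _ ≤ max C 1 * Y := mul_le_mul_of_nonneg_right (le_max_left _ _) hY

private def fa_f (E : Pow3.Enum) (m : ℕ) : T6 :=
  ((E.x m, E.y m, E.z m), (E.x (m + 1), E.y (m + 1), E.z (m + 1)))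

private theorem fa_N1 (E : Pow3.Enum) (m : ℕ) : N3 (fa_f E m).1 = E.a m := (E.eq m).symm

private theorem fa_N2 (E : Pow3.Enum) (m : ℕ) : N3 (fa_f E m).2 = E.a (m + 1) := (E.eq (m + 1)).symm

private theorem fa_raw (E : Pow3.Enum) {T h : ℝ} (D : Finset ℕ)
    (hlo : ∀ m ∈ D, T ^ 3 ≤ (E.a m : ℝ)) (hhi : ∀ m ∈ D, (E.a m : ℝ) ≤ 8 * T ^ 3)
    (hT : 0 ≤ T) (hh : h ≤ 19 * T ^ 3) (hg : ∀ m ∈ D, (E.a (m + 1) : ℝ) - (E.a m : ℝ) ≤ h) :
    Raw T h (D.image (fa_f E)) := by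
  have hT3 : 0 ≤ T ^ 3 := pow_nonneg hT 3
  have hlt : ∀ m, (E.a m : ℝ) < (E.a (m + 1) : ℝ) := by
    intro m
    have := E.mono (Nat.lt_succ_self m)
    exact_mod_cast this
  refine ⟨?_, ?_, ?_, ?_, ?_, ?_, ?_⟩
  · intro p hp
    obtain ⟨m, _, rfl⟩ := Finset.mem_image.1 hp
    exact ⟨⟨E.hx m, E.hy m, E.hz m⟩, ⟨E.hx (m + 1), E.hy (m + 1), E.hz (m + 1)⟩⟩
  · intro p hp
    obtain ⟨m, hm, rfl⟩ := Finset.mem_image.1 hp
    rw [fa_N1, fa_N2]
    exact ⟨hlo m hm, (hlo m hm).trans (hlt m).le⟩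
  · intro p hp
    obtain ⟨m, hm, rfl⟩ := Finset.mem_image.1 hp
    rw [fa_N1, fa_N2]
    have h1 := hhi m hm
    have h2 := hg m hm
    exact ⟨by linarith, by linarith⟩
  · intro p hp
    obtain ⟨m, hm, rfl⟩ := Finset.mem_image.1 hp
    rw [fa_N1, fa_N2]
    exact (E.mono (Nat.lt_succ_self m)).ne
  · intro p hp
    obtain ⟨m, hm, rfl⟩ := Finset.mem_image.1 hp
    rw [fa_N1, fa_N2, abs_sub_comm, abs_of_pos (by linarith [hlt m])]
    exact hg m hm
  · intro p hp q hq hpq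
    obtain ⟨m, _, rfl⟩ := Finset.mem_image.1 hp
    obtain ⟨n, _, rfl⟩ := Finset.mem_image.1 hq
    have h1 : N3 (fa_f E m).1 = N3 (fa_f E n).1 := congrArg N3 hpq
    rw [fa_N1, fa_N1] at h1
    rw [E.mono.injective h1]
  · intro p hp q hq hpq
    obtain ⟨m, _, rfl⟩ := Finset.mem_image.1 hp
    obtain ⟨n, _, rfl⟩ := Finset.mem_image.1 hq
    have h1 : N3 (fa_f E m).2 = N3 (fa_f E n).2 := congrArg N3 hpq
    rw [fa_N2, fa_N2] at h1
    have h2 := E.mono.injective h1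
    have h3 : m = n := by omega
    rw [h3]

private theorem fa_card (E : Pow3.Enum) (D : Finset ℕ) : (D.image (fa_f E)).card = D.card := by
  refine Finset.card_image_of_injective D fun m n h => ?_
  have h1 : N3 (fa_f E m).1 = N3 (fa_f E n).1 := by rw [h]
  rw [fa_N1, fa_N1] at h1
  exact E.mono.injective h1

theorem finA : ∃ C : ℝ, 0 < C ∧ ∀ (E : Pow3.Enum) (M : ℕ) (h : ℝ), 1 ≤ M → 0 < h →
    (((Finset.Ico M (2 * M)).filter (fun m => (E.a (m + 1) : ℝ) - (E.a m : ℝ) ≤ h)).card : ℝ) ≤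
      C * (h / M + (M : ℝ) ^ ((3 : ℝ) / 4) * h ^ ((1 : ℝ) / 12) * (1 + Real.log M) ^ 5) := by
  classical
  obtain ⟨C1, hC1, hcnt⟩ := fa_cnt
  obtain ⟨K, hK, hat⟩ := at_main
  obtain ⟨K', hK', hws⟩ := ws
  obtain ⟨I, hI⟩ := pow_unbounded_of_one_lt (2 * C1) (one_lt_two (α := ℝ))
  have hC10 : 0 < C1 := by linarith
  obtain ⟨C2, hC2⟩ : ∃ C2 : ℝ, C2 = ((I : ℝ) + 1) * (K * (K' * C1 + ((I : ℝ) + 1) ^ 5 * 2 ^ I)) :=
    ⟨_, rfl⟩
  have hC20 : 0 < C2 := by
    rw [hC2]
    positivity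
  refine ⟨C1 ^ 3 + C2, by positivity, ?_⟩
  intro E M h hM hh
  have hMr : (1 : ℝ) ≤ M := by exact_mod_cast hM
  have hM0 : (0 : ℝ) < M := by linarith
  have hlog : 0 ≤ Real.log M := Real.log_nonneg hMr
  obtain ⟨S, hS⟩ : ∃ S, S = (Finset.Ico M (2 * M)).filter
    (fun m => (E.a (m + 1) : ℝ) - (E.a m : ℝ) ≤ h) := ⟨_, rfl⟩
  rw [← hS]
  have hX : 0 ≤ (M : ℝ) ^ ((3 : ℝ) / 4) * h ^ ((1 : ℝ) / 12) * (1 + Real.log M) ^ 5 := by positivity
  have hhM : 0 ≤ h / M := by positivity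
  by_cases hbig : 19 * (M / C1) ^ 3 < h
  · -- trivial bound
    have h1 : S.card ≤ M := by
      rw [hS]
      refine (Finset.card_filter_le _ _).trans ?_
      rw [Nat.card_Ico]
      omega
    have h2 : (S.card : ℝ) ≤ M := by exact_mod_cast h1
    have h3 : (M : ℝ) ≤ C1 ^ 3 * (h / M) := by
      rw [mul_div_assoc', le_div_iff₀ hM0]
      rw [div_pow, mul_div_assoc', div_lt_iff₀ (by positivity)] at hbig
      have h4 : (M : ℝ) * M ≤ M ^ 3 := by nlinarith
      have h5 : (0 : ℝ) ≤ (M : ℝ) ^ 3 := by positivity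
      nlinarith
    have h6 : 0 ≤ C2 * (h / M) := by positivity
    have h7 : 0 ≤ (C1 ^ 3 + C2) *
        ((M : ℝ) ^ ((3 : ℝ) / 4) * h ^ ((1 : ℝ) / 12) * (1 + Real.log M) ^ 5) := by positivity
    nlinarith
  · have hsm : h ≤ 19 * (M / C1) ^ 3 := not_lt.1 hbig
    obtain ⟨T0, hT0⟩ : ∃ T0 : ℝ, T0 = max 1 (M / C1) := ⟨_, rfl⟩
    have hT1 : 1 ≤ T0 := by
      rw [hT0]
      exact le_max_left _ _
    have hTM : M / C1 ≤ T0 := by
      rw [hT0]
      exact le_max_right _ _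
    have hTle : T0 ≤ M := by
      rw [hT0]
      refine max_le hMr ?_
      rw [div_le_iff₀ hC10]
      nlinarith
    -- the sets
    obtain ⟨D, hD⟩ : ∃ D : ℕ → Finset ℕ, D = fun i => S.filter
      (fun m => (T0 * 2 ^ i) ^ 3 ≤ (E.a m : ℝ) ∧ (E.a m : ℝ) ≤ 8 * (T0 * 2 ^ i) ^ 3) := ⟨_, rfl⟩
    have hcov : S ⊆ (Finset.range (I + 1)).biUnion D := by
      intro m hm
      rw [hS] at hm
      obtain ⟨hm1, hm2⟩ := Finset.mem_filter.1 hm
      obtain ⟨hm3, hm4⟩ := Finset.mem_Ico.1 hm1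
      have ha0 : (0 : ℝ) ≤ (E.a m : ℝ) := Nat.cast_nonneg _
      obtain ⟨Y, hY⟩ : ∃ Y : ℝ, Y = (E.a m : ℝ) ^ ((1 : ℝ) / 3) := ⟨_, rfl⟩
      have hY0 : 0 ≤ Y := by
        rw [hY]
        exact Real.rpow_nonneg ha0 _
      have hY3 : Y ^ 3 = (E.a m : ℝ) := by
        rw [hY, ← Real.rpow_natCast, ← Real.rpow_mul ha0]
        norm_num
      have h1 := hcnt E m Y hY0 hY3.ge
      have hmM : (M : ℝ) ≤ m := by exact_mod_cast hm3
      have h2 : M / C1 ≤ Y := by
        rw [div_le_iff₀ hC10]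
        linarith
      have h3 : 1 ≤ Y := by
        have h4 : (1 : ℝ) ≤ (E.a m : ℝ) := by exact_mod_cast E.a_pos m
        rw [hY]
        exact Real.one_le_rpow h4 (by norm_num)
      have h5 : T0 ≤ Y := by
        rw [hT0]
        exact max_le h3 h2
      have h6 : Y ≤ 2 * M := by
        have h7 : (E.a m : ℝ) ≤ ((m : ℝ) + 1) ^ 3 := by exact_mod_cast E.le m
        have h8 : (m : ℝ) + 1 ≤ 2 * M := by exact_mod_cast hm4
        have h9 : Y ^ 3 ≤ (2 * (M : ℝ)) ^ 3 := by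
          rw [hY3]
          exact h7.trans (pow_le_pow_left₀ (by positivity) h8 3)
        exact le_of_pow_le_pow_left₀ (by norm_num) (by positivity) h9
      have h7 : 1 ≤ Y / T0 := by
        rw [le_div_iff₀ (by linarith), one_mul]
        exact h5
      obtain ⟨i, hi1, hi2⟩ := exists_nat_pow_near h7 (one_lt_two (α := ℝ))
      have hT00 : 0 < T0 := by linarith
      rw [le_div_iff₀ hT00] at hi1
      rw [div_lt_iff₀ hT00] at hi2
      have h8 : i < I + 1 := by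
        by_contra hcon
        have h9 : (2 : ℝ) ^ I ≤ 2 ^ i := pow_le_pow_right₀ (by norm_num) (by omega)
        have h10 : Y ≤ 2 * C1 * T0 := by
          have h11 : (M : ℝ) ≤ C1 * T0 := by
            rw [div_le_iff₀ hC10] at hTM
            linarith
          nlinarith
        nlinarith
      rw [Finset.mem_biUnion]
      refine ⟨i, Finset.mem_range.2 h8, ?_⟩
      rw [hD, hS]
      refine Finset.mem_filter.2 ⟨hm, ?_, ?_⟩
      · rw [← hY3]
        exact pow_le_pow_left₀ (by positivity) (by linarith) 3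
      · rw [← hY3]
        have h9 : Y ≤ 2 * (T0 * 2 ^ i) := by
          rw [pow_succ] at hi2
          linarith
        calc Y ^ 3 ≤ (2 * (T0 * 2 ^ i)) ^ 3 := pow_le_pow_left₀ hY0 h9 3
          _ = 8 * (T0 * 2 ^ i) ^ 3 := by ring
    have hDi : ∀ i ∈ Finset.range (I + 1), ((D i).card : ℝ) ≤
        K * (K' * C1 * (h / M) + ((I : ℝ) + 1) ^ 5 * 2 ^ I *
          ((M : ℝ) ^ ((3 : ℝ) / 4) * h ^ ((1 : ℝ) / 12) * (1 + Real.log M) ^ 5)) := by
      intro i hi
      have hiI : i ≤ I := by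
        have := Finset.mem_range.1 hi
        omega
      obtain ⟨T, hT⟩ : ∃ T : ℝ, T = T0 * 2 ^ i := ⟨_, rfl⟩
      have h2i : (1 : ℝ) ≤ 2 ^ i := one_le_pow₀ (by norm_num)
      have h2I : (2 : ℝ) ^ i ≤ 2 ^ I := pow_le_pow_right₀ (by norm_num) hiI
      have hT0T : T0 ≤ T := by
        rw [hT]
        nlinarith
      have hT1' : 1 ≤ T := hT1.trans hT0T
      have hTu : T ≤ 2 ^ I * M := by
        rw [hT, mul_comm]
        exact mul_le_mul h2I hTle (by linarith) (by positivity)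
      have hraw : Raw T h ((D i).image (fa_f E)) := by
        refine fa_raw E (D i) ?_ ?_ (by linarith) ?_ ?_
        · intro m hm
          rw [hD] at hm
          rw [hT]
          exact (Finset.mem_filter.1 hm).2.1
        · intro m hm
          rw [hD] at hm
          rw [hT]
          exact (Finset.mem_filter.1 hm).2.2
        · refine hsm.trans ?_
          have : (M / C1) ^ 3 ≤ T ^ 3 := pow_le_pow_left₀ (by positivity) (hTM.trans hT0T) 3
          linarith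
        · intro m hm
          rw [hD] at hm
          have h1 := (Finset.mem_filter.1 hm).1
          rw [hS] at h1
          exact (Finset.mem_filter.1 h1).2
      have h1 := hat T h ((D i).image (fa_f E)) hT1' hh hraw
      rw [fa_card] at h1
      refine h1.trans (mul_le_mul_of_nonneg_left ?_ (by linarith))
      have e1 : (h / T) * (∑ k ∈ ((D i).image (fa_f E)).image cl,
          1 / (wt k.1.1 k.1.2 * wt k.2.1 k.2.2)) ≤ K' * C1 * (h / M) := by
        have h2 : (h / T) ≤ C1 * (h / M) := by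
          rw [mul_div_assoc', div_le_div_iff₀ (by linarith) hM0]
          have h3 : (M : ℝ) ≤ C1 * T := by
            have h4 := hTM.trans hT0T
            rw [div_le_iff₀ hC10] at h4
            linarith
          nlinarith
        calc _ ≤ (h / T) * K' := mul_le_mul_of_nonneg_left (hws _) (by positivity)
          _ ≤ (C1 * (h / M)) * K' := mul_le_mul_of_nonneg_right h2 hK'.le
          _ = _ := by ring
      have e2 : (1 + Real.log T) ^ 5 * (T ^ ((3 : ℝ) / 4) * h ^ ((1 : ℝ) / 12)) ≤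
          ((I : ℝ) + 1) ^ 5 * 2 ^ I *
          ((M : ℝ) ^ ((3 : ℝ) / 4) * h ^ ((1 : ℝ) / 12) * (1 + Real.log M) ^ 5) := by
        have h2 : Real.log T ≤ I + Real.log M := by
          have h3 : Real.log T ≤ Real.log (2 ^ I * M) := Real.log_le_log (by linarith) hTu
          rw [Real.log_mul (by positivity) hM0.ne', Real.log_pow] at h3
          have h4 : Real.log 2 ≤ 1 := by
            have := Real.log_two_lt_d9
            linarith
          have h5 : (I : ℝ) * Real.log 2 ≤ I * 1 := mul_le_mul_of_nonneg_left h4 (Nat.cast_nonneg _)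
          linarith
        have hlT : 0 ≤ Real.log T := Real.log_nonneg hT1'
        have h6 : 1 + Real.log T ≤ ((I : ℝ) + 1) * (1 + Real.log M) := by
          have : 0 ≤ (I : ℝ) * Real.log M := by positivity
          nlinarith
        have h7 : (1 + Real.log T) ^ 5 ≤ (((I : ℝ) + 1) * (1 + Real.log M)) ^ 5 :=
          pow_le_pow_left₀ (by linarith) h6 5
        have h8 : T ^ ((3 : ℝ) / 4) ≤ 2 ^ I * (M : ℝ) ^ ((3 : ℝ) / 4) := by
          have h9 : T ^ ((3 : ℝ) / 4) ≤ (2 ^ I * (M : ℝ)) ^ ((3 : ℝ) / 4) :=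
            Real.rpow_le_rpow (by linarith) hTu (by norm_num)
          rw [Real.mul_rpow (by positivity) hM0.le] at h9
          have h10 : ((2 : ℝ) ^ I) ^ ((3 : ℝ) / 4) ≤ 2 ^ I := by
            have h11 : (1 : ℝ) ≤ 2 ^ I := one_le_pow₀ (by norm_num)
            calc ((2 : ℝ) ^ I) ^ ((3 : ℝ) / 4) ≤ ((2 : ℝ) ^ I) ^ (1 : ℝ) :=
                  Real.rpow_le_rpow_of_exponent_le h11 (by norm_num)
              _ = 2 ^ I := Real.rpow_one _
          exact h9.trans (mul_le_mul_of_nonneg_right h10 (Real.rpow_nonneg hM0.le _))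
        have hh12 : 0 ≤ h ^ ((1 : ℝ) / 12) := Real.rpow_nonneg hh.le _
        calc (1 + Real.log T) ^ 5 * (T ^ ((3 : ℝ) / 4) * h ^ ((1 : ℝ) / 12))
            ≤ (((I : ℝ) + 1) * (1 + Real.log M)) ^ 5 *
              ((2 ^ I * (M : ℝ) ^ ((3 : ℝ) / 4)) * h ^ ((1 : ℝ) / 12)) := by
              refine mul_le_mul h7 (mul_le_mul_of_nonneg_right h8 hh12) ?_ ?_
              · have : 0 ≤ T ^ ((3 : ℝ) / 4) := Real.rpow_nonneg (by linarith) _
                positivity
              · positivity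
          _ = _ := by ring
      linarith
    have hcard : (S.card : ℝ) ≤ ∑ i ∈ Finset.range (I + 1), ((D i).card : ℝ) := by
      have h1 := (Finset.card_le_card hcov).trans Finset.card_biUnion_le
      exact_mod_cast h1
    refine hcard.trans ((Finset.sum_le_sum hDi).trans ?_)
    rw [Finset.sum_const, Finset.card_range, nsmul_eq_mul]
    push_cast
    have hA : 0 ≤ ((I : ℝ) + 1) * K := by positivity
    have hB : (0 : ℝ) ≤ ((I : ℝ) + 1) ^ 5 * 2 ^ I := by positivity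
    have hC3 : 0 ≤ C1 ^ 3 := by positivity
    obtain ⟨X, hXd⟩ : ∃ X : ℝ, X =
      (M : ℝ) ^ ((3 : ℝ) / 4) * h ^ ((1 : ℝ) / 12) * (1 + Real.log M) ^ 5 := ⟨_, rfl⟩
    rw [← hXd] at hX ⊢
    have hK'C : 0 ≤ K' * C1 := by positivity
    calc ((I : ℝ) + 1) * (K * (K' * C1 * (h / M) + ((I : ℝ) + 1) ^ 5 * 2 ^ I * X))
        ≤ ((I : ℝ) + 1) * (K * ((K' * C1 + ((I : ℝ) + 1) ^ 5 * 2 ^ I) * (h / M + X))) := by
          rw [← mul_assoc, ← mul_assoc]
          refine mul_le_mul_of_nonneg_left ?_ hA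
          have q1 := mul_nonneg hK'C hX
          have q2 := mul_nonneg hB hhM
          nlinarith
      _ = C2 * (h / M + X) := by
          rw [hC2]
          ring
      _ ≤ (C1 ^ 3 + C2) * (h / M + X) := by
          refine mul_le_mul_of_nonneg_right (by linarith) (by linarith)

end Pool.Agent.PWG
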