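import Pool.Agent.PWG.Defs

set_option autoImplicit false

/-!
# PWG-Norm: normalised coordinates of a near point (MP_8e25e3_nt)

The normalised coordinates `t = tt A A' q` and `s = ss V V' q` are bounded, the constant `kap` is bounded, and
`s ^ j` is close to `φ ^ j`, where `φ = (kap / t ^ 3) ^ (1 / w)`.
-/

namespace Pool.Agent.PWG

/-- lower bound for a difference of powers -/
private theorem pow_sub_ge {s φ : ℝ} (hs : 0 < s) (hφ : 0 < φ) {w : ℕ} (hw : 1 ≤ w) :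
    |s - φ| * φ ^ (w - 1) ≤ |s ^ w - φ ^ w| := by
  have h1 := geom_sum₂_mul s φ w
  have h2 : φ ^ (w - 1) ≤ ∑ i ∈ Finset.range w, s ^ i * φ ^ (w - 1 - i) := by
    have h3 := Finset.single_le_sum (f := fun i => s ^ i * φ ^ (w - 1 - i))
      (fun i _ => by positivity) (Finset.mem_range.2 (by omega : 0 < w))
    simpa using h3
  have h4 : (0 : ℝ) ≤ ∑ i ∈ Finset.range w, s ^ i * φ ^ (w - 1 - i) :=
    Finset.sum_nonneg fun i _ => by positivity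
  rw [← h1, abs_mul, abs_of_nonneg h4, mul_comm]
  exact mul_le_mul_of_nonneg_right h2 (abs_nonneg _)

/-- upper bound for a difference of powers -/
private theorem pow_sub_le {s φ : ℝ} (hs : 0 < s) (hs4 : s ≤ 4) (hφ : 0 < φ) (hφ4 : φ ≤ 4) (j : ℕ) :
    |s ^ j - φ ^ j| ≤ j * 4 ^ j * |s - φ| := by
  induction j with
  | zero => simp
  | succ j ih =>
    have h1 : s ^ (j + 1) - φ ^ (j + 1) = s * (s ^ j - φ ^ j) + φ ^ j * (s - φ) := by ring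
    have h2 : φ ^ j ≤ 4 ^ j := pow_le_pow_left₀ hφ.le hφ4 j
    have h3 : |s * (s ^ j - φ ^ j)| ≤ 4 * (j * 4 ^ j * |s - φ|) := by
      rw [abs_mul, abs_of_pos hs]
      exact mul_le_mul hs4 ih (abs_nonneg _) (by norm_num)
    have h4 : |φ ^ j * (s - φ)| ≤ 4 ^ j * |s - φ| := by
      rw [abs_mul, abs_of_pos (pow_pos hφ j)]
      exact mul_le_mul_of_nonneg_right h2 (abs_nonneg _)
    have h5 : (0 : ℝ) ≤ 4 ^ j * |s - φ| := by positivity
    rw [h1]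
    refine (abs_add_le _ _).trans ?_
    push_cast
    rw [pow_succ]
    nlinarith [h3, h4, h5]

/-- bounds of a normalised quotient -/
private theorem quo_bd {x x' X X' c : ℝ} (hX : 1 ≤ X) (hX' : 1 ≤ X') (hc : 0 < c) (h1 : X / c ≤ x)
    (h2 : x ≤ X) (h3 : X' / c ≤ x') (h4 : x' ≤ X') :
    1 / c ≤ x / x' * (X' / X) ∧ x / x' * (X' / X) ≤ c := by
  have hX0 : 0 < X := by linarith
  have hX0' : 0 < X' := by linarith
  have hx' : 0 < x' := lt_of_lt_of_le (by positivity) h3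
  have hx : 0 < x := lt_of_lt_of_le (by positivity) h1
  rw [div_le_iff₀ hc] at h1 h3
  constructor
  · rw [div_mul_div_comm, div_le_div_iff₀ hc (by positivity)]
    have h5 : x' * X ≤ X' * (x * c) := mul_le_mul h4 h1 hX0.le hX0'.le
    linarith
  · rw [div_mul_div_comm, div_le_iff₀ (by positivity)]
    have h5 : x * X' ≤ X * (x' * c) := mul_le_mul h2 h3 hX0'.le hX0.le
    linarith

/-- the powers of `φ` -/
private theorem phi_pow {k t : ℝ} (hk : 0 < k) (ht : 0 < t) (w j : ℕ) :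
    ((k / t ^ 3) ^ ((w : ℝ)⁻¹)) ^ j = k ^ ((j : ℝ) / w) * t ^ (-(3 * (j : ℝ) / w)) := by
  have h1 : ((k / t ^ 3) ^ ((w : ℝ)⁻¹)) ^ j = (k / t ^ 3) ^ ((j : ℝ) / w) := by
    rw [← Real.rpow_natCast, ← Real.rpow_mul (by positivity)]
    congr 1
    rw [div_eq_mul_inv]
    ring
  have h2 : (t ^ 3) ^ ((j : ℝ) / w) = t ^ (3 * (j : ℝ) / w) := by
    rw [← Real.rpow_natCast t 3, ← Real.rpow_mul ht.le]
    congr 1
    push_cast
    ring
  rw [h1, Real.div_rpow hk.le (by positivity), h2, Real.rpow_neg ht.le, div_eq_mul_inv]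

theorem norm_pt (w J : ℕ) (hw : 1 ≤ w) : ∃ C : ℝ, 1 ≤ C ∧
    ∀ (A A' V V' κ δ : ℝ) (q : Q4), 1 ≤ A → 1 ≤ A' → 1 ≤ V → 1 ≤ V' → 0 < κ → 0 ≤ δ → δ ≤ 1 / 2 →
      Blk A A' V V' q → Nr w κ δ q →
      1 / 32 ≤ tt A A' q ∧ tt A A' q ≤ 32 ∧ 1 / 2 ≤ ss V V' q ∧ ss V V' q ≤ 2 ∧
      1 / C ≤ kap w A A' V V' κ ∧ kap w A A' V V' κ ≤ C ∧
      ∀ j : ℕ, j ≤ J → |ss V V' q ^ j - kap w A A' V V' κ ^ ((j : ℝ) / w) *
        tt A A' q ^ (-(3 * (j : ℝ) / w))| ≤ C * δ := by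
  refine ⟨2 * 32 ^ 3 * 2 ^ w + J * 4 ^ J * 4, ?_, ?_⟩
  · have h1 : (1 : ℝ) ≤ 2 ^ w := one_le_pow₀ (by norm_num)
    have h2 : (0 : ℝ) ≤ J * 4 ^ J * 4 := by positivity
    nlinarith
  intro A A' V V' κ δ q hA hA' hV hV' hκ hδ hδ2 hb hn
  obtain ⟨ht1, ht2⟩ := quo_bd hA hA' (by norm_num : (0 : ℝ) < 32) hb.a0 hb.a1 hb.b0 hb.b1
  obtain ⟨hs1, hs2⟩ := quo_bd hV hV' (by norm_num : (0 : ℝ) < 2) hb.v0 hb.v1 hb.w0 hb.w1
  have ha' : (0 : ℝ) < q.1.2 := lt_of_lt_of_le (by positivity) hb.b0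
  have hv' : (0 : ℝ) < q.2.2 := lt_of_lt_of_le (by positivity) hb.w0
  have hmain : |(tt A A' q) ^ 3 * (ss V V' q) ^ w - kap w A A' V V' κ| ≤
      δ * kap w A A' V V' κ := by
    have h0 : (0 : ℝ) < (q.1.2 : ℝ) ^ 3 * (q.2.2 : ℝ) ^ w := by positivity
    have h1 : (0 : ℝ) < (A' / A) ^ 3 * (V' / V) ^ w / ((q.1.2 : ℝ) ^ 3 * (q.2.2 : ℝ) ^ w) := by
      positivity
    have h2 : (tt A A' q) ^ 3 * (ss V V' q) ^ w - kap w A A' V V' κ =
        ((q.1.1 : ℝ) ^ 3 * (q.2.1 : ℝ) ^ w - κ * ((q.1.2 : ℝ) ^ 3 * (q.2.2 : ℝ) ^ w)) *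
          ((A' / A) ^ 3 * (V' / V) ^ w / ((q.1.2 : ℝ) ^ 3 * (q.2.2 : ℝ) ^ w)) := by
      unfold tt ss kap
      rw [mul_pow, mul_pow, div_pow (q.1.1 : ℝ) (q.1.2 : ℝ), div_pow (q.2.1 : ℝ) (q.2.2 : ℝ)]
      field_simp
    have h3 : δ * kap w A A' V V' κ = δ * (κ * ((q.1.2 : ℝ) ^ 3 * (q.2.2 : ℝ) ^ w)) *
        ((A' / A) ^ 3 * (V' / V) ^ w / ((q.1.2 : ℝ) ^ 3 * (q.2.2 : ℝ) ^ w)) := by
      unfold kap
      field_simp
    rw [h2, h3, abs_mul, abs_of_pos h1]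
    exact mul_le_mul_of_nonneg_right hn h1.le
  have hk : 0 < kap w A A' V V' κ := by
    unfold kap
    positivity
  change 1 / 32 ≤ tt A A' q at ht1
  change tt A A' q ≤ 32 at ht2
  change 1 / 2 ≤ ss V V' q at hs1
  change ss V V' q ≤ 2 at hs2
  generalize tt A A' q = t at *
  generalize ss V V' q = s at *
  generalize kap w A A' V V' κ = k at *
  have ht0 : 0 < t := lt_of_lt_of_le (by norm_num) ht1
  have hs0 : 0 < s := lt_of_lt_of_le (by norm_num) hs1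
  obtain ⟨hm1, hm2⟩ := abs_le.1 hmain
  have hJ0 : (0 : ℝ) ≤ J * 4 ^ J * 4 := by positivity
  have hc0 : (0 : ℝ) < 2 * 32 ^ 3 * 2 ^ w := by positivity
  refine ⟨ht1, ht2, hs1, hs2, ?_, ?_, ?_⟩
  · have h1 : (1 / 32 : ℝ) ^ 3 * (1 / 2) ^ w ≤ t ^ 3 * s ^ w :=
      mul_le_mul (pow_le_pow_left₀ (by norm_num) ht1 3) (pow_le_pow_left₀ (by norm_num) hs1 w)
        (by positivity) (by positivity)
    have h2 : t ^ 3 * s ^ w ≤ 2 * k := by nlinarith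
    have h3 : (1 / 32 : ℝ) ^ 3 * (1 / 2) ^ w = 2 / (2 * 32 ^ 3 * 2 ^ w) := by
      rw [div_pow, div_pow, one_pow, one_pow]
      field_simp
    have h4 : (1 : ℝ) / (2 * 32 ^ 3 * 2 ^ w + J * 4 ^ J * 4) ≤ 1 / (2 * 32 ^ 3 * 2 ^ w) :=
      one_div_le_one_div_of_le hc0 (by linarith)
    have h5 : (2 : ℝ) / (2 * 32 ^ 3 * 2 ^ w) = 2 * (1 / (2 * 32 ^ 3 * 2 ^ w)) := by ring
    linarith
  · have h1 : t ^ 3 * s ^ w ≤ 32 ^ 3 * 2 ^ w :=
      mul_le_mul (pow_le_pow_left₀ ht0.le ht2 3) (pow_le_pow_left₀ hs0.le hs2 w)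
        (by positivity) (by positivity)
    have h2 : k ≤ 2 * (t ^ 3 * s ^ w) := by nlinarith
    linarith
  · intro j hj
    rw [← phi_pow hk ht0 w j]
    have hw0 : w ≠ 0 := by omega
    have hkt : 0 < k / t ^ 3 := by positivity
    have hφ0 : 0 < (k / t ^ 3) ^ ((w : ℝ)⁻¹) := Real.rpow_pos_of_pos hkt _
    have hφw : ((k / t ^ 3) ^ ((w : ℝ)⁻¹)) ^ w = k / t ^ 3 := Real.rpow_inv_natCast_pow hkt.le hw0
    generalize (k / t ^ 3) ^ ((w : ℝ)⁻¹) = φ at *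
    have h1 : k = φ ^ w * t ^ 3 := by
      rw [hφw]
      field_simp
    have ht3 : 0 < t ^ 3 := by positivity
    have h2 : |s ^ w - φ ^ w| ≤ δ * φ ^ w := by
      have h3 : t ^ 3 * s ^ w - k = t ^ 3 * (s ^ w - φ ^ w) := by
        rw [h1]
        ring
      rw [h3, abs_mul, abs_of_pos ht3, h1] at hmain
      have h4 : t ^ 3 * |s ^ w - φ ^ w| ≤ t ^ 3 * (δ * φ ^ w) := by linarith
      exact le_of_mul_le_mul_left h4 ht3
    have h3 : |s - φ| ≤ δ * φ := by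
      have h4 := (pow_sub_ge hs0 hφ0 hw).trans h2
      have h5 : φ ^ w = φ * φ ^ (w - 1) := by
        rw [← pow_succ']
        congr 1
        omega
      rw [h5, ← mul_assoc] at h4
      exact le_of_mul_le_mul_right h4 (pow_pos hφ0 _)
    have hφ4 : φ ≤ 4 := by
      have h4 := (abs_le.1 h3).1
      nlinarith
    have h4 := pow_sub_le hs0 (by linarith) hφ0 hφ4 j
    refine h4.trans ?_
    have h5 : |s - φ| ≤ 4 * δ := h3.trans (by nlinarith)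
    have h6 : (j : ℝ) * 4 ^ j ≤ J * 4 ^ J := by
      have h7 : (j : ℝ) ≤ J := by exact_mod_cast hj
      have h8 : (4 : ℝ) ^ j ≤ 4 ^ J := pow_le_pow_right₀ (by norm_num) hj
      exact mul_le_mul h7 h8 (by positivity) (by positivity)
    have h7 : (j : ℝ) * 4 ^ j * |s - φ| ≤ J * 4 ^ J * (4 * δ) :=
      mul_le_mul h6 h5 (abs_nonneg _) (by positivity)
    have h8 : 0 ≤ 2 * 32 ^ 3 * 2 ^ w * δ := by positivity
    nlinarith

end Pool.Agent.PWG
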