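import Pool.Agent.PWG.Tay
import Pool.Agent.PWG.Norm

set_option autoImplicit false

/-!
# PWG-Mono: the monomials along an arc are close to polynomials of degree `< n`
-/

namespace Pool.Agent.PWG

private theorem mo_kap {C1 k e : ℝ} {d : ℕ} (hC : 1 ≤ C1) (hk0 : 0 < k) (hk : k ≤ C1) (he0 : 0 ≤ e)
    (he : e ≤ d) : k ^ e ≤ C1 ^ d := by
  calc k ^ e ≤ C1 ^ e := Real.rpow_le_rpow hk0.le hk he0
    _ ≤ C1 ^ (d : ℝ) := Real.rpow_le_rpow_of_exponent_le hC he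
    _ = C1 ^ d := Real.rpow_natCast _ _

private theorem mo_u {u p : ℝ} {N : ℕ} (hu1 : 1 / 32 ≤ u) (hu2 : u ≤ 32) (hp : |p| ≤ N) :
    u ^ p ≤ 32 ^ N := by
  have hu0 : 0 < u := by linarith
  obtain ⟨hp1, hp2⟩ := abs_le.1 hp
  rcases le_total 0 p with h | h
  · calc u ^ p ≤ (32 : ℝ) ^ p := Real.rpow_le_rpow hu0.le hu2 h
      _ ≤ (32 : ℝ) ^ (N : ℝ) := Real.rpow_le_rpow_of_exponent_le (by norm_num) hp2
      _ = 32 ^ N := Real.rpow_natCast _ _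
  · have h1 : u ^ p = u⁻¹ ^ (-p) := by
      rw [← Real.rpow_neg_eq_inv_rpow, neg_neg]
    have h2 : u⁻¹ ≤ 32 := by
      rw [inv_le_comm₀ hu0 (by norm_num)]
      linarith
    rw [h1]
    calc u⁻¹ ^ (-p) ≤ (32 : ℝ) ^ (-p) :=
          Real.rpow_le_rpow (inv_nonneg.2 hu0.le) h2 (by linarith)
      _ ≤ (32 : ℝ) ^ (N : ℝ) := Real.rpow_le_rpow_of_exponent_le (by norm_num) (by linarith)
      _ = 32 ^ N := Real.rpow_natCast _ _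

/-- the exponents -/
private theorem mo_ex {w d : ℕ} (hw : 1 ≤ w) (i : Fin (d + 1) × Fin (d + 1)) :
    0 ≤ (i.2 : ℝ) / w ∧ (i.2 : ℝ) / w ≤ d ∧ |ex w i| ≤ ((4 * d : ℕ) : ℝ) := by
  have hw' : (1 : ℝ) ≤ w := by exact_mod_cast hw
  have hw0 : (0 : ℝ) < w := by linarith
  have h1 : ((i.1 : ℕ) : ℝ) ≤ d := by
    have := i.1.isLt
    exact_mod_cast (by omega : (i.1 : ℕ) ≤ d)
  have h2 : ((i.2 : ℕ) : ℝ) ≤ d := by
    have := i.2.isLt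
    exact_mod_cast (by omega : (i.2 : ℕ) ≤ d)
  have h10 : (0 : ℝ) ≤ ((i.1 : ℕ) : ℝ) := Nat.cast_nonneg _
  have h20 : (0 : ℝ) ≤ ((i.2 : ℕ) : ℝ) := Nat.cast_nonneg _
  have h3 : 0 ≤ (i.2 : ℝ) / w := div_nonneg h20 hw0.le
  have h4 : (i.2 : ℝ) / w ≤ d := (div_le_self h20 hw').trans h2
  refine ⟨h3, h4, ?_⟩
  unfold ex
  have h5 : 3 * (i.2 : ℝ) / w = 3 * ((i.2 : ℝ) / w) := by ring
  rw [h5, abs_le]
  push_cast
  constructor <;> linarith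

/-- the exact power -/
private theorem mo_pow {t k : ℝ} (ht : 0 < t) (w i1 i2 : ℕ) :
    t ^ i1 * (k * t ^ (-(3 * (i2 : ℝ) / w))) = k * t ^ ((i1 : ℝ) - 3 * (i2 : ℝ) / w) := by
  rw [sub_eq_add_neg, Real.rpow_add ht, Real.rpow_natCast]
  ring

theorem mono (w d n : ℕ) (hw : 1 ≤ w) : ∃ C : ℝ, 1 ≤ C ∧
    ∀ (A A' V V' κ δ u : ℝ) (S : Finset Q4), 1 ≤ A → 1 ≤ A' → 1 ≤ V → 1 ≤ V' → 0 < κ → 0 ≤ δ →
      δ ≤ 1 / 2 → 1 / 32 ≤ u → u ≤ 32 →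
      (∀ q ∈ S, Blk A A' V V' q ∧ Nr w κ δ q ∧ u ≤ tt A A' q ∧ tt A A' q ≤ 2 * u) →
      ∃ L : Fin n → (Fin (d + 1) × Fin (d + 1)) → ℝ, (∀ m i, |L m i| ≤ C) ∧
        ∀ q ∈ S, ∀ i : Fin (d + 1) × Fin (d + 1),
          |tt A A' q ^ (i.1 : ℕ) * ss V V' q ^ (i.2 : ℕ) -
            ∑ m : Fin n, L m i * ((tt A A' q - u) / u) ^ (m : ℕ)| ≤
            C * (δ + ((tt A A' q - u) / u) ^ n) := by
  obtain ⟨C1, hC1, hnorm⟩ := norm_pt w d hw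
  have htay : ∀ i : Fin (d + 1) × Fin (d + 1), ∃ (b : ℕ → ℝ) (Cp : ℝ), 0 < Cp ∧
      (∀ m < n, |b m| ≤ Cp) ∧ ∀ τ : ℝ, 0 ≤ τ → τ ≤ 1 →
        |(1 + τ) ^ ex w i - ∑ m ∈ Finset.range n, b m * τ ^ m| ≤ Cp * τ ^ n :=
    fun i => pow_taylor (ex w i) n
  choose b Cp hCp hb hrem using htay
  obtain ⟨P, hP⟩ : ∃ P : ℝ, P = ∑ i, Cp i := ⟨_, rfl⟩
  have hCpP : ∀ i, Cp i ≤ P := fun i => by
    rw [hP]
    exact Finset.single_le_sum (fun j _ => (hCp j).le) (Finset.mem_univ i)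
  have hP0 : 0 ≤ P := by
    rw [hP]
    exact Finset.sum_nonneg (fun j _ => (hCp j).le)
  have hC1d : (0 : ℝ) < C1 ^ d := by positivity
  obtain ⟨K, hK⟩ : ∃ K : ℝ, K = C1 ^ d * 32 ^ (4 * d) * P := ⟨_, rfl⟩
  have hK0 : 0 ≤ K := by
    rw [hK]
    positivity
  have hE0 : (0 : ℝ) ≤ 32 ^ d * C1 := by positivity
  refine ⟨K + 32 ^ d * C1 + 1, by linarith, ?_⟩
  intro A A' V V' κ δ u S hA hA' hV hV' hκ hδ hδ2 hu1 hu2 hS
  rcases S.eq_empty_or_nonempty with rfl | ⟨q0, hq0⟩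
  · refine ⟨fun _ _ => 0, ?_, ?_⟩
    · intro m i
      rw [abs_zero]
      linarith
    · intro q hq
      exact absurd hq (Finset.notMem_empty q)
  obtain ⟨hB0, hN0, _, _⟩ := hS q0 hq0
  obtain ⟨_, _, _, _, hk1, hk2, _⟩ := hnorm A A' V V' κ δ q0 hA hA' hV hV' hκ hδ hδ2 hB0 hN0
  obtain ⟨k, hk⟩ : ∃ k : ℝ, k = kap w A A' V V' κ := ⟨_, rfl⟩
  rw [← hk] at hk1 hk2
  have hk0 : 0 < k := lt_of_lt_of_le (by positivity) hk1
  have hu0 : 0 < u := by linarith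
  have hkb : ∀ i : Fin (d + 1) × Fin (d + 1), k ^ ((i.2 : ℝ) / w) * u ^ ex w i ≤
      C1 ^ d * 32 ^ (4 * d) := by
    intro i
    obtain ⟨e1, e2, e3⟩ := mo_ex hw i
    exact mul_le_mul (mo_kap hC1 hk0 hk2 e1 e2) (mo_u hu1 hu2 e3) (Real.rpow_nonneg hu0.le _) hC1d.le
  have hkn : ∀ i : Fin (d + 1) × Fin (d + 1), 0 ≤ k ^ ((i.2 : ℝ) / w) * u ^ ex w i := by
    intro i
    exact mul_nonneg (Real.rpow_nonneg hk0.le _) (Real.rpow_nonneg hu0.le _)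
  refine ⟨fun m i => k ^ ((i.2 : ℝ) / w) * u ^ ex w i * b i (m : ℕ), ?_, ?_⟩
  · intro m i
    have h1 : |k ^ ((i.2 : ℝ) / w) * u ^ ex w i * b i (m : ℕ)| ≤ K := by
      rw [abs_mul, abs_of_nonneg (hkn i), hK]
      exact mul_le_mul (hkb i) ((hb i m m.isLt).trans (hCpP i)) (abs_nonneg _) (by positivity)
    linarith
  · intro q hq i
    obtain ⟨hB, hN, hq1, hq2⟩ := hS q hq
    obtain ⟨ht1, ht2, _, _, _, _, hpt⟩ := hnorm A A' V V' κ δ q hA hA' hV hV' hκ hδ hδ2 hB hN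
    obtain ⟨t, ht⟩ : ∃ t : ℝ, t = tt A A' q := ⟨_, rfl⟩
    obtain ⟨s, hs⟩ : ∃ s : ℝ, s = ss V V' q := ⟨_, rfl⟩
    rw [← ht] at hq1 hq2 ht1 ht2
    have hpt' := hpt (i.2 : ℕ) (by have := i.2.isLt; omega)
    rw [← ht, ← hs, ← hk] at hpt'
    rw [← ht, ← hs]
    obtain ⟨τ, hτ⟩ : ∃ τ : ℝ, τ = (t - u) / u := ⟨_, rfl⟩
    rw [← hτ]
    have hτ0 : 0 ≤ τ := by
      rw [hτ]
      exact div_nonneg (by linarith) hu0.le
    have hτ1 : τ ≤ 1 := by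
      rw [hτ, div_le_one hu0]
      linarith
    have htu : t = u * (1 + τ) := by
      rw [hτ]
      field_simp
      ring
    have ht0 : 0 < t := by linarith
    -- the first difference
    have d1 : |t ^ (i.1 : ℕ) * s ^ (i.2 : ℕ) -
        k ^ ((i.2 : ℝ) / w) * t ^ ex w i| ≤ 32 ^ d * C1 * δ := by
      have h1 : k ^ ((i.2 : ℝ) / w) * t ^ ex w i =
          t ^ (i.1 : ℕ) * (k ^ ((i.2 : ℝ) / w) * t ^ (-(3 * (i.2 : ℝ) / w))) := by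
        rw [mo_pow ht0]
        rfl
      rw [h1, ← mul_sub, abs_mul, abs_of_nonneg (pow_nonneg ht0.le _), mul_assoc]
      refine mul_le_mul ?_ hpt' (abs_nonneg _) (by positivity)
      calc t ^ (i.1 : ℕ) ≤ 32 ^ (i.1 : ℕ) := pow_le_pow_left₀ ht0.le ht2 _
        _ ≤ 32 ^ d := pow_le_pow_right₀ (by norm_num) (by have := i.1.isLt; omega)
    -- the second difference
    have d2 : |k ^ ((i.2 : ℝ) / w) * t ^ ex w i -
        ∑ m : Fin n, k ^ ((i.2 : ℝ) / w) * u ^ ex w i * b i (m : ℕ) * τ ^ (m : ℕ)| ≤ K * τ ^ n := by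
      have h1 : ∑ m : Fin n, k ^ ((i.2 : ℝ) / w) * u ^ ex w i * b i (m : ℕ) * τ ^ (m : ℕ) =
          k ^ ((i.2 : ℝ) / w) * u ^ ex w i * ∑ m ∈ Finset.range n, b i m * τ ^ m := by
        rw [Fin.sum_univ_eq_sum_range
          (fun m => k ^ ((i.2 : ℝ) / w) * u ^ ex w i * b i m * τ ^ m) n, Finset.mul_sum]
        exact Finset.sum_congr rfl (fun m _ => by ring)
      have h2 : k ^ ((i.2 : ℝ) / w) * t ^ ex w i =
          k ^ ((i.2 : ℝ) / w) * u ^ ex w i * (1 + τ) ^ ex w i := by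
        rw [htu, Real.mul_rpow hu0.le (by linarith)]
        ring
      rw [h1, h2, ← mul_sub, abs_mul, abs_of_nonneg (hkn i)]
      calc k ^ ((i.2 : ℝ) / w) * u ^ ex w i *
            |(1 + τ) ^ ex w i - ∑ m ∈ Finset.range n, b i m * τ ^ m|
          ≤ (C1 ^ d * 32 ^ (4 * d)) * (P * τ ^ n) := by
            refine mul_le_mul (hkb i) ?_ (abs_nonneg _) (by positivity)
            exact (hrem i τ hτ0 hτ1).trans
              (mul_le_mul_of_nonneg_right (hCpP i) (pow_nonneg hτ0 n))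
        _ = K * τ ^ n := by
            rw [hK]
            ring
    have hτn : 0 ≤ τ ^ n := pow_nonneg hτ0 n
    calc |t ^ (i.1 : ℕ) * s ^ (i.2 : ℕ) -
          ∑ m : Fin n, k ^ ((i.2 : ℝ) / w) * u ^ ex w i * b i (m : ℕ) * τ ^ (m : ℕ)|
        ≤ |t ^ (i.1 : ℕ) * s ^ (i.2 : ℕ) - k ^ ((i.2 : ℝ) / w) * t ^ ex w i| +
          |k ^ ((i.2 : ℝ) / w) * t ^ ex w i -
            ∑ m : Fin n, k ^ ((i.2 : ℝ) / w) * u ^ ex w i * b i (m : ℕ) * τ ^ (m : ℕ)| :=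
          abs_sub_le _ _ _
      _ ≤ 32 ^ d * C1 * δ + K * τ ^ n := add_le_add d1 d2
      _ ≤ (K + 32 ^ d * C1 + 1) * (δ + τ ^ n) := by
          nlinarith [mul_nonneg hK0 hδ, mul_nonneg hE0 hτn]

end Pool.Agent.PWG
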