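import Pool.Agent.PWG.BadS
import Pool.Agent.PWG.PairAs2
import Pool.Agent.PWG.Triple2
import Pool.Agent.GL3.NearAs

set_option autoImplicit false

/-!
# PWG-NearAs2: the number of small gaps, `s >= T^(-(1/11 - η))` (job PWG-NearAs2, proof by helper88)

Adapted from `Pool/Agent/GL3/NearAs.lean` (`bad_le`, `pair_as`, `triple` are replaced by `bad_le2`, `pair_as2`,
`triple2`, and `1/20` by `1/11`).
-/

namespace Pool.Agent.PWG

open Finset Filter Topology Pool.Agent.GL3

private theorem bonf {ι β : Type} [DecidableEq ι] [DecidableEq β] (S : Finset ι)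
    (B : ι → Finset β) :
    ∑ x ∈ S, (B x).card ≤ (S.biUnion B).card +
      ∑ x ∈ S, ∑ y ∈ S, (if x = y then 0 else (B x ∩ B y).card) := by
  induction S using Finset.induction_on with
  | empty => simp
  | insert a S ha ih =>
    have h1 : (B a).card + (S.biUnion B).card ≤
        ((insert a S).biUnion B).card + ∑ y ∈ S, (B a ∩ B y).card := by
      have h2 := Finset.card_union_add_card_inter (B a) (S.biUnion B)
      have h3 : (B a ∩ S.biUnion B).card ≤ ∑ y ∈ S, (B a ∩ B y).card := by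
        rw [Finset.inter_biUnion]
        exact Finset.card_biUnion_le
      rw [Finset.biUnion_insert]
      omega
    have h4 : ∑ y ∈ S, (B a ∩ B y).card +
        ∑ x ∈ S, ∑ y ∈ S, (if x = y then 0 else (B x ∩ B y).card) ≤
        ∑ x ∈ insert a S, ∑ y ∈ insert a S, (if x = y then 0 else (B x ∩ B y).card) := by
      rw [Finset.sum_insert ha, Finset.sum_insert ha, if_pos rfl, zero_add]
      refine add_le_add ?_ ?_
      · refine Finset.sum_le_sum fun y hy => ?_
        rw [if_neg]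
        intro e
        rw [e] at ha
        exact ha hy
      · refine Finset.sum_le_sum fun x hx => ?_
        rw [Finset.sum_insert ha]
        exact Nat.le_add_left _ _
    rw [Finset.sum_insert ha]
    omega

private theorem unif {ι : Type} [DecidableEq ι] (S : Finset ι) (Q : ι → ℝ → ℝ → Prop)
    (h : ∀ x ∈ S, ∃ s0 T0 : ℝ, 0 < s0 ∧ s0 ≤ 1 ∧ 1 ≤ T0 ∧ ∀ T s : ℝ, T0 ≤ T → s ≤ s0 → Q x T s) :
    ∃ s0 T0 : ℝ, 0 < s0 ∧ s0 ≤ 1 ∧ 1 ≤ T0 ∧ ∀ T s : ℝ, T0 ≤ T → s ≤ s0 → ∀ x ∈ S, Q x T s := by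
  induction S using Finset.induction_on with
  | empty =>
      exact ⟨1, 1, one_pos, le_rfl, le_rfl, fun T s _ _ x hx => absurd hx (Finset.notMem_empty x)⟩
  | insert a S ha ih =>
      obtain ⟨s1, T1, h1, h2, h3, h4⟩ := h a (Finset.mem_insert_self a S)
      obtain ⟨s2, T2, h5, h6, h7, h8⟩ := ih fun x hx => h x (Finset.mem_insert_of_mem hx)
      refine ⟨min s1 s2, max T1 T2, lt_min h1 h5, (min_le_left _ _).trans h2,
        h3.trans (le_max_left _ _), ?_⟩
      intro T s hT hs x hx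
      rcases Finset.mem_insert.1 hx with rfl | hx
      · exact h4 T s ((le_max_left _ _).trans hT) (hs.trans (min_le_left _ _))
      · exact h8 T s ((le_max_right _ _).trans hT) (hs.trans (min_le_right _ _)) x hx

private theorem K_limit {ε : ℝ} (hε : 0 < ε) (F0 : Finset ℕ) (hF0 : ∀ w ∈ F0, CF w) :
    ∃ F : Finset ℕ, F0 ⊆ F ∧ (∀ w ∈ F, CF w) ∧
      |(∑ w ∈ F, ∑ w' ∈ F.erase w, α w * α w') - (γ ^ 2 - ∑' w, α w ^ 2)| ≤ ε := by
  classical
  have hs2 : Summable fun w => α w ^ 2 := by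
    refine Summable.of_nonneg_of_le (fun w => sq_nonneg _) (fun w => ?_) summable_alpha
    have h1 := alpha_nonneg w
    have h2 := alpha_le_one w
    nlinarith
  have h1 : Tendsto (fun F : Finset ℕ => (∑ w ∈ F, α w) ^ 2 - ∑ w ∈ F, α w ^ 2) atTop
      (𝓝 (γ ^ 2 - ∑' w, α w ^ 2)) := by
    have h2 : Tendsto (fun F : Finset ℕ => ∑ w ∈ F, α w) atTop (𝓝 γ) := summable_alpha.hasSum
    have h3 : Tendsto (fun F : Finset ℕ => ∑ w ∈ F, α w ^ 2) atTop (𝓝 (∑' w, α w ^ 2)) :=
      hs2.hasSum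
    exact (h2.pow 2).sub h3
  obtain ⟨F1, hF1⟩ := Metric.tendsto_atTop.1 h1 ε hε
  refine ⟨(F0 ∪ F1).filter CF, ?_, ?_, ?_⟩
  · intro w hw
    exact Finset.mem_filter.2 ⟨Finset.mem_union_left _ hw, hF0 w hw⟩
  · intro w hw
    exact (Finset.mem_filter.1 hw).2
  · have h2 := hF1 (F0 ∪ F1) Finset.subset_union_right
    rw [Real.dist_eq] at h2
    have h3 : ∀ f : ℕ → ℝ, (∀ w, ¬ CF w → f w = 0) →
        ∑ w ∈ (F0 ∪ F1).filter CF, f w = ∑ w ∈ F0 ∪ F1, f w := by
      intro f hf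
      rw [Finset.sum_filter]
      refine Finset.sum_congr rfl fun w _ => ?_
      by_cases hw : CF w
      · rw [if_pos hw]
      · rw [if_neg hw, hf w hw]
    have h4 : ∀ F : Finset ℕ, ∑ w ∈ F, ∑ w' ∈ F.erase w, α w * α w' =
        (∑ w ∈ F, α w) ^ 2 - ∑ w ∈ F, α w ^ 2 := by
      intro F
      rw [sq, Finset.sum_mul_sum, ← Finset.sum_sub_distrib]
      refine Finset.sum_congr rfl fun w hw => ?_
      rw [← Finset.add_sum_erase F (fun w' => α w * α w') hw]
      ring
    rw [h4, h3 α fun w hw => alpha_of_not hw, h3 (fun w => α w ^ 2) fun w hw => by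
      rw [alpha_of_not hw]; ring]
    exact h2.le

private theorem near_two (F : Finset ℕ) (hF : ∀ w ∈ F, CF w) {s T : ℝ} (hT : 0 ≤ T)
    (hs1 : s < 1) (U : ℕ → Finset ℕ)
    (hU : ∀ w j, j ∈ U w ↔ ∃ w' ∈ F.erase w, j ∈ NP w w' s T) :
    ∑ w ∈ F, (U w).card ≤ (Near s T).card ∧
      (Near s T).card ≤ ∑ w ∈ F, (U w).card + (Bad F s T).card := by
  classical
  constructor
  · rw [← Finset.card_sigma]
    refine Finset.card_le_card_of_injOn (fun x : (_ : ℕ) × ℕ => A x.1 * x.2 ^ 3) ?_ ?_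
    · intro x hx
      obtain ⟨hx1, hx2⟩ := Finset.mem_sigma.1 (Finset.mem_coe.1 hx)
      obtain ⟨w', hw', hj⟩ := (hU _ _).1 hx2
      have hw : CF x.1 := hF _ hx1
      have hw'c : CF w' := hF _ (Finset.mem_of_mem_erase hw')
      unfold NP at hj
      obtain ⟨hj1, i, hi1, hi2⟩ := Finset.mem_filter.1 hj
      obtain ⟨hj2, hj3⟩ := Finset.mem_Icc.1 hj1
      have hi0 : 0 < i := by
        rcases Nat.eq_zero_or_pos i with h | h
        · exfalso
          rw [h, Nat.cast_zero, zero_mul] at hi1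
          have h2 : 0 ≤ (x.2 : ℝ) * τ x.1 := mul_nonneg (Nat.cast_nonneg _) (tau_pos hw).le
          linarith
        · exact h
      refine Finset.mem_coe.2 (Finset.mem_filter.2 ⟨(mem_PT hT).2 ⟨P3_rep hw hj2, ?_⟩,
        A w' * i ^ 3, P3_rep hw'c hi0, ?_, ?_⟩)
      · rw [cr_rep]
        exact (floor_bound hw hT).1 hj3
      · rw [← cr_lt, cr_rep, cr_rep]
        exact hi1
      · rw [cr_rep, cr_rep]
        exact hi2
    · intro x hx y hy h
      obtain ⟨hx1, hx2⟩ := Finset.mem_sigma.1 (Finset.mem_coe.1 hx)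
      obtain ⟨hy1, hy2⟩ := Finset.mem_sigma.1 (Finset.mem_coe.1 hy)
      obtain ⟨w1, -, hj⟩ := (hU _ _).1 hx2
      obtain ⟨w2, -, hk⟩ := (hU _ _).1 hy2
      unfold NP at hj hk
      have hj2 := (Finset.mem_Icc.1 (Finset.mem_filter.1 hj).1).1
      have hk2 := (Finset.mem_Icc.1 (Finset.mem_filter.1 hk).1).1
      obtain ⟨e1, e2⟩ := rep_unique (hF _ hx1) (hF _ hy1) hj2 hk2 h
      obtain ⟨x1, x2⟩ := x
      obtain ⟨y1, y2⟩ := y
      simp only at e1 e2
      subst e1 e2
      rfl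
  · have h1 : Near s T ⊆ (F.sigma U).image (fun x : (_ : ℕ) × ℕ => A x.1 * x.2 ^ 3) ∪
        Bad F s T := by
      intro n hn
      unfold Near at hn
      obtain ⟨hnP, hex⟩ := Finset.mem_filter.1 hn
      obtain ⟨hn3, hnT⟩ := (mem_PT hT).1 hnP
      obtain ⟨m, hm1, hm2, hm3⟩ := hex
      have hex2 : ∃ m, P3 m ∧ n < m := ⟨m, hm1, hm2⟩
      obtain ⟨hm4, hm5⟩ := Nat.find_spec hex2
      have hm6 : ∀ m : ℕ, P3 m → n < m → Nat.find hex2 ≤ m := fun m h2 h3 =>
        Nat.find_min' hex2 ⟨h2, h3⟩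
      set m0 := Nat.find hex2 with hm0
      have hm7 : cr m0 ≤ cr n + s := (cr_le.2 (hm6 m hm1 hm2)).trans hm3
      obtain ⟨w, j, hw, hj, hnr⟩ := exists_rep hn3
      obtain ⟨w', j', hw', hj', hmr⟩ := exists_rep hm4
      by_cases hb : w ∈ F ∧ w' ∈ F
      · refine Finset.mem_union_left _ (Finset.mem_image.2 ⟨⟨w, j⟩, ?_, hnr.symm⟩)
        refine Finset.mem_sigma.2 ⟨hb.1, (hU w j).2 ⟨w', ?_, ?_⟩⟩
        · refine Finset.mem_erase.2 ⟨?_, hb.2⟩
          intro e
          rw [hmr, hnr, e, cr_rep, cr_rep] at hm7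
          have h2 : cr n < cr m0 := cr_lt.2 hm5
          rw [hmr, hnr, e, cr_rep, cr_rep] at h2
          have h3 : (j : ℝ) < j' := lt_of_mul_lt_mul_right h2 (tau_pos hw).le
          have h4 : (j : ℝ) + 1 ≤ j' := by
            have h5 : j < j' := by exact_mod_cast h3
            exact_mod_cast h5
          have h5 : ((j : ℝ) + 1) * τ w ≤ j' * τ w := mul_le_mul_of_nonneg_right h4 (tau_pos hw).le
          have h6 := one_le_tau hw
          linarith
        · unfold NP
          refine Finset.mem_filter.2 ⟨Finset.mem_Icc.2 ⟨hj, ?_⟩, j', ?_, ?_⟩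
          · rw [floor_bound hw hT, ← cr_rep, ← hnr]
            exact hnT
          · rw [← cr_rep, ← cr_rep, cr_lt, ← hnr, ← hmr]
            exact hm5
          · rw [← cr_rep, ← cr_rep, ← hnr, ← hmr]
            exact hm7
      · refine Finset.mem_union_right _ ?_
        unfold Bad
        refine Finset.mem_filter.2 ⟨hnP, w, j, w', j', hw, hw', hj, hj', hnr, ?_, ?_, ?_, ?_⟩
        · rw [← hmr]
          exact hm5
        · rw [← hmr]
          exact hm6
        · rw [← hmr]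
          exact hm7
        · rw [← not_and_or]
          exact hb
    refine (Finset.card_le_card h1).trans ((Finset.card_union_le _ _).trans ?_)
    refine Nat.add_le_add_right ?_ _
    rw [← Finset.card_sigma]
    exact Finset.card_image_le

theorem near_as2 {ε η : ℝ} (hε : 0 < ε) (hη0 : 0 < η) (hη : η < 1 / 11) :
    ∃ s0 T0 : ℝ, 0 < s0 ∧ s0 < 1 ∧ 1 ≤ T0 ∧ ∀ T s : ℝ, T0 ≤ T →
      T ^ (-((1 : ℝ) / 11 - η)) ≤ s → s ≤ s0 →
      |((Near s T).card : ℝ) - (γ ^ 2 - ∑' w, α w ^ 2) * s * T| ≤ ε * s * T := by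
  classical
  have hε8 : 0 < ε / 8 := by linarith
  obtain ⟨F0, Tb, hTb, hF0, hbad⟩ := bad_le2 hε8 hη0 hη
  obtain ⟨F, hF0F, hF, hK⟩ := K_limit hε8 F0 hF0
  set N : ℝ := (F.card : ℝ) + 1 with hN
  have hN1 : 1 ≤ N := by
    have h1 : (0 : ℝ) ≤ F.card := Nat.cast_nonneg _
    linarith
  have hN0 : 0 < N := by linarith
  set e2 : ℝ := ε / (8 * N ^ 2) with he2
  set e3 : ℝ := ε / (8 * N ^ 3) with he3
  have he2p : 0 < e2 := by positivity
  have he3p : 0 < e3 := by positivity
  obtain ⟨s2, T2, hs2, hs2', hT2, hpair⟩ := unif (F ×ˢ F) (fun x T s =>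
    x.1 ≠ x.2 → T ^ (-((1 : ℝ) / 11)) ≤ s →
      |((NP x.1 x.2 s T).card : ℝ) - α x.1 * α x.2 * s * T| ≤ e2 * s * T) (by
    intro x hx
    obtain ⟨h1, h2⟩ := Finset.mem_product.1 hx
    by_cases hne : x.1 = x.2
    · exact ⟨1, 1, one_pos, le_rfl, le_rfl, fun T s _ _ h => absurd hne h⟩
    · obtain ⟨T0, hT0, h3⟩ := pair_as2 (hF _ h1) (hF _ h2) hne he2p
      exact ⟨1, T0, one_pos, le_rfl, hT0, fun T s hT hs _ hTs => h3 T s hT hTs hs⟩)
  obtain ⟨s3, T3, hs3, hs3', hT3, htrip⟩ := unif (F ×ˢ F ×ˢ F) (fun x T s =>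
    x.1 ≠ x.2.1 → x.1 ≠ x.2.2 → x.2.1 ≠ x.2.2 → T ^ (-((1 : ℝ) / 11)) ≤ s →
      ((TR x.1 x.2.1 x.2.2 s T).card : ℝ) ≤ e3 * s * T) (by
    intro x hx
    obtain ⟨h1, h2⟩ := Finset.mem_product.1 hx
    obtain ⟨h3, h4⟩ := Finset.mem_product.1 h2
    by_cases hne : x.1 ≠ x.2.1 ∧ x.1 ≠ x.2.2 ∧ x.2.1 ≠ x.2.2
    · obtain ⟨s0, T0, hs0, hs0', hT0, h5⟩ := triple2 (hF _ h1) (hF _ h3) (hF _ h4) hne.1 hne.2.1
        hne.2.2 he3p
      exact ⟨s0, T0, hs0, hs0', hT0, fun T s hT hs _ _ _ hTs => h5 T s hT hTs hs⟩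
    · exact ⟨1, 1, one_pos, le_rfl, le_rfl, fun T s _ _ g1 g2 g3 => absurd ⟨g1, g2, g3⟩ hne⟩)
  refine ⟨min (1 / 2) (min s2 s3), max Tb (max T2 T3), lt_min (by norm_num) (lt_min hs2 hs3),
    lt_of_le_of_lt (min_le_left _ _) (by norm_num), hTb.trans (le_max_left _ _), ?_⟩
  intro T s hT hTs hs
  have hTb' : Tb ≤ T := (le_max_left _ _).trans hT
  have hT2' : T2 ≤ T := ((le_max_left _ _).trans (le_max_right _ _)).trans hT
  have hT3' : T3 ≤ T := ((le_max_right _ _).trans (le_max_right _ _)).trans hT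
  have hsh : s ≤ 1 / 2 := hs.trans (min_le_left _ _)
  have hss2 : s ≤ s2 := hs.trans ((min_le_right _ _).trans (min_le_left _ _))
  have hss3 : s ≤ s3 := hs.trans ((min_le_right _ _).trans (min_le_right _ _))
  have hT1 : 1 ≤ T := hTb.trans hTb'
  have hT0 : 0 < T := by linarith
  have hTs' : T ^ (-((1 : ℝ) / 11)) ≤ s := by
    refine le_trans (Real.rpow_le_rpow_of_exponent_le hT1 ?_) hTs
    linarith
  have hs0 : 0 < s := lt_of_lt_of_le (Real.rpow_pos_of_pos hT0 _) hTs'
  have hsT : 0 ≤ s * T := by positivity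
  set U : ℕ → Finset ℕ := fun w => (F.erase w).biUnion fun w' => NP w w' s T with hU
  obtain ⟨hlow, hup⟩ := near_two F hF hT0.le (by linarith : s < 1) U (by
    intro w j
    rw [hU]
    exact Finset.mem_biUnion)
  have hB := hbad F hF0F T s hTb' hTs (by linarith)
  -- the sum of the pairs
  have hsum : |(∑ w ∈ F, ∑ w' ∈ F.erase w, ((NP w w' s T).card : ℝ)) -
      (∑ w ∈ F, ∑ w' ∈ F.erase w, α w * α w') * (s * T)| ≤ ε / 8 * (s * T) := by
    rw [Finset.sum_mul, ← Finset.sum_sub_distrib]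
    refine (Finset.abs_sum_le_sum_abs _ _).trans ?_
    have h1 : ∀ w ∈ F, |(∑ w' ∈ F.erase w, ((NP w w' s T).card : ℝ)) -
        (∑ w' ∈ F.erase w, α w * α w') * (s * T)| ≤ N * (e2 * (s * T)) := by
      intro w hw
      rw [Finset.sum_mul, ← Finset.sum_sub_distrib]
      refine (Finset.abs_sum_le_sum_abs _ _).trans ?_
      have h2 : ∀ w' ∈ F.erase w, |((NP w w' s T).card : ℝ) - α w * α w' * (s * T)| ≤
          e2 * (s * T) := by
        intro w' hw'
        have h3 := hpair T s hT2' hss2 (w, w') (Finset.mem_product.2 ⟨hw,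
          Finset.mem_of_mem_erase hw'⟩) (Ne.symm (Finset.ne_of_mem_erase hw')) hTs'
        simp only at h3
        rw [← mul_assoc, ← mul_assoc]
        exact h3
      refine (Finset.sum_le_sum h2).trans ?_
      rw [Finset.sum_const, nsmul_eq_mul]
      refine mul_le_mul_of_nonneg_right ?_ (by positivity)
      have h4 : (F.erase w).card ≤ F.card := Finset.card_le_card (Finset.erase_subset _ _)
      have h5 : ((F.erase w).card : ℝ) ≤ F.card := by exact_mod_cast h4
      linarith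
    refine (Finset.sum_le_sum h1).trans ?_
    rw [Finset.sum_const, nsmul_eq_mul]
    have h6 : (F.card : ℝ) ≤ N := by linarith
    calc (F.card : ℝ) * (N * (e2 * (s * T))) ≤ N * (N * (e2 * (s * T))) :=
          mul_le_mul_of_nonneg_right h6 (by positivity)
      _ = ε / 8 * (s * T) := by
          rw [he2]
          field_simp
  -- upper bound for the union
  have hVup : (∑ w ∈ F, ((U w).card : ℝ)) ≤
      ∑ w ∈ F, ∑ w' ∈ F.erase w, ((NP w w' s T).card : ℝ) := by
    refine Finset.sum_le_sum fun w _ => ?_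
    have h1 : (U w).card ≤ ∑ w' ∈ F.erase w, (NP w w' s T).card := Finset.card_biUnion_le
    exact_mod_cast h1
  -- lower bound for the union
  have hVlow : (∑ w ∈ F, ∑ w' ∈ F.erase w, ((NP w w' s T).card : ℝ)) ≤
      (∑ w ∈ F, ((U w).card : ℝ)) + ε / 8 * (s * T) := by
    have h1 : ∀ w ∈ F, (∑ w' ∈ F.erase w, ((NP w w' s T).card : ℝ)) ≤
        ((U w).card : ℝ) + N * (N * (e3 * (s * T))) := by
      intro w hw
      have h2 := bonf (F.erase w) (fun w' => NP w w' s T)
      have h3 : (∑ w' ∈ F.erase w, ((NP w w' s T).card : ℝ)) ≤ ((U w).card : ℝ) +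
          ∑ x ∈ F.erase w, ∑ y ∈ F.erase w,
            ((if x = y then 0 else (NP w x s T ∩ NP w y s T).card : ℕ) : ℝ) := by
        exact_mod_cast h2
      refine h3.trans (add_le_add le_rfl ?_)
      have h4 : ∀ x ∈ F.erase w, ∀ y ∈ F.erase w,
          ((if x = y then 0 else (NP w x s T ∩ NP w y s T).card : ℕ) : ℝ) ≤ e3 * (s * T) := by
        intro x hx y hy
        by_cases hxy : x = y
        · rw [if_pos hxy, Nat.cast_zero]
          positivity
        · rw [if_neg hxy]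
          have h5 := htrip T s hT3' hss3 (w, x, y) (Finset.mem_product.2 ⟨hw,
            Finset.mem_product.2 ⟨Finset.mem_of_mem_erase hx, Finset.mem_of_mem_erase hy⟩⟩)
            (Ne.symm (Finset.ne_of_mem_erase hx)) (Ne.symm (Finset.ne_of_mem_erase hy)) hxy hTs'
          simp only at h5
          have h6 : (NP w x s T ∩ NP w y s T).card ≤ (TR w x y s T).card := by
            refine Finset.card_le_card fun j hj => ?_
            obtain ⟨hj1, hj2⟩ := Finset.mem_inter.1 hj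
            unfold NP at hj1 hj2
            obtain ⟨hj3, i, hi1, hi2⟩ := Finset.mem_filter.1 hj1
            obtain ⟨-, l, hl1, hl2⟩ := Finset.mem_filter.1 hj2
            unfold TR
            refine Finset.mem_filter.2 ⟨hj3, ⟨i, ?_⟩, l, ?_⟩
            · rw [abs_le]
              constructor <;> linarith
            · rw [abs_le]
              constructor <;> linarith
          have h7 : ((NP w x s T ∩ NP w y s T).card : ℝ) ≤ ((TR w x y s T).card : ℝ) := by
            exact_mod_cast h6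
          rw [← mul_assoc]
          exact h7.trans h5
      have h5 : (F.erase w).card ≤ F.card := Finset.card_le_card (Finset.erase_subset _ _)
      have h6 : ((F.erase w).card : ℝ) ≤ N := by
        have h7 : ((F.erase w).card : ℝ) ≤ F.card := by exact_mod_cast h5
        linarith
      calc ∑ x ∈ F.erase w, ∑ y ∈ F.erase w,
            ((if x = y then 0 else (NP w x s T ∩ NP w y s T).card : ℕ) : ℝ)
          ≤ ∑ _x ∈ F.erase w, ∑ _y ∈ F.erase w, e3 * (s * T) :=
            Finset.sum_le_sum fun x hx => Finset.sum_le_sum fun y hy => h4 x hx y hy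
        _ = ((F.erase w).card : ℝ) * (((F.erase w).card : ℝ) * (e3 * (s * T))) := by
            rw [Finset.sum_const, Finset.sum_const, nsmul_eq_mul, nsmul_eq_mul]
        _ ≤ N * (N * (e3 * (s * T))) := by
            refine mul_le_mul h6 ?_ (by positivity) hN0.le
            exact mul_le_mul_of_nonneg_right h6 (by positivity)
    refine (Finset.sum_le_sum h1).trans ?_
    rw [Finset.sum_add_distrib, Finset.sum_const, nsmul_eq_mul]
    refine add_le_add le_rfl ?_
    have h6 : (F.card : ℝ) ≤ N := by linarith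
    calc (F.card : ℝ) * (N * (N * (e3 * (s * T)))) ≤ N * (N * (N * (e3 * (s * T)))) :=
          mul_le_mul_of_nonneg_right h6 (by positivity)
      _ = ε / 8 * (s * T) := by
          rw [he3]
          field_simp
  have hlow' : (∑ w ∈ F, ((U w).card : ℝ)) ≤ ((Near s T).card : ℝ) := by exact_mod_cast hlow
  have hup' : ((Near s T).card : ℝ) ≤ (∑ w ∈ F, ((U w).card : ℝ)) + ((Bad F s T).card : ℝ) := by
    exact_mod_cast hup
  have hK' : |(∑ w ∈ F, ∑ w' ∈ F.erase w, α w * α w') * (s * T) -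
      (γ ^ 2 - ∑' w, α w ^ 2) * (s * T)| ≤ ε / 8 * (s * T) := by
    rw [← sub_mul, abs_mul, abs_of_nonneg hsT]
    exact mul_le_mul_of_nonneg_right hK hsT
  obtain ⟨g1, g2⟩ := abs_le.1 hsum
  obtain ⟨g3, g4⟩ := abs_le.1 hK'
  have hB' : ((Bad F s T).card : ℝ) ≤ ε / 8 * (s * T) := by
    rw [← mul_assoc]
    exact hB
  have hεsT : 0 ≤ ε * (s * T) := by positivity
  rw [mul_assoc, mul_assoc, abs_le]
  constructor <;> linarith

end Pool.Agent.PWG
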