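import Pool.Agent.PWG.Cen
import Pool.Agent.PWG.Dir

set_option autoImplicit false

/-!
# PWG-One: the count with bilinear forms (job PWG-One)

Plan. `cen w 1` (`ex_inj`, `(1+1)^2 - 1 = 3`) gives `c, K, N`, `dir w` gives `C1`. `R = A A' (V V')`. A window of length
`2σ` contains at most `(1 + 2 σ (A A')) (1 + C1 δ (V V')) <= B := 2 C1 (1 + 2 σ (A A'))...` points, as
`δ (V V') <= δ R <= c <= 1`. A window of length `l` contains at most `N B` points: `cen` for the part of `S` in the window,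
then `centers` (with `r q = tt A A' q`). A window of length `L`: `cover`.
-/

namespace Pool.Agent.PWG

open Classical in
theorem one (w : ℕ) (hw : w = 4 ∨ w = 5) : ∃ (c K C : ℝ), 0 < c ∧ c ≤ 1 / 2 ∧ 0 < K ∧ 0 < C ∧
    ∀ (A A' V V' κ δ l σ u L : ℝ) (S : Finset Q4), 1 ≤ A → 1 ≤ A' → 1 ≤ V → 1 ≤ V' → 0 < κ →
      0 ≤ δ → δ * (A * A' * (V * V')) ≤ c → 0 < l → l ^ 3 * (A * A' * (V * V')) ≤ c →
      0 < σ → σ ≤ 1 → K * δ ≤ σ ^ 3 → 0 ≤ L →
      (∀ q ∈ S, Blk A A' V V' q ∧ Nr w κ δ q) →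
      ((S.filter (fun q => u ≤ tt A A' q ∧ tt A A' q ≤ u + L)).card : ℝ) ≤
        C * (1 + L / l) * (1 + σ * (A * A')) := by
  have hw1 : 1 ≤ w := by omega
  obtain ⟨c, K, N, hc, hc2, hK, hcen⟩ := cen w 1 hw1 le_rfl (ex_inj w 1 hw (by norm_num))
  obtain ⟨C1, hC1, hdir⟩ := dir w hw1
  refine ⟨c, K, 2 * (1 + C1) * (N + 1), hc, hc2, hK, by positivity, ?_⟩
  intro A A' V V' κ δ l σ u L S hA hA' hV hV' hκ hδ hδR hl hlR hσ hσ1 hKσ hL hS
  have hAA : 1 ≤ A * A' := one_le_mul_of_one_le_of_one_le hA hA'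
  have hVV : 1 ≤ V * V' := one_le_mul_of_one_le_of_one_le hV hV'
  have hR1 : V * V' ≤ A * A' * (V * V') := by nlinarith
  have hR2 : 1 ≤ A * A' * (V * V') := hVV.trans hR1
  have hδV : δ * (V * V') ≤ 1 / 2 := (mul_le_mul_of_nonneg_left hR1 hδ).trans (hδR.trans hc2)
  have hδ2 : δ ≤ 1 / 2 := by nlinarith
  set B : ℝ := 2 * (1 + C1) * (1 + σ * (A * A')) with hB
  have hB0 : 0 ≤ B := by positivity
  have hsmall : ∀ (T : Finset Q4), T ⊆ S → ∀ v : ℝ,
      ((T.filter (fun x => v ≤ tt A A' x ∧ tt A A' x ≤ v + 2 * σ)).card : ℝ) ≤ B := by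
    intro T hT v
    have h1 := hdir A A' V V' κ δ v (2 * σ)
      (T.filter (fun x => v ≤ tt A A' x ∧ tt A A' x ≤ v + 2 * σ)) hA hA' hV hV' hκ hδ hδ2
      (by linarith) ?_
    · refine h1.trans ?_
      have h2 : 1 + C1 * δ * (V * V') ≤ 1 + C1 := by nlinarith
      have h3 : 1 + 2 * σ * (A * A') ≤ 2 * (1 + σ * (A * A')) := by linarith
      calc (1 + 2 * σ * (A * A')) * (1 + C1 * δ * (V * V'))
          ≤ (2 * (1 + σ * (A * A'))) * (1 + C1) := by
            apply mul_le_mul h3 h2 (by positivity) (by positivity)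
        _ = B := by rw [hB]; ring
    · intro q hq
      obtain ⟨hqT, hq1, hq2⟩ := Finset.mem_filter.mp hq
      obtain ⟨hb, hn⟩ := hS q (hT hqT)
      exact ⟨hb, hn, hq1, hq2⟩
  have hmid : ∀ v : ℝ, ((S.filter (fun x => v ≤ tt A A' x ∧ tt A A' x ≤ v + l)).card : ℝ) ≤
      N * B := by
    intro v
    obtain ⟨r, t, hr, ht⟩ := hcen A A' V V' κ δ l v σ
      (S.filter (fun x => v ≤ tt A A' x ∧ tt A A' x ≤ v + l)) hA hA' hV hV' hκ hδ
      (by rw [pow_one]; exact hδR) hl.le (by rw [pow_one]; exact hlR) hσ hσ1 hKσ (by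
        intro q hq
        obtain ⟨hqT, hq1, hq2⟩ := Finset.mem_filter.mp hq
        obtain ⟨hb, hn⟩ := hS q hqT
        exact ⟨hb, hn, hq1, hq2⟩)
    exact centers _ (fun q => tt A A' q) σ B r N t hr hB0 ht
      (fun v' => hsmall _ (Finset.filter_subset _ _) v')
  have hfin := cover S (fun q => tt A A' q) l (N * B) hl (by positivity) hmid u L hL
  refine hfin.trans ?_
  have hLl : 0 ≤ 1 + L / l := by positivity
  have h4 : (N : ℝ) * B ≤ 2 * (1 + C1) * (N + 1) * (1 + σ * (A * A')) := by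
    rw [hB]
    have h5 : 0 ≤ 2 * (1 + C1) * (1 + σ * (A * A')) := by positivity
    nlinarith
  calc (1 + L / l) * (N * B) ≤ (1 + L / l) * (2 * (1 + C1) * (N + 1) * (1 + σ * (A * A'))) :=
        mul_le_mul_of_nonneg_left h4 hLl
    _ = 2 * (1 + C1) * (N + 1) * (1 + L / l) * (1 + σ * (A * A')) := by ring

end Pool.Agent.PWG
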