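import Pool.Agent.PWG.BL
import Pool.Agent.PWG.Raw

set_option autoImplicit false

/-!
# PWG-PBl: pairs with fixed common factors, sum over the blocks (job PWG-PBl)

Plan. `δ = h / T^3`, `N = N3 g`, `y = T^3 / N`. Let `Q = P.image rd`; `#Q = #P` and both projections are injective on `Q`
(`rd_inj`). For `q = rd p ∈ Q`: `N3 q.1, N3 q.2 ∈ [y, 27 y]`, `Red q`, `Cl δ q` (`|n - n'| <= h <= δ n'`), and
`δ y = h / N >= 1` if `P` is nonempty, because `N3 q.1 ≠ N3 q.2` are integers with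
`|N3 q.1 - N3 q.2| = |n - n'| / N <= h / N`.
Blocks: `q ↦ (clog 2 b, clog 2 c, clog 2 b', clog 2 c')` (entries of the reduced pair), with at most
`(Nat.clog 2 ⌊27 T^3⌋₊ + 1)^4 <= (C (1 + log T))^4` values (all entries are `<= 27 T^3`). For a nonempty block put
`B = 2^i, ...` (`B / 2 <= b <= B`: `Nat.pow_pred_clog_lt_self`, `Nat.le_pow_clog`) and
`A = 24 (y / (B^4 C^5))^(1/3)`, `A' = 24 (y / (B'^4 C'^5))^(1/3)`: from `y <= a^3 b^4 c^5 <= 27 y` and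
`B^4 C^5 / 2^9 <= b^4 c^5 <= B^4 C^5` we get `A / 24 <= a <= A`, so `1 <= A`. `δ A A' <= 1`: `A A' <= XX T p` since
`B >= b` etc. and `y^2 / (b^4 c^5 b'^4 c'^5)` of the reduced entries is `(T^2/(g1^2 wt wt'))^3` (`rd_mul`).
`(A A')^3 (B B')^4 (C C')^5 = 24^6 y^2`, so the last hypothesis of `bl` is `1 <= 24^6 (δ y)^2`, and the bound of `bl` is
`K (24^6 y^2)^(1/6) δ^(1/12) = 24 K y^(1/3) δ^(1/12)`, `y^(1/3) = T N^(-1/3)`.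
-/

namespace Pool.Agent.PWG

private theorem clog_blk {b : ℕ} (hb : 0 < b) :
    (2 : ℝ) ^ Nat.clog 2 b / 2 ≤ b ∧ (b : ℝ) ≤ 2 ^ Nat.clog 2 b := by
  constructor
  · rcases Nat.lt_or_ge 1 b with h | h
    · have h1 := Nat.pow_pred_clog_lt_self (b := 2) (by norm_num) h
      have h2 : 0 < Nat.clog 2 b := Nat.clog_pos (by norm_num) h
      obtain ⟨n, hn⟩ : ∃ n, Nat.clog 2 b = n + 1 := ⟨Nat.clog 2 b - 1, by omega⟩
      rw [hn] at h1 ⊢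
      rw [Nat.pred_succ] at h1
      have h3 : ((2 ^ n : ℕ) : ℝ) ≤ b := by exact_mod_cast h1.le
      push_cast at h3
      rw [pow_succ]
      linarith
    · have h1 : b = 1 := by omega
      subst h1
      norm_num
  · have h1 := Nat.le_pow_clog (b := 2) (by norm_num) b
    exact_mod_cast h1

private theorem blk_of {y u B C : ℝ} {t : ℕ × ℕ × ℕ} (ht : Pos3 t) (hu : 0 < u) (hB : 0 < B)
    (hC : 0 < C) (huy : u ^ 3 * (B ^ 4 * C ^ 5) = y) (hy1 : y ≤ N3 t) (hy2 : (N3 t : ℝ) ≤ 27 * y)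
    (b0 : B / 2 ≤ t.2.1) (b1 : (t.2.1 : ℝ) ≤ B) (c0 : C / 2 ≤ t.2.2) (c1 : (t.2.2 : ℝ) ≤ C) :
    Blk3 (24 * u) B C t := by
  obtain ⟨ha, hb, hc⟩ := ht
  have ha' : (0 : ℝ) < t.1 := by exact_mod_cast ha
  have hb' : (0 : ℝ) < t.2.1 := by exact_mod_cast hb
  have hc' : (0 : ℝ) < t.2.2 := by exact_mod_cast hc
  have hN : (N3 t : ℝ) = (t.1 : ℝ) ^ 3 * ((t.2.1 : ℝ) ^ 4 * (t.2.2 : ℝ) ^ 5) := by
    rw [N3]
    push_cast
    ring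
  have hD : (0 : ℝ) < (t.2.1 : ℝ) ^ 4 * (t.2.2 : ℝ) ^ 5 := by positivity
  have hD2 : (t.2.1 : ℝ) ^ 4 * (t.2.2 : ℝ) ^ 5 ≤ B ^ 4 * C ^ 5 :=
    mul_le_mul (pow_le_pow_left₀ hb'.le b1 4) (pow_le_pow_left₀ hc'.le c1 5) (by positivity)
      (by positivity)
  have hD3 : B ^ 4 * C ^ 5 ≤ 512 * ((t.2.1 : ℝ) ^ 4 * (t.2.2 : ℝ) ^ 5) := by
    have h1 : B ^ 4 ≤ (2 * (t.2.1 : ℝ)) ^ 4 := pow_le_pow_left₀ hB.le (by linarith) 4
    have h2 : C ^ 5 ≤ (2 * (t.2.2 : ℝ)) ^ 5 := pow_le_pow_left₀ hC.le (by linarith) 5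
    calc B ^ 4 * C ^ 5 ≤ (2 * (t.2.1 : ℝ)) ^ 4 * (2 * (t.2.2 : ℝ)) ^ 5 :=
          mul_le_mul h1 h2 (by positivity) (by positivity)
      _ = 512 * ((t.2.1 : ℝ) ^ 4 * (t.2.2 : ℝ) ^ 5) := by ring
  have hup : (0 : ℝ) < u ^ 3 := by positivity
  refine ⟨?_, ?_, b0, b1, c0, c1⟩
  · have h1 : u ≤ t.1 := by
      refine (pow_le_pow_iff_left₀ hu.le ha'.le (by norm_num : (3 : ℕ) ≠ 0)).1 ?_
      have h2 : u ^ 3 * (B ^ 4 * C ^ 5) ≤ (t.1 : ℝ) ^ 3 * (B ^ 4 * C ^ 5) := by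
        rw [huy]
        refine hy1.trans ?_
        rw [hN]
        exact mul_le_mul_of_nonneg_left hD2 (by positivity)
      exact le_of_mul_le_mul_right h2 (by positivity)
    linarith
  · refine (pow_le_pow_iff_left₀ ha'.le (by positivity) (by norm_num : (3 : ℕ) ≠ 0)).1 ?_
    have h2 : (t.1 : ℝ) ^ 3 * ((t.2.1 : ℝ) ^ 4 * (t.2.2 : ℝ) ^ 5) ≤
        (24 * u) ^ 3 * ((t.2.1 : ℝ) ^ 4 * (t.2.2 : ℝ) ^ 5) := by
      rw [← hN]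
      refine hy2.trans ?_
      rw [← huy]
      have h3 := mul_le_mul_of_nonneg_left hD3 hup.le
      calc 27 * (u ^ 3 * (B ^ 4 * C ^ 5)) ≤
            27 * (u ^ 3 * (512 * ((t.2.1 : ℝ) ^ 4 * (t.2.2 : ℝ) ^ 5))) := by linarith
        _ = (24 * u) ^ 3 * ((t.2.1 : ℝ) ^ 4 * (t.2.2 : ℝ) ^ 5) := by ring
    exact le_of_mul_le_mul_right h2 hD

private theorem cube_root {x : ℝ} (hx : 0 < x) : ∃ u : ℝ, 0 < u ∧ u ^ 3 = x := by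
  refine ⟨x ^ ((1 : ℝ) / 3), Real.rpow_pos_of_pos hx _, ?_⟩
  rw [← Real.rpow_natCast, ← Real.rpow_mul hx.le]
  norm_num

private theorem rp_calc {a b c y : ℝ} (ha : 0 < a) (hb : 0 < b) (hc : 0 < c) (hy : 0 < y)
    (h : a ^ 3 * b ^ 4 * c ^ 5 = 24 ^ 6 * y ^ 2) :
    a ^ ((1 : ℝ) / 2) * b ^ ((2 : ℝ) / 3) * c ^ ((5 : ℝ) / 6) = 24 * y ^ ((1 : ℝ) / 3) := by
  have e1 : a ^ ((1 : ℝ) / 2) = (a ^ 3) ^ ((1 : ℝ) / 6) := by
    rw [← Real.rpow_natCast, ← Real.rpow_mul ha.le]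
    norm_num
  have e2 : b ^ ((2 : ℝ) / 3) = (b ^ 4) ^ ((1 : ℝ) / 6) := by
    rw [← Real.rpow_natCast, ← Real.rpow_mul hb.le]
    norm_num
  have e3 : c ^ ((5 : ℝ) / 6) = (c ^ 5) ^ ((1 : ℝ) / 6) := by
    rw [← Real.rpow_natCast, ← Real.rpow_mul hc.le]
    norm_num
  have e4 : y ^ ((1 : ℝ) / 3) = (y ^ 2) ^ ((1 : ℝ) / 6) := by
    rw [← Real.rpow_natCast, ← Real.rpow_mul hy.le]
    norm_num
  have e5 : (24 : ℝ) = ((24 : ℝ) ^ 6) ^ ((1 : ℝ) / 6) := by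
    rw [← Real.rpow_natCast, ← Real.rpow_mul (by norm_num)]
    norm_num
  rw [e1, e2, e3, e4, ← Real.mul_rpow (by positivity) (by positivity),
    ← Real.mul_rpow (by positivity) (by positivity), h,
    Real.mul_rpow (by positivity) (by positivity), ← e5]

private theorem pbl_block : ∃ K : ℝ, 1 ≤ K ∧ ∀ (y δ : ℝ) (S : Finset T6) (i j i' j' : ℕ), 0 < y →
    0 < δ → 1 ≤ δ * y →
    (∀ q ∈ S, Pos3 q.1 ∧ Pos3 q.2 ∧ Red q ∧ Cl δ q) →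
    (∀ q ∈ S, y ≤ N3 q.1 ∧ (N3 q.1 : ℝ) ≤ 27 * y ∧ y ≤ N3 q.2 ∧ (N3 q.2 : ℝ) ≤ 27 * y) →
    (∀ q ∈ S, Nat.clog 2 q.1.2.1 = i ∧ Nat.clog 2 q.1.2.2 = j ∧ Nat.clog 2 q.2.2.1 = i' ∧
      Nat.clog 2 q.2.2.2 = j') →
    (∀ q ∈ S, ∃ X : ℝ, 0 ≤ X ∧ δ * X ≤ 1 ∧ 24 ^ 6 * y ^ 2 ≤ X ^ 3 *
      (((q.1.2.1 : ℝ) ^ 4 * (q.1.2.2 : ℝ) ^ 5) * ((q.2.2.1 : ℝ) ^ 4 * (q.2.2.2 : ℝ) ^ 5))) →
    Set.InjOn (fun p : T6 => p.1) S → Set.InjOn (fun p : T6 => p.2) S →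
    (S.card : ℝ) ≤ K * (y ^ ((1 : ℝ) / 3) * δ ^ ((1 : ℝ) / 12)) := by
  obtain ⟨K, hK1, hK⟩ := bl
  refine ⟨24 * K, by linarith, ?_⟩
  intro y δ S i j i' j' hy hδ hδy h1 h2 h3 h4 inj1 inj2
  rcases S.eq_empty_or_nonempty with he | ⟨q, hq⟩
  · rw [he, Finset.card_empty, Nat.cast_zero]
    positivity
  obtain ⟨B, hB⟩ : ∃ B : ℝ, B = 2 ^ i := ⟨_, rfl⟩
  obtain ⟨C, hC⟩ : ∃ C : ℝ, C = 2 ^ j := ⟨_, rfl⟩
  obtain ⟨B', hB'⟩ : ∃ B : ℝ, B = 2 ^ i' := ⟨_, rfl⟩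
  obtain ⟨C', hC'⟩ : ∃ C : ℝ, C = 2 ^ j' := ⟨_, rfl⟩
  have B1 : 1 ≤ B := by rw [hB]; exact one_le_pow₀ (by norm_num)
  have C1 : 1 ≤ C := by rw [hC]; exact one_le_pow₀ (by norm_num)
  have B1' : 1 ≤ B' := by rw [hB']; exact one_le_pow₀ (by norm_num)
  have C1' : 1 ≤ C' := by rw [hC']; exact one_le_pow₀ (by norm_num)
  have B0 : 0 < B := by linarith
  have C0 : 0 < C := by linarith
  have B0' : 0 < B' := by linarith
  have C0' : 0 < C' := by linarith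
  obtain ⟨u, hu0, hu⟩ := cube_root (x := y / (B ^ 4 * C ^ 5)) (by positivity)
  obtain ⟨u', hu0', hu'⟩ := cube_root (x := y / (B' ^ 4 * C' ^ 5)) (by positivity)
  have huy : u ^ 3 * (B ^ 4 * C ^ 5) = y := by
    rw [hu]
    field_simp
  have huy' : u' ^ 3 * (B' ^ 4 * C' ^ 5) = y := by
    rw [hu']
    field_simp
  have hblk : ∀ p ∈ S, Pos3 p.1 ∧ Pos3 p.2 ∧ Blk3 (24 * u) B C p.1 ∧ Blk3 (24 * u') B' C' p.2 ∧
      Red p ∧ Cl δ p := by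
    intro p hp
    obtain ⟨p1, p2, p3, p4⟩ := h1 p hp
    obtain ⟨n1, n2, n3, n4⟩ := h2 p hp
    obtain ⟨c1, c2, c3, c4⟩ := h3 p hp
    have b1 := clog_blk p1.2.1
    have b2 := clog_blk p1.2.2
    have b3 := clog_blk p2.2.1
    have b4 := clog_blk p2.2.2
    rw [c1, ← hB] at b1
    rw [c2, ← hC] at b2
    rw [c3, ← hB'] at b3
    rw [c4, ← hC'] at b4
    exact ⟨p1, p2, blk_of p1 hu0 B0 C0 huy n1 n2 b1.1 b1.2 b2.1 b2.2,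
      blk_of p2 hu0' B0' C0' huy' n3 n4 b3.1 b3.2 b4.1 b4.2, p3, p4⟩
  obtain ⟨q1, q2, k1, k2, -, -⟩ := hblk q hq
  obtain ⟨X, X0, X1, X2⟩ := h4 q hq
  have A1 : 1 ≤ 24 * u := by
    have : (1 : ℝ) ≤ q.1.1 := by exact_mod_cast q1.1
    exact this.trans k1.a1
  have A1' : 1 ≤ 24 * u' := by
    have : (1 : ℝ) ≤ q.2.1 := by exact_mod_cast q2.1
    exact this.trans k2.a1
  have hprod : (24 * u * (24 * u')) ^ 3 * ((B ^ 4 * C ^ 5) * (B' ^ 4 * C' ^ 5)) =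
      24 ^ 6 * y ^ 2 := by
    calc (24 * u * (24 * u')) ^ 3 * ((B ^ 4 * C ^ 5) * (B' ^ 4 * C' ^ 5))
        = 24 ^ 6 * ((u ^ 3 * (B ^ 4 * C ^ 5)) * (u' ^ 3 * (B' ^ 4 * C' ^ 5))) := by ring
      _ = 24 ^ 6 * y ^ 2 := by rw [huy, huy']; ring
  have hAX : 24 * u * (24 * u') ≤ X := by
    refine (pow_le_pow_iff_left₀ (by positivity) X0 (by norm_num : (3 : ℕ) ≠ 0)).1 ?_
    refine le_of_mul_le_mul_right ?_ (show 0 < (B ^ 4 * C ^ 5) * (B' ^ 4 * C' ^ 5) by positivity)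
    rw [hprod]
    refine X2.trans (mul_le_mul_of_nonneg_left ?_ (by positivity))
    refine mul_le_mul ?_ ?_ (by positivity) (by positivity)
    · exact mul_le_mul (pow_le_pow_left₀ (by positivity) k1.b1 4)
        (pow_le_pow_left₀ (by positivity) k1.c1 5) (by positivity) (by positivity)
    · exact mul_le_mul (pow_le_pow_left₀ (by positivity) k2.b1 4)
        (pow_le_pow_left₀ (by positivity) k2.c1 5) (by positivity) (by positivity)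
  have hδA : δ * (24 * u * (24 * u')) ≤ 1 := (mul_le_mul_of_nonneg_left hAX hδ.le).trans X1
  have hW : (24 * u * (24 * u')) ^ 3 * (B * B') ^ 4 * (C * C') ^ 5 = 24 ^ 6 * y ^ 2 := by
    rw [← hprod]
    ring
  have hlast : 1 ≤ δ ^ 2 * ((24 * u * (24 * u')) ^ 3 * (B * B') ^ 4 * (C * C') ^ 5) := by
    rw [hW]
    have h5 : 1 ≤ (δ * y) ^ 2 := one_le_pow₀ hδy
    calc (1 : ℝ) ≤ (δ * y) ^ 2 := h5
      _ ≤ 24 ^ 6 * (δ * y) ^ 2 := by nlinarith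
      _ = δ ^ 2 * (24 ^ 6 * y ^ 2) := by ring
  have hmain := hK (24 * u) B C (24 * u') B' C' δ S A1 B1 C1 A1' B1' C1' hδ hδA hlast hblk inj1 inj2
  refine hmain.trans (le_of_eq ?_)
  rw [rp_calc (by positivity) (by positivity) (by positivity) hy hW]
  ring

private theorem ent_le {t : ℕ × ℕ × ℕ} (ht : Pos3 t) : t.2.1 ≤ N3 t ∧ t.2.2 ≤ N3 t := by
  obtain ⟨ha, hb, hc⟩ := ht
  have h1 : 1 ≤ t.1 ^ 3 := Nat.one_le_pow _ _ ha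
  have h2 : 1 ≤ t.2.1 ^ 4 := Nat.one_le_pow _ _ hb
  have h3 : 1 ≤ t.2.2 ^ 5 := Nat.one_le_pow _ _ hc
  rw [N3]
  constructor
  · calc t.2.1 ≤ t.2.1 ^ 4 := Nat.le_self_pow (by norm_num) _
      _ = 1 * t.2.1 ^ 4 * 1 := by ring
      _ ≤ t.1 ^ 3 * t.2.1 ^ 4 * t.2.2 ^ 5 := Nat.mul_le_mul (Nat.mul_le_mul_right _ h1) h3
  · calc t.2.2 ≤ t.2.2 ^ 5 := Nat.le_self_pow (by norm_num) _
      _ = 1 * 1 * t.2.2 ^ 5 := by ring
      _ ≤ t.1 ^ 3 * t.2.1 ^ 4 * t.2.2 ^ 5 := Nat.mul_le_mul_right _ (Nat.mul_le_mul h1 h2)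

private theorem clog_log {T : ℝ} (hT : 1 ≤ T) {n : ℕ} (hn : (n : ℝ) ≤ 27 * T ^ 3) :
    ((Nat.clog 2 n : ℕ) : ℝ) + 1 ≤ 7 * (1 + Real.log T) := by
  have hl0 : 0 ≤ Real.log T := Real.log_nonneg hT
  rcases Nat.lt_or_ge 1 n with h | h
  · have h1 := Nat.pow_pred_clog_lt_self (b := 2) (by norm_num) h
    have h2 : 0 < Nat.clog 2 n := Nat.clog_pos (by norm_num) h
    obtain ⟨m, hm⟩ : ∃ m, Nat.clog 2 n = m + 1 := ⟨Nat.clog 2 n - 1, by omega⟩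
    rw [hm] at h1 ⊢
    rw [Nat.pred_succ] at h1
    have h3 : ((2 ^ m : ℕ) : ℝ) ≤ 27 * T ^ 3 := by
      refine le_trans ?_ hn
      exact_mod_cast h1.le
    push_cast at h3
    have h4 : (m : ℝ) * Real.log 2 ≤ Real.log 27 + 3 * Real.log T := by
      have h5 := Real.log_le_log (by positivity) h3
      rw [Real.log_pow, Real.log_mul (by norm_num) (by positivity), Real.log_pow] at h5
      push_cast at h5
      linarith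
    have h6 : Real.log 27 ≤ 5 * Real.log 2 := by
      rw [show (5 : ℝ) * Real.log 2 = Real.log (2 ^ 5) by rw [Real.log_pow]; norm_num]
      exact Real.log_le_log (by norm_num) (by norm_num)
    have h7 : (0.6931471803 : ℝ) < Real.log 2 := Real.log_two_gt_d9
    have h8 : (m : ℝ) * Real.log 2 ≤ (5 + 5 * Real.log T) * Real.log 2 := by nlinarith
    have h9 : (m : ℝ) ≤ 5 + 5 * Real.log T := le_of_mul_le_mul_right h8 (by linarith)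
    push_cast
    linarith
  · have h1 : Nat.clog 2 n = 0 := by
      rw [Nat.clog_of_right_le_one h]
    rw [h1]
    push_cast
    linarith

private theorem wt_cube {b c : ℕ} (hb : 0 < b) (hc : 0 < c) :
    0 < wt b c ∧ wt b c ^ 3 = (b : ℝ) ^ 4 * (c : ℝ) ^ 5 := by
  have hb' : (0 : ℝ) < b := by exact_mod_cast hb
  have hc' : (0 : ℝ) < c := by exact_mod_cast hc
  have h : (0 : ℝ) < (b : ℝ) ^ 4 * (c : ℝ) ^ 5 := by positivity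
  refine ⟨Real.rpow_pos_of_pos h _, ?_⟩
  rw [wt, ← Real.rpow_natCast, ← Real.rpow_mul h.le]
  norm_num

private theorem XX_cube {T : ℝ} (hT : 0 < T) {p : T6} (h1 : Pos3 p.1) (h2 : Pos3 p.2) :
    0 ≤ XX T p ∧ 24 ^ 6 * (T ^ 3 / (N3 (gg p) : ℝ)) ^ 2 ≤ XX T p ^ 3 *
      ((((rd p).1.2.1 : ℝ) ^ 4 * ((rd p).1.2.2 : ℝ) ^ 5) *
        (((rd p).2.2.1 : ℝ) ^ 4 * ((rd p).2.2.2 : ℝ) ^ 5)) := by
  obtain ⟨g1, g2, g3⟩ := gg_pos h1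
  obtain ⟨⟨-, r2, r3⟩, -, r5, r6⟩ := rd_pos h1 h2
  obtain ⟨m1, m2, m3, m4, m5, m6⟩ := rd_mul (p := p)
  obtain ⟨w1, w2⟩ := wt_cube h1.2.1 h1.2.2
  obtain ⟨w3, w4⟩ := wt_cube h2.2.1 h2.2.2
  rw [m2, m3] at w2
  rw [m5, m6] at w4
  push_cast at w2 w4
  rw [XX, N3]
  obtain ⟨W, hW⟩ : ∃ W : ℝ, W = wt p.1.2.1 p.1.2.2 := ⟨_, rfl⟩
  obtain ⟨W', hW'⟩ : ∃ W : ℝ, W = wt p.2.2.1 p.2.2.2 := ⟨_, rfl⟩
  have w2' : W ^ 3 = (((gg p).2.1 : ℝ) * (rd p).1.2.1) ^ 4 *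
      (((gg p).2.2 : ℝ) * (rd p).1.2.2) ^ 5 := by
    rw [hW]
    rw [← w2]
    congr 2
  have w4' : W' ^ 3 = (((gg p).2.1 : ℝ) * (rd p).2.2.1) ^ 4 *
      (((gg p).2.2 : ℝ) * (rd p).2.2.2) ^ 5 := by
    rw [hW']
    rw [← w4]
    congr 2
  rw [← hW] at w1 ⊢
  rw [← hW'] at w3 ⊢
  have g1' : (0 : ℝ) < (gg p).1 := by exact_mod_cast g1
  have g2' : (0 : ℝ) < (gg p).2.1 := by exact_mod_cast g2
  have g3' : (0 : ℝ) < (gg p).2.2 := by exact_mod_cast g3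
  have r2' : (0 : ℝ) < (rd p).1.2.1 := by exact_mod_cast r2
  have r3' : (0 : ℝ) < (rd p).1.2.2 := by exact_mod_cast r3
  have r5' : (0 : ℝ) < (rd p).2.2.1 := by exact_mod_cast r5
  have r6' : (0 : ℝ) < (rd p).2.2.2 := by exact_mod_cast r6
  refine ⟨by positivity, le_of_eq ?_⟩
  rw [div_pow, div_pow, show (((gg p).1 : ℝ) ^ 2 * (W * W')) ^ 3 =
    ((gg p).1 : ℝ) ^ 6 * (W ^ 3 * W' ^ 3) by ring, w2', w4']
  push_cast
  field_simp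
  ring

theorem pbl : ∃ K : ℝ, 1 ≤ K ∧ ∀ (T h : ℝ) (P : Finset T6) (g : ℕ × ℕ × ℕ), 1 ≤ T → 0 < h →
    Raw T h P → (∀ p ∈ P, gg p = g) → (∀ p ∈ P, h / T ^ 3 * XX T p ≤ 1) →
    (P.card : ℝ) ≤ K * (1 + Real.log T) ^ 4 *
      (T * (N3 g : ℝ) ^ (-(1 : ℝ) / 3) * (h / T ^ 3) ^ ((1 : ℝ) / 12)) := by
  classical
  obtain ⟨K, hK1, hK⟩ := pbl_block
  refine ⟨7 ^ 4 * K, by linarith, ?_⟩
  intro T h P g hT hh hR hg hX
  have hT0 : 0 < T := by linarith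
  rcases P.eq_empty_or_nonempty with he | ⟨p₀, hp₀⟩
  · rw [he, Finset.card_empty, Nat.cast_zero]
    positivity
  have hgpos : Pos3 g := by
    rw [← hg p₀ hp₀]
    exact gg_pos (hR.pos p₀ hp₀).1
  have hNn : 0 < N3 g := by
    obtain ⟨a1, a2, a3⟩ := hgpos
    rw [N3]
    positivity
  obtain ⟨N, hN⟩ : ∃ N : ℝ, N = N3 g := ⟨_, rfl⟩
  have hN0 : 0 < N := by
    rw [hN]
    exact_mod_cast hNn
  have hN1 : 1 ≤ N := by
    rw [hN]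
    exact_mod_cast hNn
  obtain ⟨y, hy⟩ : ∃ y : ℝ, y = T ^ 3 / N := ⟨_, rfl⟩
  have hy0 : 0 < y := by rw [hy]; positivity
  have hyN : N * y = T ^ 3 := by
    rw [hy]
    field_simp
  have hyT : y ≤ T ^ 3 := by
    rw [← hyN]
    nlinarith
  obtain ⟨δ, hδ⟩ : ∃ δ : ℝ, δ = h / T ^ 3 := ⟨_, rfl⟩
  have hδ0 : 0 < δ := by rw [hδ]; positivity
  have hδT : δ * T ^ 3 = h := by
    rw [hδ]
    field_simp
  have hrd : ∀ p ∈ P, (N3 p.1 : ℝ) = N * N3 (rd p).1 ∧ (N3 p.2 : ℝ) = N * N3 (rd p).2 := by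
    intro p hp
    obtain ⟨e1, e2⟩ := rd_N3 (hR.pos p hp).1
    rw [hg p hp] at e1 e2
    rw [hN]
    constructor
    · exact_mod_cast e1
    · exact_mod_cast e2
  have hδy : 1 ≤ δ * y := by
    obtain ⟨e1, e2⟩ := hrd p₀ hp₀
    have h1 := hR.cl p₀ hp₀
    have h2 := hR.ne p₀ hp₀
    rw [e1, e2, ← mul_sub, abs_mul, abs_of_pos hN0] at h1
    have h3 : ((N3 (rd p₀).1 : ℤ)) - (N3 (rd p₀).2 : ℤ) ≠ 0 := by
      intro h4
      apply h2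
      have h5 : (N3 (rd p₀).1 : ℝ) = N3 (rd p₀).2 := by
        have : (N3 (rd p₀).1 : ℤ) = (N3 (rd p₀).2 : ℤ) := by linarith
        exact_mod_cast this
      have h6 : (N3 p₀.1 : ℝ) = N3 p₀.2 := by rw [e1, e2, h5]
      exact_mod_cast h6
    have h4 : (1 : ℝ) ≤ |(N3 (rd p₀).1 : ℝ) - N3 (rd p₀).2| := by
      have h5 := Int.one_le_abs h3
      exact_mod_cast h5
    have h5 : N ≤ h := le_trans (by nlinarith) h1
    have h6 : N * (δ * y) = h := by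
      rw [← hδT, ← hyN]
      ring
    by_contra hcon
    rw [not_le] at hcon
    nlinarith
  have hQ1 : ∀ p ∈ P, ∀ p' ∈ P, (rd p).1 = (rd p').1 → p = p' := by
    intro p hp p' hp' he
    exact hR.inj1 hp hp' ((rd_inj ((hg p hp).trans (hg p' hp').symm)).1 he)
  have hQ2 : ∀ p ∈ P, ∀ p' ∈ P, (rd p).2 = (rd p').2 → p = p' := by
    intro p hp p' hp' he
    exact hR.inj2 hp hp' ((rd_inj ((hg p hp).trans (hg p' hp').symm)).2 he)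
  obtain ⟨Q, hQ⟩ : ∃ Q : Finset T6, Q = P.image rd := ⟨_, rfl⟩
  have hQmem : ∀ q, q ∈ Q ↔ ∃ p ∈ P, rd p = q := by
    intro q
    rw [hQ, Finset.mem_image]
  have hQcard : P.card = Q.card := by
    rw [hQ, Finset.card_image_of_injOn]
    intro p hp p' hp' he
    exact hQ1 p hp p' hp' (by rw [he])
  have hA : ∀ q ∈ Q, Pos3 q.1 ∧ Pos3 q.2 ∧ Red q ∧ Cl δ q := by
    intro q hq
    obtain ⟨p, hp, rfl⟩ := (hQmem q).1 hq
    obtain ⟨p1, p2⟩ := hR.pos p hp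
    obtain ⟨r1, r2⟩ := rd_pos p1 p2
    refine ⟨r1, r2, rd_red p1, (rd_Cl p1).2 ?_⟩
    rw [Cl]
    refine (hR.cl p hp).trans ?_
    rw [← hδT]
    exact mul_le_mul_of_nonneg_left (hR.lo p hp).2 hδ0.le
  have hB : ∀ q ∈ Q, y ≤ N3 q.1 ∧ (N3 q.1 : ℝ) ≤ 27 * y ∧ y ≤ N3 q.2 ∧
      (N3 q.2 : ℝ) ≤ 27 * y := by
    intro q hq
    obtain ⟨p, hp, rfl⟩ := (hQmem q).1 hq
    obtain ⟨e1, e2⟩ := hrd p hp
    obtain ⟨l1, l2⟩ := hR.lo p hp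
    obtain ⟨u1, u2⟩ := hR.hi p hp
    rw [e1, ← hyN] at l1 u1
    rw [e2, ← hyN] at l2 u2
    exact ⟨le_of_mul_le_mul_left l1 hN0, le_of_mul_le_mul_left (by linarith) hN0,
      le_of_mul_le_mul_left l2 hN0, le_of_mul_le_mul_left (by linarith) hN0⟩
  have hXq : ∀ q ∈ Q, ∃ X : ℝ, 0 ≤ X ∧ δ * X ≤ 1 ∧ 24 ^ 6 * y ^ 2 ≤ X ^ 3 *
      (((q.1.2.1 : ℝ) ^ 4 * (q.1.2.2 : ℝ) ^ 5) * ((q.2.2.1 : ℝ) ^ 4 * (q.2.2.2 : ℝ) ^ 5)) := by
    intro q hq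
    obtain ⟨p, hp, rfl⟩ := (hQmem q).1 hq
    obtain ⟨p1, p2⟩ := hR.pos p hp
    obtain ⟨x1, x2⟩ := XX_cube hT0 p1 p2
    rw [hg p hp, ← hN, ← hy] at x2
    exact ⟨XX T p, x1, by rw [hδ]; exact hX p hp, x2⟩
  obtain ⟨β, hβ⟩ : ∃ β : T6 → ℕ × ℕ × ℕ × ℕ, β = fun q => (Nat.clog 2 q.1.2.1,
    Nat.clog 2 q.1.2.2, Nat.clog 2 q.2.2.1, Nat.clog 2 q.2.2.2) := ⟨_, rfl⟩
  obtain ⟨m, hm⟩ : ∃ m : ℕ, m = Nat.clog 2 ⌊27 * T ^ 3⌋₊ := ⟨_, rfl⟩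
  have hblock : ∀ v ∈ Q.image β, ((Q.filter fun q => β q = v).card : ℝ) ≤
      K * (y ^ ((1 : ℝ) / 3) * δ ^ ((1 : ℝ) / 12)) := by
    intro v _
    refine hK y δ (Q.filter fun q => β q = v) v.1 v.2.1 v.2.2.1 v.2.2.2 hy0 hδ0 hδy
      (fun q hq => hA q (Finset.mem_filter.1 hq).1) (fun q hq => hB q (Finset.mem_filter.1 hq).1)
      ?_ (fun q hq => hXq q (Finset.mem_filter.1 hq).1) ?_ ?_
    · intro q hq
      have h1 := (Finset.mem_filter.1 hq).2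
      rw [← h1, hβ]
      exact ⟨rfl, rfl, rfl, rfl⟩
    · intro q hq q' hq' he
      obtain ⟨p, hp, rfl⟩ := (hQmem q).1 (Finset.mem_filter.1 hq).1
      obtain ⟨p', hp', rfl⟩ := (hQmem q').1 (Finset.mem_filter.1 hq').1
      rw [hQ1 p hp p' hp' he]
    · intro q hq q' hq' he
      obtain ⟨p, hp, rfl⟩ := (hQmem q).1 (Finset.mem_filter.1 hq).1
      obtain ⟨p', hp', rfl⟩ := (hQmem q').1 (Finset.mem_filter.1 hq').1
      rw [hQ2 p hp p' hp' he]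
  have hsub : Q.image β ⊆ Finset.range (m + 1) ×ˢ (Finset.range (m + 1) ×ˢ
      (Finset.range (m + 1) ×ˢ Finset.range (m + 1))) := by
    intro v hv
    obtain ⟨q, hq, rfl⟩ := Finset.mem_image.1 hv
    obtain ⟨q1, q2, -, -⟩ := hA q hq
    obtain ⟨-, b1, -, b2⟩ := hB q hq
    have hle : ∀ t : ℕ × ℕ × ℕ, Pos3 t → (N3 t : ℝ) ≤ 27 * y →
        Nat.clog 2 t.2.1 < m + 1 ∧ Nat.clog 2 t.2.2 < m + 1 := by
      intro t ht htN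
      have h1 : N3 t ≤ ⌊27 * T ^ 3⌋₊ := Nat.le_floor (by linarith)
      obtain ⟨h2, h3⟩ := ent_le ht
      have h4 := Nat.clog_mono_right 2 (h2.trans h1)
      have h5 := Nat.clog_mono_right 2 (h3.trans h1)
      omega
    obtain ⟨c1, c2⟩ := hle q.1 q1 b1
    obtain ⟨c3, c4⟩ := hle q.2 q2 b2
    rw [hβ]
    simp only [Finset.mem_product, Finset.mem_range]
    exact ⟨c1, c2, c3, c4⟩
  have hcard : ((Q.image β).card : ℝ) ≤ 7 ^ 4 * (1 + Real.log T) ^ 4 := by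
    have h1 := Finset.card_le_card hsub
    simp only [Finset.card_product, Finset.card_range] at h1
    have h2 : ((Q.image β).card : ℝ) ≤ ((m : ℝ) + 1) * (((m : ℝ) + 1) * (((m : ℝ) + 1) *
        ((m : ℝ) + 1))) := by exact_mod_cast h1
    have h3 : (m : ℝ) + 1 ≤ 7 * (1 + Real.log T) := by
      rw [hm]
      exact clog_log hT (Nat.floor_le (by positivity))
    have h4 : (0 : ℝ) ≤ (m : ℝ) + 1 := by positivity
    calc ((Q.image β).card : ℝ) ≤ ((m : ℝ) + 1) ^ 4 := by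
          refine h2.trans (le_of_eq ?_)
          ring
      _ ≤ (7 * (1 + Real.log T)) ^ 4 := pow_le_pow_left₀ h4 h3 4
      _ = 7 ^ 4 * (1 + Real.log T) ^ 4 := by ring
  have hfin : (P.card : ℝ) ≤ ((Q.image β).card : ℝ) *
      (K * (y ^ ((1 : ℝ) / 3) * δ ^ ((1 : ℝ) / 12))) := by
    rw [hQcard, Finset.card_eq_sum_card_image β Q]
    push_cast
    refine (Finset.sum_le_sum hblock).trans (le_of_eq ?_)
    rw [Finset.sum_const, nsmul_eq_mul]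
  have hyr : y ^ ((1 : ℝ) / 3) = T * N ^ (-(1 : ℝ) / 3) := by
    rw [hy, Real.div_rpow (by positivity) hN0.le, ← Real.rpow_natCast T 3, ← Real.rpow_mul hT0.le,
      neg_div, Real.rpow_neg hN0.le, div_eq_mul_inv]
    norm_num
  refine hfin.trans ?_
  have hnn : 0 ≤ K * (y ^ ((1 : ℝ) / 3) * δ ^ ((1 : ℝ) / 12)) := by positivity
  refine (mul_le_mul_of_nonneg_right hcard hnn).trans (le_of_eq ?_)
  rw [hyr, ← hN, ← hδ]
  ring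

end Pool.Agent.PWG
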