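import Pool.Agent.PWG.PBl

set_option autoImplicit false

/-!
# PWG-PBs: sum over the common factors (job PWG-PBs)

Plan. `Finset.card_eq_sum_card_fiberwise` for `gg : P → G`, `G = Icc 1 n ×ˢ Icc 1 n ×ˢ Icc 1 n`, `n = ⌊27 T^3⌋₊` (all
entries of `gg p` are positive and at most `N3 p.1`). Each fibre by `pbl` (a subset of a `Raw` set is `Raw`).
`∑_(g ∈ G) (N3 g)^(-1/3) = ∑ 1/g1 * ∑ g2^(-4/3) * ∑ g3^(-5/3) <= (1 + log n) * C` (harmonic sum: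
`harmonic_le_one_add_log`; zeta sums: `Pool.Agent.Pow3.sum_le_zeta`-style), `1 + log n <= C (1 + log T)`.
-/

namespace Pool.Agent.PWG

private theorem pbs_sum3 (I : Finset ℕ) (a b c : ℕ → ℝ) :
    ∑ g ∈ I ×ˢ I ×ˢ I, a g.1 * b g.2.1 * c g.2.2 =
      (∑ i ∈ I, a i) * (∑ i ∈ I, b i) * (∑ i ∈ I, c i) := by
  rw [Finset.sum_product, Finset.sum_mul, Finset.sum_mul]
  refine Finset.sum_congr rfl fun i _ => ?_
  have e1 : a i * ∑ j ∈ I, b j = ∑ j ∈ I, a i * b j := Finset.mul_sum _ _ _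
  rw [Finset.sum_product, e1, Finset.sum_mul]
  refine Finset.sum_congr rfl fun j _ => ?_
  rw [Finset.mul_sum]

private theorem pbs_pow (i k : ℕ) :
    ((i : ℝ) ^ k) ^ (-(1 : ℝ) / 3) = (i : ℝ) ^ ((k : ℝ) * (-(1 : ℝ) / 3)) := by
  rw [← Real.rpow_natCast, ← Real.rpow_mul (Nat.cast_nonneg i)]

private theorem pbs_N3 (g : ℕ × ℕ × ℕ) : (N3 g : ℝ) ^ (-(1 : ℝ) / 3) =
    (g.1 : ℝ)⁻¹ * (g.2.1 : ℝ) ^ (-(4 : ℝ) / 3) * (g.2.2 : ℝ) ^ (-(5 : ℝ) / 3) := by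
  unfold N3
  push_cast
  rw [Real.mul_rpow (by positivity) (by positivity), Real.mul_rpow (by positivity) (by positivity),
    pbs_pow, pbs_pow, pbs_pow, ← Real.rpow_neg_one]
  norm_num

private theorem pbs_zeta {e : ℝ} (he : e < -1) :
    ∃ C : ℝ, 1 ≤ C ∧ ∀ n : ℕ, ∑ i ∈ Finset.Icc 1 n, (i : ℝ) ^ e ≤ C := by
  have hs : Summable fun n : ℕ => (n : ℝ) ^ e := Real.summable_nat_rpow.2 he
  refine ⟨max 1 (∑' n : ℕ, (n : ℝ) ^ e), le_max_left _ _, fun n => ?_⟩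
  exact (hs.sum_le_tsum _ fun i _ => by positivity).trans (le_max_right _ _)

private theorem pbs_harm (n : ℕ) :
    ∑ i ∈ Finset.Icc 1 n, (i : ℝ)⁻¹ ≤ 1 + Real.log n := by
  have h := harmonic_le_one_add_log n
  rw [harmonic_eq_sum_Icc] at h
  push_cast at h
  exact h

private theorem pbs_raw {T h : ℝ} {P Q : Finset T6} (H : Raw T h P) (hQ : Q ⊆ P) : Raw T h Q where
  pos p hp := H.pos p (hQ hp)
  lo p hp := H.lo p (hQ hp)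
  hi p hp := H.hi p (hQ hp)
  ne p hp := H.ne p (hQ hp)
  cl p hp := H.cl p (hQ hp)
  inj1 := H.inj1.mono fun _ hp => hQ hp
  inj2 := H.inj2.mono fun _ hp => hQ hp

private theorem pbs_le {p : ℕ × ℕ × ℕ} (h : Pos3 p) :
    p.1 ≤ N3 p ∧ p.2.1 ≤ N3 p ∧ p.2.2 ≤ N3 p := by
  obtain ⟨h1, h2, h3⟩ := h
  unfold N3
  have e1 : 0 < p.1 ^ 3 := pow_pos h1 3
  have e2 : 0 < p.2.1 ^ 4 := pow_pos h2 4
  have e3 : 0 < p.2.2 ^ 5 := pow_pos h3 5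
  have f1 : p.1 ≤ p.1 ^ 3 := Nat.le_self_pow (by norm_num) _
  have f2 : p.2.1 ≤ p.2.1 ^ 4 := Nat.le_self_pow (by norm_num) _
  have f3 : p.2.2 ≤ p.2.2 ^ 5 := Nat.le_self_pow (by norm_num) _
  refine ⟨?_, ?_, ?_⟩
  · calc p.1 ≤ p.1 ^ 3 := f1
      _ ≤ p.1 ^ 3 * p.2.1 ^ 4 := Nat.le_mul_of_pos_right _ e2
      _ ≤ p.1 ^ 3 * p.2.1 ^ 4 * p.2.2 ^ 5 := Nat.le_mul_of_pos_right _ e3
  · calc p.2.1 ≤ p.2.1 ^ 4 := f2
      _ ≤ p.1 ^ 3 * p.2.1 ^ 4 := Nat.le_mul_of_pos_left _ e1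
      _ ≤ p.1 ^ 3 * p.2.1 ^ 4 * p.2.2 ^ 5 := Nat.le_mul_of_pos_right _ e3
  · calc p.2.2 ≤ p.2.2 ^ 5 := f3
      _ ≤ p.1 ^ 3 * p.2.1 ^ 4 * p.2.2 ^ 5 := Nat.le_mul_of_pos_left _ (Nat.mul_pos e1 e2)

theorem pbs : ∃ K : ℝ, 1 ≤ K ∧ ∀ (T h : ℝ) (P : Finset T6), 1 ≤ T → 0 < h → Raw T h P →
    (∀ p ∈ P, h / T ^ 3 * XX T p ≤ 1) →
    (P.card : ℝ) ≤ K * (1 + Real.log T) ^ 5 * (T * (h / T ^ 3) ^ ((1 : ℝ) / 12)) := by
  obtain ⟨K, hK, hb⟩ := pbl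
  obtain ⟨C2, hC2, h2⟩ := pbs_zeta (e := -(4 : ℝ) / 3) (by norm_num)
  obtain ⟨C3, hC3, h3⟩ := pbs_zeta (e := -(5 : ℝ) / 3) (by norm_num)
  have hCC : 1 ≤ C2 * C3 := one_le_mul_of_one_le_of_one_le hC2 hC3
  refine ⟨K * (27 * (C2 * C3)), one_le_mul_of_one_le_of_one_le hK (by linarith), ?_⟩
  intro T h P hT hh hR hX
  have hT0 : 0 < T := by linarith
  have hlT : 0 ≤ Real.log T := Real.log_nonneg hT
  have hT3 : 1 ≤ T ^ 3 := one_le_pow₀ hT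
  obtain ⟨n, hn⟩ : ∃ n, n = ⌊27 * T ^ 3⌋₊ := ⟨_, rfl⟩
  have hn0 : (n : ℝ) ≤ 27 * T ^ 3 := by
    rw [hn]
    exact Nat.floor_le (by positivity)
  have hn1 : 1 ≤ n := by
    rw [hn]
    refine Nat.le_floor ?_
    rw [Nat.cast_one]
    linarith
  have hlog : 1 + Real.log n ≤ 27 * (1 + Real.log T) := by
    have e1 : Real.log n ≤ Real.log (27 * T ^ 3) :=
      Real.log_le_log (by exact_mod_cast hn1) hn0
    rw [Real.log_mul (by norm_num) (by positivity), Real.log_pow] at e1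
    have e2 : Real.log 27 ≤ 27 - 1 := Real.log_le_sub_one_of_pos (by norm_num)
    push_cast at e1
    linarith
  classical
  have hG : ∀ p ∈ P, gg p ∈ Finset.Icc 1 n ×ˢ Finset.Icc 1 n ×ˢ Finset.Icc 1 n := by
    intro p hp
    have e1 := (hR.pos p hp).1
    obtain ⟨g1, g2, g3⟩ := gg_pos e1
    obtain ⟨l1, l2, l3⟩ := pbs_le e1
    have e2 : N3 p.1 ≤ n := by
      rw [hn]
      exact Nat.le_floor (hR.hi p hp).1
    obtain ⟨p1, p2, p3⟩ := e1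
    rw [Finset.mem_product, Finset.mem_product, Finset.mem_Icc, Finset.mem_Icc, Finset.mem_Icc]
    exact ⟨⟨g1, (Nat.le_of_dvd p1 (Nat.gcd_dvd_left _ _)).trans (l1.trans e2)⟩,
      ⟨g2, (Nat.le_of_dvd p2 (Nat.gcd_dvd_left _ _)).trans (l2.trans e2)⟩,
      ⟨g3, (Nat.le_of_dvd p3 (Nat.gcd_dvd_left _ _)).trans (l3.trans e2)⟩⟩
  have hδ : 0 ≤ (h / T ^ 3) ^ ((1 : ℝ) / 12) := by positivity
  rw [Finset.card_eq_sum_card_fiberwise hG]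
  push_cast
  have e1 : ∀ g ∈ Finset.Icc 1 n ×ˢ Finset.Icc 1 n ×ˢ Finset.Icc 1 n,
      ((P.filter fun p => gg p = g).card : ℝ) ≤
        K * (1 + Real.log T) ^ 4 * (T * (h / T ^ 3) ^ ((1 : ℝ) / 12)) *
          ((g.1 : ℝ)⁻¹ * (g.2.1 : ℝ) ^ (-(4 : ℝ) / 3) * (g.2.2 : ℝ) ^ (-(5 : ℝ) / 3)) := by
    intro g _
    have f1 := hb T h (P.filter fun p => gg p = g) g hT hh (pbs_raw hR (Finset.filter_subset _ _))
      (fun p hp => (Finset.mem_filter.1 hp).2) (fun p hp => hX p (Finset.mem_filter.1 hp).1)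
    rw [← pbs_N3]
    refine f1.trans (le_of_eq ?_)
    ring
  refine (Finset.sum_le_sum e1).trans ?_
  rw [← Finset.mul_sum, pbs_sum3 (Finset.Icc 1 n) (fun i => (i : ℝ)⁻¹)
    (fun i => (i : ℝ) ^ (-(4 : ℝ) / 3)) (fun i => (i : ℝ) ^ (-(5 : ℝ) / 3))]
  have e2 : (∑ i ∈ Finset.Icc 1 n, (i : ℝ)⁻¹) * (∑ i ∈ Finset.Icc 1 n, (i : ℝ) ^ (-(4 : ℝ) / 3)) *
      (∑ i ∈ Finset.Icc 1 n, (i : ℝ) ^ (-(5 : ℝ) / 3)) ≤ 27 * (1 + Real.log T) * C2 * C3 := by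
    have s1 : ∑ i ∈ Finset.Icc 1 n, (i : ℝ)⁻¹ ≤ 27 * (1 + Real.log T) := (pbs_harm n).trans hlog
    have s2 : 0 ≤ ∑ i ∈ Finset.Icc 1 n, (i : ℝ) ^ (-(4 : ℝ) / 3) :=
      Finset.sum_nonneg fun i _ => by positivity
    have s3 : 0 ≤ ∑ i ∈ Finset.Icc 1 n, (i : ℝ) ^ (-(5 : ℝ) / 3) :=
      Finset.sum_nonneg fun i _ => by positivity
    refine mul_le_mul (mul_le_mul s1 (h2 n) s2 (by positivity)) (h3 n) s3 (by positivity)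
  refine (mul_le_mul_of_nonneg_left e2 (by positivity)).trans (le_of_eq ?_)
  ring

end Pool.Agent.PWG
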