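import Pool.Agent.PWG.Defs

set_option autoImplicit false

/-!
# PWG-Rd: division by the common factors (job PWG-Rd)

Plan. `Nat.coprime_div_gcd_div_gcd`, `Nat.mul_div_cancel'`. `rd_N3`: `N3` is multiplicative in the three entries.
`rd_Cl`: divide by `N3 (gg p) > 0`. `rd_inj`: `p.1 = gg p * (rd p).1` entrywise.
-/

namespace Pool.Agent.PWG

/-- the common factors -/
def gg (p : T6) : ℕ × ℕ × ℕ :=
  (Nat.gcd p.1.1 p.2.1, Nat.gcd p.1.2.1 p.2.2.1, Nat.gcd p.1.2.2 p.2.2.2)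

/-- the reduced pair -/
def rd (p : T6) : T6 :=
  ((p.1.1 / (gg p).1, p.1.2.1 / (gg p).2.1, p.1.2.2 / (gg p).2.2),
    (p.2.1 / (gg p).1, p.2.2.1 / (gg p).2.1, p.2.2.2 / (gg p).2.2))

theorem gg_pos {p : T6} (h : Pos3 p.1) : Pos3 (gg p) :=
  ⟨Nat.gcd_pos_of_pos_left _ h.1, Nat.gcd_pos_of_pos_left _ h.2.1,
    Nat.gcd_pos_of_pos_left _ h.2.2⟩

/-- the entries in terms of the reduced ones -/
private theorem rd_mul_aux {p : T6} : p.1.1 = (gg p).1 * (rd p).1.1 ∧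
    p.1.2.1 = (gg p).2.1 * (rd p).1.2.1 ∧
    p.1.2.2 = (gg p).2.2 * (rd p).1.2.2 ∧ p.2.1 = (gg p).1 * (rd p).2.1 ∧
    p.2.2.1 = (gg p).2.1 * (rd p).2.2.1 ∧ p.2.2.2 = (gg p).2.2 * (rd p).2.2.2 :=
  ⟨(Nat.mul_div_cancel' (Nat.gcd_dvd_left _ _)).symm, (Nat.mul_div_cancel' (Nat.gcd_dvd_left _ _)).symm,
    (Nat.mul_div_cancel' (Nat.gcd_dvd_left _ _)).symm, (Nat.mul_div_cancel' (Nat.gcd_dvd_right _ _)).symm,
    (Nat.mul_div_cancel' (Nat.gcd_dvd_right _ _)).symm,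
    (Nat.mul_div_cancel' (Nat.gcd_dvd_right _ _)).symm⟩

theorem rd_pos {p : T6} (h1 : Pos3 p.1) (h2 : Pos3 p.2) : Pos3 (rd p).1 ∧ Pos3 (rd p).2 := by
  obtain ⟨e1, e2, e3, e4, e5, e6⟩ := rd_mul_aux (p := p)
  obtain ⟨a1, a2, a3⟩ := h1
  obtain ⟨b1, b2, b3⟩ := h2
  rw [e1] at a1
  rw [e2] at a2
  rw [e3] at a3
  rw [e4] at b1
  rw [e5] at b2
  rw [e6] at b3
  exact ⟨⟨Nat.pos_of_mul_pos_left a1, Nat.pos_of_mul_pos_left a2, Nat.pos_of_mul_pos_left a3⟩,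
    ⟨Nat.pos_of_mul_pos_left b1, Nat.pos_of_mul_pos_left b2, Nat.pos_of_mul_pos_left b3⟩⟩

theorem rd_red {p : T6} (h1 : Pos3 p.1) : Red (rd p) := by
  obtain ⟨g1, g2, g3⟩ := gg_pos h1
  exact ⟨Nat.coprime_div_gcd_div_gcd g1, Nat.coprime_div_gcd_div_gcd g2,
    Nat.coprime_div_gcd_div_gcd g3⟩

private theorem N3_mul (g q : ℕ × ℕ × ℕ) :
    N3 (g.1 * q.1, g.2.1 * q.2.1, g.2.2 * q.2.2) = N3 g * N3 q := by
  unfold N3
  ring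

theorem rd_N3 {p : T6} (h1 : Pos3 p.1) : N3 p.1 = N3 (gg p) * N3 (rd p).1 ∧
    N3 p.2 = N3 (gg p) * N3 (rd p).2 := by
  obtain ⟨e1, e2, e3, e4, e5, e6⟩ := rd_mul_aux (p := p)
  constructor
  · rw [← N3_mul, ← e1, ← e2, ← e3]
  · rw [← N3_mul, ← e4, ← e5, ← e6]

theorem rd_Cl {p : T6} {δ : ℝ} (h1 : Pos3 p.1) : Cl δ (rd p) ↔ Cl δ p := by
  obtain ⟨e1, e2⟩ := rd_N3 h1
  obtain ⟨g1, g2, g3⟩ := gg_pos h1
  have hg : (0 : ℝ) < N3 (gg p) := by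
    have h : 0 < N3 (gg p) := by
      unfold N3
      positivity
    exact_mod_cast h
  unfold Cl
  rw [e1, e2]
  push_cast
  have h3 : (N3 (gg p) : ℝ) * N3 (rd p).1 - N3 (gg p) * N3 (rd p).2 =
      N3 (gg p) * (N3 (rd p).1 - N3 (rd p).2) := by ring
  have h4 : δ * ((N3 (gg p) : ℝ) * N3 (rd p).2) = N3 (gg p) * (δ * N3 (rd p).2) := by ring
  rw [h3, h4, abs_mul, abs_of_pos hg]
  exact (mul_le_mul_iff_right₀ hg).symm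

/-- the entries in terms of the reduced ones -/
theorem rd_mul {p : T6} : p.1.1 = (gg p).1 * (rd p).1.1 ∧ p.1.2.1 = (gg p).2.1 * (rd p).1.2.1 ∧
    p.1.2.2 = (gg p).2.2 * (rd p).1.2.2 ∧ p.2.1 = (gg p).1 * (rd p).2.1 ∧
    p.2.2.1 = (gg p).2.1 * (rd p).2.2.1 ∧ p.2.2.2 = (gg p).2.2 * (rd p).2.2.2 :=
  rd_mul_aux

theorem rd_inj {p p' : T6} (hg : gg p = gg p') : ((rd p).1 = (rd p').1 → p.1 = p'.1) ∧
    ((rd p).2 = (rd p').2 → p.2 = p'.2) := by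
  obtain ⟨e1, e2, e3, e4, e5, e6⟩ := rd_mul_aux (p := p)
  obtain ⟨f1, f2, f3, f4, f5, f6⟩ := rd_mul_aux (p := p')
  constructor
  · intro h
    refine Prod.ext ?_ (Prod.ext ?_ ?_)
    · rw [e1, f1, hg, h]
    · rw [e2, f2, hg, h]
    · rw [e3, f3, hg, h]
  · intro h
    refine Prod.ext ?_ (Prod.ext ?_ ?_)
    · rw [e4, f4, hg, h]
    · rw [e5, f5, hg, h]
    · rw [e6, f6, hg, h]

end Pool.Agent.PWG
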