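import Pool.Agent.PWG.Defs

set_option autoImplicit false

/-!
# PWG-Tay: Taylor polynomials of `(1 + τ)^p` on `[0, 1]` (job PWG-Tay)

Plan. `n = 0`: `(1 + τ)^p <= max 1 (2^p)`. `n + 1`: `exists_taylor_mean_remainder_bound` for the function
`τ ↦ (1 + τ)^p` on `Set.Icc 0 1` (`ContDiffOn` by `ContDiffOn.rpow_const_of_ne` or `Real.contDiffOn_rpow_const...`),
`b m = (m!)⁻¹ * iteratedDerivWithin m f (Icc 0 1) 0` (`taylor_within_apply`); `C` the sum of the constant of the
remainder, of the `|b m|` and 1.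
-/

namespace Pool.Agent.PWG

theorem pow_taylor (p : ℝ) (n : ℕ) : ∃ (b : ℕ → ℝ) (C : ℝ), 0 < C ∧ (∀ m < n, |b m| ≤ C) ∧
    ∀ τ : ℝ, 0 ≤ τ → τ ≤ 1 → |(1 + τ) ^ p - ∑ m ∈ Finset.range n, b m * τ ^ m| ≤ C * τ ^ n := by
  rcases n with _ | n
  · refine ⟨fun _ => 0, 2 ^ |p|, Real.rpow_pos_of_pos two_pos _, fun m hm => absurd hm (by omega),
      fun τ h0 h1 => ?_⟩
    rw [Finset.range_zero, Finset.sum_empty, sub_zero, pow_zero, mul_one,
      abs_of_nonneg (Real.rpow_nonneg (by linarith) p)]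
    calc (1 + τ) ^ p ≤ (1 + τ) ^ |p| :=
          Real.rpow_le_rpow_of_exponent_le (by linarith) (le_abs_self p)
      _ ≤ 2 ^ |p| := Real.rpow_le_rpow (by linarith) (by linarith) (abs_nonneg p)
  · have hc : ContDiffOn ℝ (n + 1) (fun τ : ℝ => (1 + τ) ^ p) (Set.Icc 0 1) := by
      refine ContDiffOn.rpow_const_of_ne (contDiff_const.add contDiff_id).contDiffOn ?_
      intro τ hτ
      have h1 : 0 ≤ τ := hτ.1
      have h2 : 0 < 1 + τ := by linarith
      exact h2.ne'
    obtain ⟨C, hC⟩ := exists_taylor_mean_remainder_bound zero_le_one hc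
    obtain ⟨b, hb⟩ : ∃ b : ℕ → ℝ, b = fun m => ((m.factorial : ℝ))⁻¹ *
        iteratedDerivWithin m (fun τ : ℝ => (1 + τ) ^ p) (Set.Icc 0 1) 0 := ⟨_, rfl⟩
    have h0 : 0 ≤ ∑ m ∈ Finset.range (n + 1), |b m| :=
      Finset.sum_nonneg fun m _ => abs_nonneg _
    refine ⟨b, |C| + ∑ m ∈ Finset.range (n + 1), |b m| + 1, by positivity, ?_, ?_⟩
    · intro m hm
      have h1 : |b m| ≤ ∑ m ∈ Finset.range (n + 1), |b m| :=
        Finset.single_le_sum (f := fun m => |b m|) (fun i _ => abs_nonneg _)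
          (Finset.mem_range.2 hm)
      have h2 := abs_nonneg C
      linarith
    · intro τ h1 h2
      have h3 := hC τ ⟨h1, h2⟩
      rw [taylor_within_apply, Real.norm_eq_abs, sub_zero] at h3
      have h4 : ∑ k ∈ Finset.range (n + 1), (((k.factorial : ℝ))⁻¹ * τ ^ k) •
          iteratedDerivWithin k (fun τ : ℝ => (1 + τ) ^ p) (Set.Icc 0 1) 0 =
          ∑ m ∈ Finset.range (n + 1), b m * τ ^ m := by
        refine Finset.sum_congr rfl fun m _ => ?_
        rw [hb, smul_eq_mul]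
        ring
      rw [h4] at h3
      refine h3.trans (mul_le_mul_of_nonneg_right ?_ (pow_nonneg h1 _))
      have h5 := le_abs_self C
      linarith

end Pool.Agent.PWG
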