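import Pool.Agent.PWG.One

set_option autoImplicit false

/-!
# PWG-Two: the count with forms of bidegree (2, 2) (job PWG-Two)

Plan. `cen w 2` (`ex_inj`, `(2+1)^2 - 1 = 8`) and `one w`. `R = A A' (V V') >= 1`, so `δ R <= δ R^2 <= c`. A window of
length `2 σ2` contains at most `B = C1 (1 + 2 σ2 / l1) (1 + σ1 (A A'))` points by `one`; a window of length `l2` at most
`N B` (`cen` and `centers`); all of `S` lies in the window `[0, 32]` (`norm_pt` or directly from `Blk`): `cover` with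
`L = 32`.
-/

namespace Pool.Agent.PWG

theorem two (w : ℕ) (hw : w = 4 ∨ w = 5) : ∃ (c K C : ℝ), 0 < c ∧ c ≤ 1 / 2 ∧ 0 < K ∧ 0 < C ∧
    ∀ (A A' V V' κ δ l1 l2 σ1 σ2 : ℝ) (S : Finset Q4), 1 ≤ A → 1 ≤ A' → 1 ≤ V → 1 ≤ V' → 0 < κ →
      0 ≤ δ → δ * (A * A' * (V * V')) ^ 2 ≤ c → 0 < l1 → l1 ^ 3 * (A * A' * (V * V')) ≤ c →
      0 < l2 → l2 ^ 8 * (A * A' * (V * V')) ^ 2 ≤ c → 0 < σ1 → σ1 ≤ 1 → K * δ ≤ σ1 ^ 3 →
      0 < σ2 → σ2 ≤ 1 → K * δ ≤ σ2 ^ 8 →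
      (∀ q ∈ S, Blk A A' V V' q ∧ Nr w κ δ q) →
      (S.card : ℝ) ≤ C * (1 + 1 / l2) * (1 + σ2 / l1) * (1 + σ1 * (A * A')) := by
  classical
  have hw1 : 1 ≤ w := by omega
  obtain ⟨c2, K2, N, hc2, hc22, hK2, hcen⟩ := cen w 2 hw1 (by norm_num) (ex_inj w 2 hw le_rfl)
  obtain ⟨c1, K1, C1, hc1, hc12, hK1, hC1, hone⟩ := one w hw
  obtain ⟨C0, hC0, hnorm⟩ := norm_pt w 1 hw1
  refine ⟨min c1 c2, max K1 K2, 66 * C1 * (N + 1), lt_min hc1 hc2, (min_le_left _ _).trans hc12,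
    lt_max_of_lt_left hK1, by positivity, ?_⟩
  intro A A' V V' κ δ l1 l2 σ1 σ2 S hA hA' hV hV' hκ hδ hδR hl1 hl1R hl2 hl2R hσ1 hσ11 hKσ1
    hσ2 hσ21 hKσ2 hS
  have hAA : 1 ≤ A * A' := one_le_mul_of_one_le_of_one_le hA hA'
  have hVV : 1 ≤ V * V' := one_le_mul_of_one_le_of_one_le hV hV'
  have hR : 1 ≤ A * A' * (V * V') := one_le_mul_of_one_le_of_one_le hAA hVV
  have hR2 : A * A' * (V * V') ≤ (A * A' * (V * V')) ^ 2 := by nlinarith
  have hδR1 : δ * (A * A' * (V * V')) ≤ c1 :=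
    (mul_le_mul_of_nonneg_left hR2 hδ).trans (hδR.trans (min_le_left _ _))
  have hδ2 : δ ≤ 1 / 2 := by nlinarith
  have hKσ1' : K1 * δ ≤ σ1 ^ 3 := (mul_le_mul_of_nonneg_right (le_max_left _ _) hδ).trans hKσ1
  have hKσ2' : K2 * δ ≤ σ2 ^ 8 := (mul_le_mul_of_nonneg_right (le_max_right _ _) hδ).trans hKσ2
  set B : ℝ := 2 * C1 * (1 + σ2 / l1) * (1 + σ1 * (A * A')) with hB
  have hB0 : 0 ≤ B := by positivity
  have hsmall : ∀ (T : Finset Q4), T ⊆ S → ∀ v : ℝ,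
      ((T.filter (fun x => v ≤ tt A A' x ∧ tt A A' x ≤ v + 2 * σ2)).card : ℝ) ≤ B := by
    intro T hT v
    have h1 := hone A A' V V' κ δ l1 σ1 v (2 * σ2) T hA hA' hV hV' hκ hδ hδR1 hl1
      (hl1R.trans (min_le_left _ _)) hσ1 hσ11 hKσ1' (by linarith) (fun q hq => hS q (hT hq))
    refine h1.trans ?_
    have h2 : 1 + 2 * σ2 / l1 ≤ 2 * (1 + σ2 / l1) := by
      rw [mul_div_assoc]; linarith
    calc C1 * (1 + 2 * σ2 / l1) * (1 + σ1 * (A * A'))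
        ≤ C1 * (2 * (1 + σ2 / l1)) * (1 + σ1 * (A * A')) := by
          apply mul_le_mul_of_nonneg_right _ (by positivity)
          exact mul_le_mul_of_nonneg_left h2 hC1.le
      _ = B := by rw [hB]; ring
  have hmid : ∀ v : ℝ, ((S.filter (fun x => v ≤ tt A A' x ∧ tt A A' x ≤ v + l2)).card : ℝ) ≤
      N * B := by
    intro v
    obtain ⟨r, t, hr, ht⟩ := hcen A A' V V' κ δ l2 v σ2
      (S.filter (fun x => v ≤ tt A A' x ∧ tt A A' x ≤ v + l2)) hA hA' hV hV' hκ hδ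
      (hδR.trans (min_le_right _ _)) hl2.le (hl2R.trans (min_le_right _ _)) hσ2 hσ21 hKσ2' (by
        intro q hq
        obtain ⟨hqT, hq1, hq2⟩ := Finset.mem_filter.mp hq
        obtain ⟨hb, hn⟩ := hS q hqT
        exact ⟨hb, hn, hq1, hq2⟩)
    exact centers _ (fun q => tt A A' q) σ2 B r N t hr hB0 ht
      (fun v' => hsmall _ (Finset.filter_subset _ _) v')
  have hfin := cover S (fun q => tt A A' q) l2 (N * B) hl2 (by positivity) hmid 0 32 (by norm_num)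
  have hall : S.filter (fun x => 0 ≤ tt A A' x ∧ tt A A' x ≤ 0 + 32) = S := by
    apply Finset.filter_true_of_mem
    intro q hq
    obtain ⟨hb, hn⟩ := hS q hq
    obtain ⟨h1, h2, -⟩ := hnorm A A' V V' κ δ q hA hA' hV hV' hκ hδ hδ2 hb hn
    exact ⟨by linarith, by linarith⟩
  have hcard : (S.card : ℝ) ≤ (1 + 32 / l2) * (N * B) := by
    have h1 := hfin
    rw [hall] at h1
    exact h1
  refine hcard.trans ?_
  have h3 : 1 + 32 / l2 ≤ 33 * (1 + 1 / l2) := by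
    have h4 : 32 / l2 = 32 * (1 / l2) := by ring
    have h5 : 0 < 1 / l2 := by positivity
    rw [h4]; linarith
  have h6 : (N : ℝ) * B ≤ (N + 1) * B := mul_le_mul_of_nonneg_right (by linarith) hB0
  calc (1 + 32 / l2) * (N * B) ≤ (33 * (1 + 1 / l2)) * ((N + 1) * B) :=
        mul_le_mul h3 h6 (by positivity) (by positivity)
    _ = 66 * C1 * (N + 1) * (1 + 1 / l2) * (1 + σ2 / l1) * (1 + σ1 * (A * A')) := by
        rw [hB]; ring

end Pool.Agent.PWG
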