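import Pool.Agent.PWG.Box

set_option autoImplicit false

/-!
# PWG-Van: an integer vector orthogonal to all points of a short arc (job PWG-Van)

Plan. Let `k = n + 1 = card ι`, `c1 = 1 / (8 k C0)`, `η = 1 / (4 n)`, `K1 = k C0 / η`, `K2 = 1 / c1 + K1`, and
`0 < c <= 1` with `K2^(2n) c^(n+1) < c1^2`. Put `H = c1 R^d / c`, so `H l^n = c1` and `H δ <= c1`; `l <= 1`.
Apply `box` with `C = C0` and `w m = η / l^m`. Condition: for `m < n` we have `H l^m >= H l^n = c1`, so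
`1 + K1 H l^m <= K2 H l^m`, and `∏_(m<n) (K2 H l^m) = K2^n H^n l^(n(n-1)/2)`. It must be `< H^(n+1) / ∏ M`, i.e.
`K2^n l^(n(n-1)/2) ∏ M < H`; squares: `K2^(2n) l^(n(n-1)) R^(d(n+1)) = K2^(2n) c^(n-1) R^(2d)` (as `l^n = c / R^d`)
is `< c1^2 R^(2d) / c^2 = H^2`.
For `x, ρ, τ, y` as in the statement: `|∑ g i x i| = ρ |∑ g i M i y i| <= ∑_m τ^m |∑_i g i M i L m i| +
∑_i |g i| M i C0 (δ + τ^n) <= ∑_m τ^m η / l^m + k H C0 (δ + l^n) <= n η + 2 k C0 c1 <= 1/4 + 1/4 < 1`, and an integer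
of absolute value `< 1` is `0`.
-/

namespace Pool.Agent.PWG

private theorem prodsq (n : ℕ) (l : ℝ) :
    (∏ m : Fin n, l ^ (m : ℕ)) ^ 2 = (l ^ n) ^ (n - 1) := by
  rw [Finset.prod_pow_eq_pow_sum, ← pow_mul, ← pow_mul]
  congr 1
  rw [Fin.sum_univ_eq_sum_range (fun i => i) n]
  exact Finset.sum_range_id_mul_two n

theorem van {ι : Type} [Fintype ι] [DecidableEq ι] (n d : ℕ) (hcard : Fintype.card ι = n + 1)
    (hn : 0 < n) (C₀ : ℝ) (hC₀ : 0 < C₀) : ∃ c : ℝ, 0 < c ∧ c ≤ 1 ∧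
    ∀ (M : ι → ℝ) (R δ l : ℝ) (L : Fin n → ι → ℝ), (∀ i, 0 < M i) → 1 ≤ R →
      (∏ i, M i) ^ 2 = R ^ (d * (n + 1)) → 0 ≤ δ → δ * R ^ d ≤ c → 0 < l → l ^ n * R ^ d = c →
      (∀ m i, |L m i| ≤ C₀) → ∃ g : ι → ℤ, g ≠ 0 ∧
        ∀ (x : ι → ℤ) (ρ τ : ℝ) (y : ι → ℝ), 0 ≤ ρ → ρ ≤ 1 → 0 ≤ τ → τ ≤ l →
          (∀ i, (x i : ℝ) = M i * (ρ * y i)) →
          (∀ i, |y i - ∑ m : Fin n, L m i * τ ^ (m : ℕ)| ≤ C₀ * (δ + τ ^ n)) →
          ∑ i, g i * x i = 0 := by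
  have hn' : (0 : ℝ) < n := by exact_mod_cast hn
  obtain ⟨k, hk⟩ : ∃ k : ℝ, k = (n : ℝ) + 1 := ⟨_, rfl⟩
  have hk0 : 0 < k := by rw [hk]; linarith
  have hcardR : (Fintype.card ι : ℝ) = k := by rw [hcard, hk]; push_cast; ring
  obtain ⟨c₁, hc₁⟩ : ∃ c₁ : ℝ, c₁ = 1 / (8 * k * C₀) := ⟨_, rfl⟩
  have hc₁0 : 0 < c₁ := by rw [hc₁]; positivity
  have hkc : k * C₀ * c₁ = 1 / 8 := by rw [hc₁]; field_simp
  obtain ⟨η, hη⟩ : ∃ η : ℝ, η = 1 / (4 * n) := ⟨_, rfl⟩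
  have hη0 : 0 < η := by rw [hη]; positivity
  have hnη : (n : ℝ) * η = 1 / 4 := by rw [hη]; field_simp
  obtain ⟨K₁, hK₁⟩ : ∃ K₁ : ℝ, K₁ = k * C₀ / η := ⟨_, rfl⟩
  have hK₁0 : 0 < K₁ := by rw [hK₁]; positivity
  obtain ⟨K₂, hK₂⟩ : ∃ K₂ : ℝ, K₂ = 1 / c₁ + K₁ := ⟨_, rfl⟩
  have hK₂0 : 0 < K₂ := by rw [hK₂]; positivity
  obtain ⟨c, hc⟩ : ∃ c : ℝ, c = min 1 (c₁ ^ 2 / (2 * K₂ ^ (2 * n))) := ⟨_, rfl⟩
  have hc0 : 0 < c := by rw [hc]; exact lt_min one_pos (by positivity)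
  have hc1 : c ≤ 1 := by rw [hc]; exact min_le_left _ _
  have hc2 : K₂ ^ (2 * n) * c ≤ c₁ ^ 2 / 2 := by
    have h1 : c ≤ c₁ ^ 2 / (2 * K₂ ^ (2 * n)) := by rw [hc]; exact min_le_right _ _
    have h2 : (0 : ℝ) < K₂ ^ (2 * n) := by positivity
    calc K₂ ^ (2 * n) * c ≤ K₂ ^ (2 * n) * (c₁ ^ 2 / (2 * K₂ ^ (2 * n))) :=
          mul_le_mul_of_nonneg_left h1 h2.le
      _ = c₁ ^ 2 / 2 := by field_simp
  have hc3 : K₂ ^ (2 * n) * (c ^ (n - 1) * c ^ 2) < c₁ ^ 2 := by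
    have h1 : c ^ (n - 1) * c ^ 2 ≤ c := by
      have e1 : c ^ (n - 1) ≤ 1 := pow_le_one₀ hc0.le hc1
      have e2 : c ^ 2 ≤ c := by nlinarith
      calc c ^ (n - 1) * c ^ 2 ≤ 1 * c := mul_le_mul e1 e2 (by positivity) zero_le_one
        _ = c := one_mul c
    have h2 : K₂ ^ (2 * n) * (c ^ (n - 1) * c ^ 2) ≤ K₂ ^ (2 * n) * c :=
      mul_le_mul_of_nonneg_left h1 (by positivity)
    have h3 : 0 < c₁ ^ 2 := by positivity
    linarith
  refine ⟨c, hc0, hc1, ?_⟩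
  intro M R δ l L hM hR hMR hδ hδR hl hlR hL
  have hR0 : 0 < R := by linarith
  have hRd : 0 < R ^ d := by positivity
  have hRd1 : 1 ≤ R ^ d := one_le_pow₀ hR
  obtain ⟨H, hH⟩ : ∃ H : ℝ, H = c₁ * R ^ d / c := ⟨_, rfl⟩
  have hH0 : 0 < H := by rw [hH]; positivity
  have hHl : H * l ^ n = c₁ := by
    rw [hH, div_mul_eq_mul_div, mul_assoc, mul_comm (R ^ d), hlR]
    field_simp
  have hHδ : H * δ ≤ c₁ := by
    rw [hH, div_mul_eq_mul_div, div_le_iff₀ hc0, mul_assoc, mul_comm (R ^ d)]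
    exact mul_le_mul_of_nonneg_left hδR hc₁0.le
  have hln : l ^ n ≤ 1 := by
    have h1 : l ^ n ≤ l ^ n * R ^ d := le_mul_of_one_le_right (by positivity) hRd1
    linarith
  have hl1 : l ≤ 1 := by
    by_contra hcon
    push Not at hcon
    have := one_lt_pow₀ hcon hn.ne'
    linarith
  have hlm : ∀ m : Fin n, 0 < l ^ (m : ℕ) := fun m => by positivity
  have hHlm : ∀ m : Fin n, c₁ ≤ H * l ^ (m : ℕ) := by
    intro m
    rw [← hHl]
    apply mul_le_mul_of_nonneg_left _ hH0.le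
    exact pow_le_pow_of_le_one hl.le hl1 m.2.le
  -- the condition of the box principle
  have hcond : ∏ m : Fin n, (1 + (Fintype.card ι : ℝ) * C₀ * H / (η / l ^ (m : ℕ))) <
      ∏ i, (H / M i) := by
    have hPM : 0 < ∏ i, M i := Finset.prod_pos fun i _ => hM i
    have step1 : ∏ m : Fin n, (1 + (Fintype.card ι : ℝ) * C₀ * H / (η / l ^ (m : ℕ))) ≤
        ∏ m : Fin n, (K₂ * H * l ^ (m : ℕ)) := by
      apply Finset.prod_le_prod
      · intro m _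
        have := hlm m
        rw [hcardR]
        positivity
      · intro m _
        have h1 := hHlm m
        have h2 := hlm m
        have e1 : (Fintype.card ι : ℝ) * C₀ * H / (η / l ^ (m : ℕ)) = K₁ * (H * l ^ (m : ℕ)) := by
          rw [hcardR, hK₁]
          field_simp
        rw [e1, hK₂]
        have e2 : (1 : ℝ) ≤ 1 / c₁ * (H * l ^ (m : ℕ)) := by
          rw [one_div, ← div_eq_inv_mul, le_div_iff₀ hc₁0]
          linarith
        calc 1 + K₁ * (H * l ^ (m : ℕ)) ≤ 1 / c₁ * (H * l ^ (m : ℕ)) + K₁ * (H * l ^ (m : ℕ)) := by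
              linarith
          _ = (1 / c₁ + K₁) * H * l ^ (m : ℕ) := by ring
    refine lt_of_le_of_lt step1 ?_
    have e3 : ∏ m : Fin n, (K₂ * H * l ^ (m : ℕ)) = K₂ ^ n * H ^ n * ∏ m : Fin n, l ^ (m : ℕ) := by
      rw [Finset.prod_mul_distrib, Finset.prod_const, Finset.card_univ, Fintype.card_fin, mul_pow]
    have e4 : ∏ i, (H / M i) = H ^ (n + 1) / ∏ i, M i := by
      rw [Finset.prod_div_distrib, Finset.prod_const, Finset.card_univ, hcard]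
    rw [e3, e4, lt_div_iff₀ hPM]
    have hP0 : 0 < ∏ m : Fin n, l ^ (m : ℕ) := Finset.prod_pos fun m _ => hlm m
    have key : K₂ ^ n * (∏ m : Fin n, l ^ (m : ℕ)) * ∏ i, M i < H := by
      apply lt_of_pow_lt_pow_left₀ 2 hH0.le
      have e5 : (l ^ n) ^ (n - 1) * R ^ (d * (n + 1)) = c ^ (n - 1) * (R ^ d) ^ 2 := by
        have e6 : R ^ (d * (n + 1)) = (R ^ d) ^ (n - 1) * (R ^ d) ^ 2 := by
          rw [← pow_add, pow_mul]
          congr 1
          omega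
        rw [e6, ← mul_assoc, ← mul_pow, hlR]
      have e7 : (K₂ ^ n * (∏ m : Fin n, l ^ (m : ℕ)) * ∏ i, M i) ^ 2 =
          K₂ ^ (2 * n) * (c ^ (n - 1) * (R ^ d) ^ 2) := by
        rw [mul_pow, mul_pow, prodsq, hMR, mul_assoc, e5, ← pow_mul, mul_comm n 2]
      have e8 : H ^ 2 = c₁ ^ 2 * (R ^ d) ^ 2 / c ^ 2 := by
        rw [hH, div_pow, mul_pow]
      rw [e7, e8, lt_div_iff₀ (by positivity)]
      calc K₂ ^ (2 * n) * (c ^ (n - 1) * (R ^ d) ^ 2) * c ^ 2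
          = K₂ ^ (2 * n) * (c ^ (n - 1) * c ^ 2) * (R ^ d) ^ 2 := by ring
        _ < c₁ ^ 2 * (R ^ d) ^ 2 := mul_lt_mul_of_pos_right hc3 (by positivity)
    calc K₂ ^ n * H ^ n * (∏ m : Fin n, l ^ (m : ℕ)) * ∏ i, M i
        = H ^ n * (K₂ ^ n * (∏ m : Fin n, l ^ (m : ℕ)) * ∏ i, M i) := by ring
      _ < H ^ n * H := mul_lt_mul_of_pos_left key (by positivity)
      _ = H ^ (n + 1) := (pow_succ H n).symm
  obtain ⟨g, hg0, hgM, hgL⟩ := box n M hM H C₀ hH0 hC₀ L hL (fun m => η / l ^ (m : ℕ))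
    (fun m => by have := hlm m; positivity) hcond
  refine ⟨g, hg0, ?_⟩
  intro x ρ τ y hρ0 hρ1 hτ0 hτl hx hy
  have hreal : |((∑ i, g i * x i : ℤ) : ℝ)| < 1 := by
    have e1 : ((∑ i, g i * x i : ℤ) : ℝ) = ρ * ∑ i, (g i : ℝ) * M i * y i := by
      push_cast
      rw [Finset.mul_sum]
      apply Finset.sum_congr rfl
      intro i _
      rw [hx i]
      ring
    have e2 : ∑ i, (g i : ℝ) * M i * y i =
        ∑ m : Fin n, τ ^ (m : ℕ) * ∑ i, (g i : ℝ) * M i * L m i +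
          ∑ i, (g i : ℝ) * M i * (y i - ∑ m : Fin n, L m i * τ ^ (m : ℕ)) := by
      have e3 : ∑ m : Fin n, τ ^ (m : ℕ) * ∑ i, (g i : ℝ) * M i * L m i =
          ∑ i, (g i : ℝ) * M i * ∑ m : Fin n, L m i * τ ^ (m : ℕ) := by
        simp_rw [Finset.mul_sum]
        rw [Finset.sum_comm]
        apply Finset.sum_congr rfl
        intro i _
        apply Finset.sum_congr rfl
        intro m _
        ring
      rw [e3, ← Finset.sum_add_distrib]
      apply Finset.sum_congr rfl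
      intro i _
      ring
    have b1 : |∑ m : Fin n, τ ^ (m : ℕ) * ∑ i, (g i : ℝ) * M i * L m i| ≤ 1 / 4 := by
      calc |∑ m : Fin n, τ ^ (m : ℕ) * ∑ i, (g i : ℝ) * M i * L m i|
          ≤ ∑ m : Fin n, |τ ^ (m : ℕ) * ∑ i, (g i : ℝ) * M i * L m i| :=
            Finset.abs_sum_le_sum_abs _ _
        _ ≤ ∑ m : Fin n, η := by
            apply Finset.sum_le_sum
            intro m _
            rw [abs_mul, abs_of_nonneg (pow_nonneg hτ0 _)]
            have h1 := hgL m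
            have h2 := hlm m
            calc τ ^ (m : ℕ) * |∑ i, (g i : ℝ) * M i * L m i|
                ≤ l ^ (m : ℕ) * (η / l ^ (m : ℕ)) :=
                  mul_le_mul (pow_le_pow_left₀ hτ0 hτl _) h1 (abs_nonneg _) h2.le
              _ = η := by field_simp
        _ = 1 / 4 := by
            rw [Finset.sum_const, Finset.card_univ, Fintype.card_fin, nsmul_eq_mul, hnη]
    have b2 : |∑ i, (g i : ℝ) * M i * (y i - ∑ m : Fin n, L m i * τ ^ (m : ℕ))| ≤ 1 / 4 := by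
      have hτn : τ ^ n ≤ l ^ n := pow_le_pow_left₀ hτ0 hτl _
      calc |∑ i, (g i : ℝ) * M i * (y i - ∑ m : Fin n, L m i * τ ^ (m : ℕ))|
          ≤ ∑ i, |(g i : ℝ) * M i * (y i - ∑ m : Fin n, L m i * τ ^ (m : ℕ))| :=
            Finset.abs_sum_le_sum_abs _ _
        _ ≤ ∑ _i : ι, H * (C₀ * (δ + l ^ n)) := by
            apply Finset.sum_le_sum
            intro i _
            rw [abs_mul, abs_mul, abs_of_pos (hM i)]
            refine mul_le_mul (hgM i) ((hy i).trans ?_) (abs_nonneg _) hH0.le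
            exact mul_le_mul_of_nonneg_left (by linarith) hC₀.le
        _ = k * (H * (C₀ * (δ + l ^ n))) := by
            rw [Finset.sum_const, Finset.card_univ, nsmul_eq_mul, hcardR]
        _ = k * C₀ * (H * δ + H * l ^ n) := by ring
        _ ≤ k * C₀ * (c₁ + c₁) := by
            apply mul_le_mul_of_nonneg_left _ (by positivity)
            rw [hHl]
            linarith
        _ = 1 / 4 := by linarith
    rw [e1, abs_mul, abs_of_nonneg hρ0, e2]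
    have b3 := abs_add_le (∑ m : Fin n, τ ^ (m : ℕ) * ∑ i, (g i : ℝ) * M i * L m i)
      (∑ i, (g i : ℝ) * M i * (y i - ∑ m : Fin n, L m i * τ ^ (m : ℕ)))
    calc ρ * |∑ m : Fin n, τ ^ (m : ℕ) * ∑ i, (g i : ℝ) * M i * L m i +
          ∑ i, (g i : ℝ) * M i * (y i - ∑ m : Fin n, L m i * τ ^ (m : ℕ))|
        ≤ 1 * (1 / 4 + 1 / 4) := mul_le_mul hρ1 (by linarith) (abs_nonneg _) zero_le_one
      _ < 1 := by norm_num
  rw [← Int.cast_abs] at hreal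
  have h3 : |∑ i, g i * x i| < 1 := by exact_mod_cast hreal
  exact Int.abs_lt_one_iff.mp h3

end Pool.Agent.PWG
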