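import Pool.Agent.PWG.Van
import Pool.Agent.PWG.Mono
import Pool.Agent.PWG.ExI

set_option autoImplicit false

/-!
# PWG-Win: one polynomial vanishes at all points of a window (job PWG-Win)

Plan. `n = (d+1)^2 - 1 >= 1`, `ι = Fin (d+1) × Fin (d+1)`. Let `C0` be the constant of `mono w d n`, `cv` that of
`van n d _ _ C0`, and `c = min (1/2) (cv / 32^n * 32^(-n)...)` small enough for: `c <= cv / 1024^n`, `c <= 1/2`.
If `S` is empty take any `g ≠ 0`. `R = A A' (V V') >= 1`, so `δ <= c`, `l^n <= c` and `l <= 1/1024`.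
Let `l1 > 0` with `l1^n R^d = cv`, i.e. `l1 = (cv / R^d)^(1/n)`; `32 l <= l1` because
`(32 l)^n R^d <= 32^n c <= cv`. Let `u1 = max u (1/32)` (`<= 32` as some `tt` is in the window and `tt <= 32` by
`norm_pt`); for `q ∈ S`, `u1 <= tt q <= u1 + l <= 2 u1`. Take `L` from `mono` at `u1`, `M = MM A A' V V'` and `g` from
`van` with `l1` (`prod_MM`). For `q ∈ S`: `x i = mon q i`, `ρ = (a'/A')^d (v'/V')^d ∈ [0, 1]`,
`τ = (tt - u1)/u1 <= 32 l <= l1`, `y i = tt^i1 ss^i2` (`mon_eq`).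
-/

namespace Pool.Agent.PWG

theorem win (w d : ℕ) (hw : 1 ≤ w) (hd : 1 ≤ d) : ∃ c : ℝ, 0 < c ∧ c ≤ 1 / 2 ∧
    ∀ (A A' V V' κ δ l u : ℝ) (S : Finset Q4), 1 ≤ A → 1 ≤ A' → 1 ≤ V → 1 ≤ V' → 0 < κ → 0 ≤ δ →
      δ * (A * A' * (V * V')) ^ d ≤ c → 0 ≤ l →
      l ^ ((d + 1) ^ 2 - 1) * (A * A' * (V * V')) ^ d ≤ c →
      (∀ q ∈ S, Blk A A' V V' q ∧ Nr w κ δ q ∧ u ≤ tt A A' q ∧ tt A A' q ≤ u + l) →
      ∃ g : Fin (d + 1) × Fin (d + 1) → ℤ, g ≠ 0 ∧ ∀ q ∈ S, ∑ i, g i * mon q i = 0 := by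
  classical
  obtain ⟨n, hn⟩ : ∃ n : ℕ, n = (d + 1) ^ 2 - 1 := ⟨_, rfl⟩
  have hsq : 4 ≤ (d + 1) ^ 2 := by nlinarith
  have hn1 : n + 1 = (d + 1) ^ 2 := by omega
  have hnpos : 0 < n := by omega
  have hcard : Fintype.card (Fin (d + 1) × Fin (d + 1)) = n + 1 := by
    rw [Fintype.card_prod, Fintype.card_fin, hn1]
    ring
  obtain ⟨C0, hC0, hmono⟩ := mono w d n hw
  obtain ⟨cv, hcv0, hcv1, hvan⟩ := van (ι := Fin (d + 1) × Fin (d + 1)) n d hcard hnpos C0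
    (by linarith)
  have h1024 : (0 : ℝ) < 1024 ^ n := by positivity
  refine ⟨min (1 / 2) (cv / 1024 ^ n), lt_min (by norm_num) (by positivity), min_le_left _ _, ?_⟩
  intro A A' V V' κ δ l u S hA hA' hV hV' hκ hδ hδc hl hlc hS
  rw [← hn] at hlc
  set c := min (1 / 2 : ℝ) (cv / 1024 ^ n) with hc
  have hc1 : c ≤ 1 / 2 := min_le_left _ _
  have hc2 : c ≤ cv / 1024 ^ n := min_le_right _ _
  have hc3 : 1024 ^ n * c ≤ cv := by
    rw [le_div_iff₀ h1024] at hc2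
    linarith
  have hc0 : 0 < c := lt_min (by norm_num) (by positivity)
  set R : ℝ := A * A' * (V * V') with hR
  have hR1 : 1 ≤ R := by
    have h1 : 1 ≤ A * A' := one_le_mul_of_one_le_of_one_le hA hA'
    have h2 : 1 ≤ V * V' := one_le_mul_of_one_le_of_one_le hV hV'
    exact one_le_mul_of_one_le_of_one_le h1 h2
  have hRd : 1 ≤ R ^ d := one_le_pow₀ hR1
  have hRd0 : 0 < R ^ d := by linarith
  rcases S.eq_empty_or_nonempty with hSe | ⟨q0, hq0⟩
  · refine ⟨fun _ => 1, ?_, ?_⟩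
    · intro h
      have := congrFun h (0, 0)
      simp at this
    · intro q hq
      rw [hSe] at hq
      simp at hq
  have hcle : c ≤ 1024 ^ n * c := by
    have : (1 : ℝ) ≤ 1024 ^ n := one_le_pow₀ (by norm_num)
    nlinarith
  have hδcv : δ * R ^ d ≤ cv := by linarith
  have hδ2 : δ ≤ 1 / 2 := by
    have : δ ≤ δ * R ^ d := le_mul_of_one_le_right hδ hRd
    linarith
  have hln : l ^ n ≤ c := by
    have : l ^ n ≤ l ^ n * R ^ d := le_mul_of_one_le_right (by positivity) hRd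
    linarith
  have hl1024 : l ≤ 1 / 1024 := by
    by_contra hcon
    push Not at hcon
    have h1 : (1 / 1024 : ℝ) ^ n < l ^ n := pow_lt_pow_left₀ hcon (by norm_num) hnpos.ne'
    have h2 : (1 / 1024 : ℝ) ^ n = 1 / 1024 ^ n := by rw [div_pow, one_pow]
    have h3 : cv / 1024 ^ n ≤ 1 / 1024 ^ n := by gcongr
    linarith
  have hq : 0 < cv / R ^ d := by positivity
  set l1 : ℝ := (cv / R ^ d) ^ ((n : ℝ)⁻¹) with hl1
  have hl1pos : 0 < l1 := Real.rpow_pos_of_pos hq _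
  have hl1n : l1 ^ n = cv / R ^ d := Real.rpow_inv_natCast_pow hq.le hnpos.ne'
  have hl1n' : l1 ^ n * R ^ d = cv := by
    rw [hl1n]
    field_simp
  have h32 : 32 * l ≤ l1 := by
    by_contra hcon
    push Not at hcon
    have h1 : l1 ^ n < (32 * l) ^ n := pow_lt_pow_left₀ hcon hl1pos.le hnpos.ne'
    have h2 : (32 * l) ^ n = 32 ^ n * l ^ n := mul_pow _ _ _
    have h3 : (32 * l) ^ n * R ^ d ≤ 32 ^ n * c := by
      rw [h2, mul_assoc]
      exact mul_le_mul_of_nonneg_left hlc (by positivity)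
    have h4 : (32 : ℝ) ^ n * c ≤ 1024 ^ n * c := by
      apply mul_le_mul_of_nonneg_right _ hc0.le
      exact pow_le_pow_left₀ (by norm_num) (by norm_num) n
    have h5 : l1 ^ n * R ^ d < (32 * l) ^ n * R ^ d := mul_lt_mul_of_pos_right h1 hRd0
    linarith
  obtain ⟨Cn, hCn, hnorm⟩ := norm_pt w 0 hw
  have hpt : ∀ q ∈ S, 1 / 32 ≤ tt A A' q ∧ tt A A' q ≤ 32 := by
    intro q hq
    have h := hS q hq
    have h2 := hnorm A A' V V' κ δ q hA hA' hV hV' hκ hδ hδ2 h.1 h.2.1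
    exact ⟨h2.1, h2.2.1⟩
  set u1 : ℝ := max u (1 / 32) with hu1
  have hu1a : 1 / 32 ≤ u1 := le_max_right _ _
  have hu1b : u1 ≤ 32 := by
    apply max_le _ (by norm_num)
    exact le_trans (hS q0 hq0).2.2.1 (hpt q0 hq0).2
  have hu1c : ∀ q ∈ S, u1 ≤ tt A A' q := fun q hq => max_le (hS q hq).2.2.1 (hpt q hq).1
  have hu1d : ∀ q ∈ S, tt A A' q ≤ u1 + l := by
    intro q hq
    have h1 := (hS q hq).2.2.2
    have h2 : u ≤ u1 := le_max_left _ _
    linarith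
  have hu1e : ∀ q ∈ S, tt A A' q ≤ 2 * u1 := by
    intro q hq
    have := hu1d q hq
    linarith
  have hu10 : 0 < u1 := by linarith
  obtain ⟨L, hL1, hL2⟩ := hmono A A' V V' κ δ u1 S hA hA' hV hV' hκ hδ hδ2 hu1a hu1b
    (fun q hq => ⟨(hS q hq).1, (hS q hq).2.1, hu1c q hq, hu1e q hq⟩)
  have hA0 : 0 < A := by linarith
  have hA'0 : 0 < A' := by linarith
  have hV0 : 0 < V := by linarith
  have hV'0 : 0 < V' := by linarith
  obtain ⟨g, hg0, hg⟩ := hvan (fun i => MM A A' V V' i) R δ l1 L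
    (fun i => MM_pos hA0 hA'0 hV0 hV'0 i) hR1 (by rw [prod_MM, hn1]) hδ hδcv hl1pos hl1n' hL1
  refine ⟨g, hg0, ?_⟩
  intro q hq
  obtain ⟨hb, -, -, -⟩ := hS q hq
  have hp1 : (0 : ℝ) < q.1.2 := by
    have := hb.b0
    linarith
  have hp2 : (0 : ℝ) < q.2.2 := by
    have := hb.w0
    linarith
  have hr1 : (q.1.2 : ℝ) / A' ≤ 1 := by
    rw [div_le_one hA'0]
    exact hb.b1
  have hr2 : (q.2.2 : ℝ) / V' ≤ 1 := by
    rw [div_le_one hV'0]
    exact hb.w1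
  refine hg (fun i => mon q i) (((q.1.2 : ℝ) / A') ^ d * ((q.2.2 : ℝ) / V') ^ d)
    ((tt A A' q - u1) / u1) (fun i => tt A A' q ^ (i.1 : ℕ) * ss V V' q ^ (i.2 : ℕ))
    (by positivity) ?_ ?_ ?_ ?_ ?_
  · apply mul_le_one₀
    · exact pow_le_one₀ (by positivity) hr1
    · positivity
    · exact pow_le_one₀ (by positivity) hr2
  · apply div_nonneg _ hu10.le
    have := hu1c q hq
    linarith
  · rw [div_le_iff₀ hu10]
    have h1 := hu1d q hq
    have h2 : l ≤ l1 * u1 := by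
      have : 32 * l * (1 / 32) ≤ l1 * u1 := mul_le_mul h32 hu1a (by norm_num) hl1pos.le
      linarith
    linarith
  · intro i
    exact mon_eq hA0 hA'0 hV0 hV'0 q (by exact_mod_cast hp1) (by exact_mod_cast hp2) i
  · intro i
    exact hL2 q hq i

end Pool.Agent.PWG
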